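import Pool.Agent.Lib.MP_31f1e8_mp.KLC.Thr

/-!
# KLC-Eta: the continuants `eta B q n = th (B (n + ·)) (q - n)` read from the right end.

PROOFS.
* `eta_eq`: `si_th` with `k = q - n`: `eta B q n = si B n * th B q - si B q * th B n` for `n ≤ q`. `eta_zero`: `eta B q 0 = th B q`. `eta_q`, `eta_pred`: values at `q`, `q - 1`.
* `eta_rec`: from `eta_eq` and the recursions of `si`, `th` (`n + 2 ≤ q`).
* `eta_step`: downward induction on `n` (write `n = q - k`): `‖eta (n+1)‖ ≤ ‖eta n‖` (`n = q - 1`: `0 ≤ 1`), triangle inequality in `eta (n-1) = B n * eta n - eta (n+1)`.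
* `eta_one_le`: from `eta_step` with `‖B n‖ ≥ 2`, `eta (q-1) = 1`.
* `eta_dec`, `eta_inc`: iterate `eta_step`.
* `eta_ratio`: `th_ratio_two` for the shifted sequences (`1 ≤ k < q - n`, index `n + k`), the sum over `Ico 1 (q - n)` of `‖B (n+k) - B' (n+k)‖` is at most the full sum
  (`Finset.sum_le_sum_of_subset` after reindexing `Finset.sum_Ico_add`).
-/

namespace Pool.Agent.MP31f1e8.KLC

open Set

/-- continuant from the right -/
def eta {K : Type*} [CommRing K] (B : ℕ → K) (q n : ℕ) : K := th (fun j => B (n + j)) (q - n)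

section Ring

variable {K : Type*} [CommRing K]

theorem eta_eq (B : ℕ → K) {q n : ℕ} (hn : n ≤ q) : eta B q n = si B n * th B q - si B q * th B n := by
  unfold eta
  have h := si_th B n (q - n)
  rw [Nat.add_sub_cancel' hn] at h
  exact h.symm

theorem eta_zero (B : ℕ → K) (q : ℕ) : eta B q 0 = th B q := by
  unfold eta
  rw [Nat.sub_zero]
  congr 1
  funext j
  rw [Nat.zero_add]

theorem eta_self (B : ℕ → K) (q : ℕ) : eta B q q = 0 := by
  unfold eta
  rw [Nat.sub_self]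
  rfl

theorem eta_pred (B : ℕ → K) {q : ℕ} (hq : 1 ≤ q) : eta B q (q - 1) = 1 := by
  unfold eta
  rw [show q - (q - 1) = 1 by omega]
  rfl

theorem eta_one (B : ℕ → K) {q : ℕ} (hq : 1 ≤ q) : eta B q 1 = -si B q := by
  rw [eta_eq B hq]
  show (0 : K) * th B q - si B q * 1 = -si B q
  ring

theorem eta_rec (B : ℕ → K) {q n : ℕ} (hn : n + 2 ≤ q) : eta B q n + eta B q (n + 2) = B (n + 1) * eta B q (n + 1) := by
  rw [eta_eq B (by omega), eta_eq B hn, eta_eq B (by omega)]
  have h1 : si B (n + 2) = B (n + 1) * si B (n + 1) - si B n := rfl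
  have h2 : th B (n + 2) = B (n + 1) * th B (n + 1) - th B n := rfl
  rw [h1, h2]
  ring

end Ring

section Field

variable {K : Type*} [NormedField K]

theorem eta_step {B : ℕ → K} {q : ℕ} (h : ∀ n, 1 ≤ n → n < q → 2 ≤ ‖B n‖) : ∀ n, n + 1 < q →
    (‖B (n + 1)‖ - 1) * ‖eta B q (n + 1)‖ ≤ ‖eta B q n‖ ∧ ‖eta B q n‖ ≤ (‖B (n + 1)‖ + 1) * ‖eta B q (n + 1)‖ := by
  -- downward induction
  have hmono : ∀ k, ∀ n, n + 1 + k = q → ‖eta B q (n + 1)‖ ≤ ‖eta B q n‖ := by
    intro k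
    induction k with
    | zero =>
      intro n hn
      have h1 : q - 1 = n := by omega
      have h2 : eta B q (n + 1) = 0 := by
        have := eta_self B q
        rwa [show q = n + 1 by omega] at this ⊢
      rw [h2, norm_zero]
      exact norm_nonneg _
    | succ k ih =>
      intro n hn
      have h1 := ih (n + 1) (by omega)
      have h2 := eta_rec B (q := q) (n := n) (by omega)
      have h3 : eta B q n = B (n + 1) * eta B q (n + 1) - eta B q (n + 2) := by rw [← h2]; ring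
      have h4 : ‖B (n + 1)‖ * ‖eta B q (n + 1)‖ - ‖eta B q (n + 2)‖ ≤ ‖eta B q n‖ := by
        rw [h3, ← norm_mul]
        exact norm_sub_norm_le _ _
      have h5 := h (n + 1) (by omega) (by omega)
      nlinarith [norm_nonneg (eta B q (n + 1))]
  intro n hn
  have h1 := hmono (q - (n + 2)) (n + 1) (by omega)
  have h2 := eta_rec B (q := q) (n := n) (by omega)
  have h3 : eta B q n = B (n + 1) * eta B q (n + 1) - eta B q (n + 2) := by rw [← h2]; ring
  constructor
  · have h4 : ‖B (n + 1)‖ * ‖eta B q (n + 1)‖ - ‖eta B q (n + 2)‖ ≤ ‖eta B q n‖ := by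
      rw [h3, ← norm_mul]
      exact norm_sub_norm_le _ _
    linarith
  · have h4 : ‖eta B q n‖ ≤ ‖B (n + 1)‖ * ‖eta B q (n + 1)‖ + ‖eta B q (n + 2)‖ := by
      rw [h3, ← norm_mul]
      exact norm_sub_le _ _
    linarith

theorem eta_one_le {B : ℕ → K} {q : ℕ} (h : ∀ n, 1 ≤ n → n < q → 2 ≤ ‖B n‖) : ∀ n, n < q → 1 ≤ ‖eta B q n‖ := by
  have key : ∀ k, ∀ n, n + 1 + k = q → 1 ≤ ‖eta B q n‖ := by
    intro k
    induction k with
    | zero =>
      intro n hn
      have h1 : eta B q n = 1 := by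
        have := eta_pred B (q := q) (by omega)
        rwa [show q - 1 = n by omega] at this
      rw [h1, norm_one]
    | succ k ih =>
      intro n hn
      have h1 := ih (n + 1) (by omega)
      have h2 := (eta_step h n (by omega)).1
      have h3 := h (n + 1) (by omega) (by omega)
      nlinarith
  intro n hn
  exact key (q - (n + 1)) n (by omega)

/-- decay to the right -/
theorem eta_dec {B : ℕ → K} {q : ℕ} {β : ℝ} (hβ : 2 ≤ β) (h : ∀ n, 1 ≤ n → n < q → β ≤ ‖B n‖) {w n : ℕ} (h1 : w ≤ n) (h2 : n ≤ q) :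
    ‖eta B q n‖ ≤ (1 / (β - 1)) ^ (n - w) * ‖eta B q w‖ := by
  have hB2 : ∀ n, 1 ≤ n → n < q → 2 ≤ ‖B n‖ := fun n h1 h2 => hβ.trans (h n h1 h2)
  have hb : 0 < β - 1 := by linarith
  obtain ⟨k, rfl⟩ := Nat.exists_eq_add_of_le h1
  rw [Nat.add_sub_cancel_left]
  clear h1
  induction k with
  | zero => simp
  | succ k ih =>
    have h3 := ih (by omega)
    have h5 : ‖eta B q (w + (k + 1))‖ ≤ 1 / (β - 1) * ‖eta B q (w + k)‖ := by
      rcases Nat.lt_or_ge (w + k + 1) q with hlt | hge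
      · have h4 := (eta_step hB2 (w + k) hlt).1
        have h6 := h (w + k + 1) (by omega) hlt
        rw [show w + (k + 1) = w + k + 1 by omega, one_div, ← div_eq_inv_mul, le_div_iff₀ hb]
        nlinarith [norm_nonneg (eta B q (w + k + 1))]
      · have : eta B q (w + (k + 1)) = 0 := by
          have h7 := eta_self B q
          rwa [show w + (k + 1) = q by omega]
        rw [this, norm_zero]
        positivity
    calc ‖eta B q (w + (k + 1))‖ ≤ 1 / (β - 1) * ‖eta B q (w + k)‖ := h5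
      _ ≤ 1 / (β - 1) * ((1 / (β - 1)) ^ k * ‖eta B q w‖) := by
          have : 0 ≤ 1 / (β - 1) := by positivity
          exact mul_le_mul_of_nonneg_left h3 this
      _ = (1 / (β - 1)) ^ (k + 1) * ‖eta B q w‖ := by ring

/-- growth to the left -/
theorem eta_inc {B : ℕ → K} {q : ℕ} {b : ℝ} (h : ∀ n, 1 ≤ n → n < q → 2 ≤ ‖B n‖) (h' : ∀ n, 1 ≤ n → n < q → ‖B n‖ ≤ b) {w n : ℕ}
    (h1 : n ≤ w) (h2 : w < q) : ‖eta B q n‖ ≤ (b + 1) ^ (w - n) * ‖eta B q w‖ := by
  obtain ⟨k, rfl⟩ := Nat.exists_eq_add_of_le h1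
  rw [Nat.add_sub_cancel_left]
  clear h1
  induction k with
  | zero => simp
  | succ k ih =>
    have h3 := ih (by omega)
    have h4 := (eta_step h (n + k) (by omega)).2
    have h6 := h' (n + k + 1) (by omega) (by omega)
    have hb : 0 ≤ b + 1 := by
      have := norm_nonneg (B (n + k + 1))
      linarith
    calc ‖eta B q n‖ ≤ (b + 1) ^ k * ‖eta B q (n + k)‖ := h3
      _ ≤ (b + 1) ^ k * ((b + 1) * ‖eta B q (n + k + 1)‖) := by
          refine mul_le_mul_of_nonneg_left (h4.trans ?_) (by positivity)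
          exact mul_le_mul_of_nonneg_right (by linarith) (norm_nonneg _)
      _ = (b + 1) ^ (k + 1) * ‖eta B q (n + (k + 1))‖ := by
          rw [show n + (k + 1) = n + k + 1 by omega]
          ring

theorem th_dec {B : ℕ → K} {q : ℕ} {β : ℝ} (hβ : 2 ≤ β) (h : ∀ n, 1 ≤ n → n < q → β ≤ ‖B n‖) {n : ℕ} (h2 : n ≤ q) :
    ‖th B n‖ ≤ (1 / (β - 1)) ^ (q - n) * ‖th B q‖ := by
  have hB2 : ∀ n, 1 ≤ n → n < q → 2 ≤ ‖B n‖ := fun n h1 h2 => hβ.trans (h n h1 h2)
  have hb : 0 < β - 1 := by linarith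
  obtain ⟨k, rfl⟩ := Nat.exists_eq_add_of_le h2
  rw [Nat.add_sub_cancel_left]
  rcases Nat.eq_zero_or_pos n with rfl | hn
  · have : th B 0 = 0 := rfl
    rw [this, norm_zero]
    positivity
  clear h2
  induction k with
  | zero => simp
  | succ k ih =>
    have h3 := ih (fun m h1 h2 => h m h1 (by omega)) (fun m h1 h2 => hB2 m h1 (by omega))
    have h4 := (th_step hB2 (n + k) (by omega) (by omega)).1
    have h6 := h (n + k) (by omega) (by omega)
    have h5 : ‖th B (n + k)‖ ≤ 1 / (β - 1) * ‖th B (n + (k + 1))‖ := by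
      rw [one_div, ← div_eq_inv_mul, le_div_iff₀ hb, show n + (k + 1) = n + k + 1 by omega]
      nlinarith [norm_nonneg (th B (n + k))]
    calc ‖th B n‖ ≤ (1 / (β - 1)) ^ k * ‖th B (n + k)‖ := h3
      _ ≤ (1 / (β - 1)) ^ k * (1 / (β - 1) * ‖th B (n + (k + 1))‖) := by
          exact mul_le_mul_of_nonneg_left h5 (by positivity)
      _ = (1 / (β - 1)) ^ (k + 1) * ‖th B (n + (k + 1))‖ := by ring

theorem eta_ratio {B B' : ℕ → K} {q : ℕ} {β S : ℝ} (hβ : 4 ≤ β) (hB : ∀ n, 1 ≤ n → n < q → β ≤ ‖B n‖)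
    (hB' : ∀ n, 1 ≤ n → n < q → β ≤ ‖B' n‖) (hS : ∑ n ∈ Finset.Ico 1 q, ‖B n - B' n‖ ≤ S) (hS1 : 4 / β * S ≤ 1) {n : ℕ} (hn : n < q) :
    ‖eta B q n / eta B' q n - 1‖ ≤ 8 / β * S := by
  unfold eta
  have hsum : ∑ k ∈ Finset.Ico 1 (q - n), ‖B (n + k) - B' (n + k)‖ ≤ S := by
    refine le_trans ?_ hS
    rw [Finset.sum_Ico_add (fun k => ‖B k - B' k‖) 1 (q - n) n]
    refine Finset.sum_le_sum_of_subset_of_nonneg ?_ (fun _ _ _ => norm_nonneg _)
    intro k hk
    rw [Finset.mem_Ico] at hk ⊢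
    omega
  exact th_ratio_two hβ (by omega) (fun k h1 h2 => hB (n + k) (by omega) (by omega))
    (fun k h1 h2 => hB' (n + k) (by omega) (by omega)) hsum hS1

end Field

end Pool.Agent.MP31f1e8.KLC
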