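import Pool.Agent.Lib.MP_31f1e8_mp.KLC.Hol2
import Pool.Agent.Lib.MP_31f1e8_mp.KLC.Eta

/-!
# KLC-Bnd: size and variation of `ep`, `eL`, `eR`.

Here `β = lam / 22` is the lower bound of all coefficients (`AA_lower`, `coef_sol`), `lam ≥ 9 * 10^7` (`lam_large`), `β - 1 ≥ lam / 25`.
PROOFS.
* `ep_upper`: `‖th AA q‖ ≥ (β - 1)^(q-1)` (`th_pow_le`). `eL_upper`: `eL = eta AA q 1 / th AA q` (`eta_one`), `‖eta 1‖ ≤ (1/(β-1)) ‖eta 0‖` (`eta_dec`, `eta_zero`); `eR_upper`: `th_dec` with `n = q - 1`.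
* `sum_AA`: `‖AA_n - AA'_n‖ ≤ lam (6/5) ‖x_n - x'_n‖ ≤ lam (6/5) ((44/lam)^n ‖X - Y‖ + (44/lam)^(q-n) ‖X' - Y'‖)` (`cos_lip`, `sol_lip`), geometric sums: total `≤ 60 (‖X - Y‖ + ‖X' - Y'‖)`
  (`∑_{n≥1} (44/lam)^n ≤ 44/lam * 1.001`, `(6/5) 44 1.001 ≤ 53`).
* `ep_ratio`: `ep X X' / ep Y Y' = th AA' q / th AA q`; `th_ratio_two` with `S = 60 (…) ≤ 120`: `8/β * 60 = 10560/lam`.
* `eLR_lip`: `eL = eta 1 / th q`; `a/b - a'/b' = (a'/b') ((a/a') (b'/b) - 1)`, both quotients are `1 + O(10560/lam (…))` (`eta_ratio`, `th_ratio_two`), `|a'/b'| ≤ 25/lam`; crude bound. Same for `eR = th (q-1)/th q`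
  (`th_ratio_two` with `q - 1` in place of `q`; if `q = 2` the numerator is `1`), `ep`.
-/

namespace Pool.Agent.MP31f1e8.KLC

open Set

private theorem Bnd_beta {D : Dat} {lam1 lam : ℝ} (h : Ref D lam1) (hl : |lam - lam1| ≤ 1) :
    9 * 10 ^ 7 ≤ lam ∧ 0 < lam ∧ 4 ≤ lam / 22 ∧ lam / 25 ≤ lam / 22 - 1 := by
  have h1 := lam_large h hl
  refine ⟨h1, by linarith, by linarith, by linarith⟩

private theorem Bnd_inv {D : Dat} {lam1 lam : ℝ} (h : Ref D lam1) (hl : |lam - lam1| ≤ 1) :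
    1 / (lam / 22 - 1) ≤ 25 / lam := by
  obtain ⟨h1, h2, h3, h4⟩ := Bnd_beta h hl
  rw [div_le_div_iff₀ (by linarith) h2]
  linarith

private theorem Bnd_geom {r : ℝ} (m : ℕ) :
    (1 - r) * ∑ n ∈ Finset.Ico 1 (m + 1), r ^ n = r - r ^ (m + 1) := by
  induction m with
  | zero => simp
  | succ m ih =>
    rw [Finset.sum_Ico_succ_top (by omega), mul_add, ih]
    ring

private theorem Bnd_geom_le {r : ℝ} (h0 : 0 ≤ r) (h1 : r ≤ 1 / 1000) (q : ℕ) :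
    ∑ n ∈ Finset.Ico 1 q, r ^ n ≤ 1001 / 1000 * r + r / 1000 := by
  rcases Nat.eq_zero_or_pos q with hq | hq
  · subst hq
    simp
    positivity
  · obtain ⟨m, rfl⟩ : ∃ m, q = m + 1 := ⟨q - 1, by omega⟩
    have h2 := Bnd_geom (r := r) m
    have h3 : 0 ≤ r ^ (m + 1) := by positivity
    have h4 : 0 ≤ ∑ n ∈ Finset.Ico 1 (m + 1), r ^ n := Finset.sum_nonneg fun n _ => by positivity
    have h5 : (1 - 1 / 1000) * ∑ n ∈ Finset.Ico 1 (m + 1), r ^ n ≤ r := by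
      have h6 : (1 - 1 / 1000) * ∑ n ∈ Finset.Ico 1 (m + 1), r ^ n ≤
          (1 - r) * ∑ n ∈ Finset.Ico 1 (m + 1), r ^ n :=
        mul_le_mul_of_nonneg_right (by linarith) h4
      linarith
    linarith

private theorem Bnd_reflect {r : ℝ} (q : ℕ) :
    ∑ n ∈ Finset.Ico 1 q, r ^ (q - n) = ∑ n ∈ Finset.Ico 1 q, r ^ n := by
  refine Finset.sum_nbij' (fun n => q - n) (fun n => q - n) ?_ ?_ ?_ ?_ ?_
  · intro n hn
    rw [Finset.mem_Ico] at hn ⊢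
    omega
  · intro n hn
    rw [Finset.mem_Ico] at hn ⊢
    omega
  · intro n hn
    rw [Finset.mem_Ico] at hn
    omega
  · intro n hn
    rw [Finset.mem_Ico] at hn
    omega
  · intro n _
    rfl

private theorem Bnd_im {D : Dat} {lam1 lam : ℝ} (h : Ref D lam1) (hl : |lam - lam1| ≤ 1) {X X' : ℂ}
    (hb : Bd D X X') {n : ℕ} (h1 : 1 ≤ n) (h2 : n < D.q) : |(sol D lam X X' n).im| ≤ 1 / 2 := by
  have h3 := (sol_spec h hl hb).near n h1 h2
  have h4 := Complex.abs_im_le_norm (sol D lam X X' n - D.xi n)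
  rw [Complex.sub_im, Complex.ofReal_im, sub_zero] at h4
  linarith

private theorem Bnd_delta {D : Dat} {X X' Y Y' : ℂ} (hb : Bd D X X') (hb' : Bd D Y Y') :
    0 ≤ ‖X - Y‖ + ‖X' - Y'‖ ∧ ‖X - Y‖ + ‖X' - Y'‖ ≤ 2 := by
  refine ⟨by positivity, ?_⟩
  have h1 : ‖X - Y‖ ≤ 1 := by
    have e : X - Y = (X - D.xi 0) - (Y - D.xi 0) := by ring
    rw [e]
    have := norm_sub_le (X - D.xi 0) (Y - D.xi 0)
    have a := hb.1
    have b := hb'.1
    linarith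
  have h2 : ‖X' - Y'‖ ≤ 1 := by
    have e : X' - Y' = (X' - D.xi D.q) - (Y' - D.xi D.q) := by ring
    rw [e]
    have := norm_sub_le (X' - D.xi D.q) (Y' - D.xi D.q)
    have a := hb.2
    have b := hb'.2
    linarith
  linarith

private theorem Bnd_quot {a b a' b' : ℂ} {ρ δ : ℝ} (ha' : a' ≠ 0) (hb : b ≠ 0) (hb' : b' ≠ 0)
    (h1 : ‖a / a' - 1‖ ≤ ρ) (h2 : ‖b' / b - 1‖ ≤ ρ) (h3 : ‖a' / b'‖ ≤ 1) (hρ : ρ ≤ 1)
    (hδ : 3 * ρ ≤ δ) : ‖a / b - a' / b'‖ ≤ δ := by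
  have e : a / b - a' / b' =
      a' / b' * ((a / a' - 1) + (b' / b - 1) + (a / a' - 1) * (b' / b - 1)) := by
    field_simp
    ring
  have h0 : 0 ≤ ρ := (norm_nonneg _).trans h1
  have h4 : ‖(a / a' - 1) + (b' / b - 1) + (a / a' - 1) * (b' / b - 1)‖ ≤ 3 * ρ := by
    have h5 := norm_add_le ((a / a' - 1) + (b' / b - 1)) ((a / a' - 1) * (b' / b - 1))
    have h6 := norm_add_le (a / a' - 1) (b' / b - 1)
    have h7 : ‖(a / a' - 1) * (b' / b - 1)‖ ≤ ρ * 1 := by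
      rw [norm_mul]
      exact mul_le_mul h1 (h2.trans hρ) (norm_nonneg _) h0
    linarith
  rw [e, norm_mul]
  calc ‖a' / b'‖ * ‖(a / a' - 1) + (b' / b - 1) + (a / a' - 1) * (b' / b - 1)‖
      ≤ 1 * (3 * ρ) := mul_le_mul h3 h4 (norm_nonneg _) zero_le_one
    _ ≤ δ := by linarith

theorem ep_upper {D : Dat} {lam1 lam : ℝ} (h : Ref D lam1) (hl : |lam - lam1| ≤ 1) {X X' : ℂ} (hb : Bd D X X') :
    ‖ep D lam X X'‖ ≤ (25 / lam) ^ (D.q - 1) := by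
  obtain ⟨h1, h2, h3, h4⟩ := Bnd_beta h hl
  have hq := h.hq
  have h5 := th_pow_le (B := AA D lam X X') (q := D.q) (b := lam / 22) (by linarith)
    (AA_lower h hl hb) D.q (by omega) le_rfl
  have h6 : (lam / 25) ^ (D.q - 1) ≤ ‖th (AA D lam X X') D.q‖ :=
    (pow_le_pow_left₀ (by positivity) h4 _).trans h5
  unfold ep
  rw [norm_div, norm_one, show (25 : ℝ) / lam = (lam / 25)⁻¹ by rw [inv_div], inv_pow, ← one_div]
  exact one_div_le_one_div_of_le (by positivity) h6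

theorem ep_ne {D : Dat} {lam1 lam : ℝ} (h : Ref D lam1) (hl : |lam - lam1| ≤ 1) {X X' : ℂ} (hb : Bd D X X') :
    ep D lam X X' ≠ 0 := by
  exact one_div_ne_zero (th_AA_ne h hl hb)

theorem eL_upper {D : Dat} {lam1 lam : ℝ} (h : Ref D lam1) (hl : |lam - lam1| ≤ 1) {X X' : ℂ} (hb : Bd D X X') :
    ‖eL D lam X X'‖ ≤ 25 / lam := by
  obtain ⟨h1, h2, h3, h4⟩ := Bnd_beta h hl
  have hq := h.hq
  have h5 := eta_dec (B := AA D lam X X') (q := D.q) (β := lam / 22) (by linarith)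
    (AA_lower h hl hb) (w := 0) (n := 1) (by omega) (by omega)
  rw [eta_zero, eta_one _ (by omega), norm_neg, Nat.sub_zero, pow_one] at h5
  have h6 : 0 < ‖th (AA D lam X X') D.q‖ := norm_pos_iff.2 (th_AA_ne h hl hb)
  unfold eL
  rw [norm_neg, norm_div, div_le_iff₀ h6]
  exact h5.trans (mul_le_mul_of_nonneg_right (Bnd_inv h hl) h6.le)

theorem eR_upper {D : Dat} {lam1 lam : ℝ} (h : Ref D lam1) (hl : |lam - lam1| ≤ 1) {X X' : ℂ} (hb : Bd D X X') :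
    ‖eR D lam X X'‖ ≤ 25 / lam := by
  obtain ⟨h1, h2, h3, h4⟩ := Bnd_beta h hl
  have hq := h.hq
  have h5 := th_dec (B := AA D lam X X') (q := D.q) (β := lam / 22) (by linarith)
    (AA_lower h hl hb) (n := D.q - 1) (by omega)
  rw [show D.q - (D.q - 1) = 1 by omega, pow_one] at h5
  have h6 : 0 < ‖th (AA D lam X X') D.q‖ := norm_pos_iff.2 (th_AA_ne h hl hb)
  unfold eR
  rw [norm_div, div_le_iff₀ h6]
  exact h5.trans (mul_le_mul_of_nonneg_right (Bnd_inv h hl) h6.le)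

theorem sum_AA {D : Dat} {lam1 lam : ℝ} (h : Ref D lam1) (hl : |lam - lam1| ≤ 1) {X X' Y Y' : ℂ} (hb : Bd D X X') (hb' : Bd D Y Y') :
    ∑ n ∈ Finset.Ico 1 D.q, ‖AA D lam X X' n - AA D lam Y Y' n‖ ≤ 60 * (‖X - Y‖ + ‖X' - Y'‖) := by
  obtain ⟨h1, h2, h3, h4⟩ := Bnd_beta h hl
  have hr0 : 0 ≤ 44 / lam := by positivity
  have hr1 : 44 / lam ≤ 1 / 1000 := by
    rw [div_le_div_iff₀ h2 (by norm_num)]
    linarith
  have hg := Bnd_geom_le hr0 hr1 D.q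
  have h5 : ∀ n ∈ Finset.Ico 1 D.q, ‖AA D lam X X' n - AA D lam Y Y' n‖ ≤
      lam * (6 / 5) * ((44 / lam) ^ n * ‖X - Y‖ + (44 / lam) ^ (D.q - n) * ‖X' - Y'‖) := by
    intro n hn
    rw [Finset.mem_Ico] at hn
    have e : AA D lam X X' n - AA D lam Y Y' n =
        lam * (Complex.cos (sol D lam X X' n) - Complex.cos (sol D lam Y Y' n)) := by
      unfold AA
      ring
    have h6 := cos_lip (Bnd_im h hl hb hn.1 hn.2) (Bnd_im h hl hb' hn.1 hn.2)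
    have h7 := sol_lip h hl hl hb hb' n hn.2.le
    rw [sub_self, abs_zero, mul_zero, mul_zero, add_zero] at h7
    rw [e, norm_mul, Complex.norm_real, Real.norm_eq_abs, abs_of_pos h2, mul_assoc]
    refine mul_le_mul_of_nonneg_left ?_ h2.le
    exact h6.trans (mul_le_mul_of_nonneg_left h7 (by norm_num))
  refine (Finset.sum_le_sum h5).trans ?_
  rw [← Finset.mul_sum, Finset.sum_add_distrib, ← Finset.sum_mul, ← Finset.sum_mul, Bnd_reflect,
    ← mul_add, ← mul_assoc]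
  refine mul_le_mul_of_nonneg_right ?_ (by positivity)
  have h8 : lam * (6 / 5) * ∑ n ∈ Finset.Ico 1 D.q, (44 / lam) ^ n ≤
      lam * (6 / 5) * (1001 / 1000 * (44 / lam) + 44 / lam / 1000) :=
    mul_le_mul_of_nonneg_left hg (by positivity)
  refine h8.trans ?_
  have e : lam * (6 / 5) * (1001 / 1000 * (44 / lam) + 44 / lam / 1000) =
      6 / 5 * 44 * (1001 / 1000 + 1 / 1000) := by
    field_simp
  rw [e]
  norm_num

theorem ep_ratio {D : Dat} {lam1 lam : ℝ} (h : Ref D lam1) (hl : |lam - lam1| ≤ 1) {X X' Y Y' : ℂ} (hb : Bd D X X') (hb' : Bd D Y Y') :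
    ‖ep D lam X X' / ep D lam Y Y' - 1‖ ≤ 20000 / lam * (‖X - Y‖ + ‖X' - Y'‖) := by
  obtain ⟨h1, h2, h3, h4⟩ := Bnd_beta h hl
  have hq := h.hq
  obtain ⟨d0, d2⟩ := Bnd_delta hb hb'
  have h5 : ep D lam X X' / ep D lam Y Y' = th (AA D lam Y Y') D.q / th (AA D lam X X') D.q := by
    have a := th_AA_ne h hl hb
    have b := th_AA_ne h hl hb'
    unfold ep
    field_simp
  have hS : ∑ n ∈ Finset.Ico 1 D.q, ‖AA D lam Y Y' n - AA D lam X X' n‖ ≤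
      60 * (‖X - Y‖ + ‖X' - Y'‖) := by
    have h6 := sum_AA h hl hb' hb
    rwa [norm_sub_rev Y X, norm_sub_rev Y' X'] at h6
  have h7 := th_ratio_two h3 (by omega) (AA_lower h hl hb') (AA_lower h hl hb) hS (by
    have e : 4 / (lam / 22) * (60 * (‖X - Y‖ + ‖X' - Y'‖)) =
        5280 * (‖X - Y‖ + ‖X' - Y'‖) / lam := by
      field_simp
      ring
    rw [e, div_le_one h2]
    linarith)
  rw [h5]
  refine h7.trans ?_
  have e : 8 / (lam / 22) * (60 * (‖X - Y‖ + ‖X' - Y'‖)) =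
      10560 / lam * (‖X - Y‖ + ‖X' - Y'‖) := by
    field_simp
    ring
  rw [e]
  refine mul_le_mul_of_nonneg_right ?_ d0
  exact div_le_div_of_nonneg_right (by norm_num) h2.le

theorem eLR_lip {D : Dat} {lam1 lam : ℝ} (h : Ref D lam1) (hl : |lam - lam1| ≤ 1) {X X' Y Y' : ℂ} (hb : Bd D X X') (hb' : Bd D Y Y') :
    ‖eL D lam X X' - eL D lam Y Y'‖ ≤ ‖X - Y‖ + ‖X' - Y'‖ ∧ ‖eR D lam X X' - eR D lam Y Y'‖ ≤ ‖X - Y‖ + ‖X' - Y'‖ ∧
      ‖ep D lam X X' - ep D lam Y Y'‖ ≤ ‖X - Y‖ + ‖X' - Y'‖ := by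
  obtain ⟨h1, h2, h3, h4⟩ := Bnd_beta h hl
  have hq := h.hq
  obtain ⟨d0, d2⟩ := Bnd_delta hb hb'
  have hS := sum_AA h hl hb hb'
  have hS' : ∑ n ∈ Finset.Ico 1 D.q, ‖AA D lam Y Y' n - AA D lam X X' n‖ ≤
      60 * (‖X - Y‖ + ‖X' - Y'‖) := by
    have h6 := sum_AA h hl hb' hb
    rwa [norm_sub_rev Y X, norm_sub_rev Y' X'] at h6
  have hS1 : 4 / (lam / 22) * (60 * (‖X - Y‖ + ‖X' - Y'‖)) ≤ 1 := by
    have e : 4 / (lam / 22) * (60 * (‖X - Y‖ + ‖X' - Y'‖)) =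
        5280 * (‖X - Y‖ + ‖X' - Y'‖) / lam := by
      field_simp
      ring
    rw [e, div_le_one h2]
    linarith
  have e8 : 8 / (lam / 22) * (60 * (‖X - Y‖ + ‖X' - Y'‖)) =
      10560 * (‖X - Y‖ + ‖X' - Y'‖) / lam := by
    field_simp
    ring
  have hρ : 8 / (lam / 22) * (60 * (‖X - Y‖ + ‖X' - Y'‖)) ≤ 1 := by
    rw [e8, div_le_one h2]
    linarith
  have hδ : 3 * (8 / (lam / 22) * (60 * (‖X - Y‖ + ‖X' - Y'‖))) ≤ ‖X - Y‖ + ‖X' - Y'‖ := by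
    rw [e8, ← mul_div_assoc, div_le_iff₀ h2]
    nlinarith
  have hρ0 : 0 ≤ 8 / (lam / 22) * (60 * (‖X - Y‖ + ‖X' - Y'‖)) := by positivity
  have ha := th_AA_ne h hl hb
  have ha' := th_AA_ne h hl hb'
  have hth := th_ratio_two h3 (by omega) (AA_lower h hl hb') (AA_lower h hl hb) hS' hS1
  have h25 : 25 / lam ≤ 1 := by
    rw [div_le_one h2]
    linarith
  have hB2 : ∀ n, 1 ≤ n → n < D.q → 2 ≤ ‖AA D lam Y Y' n‖ := fun n a b =>
    (by linarith : (2 : ℝ) ≤ lam / 22).trans (AA_lower h hl hb' n a b)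
  refine ⟨?_, ?_, ?_⟩
  · have e1 : ∀ {X X' : ℂ}, eL D lam X X' = eta (AA D lam X X') D.q 1 / th (AA D lam X X') D.q := by
      intro X X'
      unfold eL
      rw [eta_one _ (by omega), neg_div]
    rw [e1, e1]
    refine Bnd_quot ?_ ha ha' (eta_ratio h3 (AA_lower h hl hb) (AA_lower h hl hb') hS hS1 (by omega))
      hth ?_ hρ hδ
    · intro h0
      have h9 := eta_one_le hB2 1 (by omega)
      rw [h0, norm_zero] at h9
      linarith
    · rw [← e1]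
      exact (eL_upper h hl hb').trans h25
  · unfold eR
    have hsub : ∑ n ∈ Finset.Ico 1 (D.q - 1), ‖AA D lam X X' n - AA D lam Y Y' n‖ ≤
        60 * (‖X - Y‖ + ‖X' - Y'‖) := by
      refine (Finset.sum_le_sum_of_subset_of_nonneg ?_ fun _ _ _ => norm_nonneg _).trans hS
      exact Finset.Ico_subset_Ico le_rfl (by omega)
    refine Bnd_quot ?_ ha ha' (th_ratio_two h3 (by omega)
      (fun n a b => AA_lower h hl hb n a (by omega))
      (fun n a b => AA_lower h hl hb' n a (by omega)) hsub hS1) hth ?_ hρ hδ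
    · intro h0
      have h9 := th_one_le hB2 (D.q - 1) (by omega) (by omega)
      rw [h0, norm_zero] at h9
      linarith
    · exact (eR_upper h hl hb').trans h25
  · unfold ep
    refine Bnd_quot one_ne_zero ha ha' (by simpa using hρ0) hth ?_ hρ hδ
    have h9 := ep_upper h hl hb'
    unfold ep at h9
    refine h9.trans (pow_le_one₀ (by positivity) h25)

end Pool.Agent.MP31f1e8.KLC
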