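import Mathlib

/-!
# KLC-Cau: power series of a function of two complex variables on a polydisc (Cauchy estimates).

PROOF of `cauchy_two` (`f` continuous on the closed polydisc of radius `ρ`, holomorphic in each variable, `‖f‖ ≤ M`).
Put `g j k = (2πi)^(-2) ∮ ∮ f z w / (z^(j+1) w^(k+1)) dw dz` over the circles of radius `ρ`; `‖g j k‖ ≤ M / ρ^(j+k)` (`circleIntegral.norm_integral_le_of_norm_le_const` twice).
For `‖x‖, ‖y‖ < ρ`: one-variable Cauchy formula twice (`Complex.two_pi_I_inv_smul_circleIntegral_sub_inv_smul_of_mem_ball` or `DiffContOnCl.circleIntegral_sub_inv_smul`):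
`f x y = (2πi)^(-1) ∮ f x w / (w - y) dw`, and for every fixed `w` on the circle `f x w = (2πi)^(-1) ∮ f z w / (z - x) dz`.
Possible shortcut (two one-variable expansions): for fixed `w`, `hasSum_taylor`-like expansion `f x w = ∑_j c_j(w) x^j`, `c_j(w) = (2πi)^(-1) ∮ f z w / z^(j+1) dz` (`hasSum_cauchyPowerSeries_integral`,
`DiffContOnCl.hasFPowerSeriesOnBall`), `‖c_j(w)‖ ≤ M/ρ^j`, `c_j` continuous in `w` (`‖w‖ ≤ ρ`) and, for `x` fixed, `f x y = (2πi)^(-1) ∮ f x w/(w - y) dw = ∑_k y^k (2πi)^(-1) ∮ f x w / w^(k+1) dw`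
`= ∑_k y^k (2πi)^(-1) ∮ ∑_j c_j(w) x^j / w^(k+1) dw`, exchange of `∑_j` and `∮` by dominated convergence (`hasSum_integral_of_summable_norm` / `intervalIntegral.hasSum_integral_of_dominated_convergence`,
norms `M (‖x‖/ρ)^j / ρ^(k+1)`): no Fubini for integrals is needed. Then the double family `g j k x^j y^k`, `‖·‖ ≤ M (‖x‖/ρ)^j (‖y‖/ρ)^k`, is summable on `ℕ × ℕ` (`Summable.mul_of_nonneg` of two geometric series) and
its sum is the iterated sum (`Summable.tsum_prod'`/`HasSum.prod_fiberwise`).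
`cauchy_one`: the same in one variable (`Complex.hasSum_taylorSeries_on_ball` or `cauchyPowerSeries`); `g 0 = f 0`, `g 1 = f' 0`, `g 2 = f''(0)/2` where `f'' 0 = deriv (deriv f) 0`.
-/

namespace Pool.Agent.MP31f1e8.KLC

open Set Metric

private theorem cau_bound {f : ℂ → ℂ} {ρ M : ℝ} (hρ : 0 < ρ) (hf : DifferentiableOn ℂ f (ball 0 ρ)) (hM : ∀ x ∈ ball (0 : ℂ) ρ, ‖f x‖ ≤ M) (j : ℕ) :
    ‖iteratedDeriv j f 0 / (Nat.factorial j : ℂ)‖ ≤ M / ρ ^ j := by
  have key : ∀ r : ℝ, 0 < r → r < ρ → ‖iteratedDeriv j f 0 / (Nat.factorial j : ℂ)‖ ≤ M / r ^ j := by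
    intro r hr hrρ
    have hd : DiffContOnCl ℂ f (ball 0 r) := by
      refine ⟨hf.mono (ball_subset_ball hrρ.le), ?_⟩
      rw [closure_ball _ hr.ne']
      exact hf.continuousOn.mono (closedBall_subset_ball hrρ)
    have hb := Complex.norm_iteratedDeriv_le_of_forall_mem_sphere_norm_le j hr hd
      (C := M) (fun z hz => hM z (by
        rw [mem_sphere_zero_iff_norm] at hz
        rw [mem_ball_zero_iff, hz]; exact hrρ))
    have hfac : (0 : ℝ) < (Nat.factorial j : ℝ) := by exact_mod_cast Nat.factorial_pos j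
    rw [norm_div]
    have h2 : ‖(Nat.factorial j : ℂ)‖ = (Nat.factorial j : ℝ) := by
      simp
    rw [h2, div_le_iff₀ hfac]
    calc ‖iteratedDeriv j f 0‖ ≤ (Nat.factorial j : ℝ) * M / r ^ j := hb
      _ = M / r ^ j * (Nat.factorial j : ℝ) := by ring
  have ht : Filter.Tendsto (fun r : ℝ => M / r ^ j) (nhdsWithin ρ (Iio ρ)) (nhds (M / ρ ^ j)) := by
    refine Filter.Tendsto.mono_left ?_ nhdsWithin_le_nhds
    refine ContinuousAt.tendsto ?_
    exact ContinuousAt.div continuousAt_const (continuousAt_id.pow j) (pow_pos hρ j).ne'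
  refine ge_of_tendsto ht ?_
  have hmem : Ioo 0 ρ ∈ nhdsWithin ρ (Iio ρ) := Ioo_mem_nhdsLT hρ
  filter_upwards [hmem] with r hr
  exact key r hr.1 hr.2

theorem cauchy_one {f : ℂ → ℂ} {ρ M : ℝ} (hρ : 0 < ρ) (hf : DifferentiableOn ℂ f (ball 0 ρ)) (hM : ∀ x ∈ ball (0 : ℂ) ρ, ‖f x‖ ≤ M) :
    ∃ g : ℕ → ℂ, g 0 = f 0 ∧ g 1 = deriv f 0 ∧ g 2 = deriv (deriv f) 0 / 2 ∧ (∀ j, ‖g j‖ ≤ M / ρ ^ j) ∧
      ∀ x, ‖x‖ < ρ → HasSum (fun j => g j * x ^ j) (f x) := by
  refine ⟨fun j => iteratedDeriv j f 0 / (Nat.factorial j : ℂ), ?_, ?_, ?_, cau_bound hρ hf hM, ?_⟩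
  · simp
  · simp [iteratedDeriv_one]
  · have : iteratedDeriv 2 f = deriv (deriv f) := by
      rw [iteratedDeriv_succ, iteratedDeriv_one]
    simp [this]
  · intro x hx
    have := Complex.hasSum_taylorSeries_on_ball (r := ρ) (c := 0) (f := f) hf (z := x) (by simpa using hx)
    have e : (fun j : ℕ => iteratedDeriv j f 0 / (Nat.factorial j : ℂ) * x ^ j) =
        fun n : ℕ => (Nat.factorial n : ℂ)⁻¹ • (x - 0) ^ n • iteratedDeriv n f 0 := by
      funext j
      simp only [sub_zero, smul_eq_mul]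
      field_simp
    rw [e]
    exact this

private theorem cau_coef {f : ℂ → ℂ → ℂ} {ρ M : ℝ} (hρ : 0 < ρ) (hM0 : 0 ≤ M)
    (h2 : ∀ x ∈ closedBall (0 : ℂ) ρ, DifferentiableOn ℂ (fun y => f x y) (ball 0 ρ))
    (c : ℂ → ℕ → ℂ) (hb : ∀ w ∈ ball (0 : ℂ) ρ, ∀ j, ‖c w j‖ ≤ M / ρ ^ j)
    (hs : ∀ w ∈ ball (0 : ℂ) ρ, ∀ x, ‖x‖ < ρ → HasSum (fun j => c w j * x ^ j) (f x w)) (j : ℕ) :
    DifferentiableOn ℂ (fun w => c w j) (ball 0 ρ) := by
  induction j using Nat.strong_induction_on with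
  | _ j ih =>
    obtain ⟨x, hxd⟩ : ∃ x : ℕ → ℂ, x = fun n : ℕ => ((ρ / (2 * ((n : ℝ) + 1)) : ℝ) : ℂ) := ⟨_, rfl⟩
    have hpos : ∀ n : ℕ, (0 : ℝ) < ρ / (2 * ((n : ℝ) + 1)) := fun n => by positivity
    have hxn : ∀ n, ‖x n‖ = ρ / (2 * ((n : ℝ) + 1)) := by
      intro n
      rw [hxd]
      simp only [Complex.norm_real, Real.norm_eq_abs]
      exact abs_of_pos (hpos n)
    have hx0 : ∀ n, x n ≠ 0 := by
      intro n h
      have := hxn n
      rw [h, norm_zero] at this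
      exact absurd this (hpos n).ne
    have hxle : ∀ n, ‖x n‖ / ρ ≤ 1 / 2 := by
      intro n
      rw [hxn, div_div, div_le_div_iff₀ (by positivity) (by norm_num)]
      have : (0 : ℝ) ≤ n := Nat.cast_nonneg n
      nlinarith
    have hxlt : ∀ n, ‖x n‖ < ρ := by
      intro n
      have := hxle n
      rw [div_le_iff₀ hρ] at this
      linarith
    have hlim : TendstoLocallyUniformlyOn
        (fun n w => (f (x n) w - ∑ i ∈ Finset.range j, c w i * x n ^ i) / x n ^ j) (fun w => c w j) Filter.atTop (ball 0 ρ) := by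
      refine TendstoUniformlyOn.tendstoLocallyUniformlyOn ?_
      rw [Metric.tendstoUniformlyOn_iff]
      intro ε hε
      have hC : ∀ n : ℕ, ∀ w ∈ ball (0 : ℂ) ρ, dist (c w j) ((f (x n) w - ∑ i ∈ Finset.range j, c w i * x n ^ i) / x n ^ j) ≤
          M / ρ ^ j * (2 * (‖x n‖ / ρ)) := by
        intro n w hw
        have h := hs w hw (x n) (hxlt n)
        have h' := (hasSum_nat_add_iff' (f := fun i => c w i * x n ^ i) j).2 h
        have h'' : HasSum (fun i => c w (i + j) * x n ^ i) ((f (x n) w - ∑ i ∈ Finset.range j, c w i * x n ^ i) / x n ^ j) := by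
          have h0 := h'.div_const (x n ^ j)
          have e : (fun i => c w (i + j) * x n ^ i) = fun i => c w (i + j) * x n ^ (i + j) / x n ^ j := by
            funext i
            rw [pow_add]
            have := pow_ne_zero j (hx0 n)
            field_simp
          rw [e]
          exact h0
        have h3 := (hasSum_nat_add_iff' (f := fun i => c w (i + j) * x n ^ i) 1).2 h''
        simp only [Finset.range_one, Finset.sum_singleton, pow_zero, mul_one, zero_add] at h3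
        rw [dist_comm, dist_eq_norm, ← h3.tsum_eq]
        have hr : ‖x n‖ / ρ < 1 := lt_of_le_of_lt (hxle n) (by norm_num)
        have hg : HasSum (fun i : ℕ => M / ρ ^ j * ((‖x n‖ / ρ) * (‖x n‖ / ρ) ^ i)) (M / ρ ^ j * ((‖x n‖ / ρ) * (1 - ‖x n‖ / ρ)⁻¹)) :=
          ((hasSum_geometric_of_lt_one (by positivity) hr).mul_left _).mul_left _
        refine (tsum_of_norm_bounded hg ?_).trans ?_
        · intro i
          rw [norm_mul, norm_pow]
          have hb' := hb w hw (i + 1 + j)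
          calc ‖c w (i + 1 + j)‖ * ‖x n‖ ^ (i + 1) ≤ M / ρ ^ (i + 1 + j) * ‖x n‖ ^ (i + 1) := by gcongr
            _ = M / ρ ^ j * ((‖x n‖ / ρ) * (‖x n‖ / ρ) ^ i) := by
              rw [← pow_succ', div_pow, pow_add ρ (i + 1) j]
              field_simp
        · have h4 : (1 - ‖x n‖ / ρ)⁻¹ ≤ 2 := by
            rw [inv_le_comm₀ (by linarith) (by norm_num)]
            have := hxle n
            linarith
          have h5 : 0 ≤ ‖x n‖ / ρ := by positivity
          have h6 : 0 ≤ M / ρ ^ j := by positivity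
          refine mul_le_mul_of_nonneg_left ?_ h6
          nlinarith
      have ht : Filter.Tendsto (fun n : ℕ => M / ρ ^ j * (2 * (‖x n‖ / ρ))) Filter.atTop (nhds 0) := by
        have h1 : ∀ n : ℕ, M / ρ ^ j * (2 * (‖x n‖ / ρ)) = M / ρ ^ j * (1 / ((n : ℝ) + 1)) := by
          intro n
          rw [hxn]
          field_simp
        simp only [h1]
        have := (tendsto_one_div_add_atTop_nhds_zero_nat (𝕜 := ℝ)).const_mul (M / ρ ^ j)
        simpa using this
      have hev := (ht.eventually (gt_mem_nhds hε))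
      filter_upwards [hev] with n hn w hw
      exact lt_of_le_of_lt (hC n w hw) hn
    refine hlim.differentiableOn (Filter.Eventually.of_forall fun n => ?_) isOpen_ball
    refine DifferentiableOn.div_const ?_ _
    refine DifferentiableOn.sub (h2 (x n) (by rw [mem_closedBall_zero_iff]; exact (hxlt n).le)) ?_
    refine DifferentiableOn.fun_sum fun i hi => ?_
    exact (ih i (Finset.mem_range.1 hi)).mul_const _

theorem cauchy_two {f : ℂ → ℂ → ℂ} {ρ M : ℝ} (hρ : 0 < ρ)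
    (hc : ContinuousOn (fun p : ℂ × ℂ => f p.1 p.2) (closedBall 0 ρ ×ˢ closedBall 0 ρ))
    (h1 : ∀ y ∈ closedBall (0 : ℂ) ρ, DifferentiableOn ℂ (fun x => f x y) (ball 0 ρ))
    (h2 : ∀ x ∈ closedBall (0 : ℂ) ρ, DifferentiableOn ℂ (fun y => f x y) (ball 0 ρ))
    (hM : ∀ x ∈ closedBall (0 : ℂ) ρ, ∀ y ∈ closedBall (0 : ℂ) ρ, ‖f x y‖ ≤ M) :
    ∃ g : ℕ → ℕ → ℂ, (∀ j k, ‖g j k‖ ≤ M / ρ ^ (j + k)) ∧
      ∀ x y, ‖x‖ < ρ → ‖y‖ < ρ → HasSum (fun p : ℕ × ℕ => g p.1 p.2 * x ^ p.1 * y ^ p.2) (f x y) := by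
  have h00 : (0 : ℂ) ∈ closedBall (0 : ℂ) ρ := mem_closedBall_self hρ.le
  have hM0 : 0 ≤ M := (norm_nonneg _).trans (hM 0 h00 0 h00)
  have hc1 : ∀ w : ℂ, ∃ c : ℕ → ℂ, w ∈ ball (0 : ℂ) ρ → ((∀ j, ‖c j‖ ≤ M / ρ ^ j) ∧
      ∀ x, ‖x‖ < ρ → HasSum (fun j => c j * x ^ j) (f x w)) := by
    intro w
    by_cases hw : w ∈ ball (0 : ℂ) ρ
    · obtain ⟨g, -, -, -, hg1, hg2⟩ := cauchy_one hρ (h1 w (ball_subset_closedBall hw))
        (fun x hx => hM x (ball_subset_closedBall hx) w (ball_subset_closedBall hw))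
      exact ⟨g, fun _ => ⟨hg1, hg2⟩⟩
    · exact ⟨0, fun h => absurd h hw⟩
  choose c hcc using hc1
  have hcd := cau_coef hρ hM0 h2 c (fun w hw => (hcc w hw).1) (fun w hw => (hcc w hw).2)
  have hc2 : ∀ j : ℕ, ∃ g : ℕ → ℂ, (∀ k, ‖g k‖ ≤ M / ρ ^ j / ρ ^ k) ∧
      ∀ y, ‖y‖ < ρ → HasSum (fun k => g k * y ^ k) (c y j) := by
    intro j
    obtain ⟨g, -, -, -, hg1, hg2⟩ := cauchy_one hρ (hcd j) (fun w hw => (hcc w hw).1 j)
    exact ⟨g, hg1, hg2⟩
  choose g hg1 hg2 using hc2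
  refine ⟨g, fun j k => ?_, fun x y hx hy => ?_⟩
  · refine (hg1 j k).trans (le_of_eq ?_)
    rw [pow_add, div_div]
  · have hsum : Summable (fun p : ℕ × ℕ => g p.1 p.2 * x ^ p.1 * y ^ p.2) := by
      have hxr : ‖x‖ / ρ < 1 := by rwa [div_lt_one hρ]
      have hyr : ‖y‖ / ρ < 1 := by rwa [div_lt_one hρ]
      have hs1 : Summable (fun n : ℕ => M * (‖x‖ / ρ) ^ n) := (summable_geometric_of_lt_one (by positivity) hxr).mul_left M
      have hs2 : Summable (fun n : ℕ => (‖y‖ / ρ) ^ n) := summable_geometric_of_lt_one (by positivity) hyr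
      have hs := hs1.mul_of_nonneg hs2 (fun n => by positivity) (fun n => by positivity)
      refine Summable.of_norm_bounded hs ?_
      rintro ⟨j, k⟩
      rw [norm_mul, norm_mul, norm_pow, norm_pow]
      calc ‖g j k‖ * ‖x‖ ^ j * ‖y‖ ^ k ≤ M / ρ ^ j / ρ ^ k * ‖x‖ ^ j * ‖y‖ ^ k := by
            gcongr
            exact hg1 j k
        _ = M * (‖x‖ / ρ) ^ j * (‖y‖ / ρ) ^ k := by
            rw [div_pow, div_pow]
            field_simp
    have hfib := hsum.hasSum.prod_fiberwise (g := fun j => c y j * x ^ j) (fun j => by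
      have h0 := (hg2 j y hy).mul_right (x ^ j)
      have e : (fun k => g j k * x ^ j * y ^ k) = fun k => g j k * y ^ k * x ^ j := by
        funext k
        ring
      exact (congrArg (fun F : ℕ → ℂ => HasSum F (c y j * x ^ j)) e).mpr h0)
    have hy' : y ∈ ball (0 : ℂ) ρ := by rwa [mem_ball_zero_iff]
    have huniq := hfib.unique ((hcc y hy').2 x hx)
    rw [← huniq]
    exact hsum.hasSum

end Pool.Agent.MP31f1e8.KLC
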