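import Pool.Agent.Lib.MP_31f1e8_mp.KLC.Defs

/-!
# KLC-Cont: continuants.

PROOFS.
* `rec_repr`: two-step induction on `n` (`Rec B 0 q d` says `d (n+2) = B (n+1) * d (n+1) - d n`; the same recursion for `th`, `si`, by definition).
* `wron`: induction on `n`.
* `si_th`: for fixed `n` both sides, as functions of `k`, satisfy `y (k+2) = B (n+k+1) * y (k+1) - y k`, with the values `0` (`k = 0`) and `1` (`k = 1`: `wron`);
  two-step induction on `k`.
* `rec_solve`: `d q = d 0 * si B q + d 1 * th B q`, `d n = d 0 * si B n + d 1 * th B n`, so `th B q * d n - d q * th B n = d 0 * (si B n * th B q - si B q * th B n)`, then `si_th`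
  with `k = q - n`.
* `th_congr`: two-step induction.
* `th_step`: by induction on `n` together with `‖th B (n-1)‖ ≤ ‖th B n‖` (for `n = 1`: `0 ≤ 1`; then `‖th B (n+1)‖ ≥ (‖B n‖ - 1) ‖th B n‖ ≥ ‖th B n‖`); triangle inequality in
  `th B (n+1) = B n * th B n - th B (n-1)`.
* `th_one_le`, `th_pow_le`, `th_le_pow`: from `th_step` by induction.
-/

namespace Pool.Agent.MP31f1e8.KLC

open Set

section Ring

variable {K : Type*} [CommRing K]

theorem rec_repr {B d : ℕ → K} {q : ℕ} (h : Rec B 0 q d) : ∀ n ≤ q, d n = d 0 * si B n + d 1 * th B n := by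
  intro n
  induction n using Nat.twoStepInduction with
  | zero => intro _; simp [si, th]
  | one => intro _; simp [si, th]
  | more n ih1 ih2 =>
    intro hn
    have h1 := h n hn
    have e1 := ih1 (by omega)
    have e2 := ih2 (by omega)
    simp only [Pi.zero_apply, add_zero] at h1
    simp only [si, th]
    linear_combination h1 + B (n + 1) * e2 - e1

theorem wron (B : ℕ → K) (n : ℕ) : si B n * th B (n + 1) - si B (n + 1) * th B n = 1 := by
  induction n with
  | zero => simp [si, th]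
  | succ n ih =>
    simp only [si, th]
    linear_combination ih

theorem si_th (B : ℕ → K) (n k : ℕ) :
    si B n * th B (n + k) - si B (n + k) * th B n = th (fun j => B (n + j)) k := by
  induction k using Nat.twoStepInduction with
  | zero => simp [th]
  | one => rw [wron]; simp [th]
  | more k ih1 ih2 =>
    have e1 : n + (k + 2) = n + k + 2 := by ring
    have e2 : n + (k + 1) = n + k + 1 := by ring
    rw [e1]
    simp only [th, si]
    rw [e2] at ih2 ⊢
    linear_combination B (n + k + 1) * ih2 - ih1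

theorem rec_solve {B d : ℕ → K} {q : ℕ} (h : Rec B 0 q d) {n : ℕ} (hn : n ≤ q) :
    th B q * d n = d 0 * th (fun j => B (n + j)) (q - n) + d q * th B n := by
  have h1 := rec_repr h q le_rfl
  have h2 := rec_repr h n hn
  have h3 := si_th B n (q - n)
  rw [Nat.add_sub_cancel' hn] at h3
  rw [← h3]
  linear_combination th B q * h2 - th B n * h1

theorem th_congr {B B' : ℕ → K} {q : ℕ} (h : ∀ n, 1 ≤ n → n < q → B n = B' n) : ∀ n ≤ q, th B n = th B' n := by
  intro n
  induction n using Nat.twoStepInduction with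
  | zero => intro _; rfl
  | one => intro _; rfl
  | more n ih1 ih2 =>
    intro hn
    simp only [th]
    rw [ih1 (by omega), ih2 (by omega), h (n + 1) (by omega) (by omega)]

theorem si_congr {B B' : ℕ → K} {q : ℕ} (h : ∀ n, 1 ≤ n → n < q → B n = B' n) : ∀ n ≤ q, si B n = si B' n := by
  intro n
  induction n using Nat.twoStepInduction with
  | zero => intro _; rfl
  | one => intro _; rfl
  | more n ih1 ih2 =>
    intro hn
    simp only [si]
    rw [ih1 (by omega), ih2 (by omega), h (n + 1) (by omega) (by omega)]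

end Ring

section Field

variable {K : Type*} [NormedField K]

private theorem th_mono {B : ℕ → K} {q : ℕ} (h : ∀ n, 1 ≤ n → n < q → 2 ≤ ‖B n‖) :
    ∀ n, n + 1 ≤ q → ‖th B n‖ ≤ ‖th B (n + 1)‖ := by
  intro n
  induction n with
  | zero => intro _; simp [th]
  | succ n ih =>
    intro hn
    have h1 := ih (by omega)
    have h2 := h (n + 1) (by omega) (by omega)
    have h3 : ‖B (n + 1) * th B (n + 1)‖ - ‖th B n‖ ≤ ‖B (n + 1) * th B (n + 1) - th B n‖ :=
      norm_sub_norm_le _ _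
    rw [norm_mul] at h3
    show ‖th B (n + 1)‖ ≤ ‖B (n + 1) * th B (n + 1) - th B n‖
    nlinarith [norm_nonneg (th B (n + 1)), norm_nonneg (th B n)]

theorem th_step {B : ℕ → K} {q : ℕ} (h : ∀ n, 1 ≤ n → n < q → 2 ≤ ‖B n‖) :
    ∀ n, 1 ≤ n → n < q → (‖B n‖ - 1) * ‖th B n‖ ≤ ‖th B (n + 1)‖ ∧ ‖th B (n + 1)‖ ≤ (‖B n‖ + 1) * ‖th B n‖ := by
  intro n hn hnq
  obtain ⟨k, rfl⟩ : ∃ k, n = k + 1 := ⟨n - 1, by omega⟩
  have h1 := th_mono h k (by omega)
  have h3 : ‖B (k + 1) * th B (k + 1)‖ - ‖th B k‖ ≤ ‖B (k + 1) * th B (k + 1) - th B k‖ :=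
    norm_sub_norm_le _ _
  have h4 : ‖B (k + 1) * th B (k + 1) - th B k‖ ≤ ‖B (k + 1) * th B (k + 1)‖ + ‖th B k‖ :=
    norm_sub_le _ _
  rw [norm_mul] at h3 h4
  show (‖B (k + 1)‖ - 1) * ‖th B (k + 1)‖ ≤ ‖B (k + 1) * th B (k + 1) - th B k‖ ∧
    ‖B (k + 1) * th B (k + 1) - th B k‖ ≤ (‖B (k + 1)‖ + 1) * ‖th B (k + 1)‖
  constructor
  · linarith
  · linarith

theorem th_one_le {B : ℕ → K} {q : ℕ} (h : ∀ n, 1 ≤ n → n < q → 2 ≤ ‖B n‖) : ∀ n, 1 ≤ n → n ≤ q → 1 ≤ ‖th B n‖ := by
  intro n hn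
  induction n, hn using Nat.le_induction with
  | base => intro _; simp [th]
  | succ n hn ih =>
    intro hq
    exact (ih (by omega)).trans (th_mono h n hq)

theorem th_pow_le {B : ℕ → K} {q : ℕ} {b : ℝ} (hb : 2 ≤ b) (h : ∀ n, 1 ≤ n → n < q → b ≤ ‖B n‖) :
    ∀ n, 1 ≤ n → n ≤ q → (b - 1) ^ (n - 1) ≤ ‖th B n‖ := by
  have h2 : ∀ n, 1 ≤ n → n < q → 2 ≤ ‖B n‖ := fun n h1 h3 => hb.trans (h n h1 h3)
  intro n hn
  induction n, hn using Nat.le_induction with
  | base => intro _; simp [th]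
  | succ n hn ih =>
    intro hq
    have h3 := ih (by omega)
    have h4 := (th_step h2 n hn (by omega)).1
    have h5 := h n hn (by omega)
    obtain ⟨k, rfl⟩ : ∃ k, n = k + 1 := ⟨n - 1, by omega⟩
    simp only [Nat.add_sub_cancel] at h3 ⊢
    calc (b - 1) ^ (k + 1) = (b - 1) * (b - 1) ^ k := by ring
      _ ≤ (b - 1) * ‖th B (k + 1)‖ := mul_le_mul_of_nonneg_left h3 (by linarith)
      _ ≤ (‖B (k + 1)‖ - 1) * ‖th B (k + 1)‖ :=
          mul_le_mul_of_nonneg_right (by linarith) (norm_nonneg _)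
      _ ≤ _ := h4

theorem th_le_pow {B : ℕ → K} {q : ℕ} {b : ℝ} (h : ∀ n, 1 ≤ n → n < q → 2 ≤ ‖B n‖) (h' : ∀ n, 1 ≤ n → n < q → ‖B n‖ ≤ b) :
    ∀ n, 1 ≤ n → n ≤ q → ‖th B n‖ ≤ (b + 1) ^ (n - 1) := by
  intro n hn
  induction n, hn using Nat.le_induction with
  | base => intro _; simp [th]
  | succ n hn ih =>
    intro hq
    have h3 := ih (by omega)
    have h4 := (th_step h n hn (by omega)).2
    have h5 := h' n hn (by omega)
    have h6 := h n hn (by omega)
    obtain ⟨k, rfl⟩ : ∃ k, n = k + 1 := ⟨n - 1, by omega⟩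
    simp only [Nat.add_sub_cancel] at h3 ⊢
    calc ‖th B (k + 1 + 1)‖ ≤ (‖B (k + 1)‖ + 1) * ‖th B (k + 1)‖ := h4
      _ ≤ (b + 1) * ‖th B (k + 1)‖ := mul_le_mul_of_nonneg_right (by linarith) (norm_nonneg _)
      _ ≤ (b + 1) * (b + 1) ^ k := mul_le_mul_of_nonneg_left h3 (by linarith)
      _ = (b + 1) ^ (k + 1) := by ring

end Field

end Pool.Agent.MP31f1e8.KLC
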