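import Pool.Agent.Lib.MP_31f1e8_mp.KLC.Defs

/-!
# KLC-Ddc: sine and cosine near the real axis, the divided difference `dd`.

PROOFS.
* `norm_sin_le`, `norm_cos_le`: for `|Im z| ≤ 1/2`: `‖sin z‖ = ‖(exp(iz) - exp(-iz))/2‖ ≤ cosh (Im z) ≤ cosh (1/2) ≤ 6/5` (`exp (1/2) ≤ 1.6488`, `exp (-1/2) ≤ 0.61`; e.g. `Real.exp_one_lt_d9`
  and `exp (1/2)^2 = exp 1`), the same for cos.
* `sin_lip`, `cos_lip`: mean value inequality on the convex strip `{|Im z| ≤ 1/2}` (`Convex.norm_image_sub_le_of_norm_hasDerivWithin_le`), derivatives `cos`, `-sin` bounded by `6/5`.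
* `dd_mul`: by cases (`dd` is defined by `if a = b`).
* `dd_int`: `dd a b = ∫ t in 0..1, cos (b + t (a - b))`: if `a ≠ b`, the function `t ↦ sin (b + t (a-b)) / (a - b)` has derivative `cos (b + t (a - b))`
  (`intervalIntegral.integral_eq_sub_of_hasDerivAt`); if `a = b` constant.
* `dd_lip`: from `dd_int`, `cos_lip` and `‖b + t(a-b) - b' - t(a'-b')‖ ≤ (1-t) ‖b - b'‖ + t ‖a - a'‖ ≤ ‖a - a'‖ + ‖b - b'‖` (the strip is convex).
* `dd_near`: `dd ξ ξ = cos ξ` and `dd_lip`-type estimate: `‖dd a b - cos ξ‖ ≤ sup_t ‖cos (b + t(a-b)) - cos ξ‖ ≤ 6/5 * r` since `b + t (a-b)` is within `r` of `ξ`.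
* `coef_lower`: `‖dd a b‖ ≥ 1/20 - 6/5 * 2/1000 ≥ 0.0476`, `lam * 0.0476.. `: precisely `1/20 - 12/5000 = 0.0476`, and `0.0476 lam - 2 ≥ lam / 22`.
-/

namespace Pool.Agent.MP31f1e8.KLC

open Set

private theorem Ddc_cosh {y : ℝ} (hy : |y| ≤ 1 / 2) : Real.cosh y ≤ 6 / 5 := by
  have h1 : Real.cosh y ≤ Real.cosh (1 / 2) := by
    rw [Real.cosh_le_cosh]
    rwa [abs_of_pos (by norm_num : (0 : ℝ) < 1 / 2)]
  have h2 : Real.cosh (1 / 2) ≤ Real.exp ((1 / 2 : ℝ) ^ 2 / 2) := Real.cosh_le_exp_half_sq _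
  have h3 : Real.exp ((1 / 2 : ℝ) ^ 2 / 2) ≤ 6 / 5 := by
    have h4 := Real.add_one_le_exp (-((1 / 2 : ℝ) ^ 2 / 2))
    rw [Real.exp_neg] at h4
    have h5 := Real.exp_pos ((1 / 2 : ℝ) ^ 2 / 2)
    have h6 : (5 / 6 : ℝ) ≤ (Real.exp ((1 / 2 : ℝ) ^ 2 / 2))⁻¹ := by
      refine le_trans ?_ h4
      norm_num
    rw [le_inv_comm₀ (by norm_num) h5] at h6
    norm_num at h6 ⊢
    linarith
  linarith

private theorem Ddc_exp (z : ℂ) : ‖Complex.exp (z * Complex.I)‖ = Real.exp (-z.im) ∧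
    ‖Complex.exp (-z * Complex.I)‖ = Real.exp z.im := by
  constructor
  · rw [Complex.norm_exp]
    simp
  · rw [Complex.norm_exp]
    simp

theorem norm_sin_le {z : ℂ} (hz : |z.im| ≤ 1 / 2) : ‖Complex.sin z‖ ≤ 6 / 5 := by
  have h1 := Ddc_exp z
  have h2 : Complex.sin z = (Complex.exp (-z * Complex.I) - Complex.exp (z * Complex.I)) *
      Complex.I / 2 := by
    rw [Complex.sin]
  rw [h2, norm_div, norm_mul, Complex.norm_I, mul_one, Complex.norm_ofNat]
  have h3 := norm_sub_le (Complex.exp (-z * Complex.I)) (Complex.exp (z * Complex.I))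
  rw [h1.1, h1.2] at h3
  have h4 := Ddc_cosh hz
  rw [Real.cosh_eq] at h4
  linarith

theorem norm_cos_le {z : ℂ} (hz : |z.im| ≤ 1 / 2) : ‖Complex.cos z‖ ≤ 6 / 5 := by
  have h1 := Ddc_exp z
  have h2 : Complex.cos z = (Complex.exp (z * Complex.I) + Complex.exp (-z * Complex.I)) / 2 := by
    rw [Complex.cos]
  rw [h2, norm_div, Complex.norm_ofNat]
  have h3 := norm_add_le (Complex.exp (z * Complex.I)) (Complex.exp (-z * Complex.I))
  rw [h1.1, h1.2] at h3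
  have h4 := Ddc_cosh hz
  rw [Real.cosh_eq] at h4
  linarith

private theorem Ddc_conv : Convex ℝ {z : ℂ | |z.im| ≤ 1 / 2} := by
  have h : {z : ℂ | |z.im| ≤ 1 / 2} = {z : ℂ | z.im ≤ 1 / 2} ∩ {z : ℂ | -(1 / 2) ≤ z.im} := by
    ext z
    simp only [Set.mem_ofPred_eq, Set.mem_inter_iff, abs_le]
    exact and_comm
  rw [h]
  exact (convex_halfSpace_im_le _).inter (convex_halfSpace_im_ge _)

theorem sin_lip {a b : ℂ} (ha : |a.im| ≤ 1 / 2) (hb : |b.im| ≤ 1 / 2) : ‖Complex.sin a - Complex.sin b‖ ≤ 6 / 5 * ‖a - b‖ :=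
  Convex.norm_image_sub_le_of_norm_hasDerivWithin_le
    (fun z _ => (Complex.hasDerivAt_sin z).hasDerivWithinAt) (fun _ hz => norm_cos_le hz) Ddc_conv hb ha

theorem cos_lip {a b : ℂ} (ha : |a.im| ≤ 1 / 2) (hb : |b.im| ≤ 1 / 2) : ‖Complex.cos a - Complex.cos b‖ ≤ 6 / 5 * ‖a - b‖ :=
  Convex.norm_image_sub_le_of_norm_hasDerivWithin_le
    (fun z _ => (Complex.hasDerivAt_cos z).hasDerivWithinAt)
    (fun z hz => by rw [norm_neg]; exact norm_sin_le hz) Ddc_conv hb ha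

theorem dd_self (a : ℂ) : dd a a = Complex.cos a := by
  simp [dd]

theorem dd_mul (a b : ℂ) : Complex.sin a - Complex.sin b = dd a b * (a - b) := by
  unfold dd
  by_cases h : a = b
  · rw [if_pos h, h]
    simp
  · rw [if_neg h, div_mul_cancel₀ _ (sub_ne_zero.2 h)]

theorem dd_int (a b : ℂ) : dd a b = ∫ t in (0 : ℝ)..1, Complex.cos (b + t * (a - b)) := by
  by_cases h : a = b
  · rw [h, dd_self]
    simp
  · have hab : a - b ≠ 0 := sub_ne_zero.2 h
    have h1 : ∀ t : ℝ, HasDerivAt (fun t : ℝ => Complex.sin (b + t * (a - b)) / (a - b))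
        (Complex.cos (b + t * (a - b))) t := by
      intro t
      have h2 : HasDerivAt (fun t : ℝ => b + (t : ℂ) * (a - b)) (1 * (a - b)) t :=
        ((Complex.ofRealCLM.hasDerivAt (x := t)).mul_const (a - b)).const_add b
      have h3 := ((Complex.hasDerivAt_sin (b + t * (a - b))).comp t h2).div_const (a - b)
      have h4 : Complex.cos (b + t * (a - b)) * (1 * (a - b)) / (a - b) =
          Complex.cos (b + t * (a - b)) := by
        rw [one_mul, mul_div_assoc, div_self hab, mul_one]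
      rw [h4] at h3
      exact h3
    have h5 := intervalIntegral.integral_eq_sub_of_hasDerivAt (a := 0) (b := 1)
      (fun t _ => h1 t) (Continuous.intervalIntegrable (by fun_prop) _ _)
    rw [h5]
    unfold dd
    rw [if_neg h]
    push_cast
    rw [one_mul, zero_mul, add_zero, add_sub_cancel, sub_div]

private theorem Ddc_seg {a b : ℂ} {t : ℝ} (ha : |a.im| ≤ 1 / 2) (hb : |b.im| ≤ 1 / 2)
    (h0 : 0 ≤ t) (h1 : t ≤ 1) : |(b + t * (a - b)).im| ≤ 1 / 2 := by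
  have h2 : (b + t * (a - b)).im = (1 - t) * b.im + t * a.im := by
    simp
    ring
  rw [h2]
  rw [abs_le] at ha hb ⊢
  constructor <;> nlinarith

private theorem Ddc_cont (a b : ℂ) : Continuous fun t : ℝ => Complex.cos (b + t * (a - b)) := by
  fun_prop

theorem dd_lip {a b a' b' : ℂ} (ha : |a.im| ≤ 1 / 2) (hb : |b.im| ≤ 1 / 2) (ha' : |a'.im| ≤ 1 / 2) (hb' : |b'.im| ≤ 1 / 2) :
    ‖dd a b - dd a' b'‖ ≤ 6 / 5 * (‖a - a'‖ + ‖b - b'‖) := by
  rw [dd_int, dd_int, ← intervalIntegral.integral_sub ((Ddc_cont a b).intervalIntegrable _ _)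
    ((Ddc_cont a' b').intervalIntegrable _ _)]
  have h1 : ‖∫ t in (0 : ℝ)..1, (Complex.cos (b + t * (a - b)) - Complex.cos (b' + t * (a' - b')))‖ ≤
      6 / 5 * (‖a - a'‖ + ‖b - b'‖) * |(1 : ℝ) - 0| := by
    apply intervalIntegral.norm_integral_le_of_norm_le_const
    intro t ht
    rw [Set.uIoc_of_le zero_le_one] at ht
    have ht0 : 0 ≤ t := ht.1.le
    have ht1 : t ≤ 1 := ht.2
    refine (cos_lip (Ddc_seg ha hb ht0 ht1) (Ddc_seg ha' hb' ht0 ht1)).trans ?_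
    have h2 : b + t * (a - b) - (b' + t * (a' - b')) = ((1 - t : ℝ) : ℂ) * (b - b') + (t : ℂ) * (a - a') := by
      push_cast
      ring
    have h3 : ‖b + t * (a - b) - (b' + t * (a' - b'))‖ ≤ ‖a - a'‖ + ‖b - b'‖ := by
      rw [h2]
      refine (norm_add_le _ _).trans ?_
      rw [norm_mul, norm_mul, Complex.norm_real, Complex.norm_real, Real.norm_of_nonneg ht0,
        Real.norm_of_nonneg (by linarith : 0 ≤ 1 - t)]
      have h4 : (1 - t) * ‖b - b'‖ ≤ 1 * ‖b - b'‖ := mul_le_mul_of_nonneg_right (by linarith) (norm_nonneg _)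
      have h5 : t * ‖a - a'‖ ≤ 1 * ‖a - a'‖ := mul_le_mul_of_nonneg_right ht1 (norm_nonneg _)
      linarith
    exact mul_le_mul_of_nonneg_left h3 (by norm_num)
  simpa using h1

theorem dd_near {a b : ℂ} {x r : ℝ} (hr : r ≤ 1 / 2) (ha : ‖a - x‖ ≤ r) (hb : ‖b - x‖ ≤ r) :
    ‖dd a b - Real.cos x‖ ≤ 6 / 5 * r := by
  have h0 : ((Real.cos x : ℝ) : ℂ) = ∫ _ in (0 : ℝ)..1, Complex.cos x := by
    simp
  rw [dd_int, h0, ← intervalIntegral.integral_sub ((Ddc_cont a b).intervalIntegrable _ _)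
    (continuous_const.intervalIntegrable _ _)]
  have h1 : ‖∫ t in (0 : ℝ)..1, (Complex.cos (b + t * (a - b)) - Complex.cos x)‖ ≤
      6 / 5 * r * |(1 : ℝ) - 0| := by
    apply intervalIntegral.norm_integral_le_of_norm_le_const
    intro t ht
    rw [Set.uIoc_of_le zero_le_one] at ht
    have ht0 : 0 ≤ t := ht.1.le
    have ht1 : t ≤ 1 := ht.2
    have h2 : b + t * (a - b) - x = ((1 - t : ℝ) : ℂ) * (b - x) + (t : ℂ) * (a - x) := by
      push_cast
      ring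
    have h3 : ‖b + t * (a - b) - x‖ ≤ r := by
      rw [h2]
      refine (norm_add_le _ _).trans ?_
      rw [norm_mul, norm_mul, Complex.norm_real, Complex.norm_real, Real.norm_of_nonneg ht0,
        Real.norm_of_nonneg (by linarith : 0 ≤ 1 - t)]
      have h4 : (1 - t) * ‖b - x‖ ≤ (1 - t) * r := mul_le_mul_of_nonneg_left hb (by linarith)
      have h5 : t * ‖a - x‖ ≤ t * r := mul_le_mul_of_nonneg_left ha ht0
      linarith
    have h6 : |(b + t * (a - b)).im| ≤ 1 / 2 := by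
      have h7 : (b + t * (a - b)).im = (b + t * (a - b) - x).im := by
        simp
      rw [h7]
      exact ((Complex.abs_im_le_norm _).trans h3).trans hr
    have h8 : |((x : ℝ) : ℂ).im| ≤ 1 / 2 := by
      rw [Complex.ofReal_im, abs_zero]
      norm_num
    exact (cos_lip h6 h8).trans (mul_le_mul_of_nonneg_left h3 (by norm_num))
  simpa using h1

/-- the coefficients of the difference equation are large -/
theorem coef_lower {a b : ℂ} {x lam : ℝ} (hlam : 10 ^ 7 ≤ lam) (hx : 1 / 20 ≤ |Real.cos x|) (ha : ‖a - x‖ ≤ 1 / 500)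
    (hb : ‖b - x‖ ≤ 1 / 500) : lam / 22 ≤ ‖2 + lam * dd a b‖ := by
  have h1 := dd_near (by norm_num) ha hb
  have hl : 0 ≤ lam := by linarith
  have h2 : ‖((Real.cos x : ℝ) : ℂ)‖ = |Real.cos x| := by
    rw [Complex.norm_real, Real.norm_eq_abs]
  have h3 : |Real.cos x| - 6 / 5 * (1 / 500) ≤ ‖dd a b‖ := by
    have h4 := norm_sub_norm_le ((Real.cos x : ℝ) : ℂ) (dd a b)
    rw [h2, norm_sub_rev] at h4
    linarith
  have h5 : ‖(lam : ℂ) * dd a b‖ = lam * ‖dd a b‖ := by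
    rw [norm_mul, Complex.norm_real, Real.norm_of_nonneg hl]
  have h6 : lam * ‖dd a b‖ - 2 ≤ ‖2 + (lam : ℂ) * dd a b‖ := by
    have h7 := norm_sub_norm_le ((lam : ℂ) * dd a b) (-2)
    rw [h5, norm_neg, Complex.norm_ofNat, sub_neg_eq_add, add_comm ((lam : ℂ) * dd a b) 2] at h7
    exact h7
  have h8 : lam * (1 / 20 - 6 / 5 * (1 / 500)) ≤ lam * ‖dd a b‖ :=
    mul_le_mul_of_nonneg_left (by linarith) hl
  linarith

theorem coef_upper {a b : ℂ} {lam : ℝ} (hlam : 0 ≤ lam) (ha : |a.im| ≤ 1 / 2) (hb : |b.im| ≤ 1 / 2) :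
    ‖2 + lam * dd a b‖ ≤ 2 + 6 / 5 * lam := by
  have h1 : ‖dd a b‖ ≤ 6 / 5 := by
    rw [dd_int]
    have h2 : ‖∫ t in (0 : ℝ)..1, Complex.cos (b + t * (a - b))‖ ≤ 6 / 5 * |(1 : ℝ) - 0| := by
      apply intervalIntegral.norm_integral_le_of_norm_le_const
      intro t ht
      rw [Set.uIoc_of_le zero_le_one] at ht
      exact norm_cos_le (Ddc_seg ha hb ht.1.le ht.2)
    simpa using h2
  refine (norm_add_le _ _).trans ?_
  rw [Complex.norm_ofNat, norm_mul, Complex.norm_real, Real.norm_of_nonneg hlam]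
  have h3 : lam * ‖dd a b‖ ≤ lam * (6 / 5) := mul_le_mul_of_nonneg_left h1 hlam
  linarith

end Pool.Agent.MP31f1e8.KLC
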