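import Mathlib

/-!
# Part C of project KL (MP_31f1e8_mp): periodic orbits of the Standard map with one near-critical site.
Definitions (auxiliary, not used in the final statement).
-/

namespace Pool.Agent.MP31f1e8.KLC

open Set

/-! ### Continuants -/

/-- `th B 0 = 0`, `th B 1 = 1`, `th B (n+2) = B (n+1) * th B (n+1) - th B n`. -/
def th {K : Type*} [CommRing K] (B : ℕ → K) : ℕ → K
  | 0 => 0
  | 1 => 1
  | (n + 2) => B (n + 1) * th B (n + 1) - th B n

/-- `si B 0 = 1`, `si B 1 = 0`, `si B (n+2) = B (n+1) * si B (n+1) - si B n`. -/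
def si {K : Type*} [CommRing K] (B : ℕ → K) : ℕ → K
  | 0 => 1
  | 1 => 0
  | (n + 2) => B (n + 1) * si B (n + 1) - si B n

/-- `d` solves `d (n+1) + d (n-1) = B n * d n + f n` for `1 ≤ n < q`. -/
def Rec {K : Type*} [CommRing K] (B f : ℕ → K) (q : ℕ) (d : ℕ → K) : Prop :=
  ∀ n, n + 2 ≤ q → d (n + 2) + d n = B (n + 1) * d (n + 1) + f (n + 1)

/-! ### Real orbits starting at `π / 2` and the greedy lemma -/

/-- the orbit `x_0 = π / 2`, `x_1 = s`, `x_{n+2} = 2 x_{n+1} + lam sin x_{n+1} - x_n` (lifted to `ℝ`) -/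
noncomputable def W (lam s : ℝ) : ℕ → ℝ
  | 0 => Real.pi / 2
  | 1 => s
  | (n + 2) => 2 * W lam s (n + 1) + lam * Real.sin (W lam s (n + 1)) - W lam s n

/-- its derivative in `s` -/
noncomputable def W1 (lam s : ℝ) : ℕ → ℝ
  | 0 => 0
  | 1 => 1
  | (n + 2) => (2 + lam * Real.cos (W lam s (n + 1))) * W1 lam s (n + 1) - W1 lam s n

/-- its second derivative in `s` -/
noncomputable def W2 (lam s : ℝ) : ℕ → ℝ
  | 0 => 0
  | 1 => 0
  | (n + 2) => (2 + lam * Real.cos (W lam s (n + 1))) * W2 lam s (n + 1)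
      - lam * Real.sin (W lam s (n + 1)) * W1 lam s (n + 1) ^ 2 - W2 lam s n

/-- the good set of angles: away from the critical points and from the well window -/
def GG (x : ℝ) : Prop := 1 / 20 ≤ |Real.cos x| ∧ -49 / 50 ≤ Real.cos x

/-- the sites `1, …, N` of the orbit are good -/
def GN (lam : ℝ) (N : ℕ) (s : ℝ) : Prop := ∀ j, 1 ≤ j → j ≤ N → GG (W lam s j)

/-- `γ` is an approximate reflection -/
def Refl (γ : ℝ → ℝ) : Prop := ∀ a b, |γ a - γ b + (a - b)| ≤ |a - b| / 50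

/-- `Φ` moves on `[a, b]` with speed `p` up to the factors `49/50`, `51/50`; `1 / p` is `K`-Lipschitz. -/
structure Slope (Φ p : ℝ → ℝ) (a b K : ℝ) : Prop where
  cont : ContinuousOn Φ (Icc a b)
  pos : ∀ t ∈ Icc a b, 0 < p t
  lip : ∀ t ∈ Icc a b, ∀ u ∈ Icc a b, |1 / p t - 1 / p u| ≤ K * |t - u|
  lo : ∀ t u c, a ≤ t → t < u → u ≤ b → 0 ≤ c → (∀ v ∈ Icc t u, c ≤ p v) → 49 / 50 * c * (u - t) ≤ |Φ u - Φ t|
  hi : ∀ t u c, a ≤ t → t < u → u ≤ b → (∀ v ∈ Icc t u, p v ≤ c) → |Φ u - Φ t| ≤ 51 / 50 * c * (u - t)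

/-! ### The inner sites of one period -/

/-- reference data of one period: length `q`, reference sites `xi`, integers `m` -/
structure Dat where
  q : ℕ
  xi : ℕ → ℝ
  m : ℕ → ℤ

/-- the same period read backwards -/
def Dat.rev (D : Dat) : Dat := ⟨D.q, fun n => D.xi (D.q - n), fun n => D.m (D.q - n)⟩

/-- the inner reference sites are hyperbolic, the defect of the reference at `lam1` is at most `5` -/
structure Ref (D : Dat) (lam1 : ℝ) : Prop where
  hq : 2 ≤ D.q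
  hlam : 10 ^ 8 ≤ lam1
  cos : ∀ n, 1 ≤ n → n < D.q → 1 / 20 ≤ |Real.cos (D.xi n)|
  defect : ∀ n, n + 2 ≤ D.q → |2 * D.xi (n + 1) + lam1 * Real.sin (D.xi (n + 1)) - 2 * Real.pi * D.m (n + 1)
    - D.xi (n + 2) - D.xi n| ≤ 5

/-- `x` solves the equations of the inner sites `0 < n < q` with the boundary values `X`, `X'` and stays near the reference. -/
structure Sol (D : Dat) (lam : ℝ) (X X' : ℂ) (x : ℕ → ℂ) : Prop where
  left : x 0 = X
  right : x D.q = X'
  eq : ∀ n, n + 2 ≤ D.q → x (n + 2) + x n = 2 * x (n + 1) + lam * Complex.sin (x (n + 1)) - 2 * Real.pi * D.m (n + 1)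
  near : ∀ n, 1 ≤ n → n < D.q → ‖x n - D.xi n‖ ≤ 1 / 1000

open Classical in
/-- the solution (by choice) -/
noncomputable def sol (D : Dat) (lam : ℝ) (X X' : ℂ) : ℕ → ℂ :=
  if h : ∃ x, Sol D lam X X' x then h.choose else 0

/-- the admissible boundary values -/
def Bd (D : Dat) (X X' : ℂ) : Prop := ‖X - D.xi 0‖ ≤ 1 / 2 ∧ ‖X' - D.xi D.q‖ ≤ 1 / 2

/-- the coefficients `A_n = 2 + lam cos x_n` along the solution -/
noncomputable def AA (D : Dat) (lam : ℝ) (X X' : ℂ) (n : ℕ) : ℂ := 2 + lam * Complex.cos (sol D lam X X' n)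

/-- divided difference of the sine -/
noncomputable def dd (a b : ℂ) : ℂ := if a = b then Complex.cos a else (Complex.sin a - Complex.sin b) / (a - b)

/-- `e = ∂ x_1 / ∂ X' = ∂ x_{q-1} / ∂ X` -/
noncomputable def ep (D : Dat) (lam : ℝ) (X X' : ℂ) : ℂ := 1 / th (AA D lam X X') D.q

/-- `∂ x_1 / ∂ X` -/
noncomputable def eL (D : Dat) (lam : ℝ) (X X' : ℂ) : ℂ := -(si (AA D lam X X') D.q / th (AA D lam X X') D.q)

/-- `∂ x_{q-1} / ∂ X'` -/
noncomputable def eR (D : Dat) (lam : ℝ) (X X' : ℂ) : ℂ := th (AA D lam X X') (D.q - 1) / th (AA D lam X X') D.q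

end Pool.Agent.MP31f1e8.KLC
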