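import Pool.Agent.Lib.MP_31f1e8_mp.KLC.Ddc

/-!
# KLC-Ex: existence of the solution of the inner sites (contraction).

PROOF. Write `ξ = D.xi`, `x n = ξ n + y n`. With `G n = 2 + lam * cos (ξ n)` (real, `|G n| ≥ lam / 20 - 2 ≥ lam / 21`) the equation at the site `n` (`1 ≤ n < q`) is
`G n * y n = 2 π m n + ξ (n+1) + ξ (n-1) - 2 ξ n - lam sin (ξ n) + y (n+1) + y (n-1) - lam * (sin (ξ n + y n) - sin (ξ n) - cos (ξ n) * y n)`,
where `y 0 = X - ξ 0`, `y q = X' - ξ q` have norm `≤ 1/2`. Let `T y n` be the right side divided by `G n` for `1 ≤ n < q`, `T y 0 = X - ξ 0`, `T y q = X' - ξ q`, `0` elsewhere.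
Complete metric space: e.g. `{y : Fin (q+1) → ℂ | y 0 = X - ξ 0 ∧ y q = X' - ξ q ∧ ∀ n inner, ‖y n‖ ≤ 1/1000}` (closed subset of a finite product with the sup distance; closed and nonempty, `IsClosed.isComplete`)
or the same in `BoundedContinuousFunction ℕ ℂ`; `ContractingWith.exists_fixedPoint'` or `ContractingWith` on the subtype.
Estimates: the constant part has norm `≤ 5 + 1` (defect at `lam1`, plus `|lam - lam1| |sin ξ| ≤ 1`), `‖y (n±1)‖ ≤ 1/2`, and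
`‖sin (ξ + y) - sin (ξ + y') - cos ξ (y - y')‖ = ‖dd (ξ+y) (ξ+y') - cos ξ‖ ‖y - y'‖ ≤ (6/5) (1/1000) ‖y - y'‖` (`dd_mul`, `dd_near`), so
`‖T y n‖ ≤ (7 + lam (6/5) (1/1000)^2) / (lam / 21) ≤ 1/1000` (`lam ≥ 10^7`: `147/lam ≤ 1.5e-5`, `21 * 1.2e-6 = 2.6e-5`), and `T` is a contraction with constant `(2 + lam * 6/5000) / (lam/21) ≤ 1/10`.
Final bound: at the fixed point `‖y n‖ ≤ (7 + lam (6/5000) ‖y n‖) * 21 / lam`, so `‖y n‖ (1 - 0.0252) ≤ 147 / lam`, `‖y n‖ ≤ 200 / lam`.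
(`lam ≥ lam1 - 1 ≥ 10^7`.)
-/

namespace Pool.Agent.MP31f1e8.KLC

open Set

/-- the Taylor remainder of the sine -/
private noncomputable def exR (x : ℝ) (y : ℂ) : ℂ :=
  Complex.sin (x + y) - Complex.sin x - Complex.cos x * y

private theorem exR_zero (x : ℝ) : exR x 0 = 0 := by simp [exR]

private theorem exR_lip (x : ℝ) {y y' : ℂ} (hy : ‖y‖ ≤ 1 / 1000) (hy' : ‖y'‖ ≤ 1 / 1000) :
    ‖exR x y - exR x y'‖ ≤ 6 / 5000 * ‖y - y'‖ := by
  have h1 : exR x y - exR x y' = (dd (x + y) (x + y') - Real.cos x) * (y - y') := by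
    have := dd_mul ((x : ℂ) + y) (x + y')
    have h2 : ((x : ℂ) + y) - (x + y') = y - y' := by ring
    rw [h2] at this
    rw [sub_mul, ← this]
    simp only [exR, Complex.ofReal_cos]
    ring
  have h2 : ‖dd (x + y) (x + y') - Real.cos x‖ ≤ 6 / 5 * (1 / 1000) := by
    apply dd_near (by norm_num)
    · simpa using hy
    · simpa using hy'
  rw [h1, norm_mul]
  calc _ ≤ 6 / 5 * (1 / 1000) * ‖y - y'‖ := mul_le_mul_of_nonneg_right h2 (norm_nonneg _)
    _ = _ := by ring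

private theorem exR_norm (x : ℝ) {y : ℂ} (hy : ‖y‖ ≤ 1 / 1000) : ‖exR x y‖ ≤ 6 / 5000 * ‖y‖ := by
  have := exR_lip x hy (y' := 0) (by simp)
  simpa [exR_zero] using this

/-- all sites from the inner ones -/
private noncomputable def exE (D : Dat) (X X' : ℂ) (y : Fin (D.q - 1) → ℂ) (n : ℕ) : ℂ :=
  if n = 0 then X - D.xi 0 else if h : n - 1 < D.q - 1 then y ⟨n - 1, h⟩ else X' - D.xi D.q

private theorem exE_norm {D : Dat} {X X' : ℂ} (hb : Bd D X X') {y : Fin (D.q - 1) → ℂ} (hy : ∀ i, ‖y i‖ ≤ 1 / 1000) (n : ℕ) :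
    ‖exE D X X' y n‖ ≤ 1 / 2 := by
  unfold exE
  split_ifs with h1 h2
  · exact hb.1
  · exact (hy _).trans (by norm_num)
  · exact hb.2

private theorem exE_diff {D : Dat} {X X' : ℂ} (y y' : Fin (D.q - 1) → ℂ) (n : ℕ) :
    ‖exE D X X' y n - exE D X X' y' n‖ ≤ dist y y' := by
  unfold exE
  split_ifs with h1 h2
  · simp
  · rw [← dist_eq_norm]
    exact dist_le_pi_dist y y' _
  · simp

private theorem exE_succ {D : Dat} {X X' : ℂ} (y : Fin (D.q - 1) → ℂ) (i : Fin (D.q - 1)) :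
    exE D X X' y (i + 1) = y i := by
  unfold exE
  rw [if_neg (Nat.succ_ne_zero _), dif_pos (by simp)]
  rfl

/-- the constant part -/
private noncomputable def exC (D : Dat) (lam : ℝ) (n : ℕ) : ℝ :=
  -(2 * D.xi (n + 1) + lam * Real.sin (D.xi (n + 1)) - 2 * Real.pi * D.m (n + 1) - D.xi (n + 2) - D.xi n)

private theorem exC_le {D : Dat} {lam1 lam : ℝ} (h : Ref D lam1) (hl : |lam - lam1| ≤ 1) {n : ℕ} (hn : n + 2 ≤ D.q) :
    |exC D lam n| ≤ 6 := by
  have h1 := h.defect n hn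
  have h2 : |(lam - lam1) * Real.sin (D.xi (n + 1))| ≤ 1 := by
    rw [abs_mul]
    calc _ ≤ 1 * 1 := mul_le_mul hl (Real.abs_sin_le_one _) (abs_nonneg _) zero_le_one
      _ = 1 := by norm_num
  have h3 : exC D lam n = -((2 * D.xi (n + 1) + lam1 * Real.sin (D.xi (n + 1)) - 2 * Real.pi * D.m (n + 1)
    - D.xi (n + 2) - D.xi n) + (lam - lam1) * Real.sin (D.xi (n + 1))) := by
    unfold exC; ring
  rw [h3, abs_neg]
  exact (abs_add_le _ _).trans (by linarith)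

/-- the coefficient -/
private noncomputable def exG (D : Dat) (lam : ℝ) (n : ℕ) : ℝ := 2 + lam * Real.cos (D.xi n)

private theorem exG_ge {D : Dat} {lam1 lam : ℝ} (h : Ref D lam1) (hlam : 10 ^ 7 ≤ lam) {n : ℕ} (h1 : 1 ≤ n) (h2 : n < D.q) :
    lam / 21 ≤ |exG D lam n| := by
  have h3 := h.cos n h1 h2
  have hpos : 0 < lam := by linarith [show (0 : ℝ) < 10 ^ 7 by norm_num]
  have h4 : |lam * Real.cos (D.xi n)| = lam * |Real.cos (D.xi n)| := by
    rw [abs_mul, abs_of_pos hpos]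
  have h5 : lam * (1 / 20) ≤ lam * |Real.cos (D.xi n)| := mul_le_mul_of_nonneg_left h3 hpos.le
  have h6 : |lam * Real.cos (D.xi n)| ≤ |exG D lam n| + 2 := by
    have : lam * Real.cos (D.xi n) = exG D lam n - 2 := by unfold exG; ring
    rw [this]
    exact (abs_sub _ _).trans (by norm_num)
  have h7 : (10 : ℝ) ^ 7 = 10000000 := by norm_num
  rw [h7] at hlam
  linarith

/-- the contraction -/
private noncomputable def exT (D : Dat) (lam : ℝ) (X X' : ℂ) (y : Fin (D.q - 1) → ℂ) : Fin (D.q - 1) → ℂ := fun i =>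
  ((exC D lam i : ℝ) + exE D X X' y (i + 2) + exE D X X' y i - lam * exR (D.xi (i + 1)) (y i)) / (exG D lam (i + 1) : ℝ)

private theorem exG_norm_ge {D : Dat} {lam1 lam : ℝ} (h : Ref D lam1) (hlam : 10 ^ 7 ≤ lam) (i : Fin (D.q - 1)) :
    lam / 21 ≤ ‖((exG D lam (i + 1) : ℝ) : ℂ)‖ := by
  rw [Complex.norm_real, Real.norm_eq_abs]
  exact exG_ge h hlam (by omega) (by have := i.2; omega)

private theorem exN_norm {D : Dat} {lam1 lam : ℝ} (h : Ref D lam1) (hl : |lam - lam1| ≤ 1) (hlam : 10 ^ 7 ≤ lam)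
    {X X' : ℂ} (hb : Bd D X X') {y : Fin (D.q - 1) → ℂ} (hy : ∀ i, ‖y i‖ ≤ 1 / 1000) (i : Fin (D.q - 1)) :
    ‖((exC D lam i : ℝ) : ℂ) + exE D X X' y (i + 2) + exE D X X' y i - lam * exR (D.xi (i + 1)) (y i)‖
      ≤ 7 + lam * (6 / 5000 * ‖y i‖) := by
  have hpos : 0 < lam := by linarith [show (0 : ℝ) < 10 ^ 7 by norm_num]
  have h1 : ‖((exC D lam i : ℝ) : ℂ)‖ ≤ 6 := by
    rw [Complex.norm_real, Real.norm_eq_abs]
    exact exC_le h hl (by have := i.2; omega)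
  have h2 := exE_norm hb hy (i + 2)
  have h3 := exE_norm hb hy (i : ℕ)
  have h4 : ‖(lam : ℂ) * exR (D.xi (i + 1)) (y i)‖ ≤ lam * (6 / 5000 * ‖y i‖) := by
    rw [norm_mul, Complex.norm_real, Real.norm_eq_abs, abs_of_pos hpos]
    exact mul_le_mul_of_nonneg_left (exR_norm _ (hy i)) hpos.le
  calc _ ≤ ‖((exC D lam i : ℝ) : ℂ) + exE D X X' y (i + 2) + exE D X X' y i‖ + ‖(lam : ℂ) * exR (D.xi (i + 1)) (y i)‖ := norm_sub_le _ _
    _ ≤ (‖((exC D lam i : ℝ) : ℂ)‖ + ‖exE D X X' y (i + 2)‖ + ‖exE D X X' y i‖) + ‖(lam : ℂ) * exR (D.xi (i + 1)) (y i)‖ := by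
        gcongr; exact norm_add₃_le
    _ ≤ _ := by linarith

private theorem exT_maps {D : Dat} {lam1 lam : ℝ} (h : Ref D lam1) (hl : |lam - lam1| ≤ 1) (hlam : 10 ^ 7 ≤ lam)
    {X X' : ℂ} (hb : Bd D X X') {y : Fin (D.q - 1) → ℂ} (hy : ∀ i, ‖y i‖ ≤ 1 / 1000) (i : Fin (D.q - 1)) :
    ‖exT D lam X X' y i‖ ≤ 1 / 1000 := by
  have hpos : 0 < lam := by linarith [show (0 : ℝ) < 10 ^ 7 by norm_num]
  have hG := exG_norm_ge h hlam i
  have hG0 : 0 < ‖((exG D lam (i + 1) : ℝ) : ℂ)‖ := lt_of_lt_of_le (by positivity) hG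
  unfold exT
  rw [norm_div, div_le_iff₀ hG0]
  have h1 := exN_norm h hl hlam hb hy i
  have h2 := hy i
  have h3 : lam * (6 / 5000 * ‖y i‖) ≤ lam * (6 / 5000 * (1 / 1000)) := by gcongr
  have h7 : (10 : ℝ) ^ 7 = 10000000 := by norm_num
  rw [h7] at hlam
  linarith

private theorem exT_lip {D : Dat} {lam1 lam : ℝ} (h : Ref D lam1) (hlam : 10 ^ 7 ≤ lam)
    {X X' : ℂ} {y y' : Fin (D.q - 1) → ℂ} (hy : ∀ i, ‖y i‖ ≤ 1 / 1000) (hy' : ∀ i, ‖y' i‖ ≤ 1 / 1000)
    (i : Fin (D.q - 1)) :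
    ‖exT D lam X X' y i - exT D lam X X' y' i‖ ≤ 1 / 2 * dist y y' := by
  have hpos : 0 < lam := by linarith [show (0 : ℝ) < 10 ^ 7 by norm_num]
  have hG := exG_norm_ge h hlam i
  have hG0 : 0 < ‖((exG D lam (i + 1) : ℝ) : ℂ)‖ := lt_of_lt_of_le (by positivity) hG
  unfold exT
  rw [← sub_div, norm_div, div_le_iff₀ hG0]
  have e : ((exC D lam i : ℝ) : ℂ) + exE D X X' y (i + 2) + exE D X X' y i - lam * exR (D.xi (i + 1)) (y i)
      - (((exC D lam i : ℝ) : ℂ) + exE D X X' y' (i + 2) + exE D X X' y' i - lam * exR (D.xi (i + 1)) (y' i))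
      = (exE D X X' y (i + 2) - exE D X X' y' (i + 2)) + (exE D X X' y i - exE D X X' y' i)
        - lam * (exR (D.xi (i + 1)) (y i) - exR (D.xi (i + 1)) (y' i)) := by ring
  rw [e]
  have h1 := exE_diff (X := X) (X' := X') y y' (i + 2)
  have h2 := exE_diff (X := X) (X' := X') y y' (i : ℕ)
  have hd : ‖y i - y' i‖ ≤ dist y y' := by
    rw [← dist_eq_norm]; exact dist_le_pi_dist y y' i
  have h4 : ‖(lam : ℂ) * (exR (D.xi (i + 1)) (y i) - exR (D.xi (i + 1)) (y' i))‖ ≤ lam * (6 / 5000 * dist y y') := by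
    rw [norm_mul, Complex.norm_real, Real.norm_eq_abs, abs_of_pos hpos]
    refine mul_le_mul_of_nonneg_left ((exR_lip _ (hy i) (hy' i)).trans ?_) hpos.le
    gcongr
  have h5 : (0 : ℝ) ≤ dist y y' := dist_nonneg
  have h7 : (10 : ℝ) ^ 7 = 10000000 := by norm_num
  rw [h7] at hlam
  have h6 : 1 / 2 * dist y y' * (lam / 21) ≤ 1 / 2 * dist y y' * ‖((exG D lam (i + 1) : ℝ) : ℂ)‖ := by gcongr
  have h8 : dist y y' * 10000000 ≤ dist y y' * lam := mul_le_mul_of_nonneg_left hlam h5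
  calc _ ≤ ‖(exE D X X' y (i + 2) - exE D X X' y' (i + 2)) + (exE D X X' y i - exE D X X' y' i)‖
        + ‖(lam : ℂ) * (exR (D.xi (i + 1)) (y i) - exR (D.xi (i + 1)) (y' i))‖ := norm_sub_le _ _
    _ ≤ (‖exE D X X' y (i + 2) - exE D X X' y' (i + 2)‖ + ‖exE D X X' y i - exE D X X' y' i‖)
        + ‖(lam : ℂ) * (exR (D.xi (i + 1)) (y i) - exR (D.xi (i + 1)) (y' i))‖ := by
          gcongr; exact norm_add_le _ _
    _ ≤ 2 * dist y y' + lam * (6 / 5000 * dist y y') := by linarith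
    _ ≤ 1 / 2 * dist y y' * (lam / 21) := by nlinarith
    _ ≤ _ := h6

theorem exists_sol {D : Dat} {lam1 lam : ℝ} (h : Ref D lam1) (hl : |lam - lam1| ≤ 1) {X X' : ℂ} (hb : Bd D X X') :
    ∃ x, Sol D lam X X' x ∧ ∀ n, 1 ≤ n → n < D.q → ‖x n - D.xi n‖ ≤ 200 / lam := by
  have hlam : (10 : ℝ) ^ 7 ≤ lam := by
    have h1 := h.hlam
    have h2 := (abs_le.mp hl).1
    have h3 : (10 : ℝ) ^ 8 = 100000000 := by norm_num
    have h4 : (10 : ℝ) ^ 7 = 10000000 := by norm_num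
    rw [h3] at h1
    rw [h4]
    linarith
  have hpos : 0 < lam := by linarith [show (0 : ℝ) < 10 ^ 7 by norm_num]
  have hq := h.hq
  let s : Set (Fin (D.q - 1) → ℂ) := Metric.closedBall 0 (1 / 1000)
  have hs : ∀ y, y ∈ s ↔ ∀ i, ‖y i‖ ≤ 1 / 1000 := by
    intro y
    simp only [s, Metric.mem_closedBall, dist_zero_right]
    exact pi_norm_le_iff_of_nonneg (by norm_num)
  have hsc : IsComplete s := Metric.isClosed_closedBall.isComplete
  have hmaps : MapsTo (exT D lam X X') s s := by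
    intro y hy
    rw [hs] at hy ⊢
    exact exT_maps h hl hlam hb hy
  have hc : ContractingWith (1 / 2 : NNReal) (hmaps.restrict (exT D lam X X') s s) := by
    refine ⟨by
      rw [← NNReal.coe_lt_coe]; norm_num, LipschitzWith.of_dist_le_mul ?_⟩
    rintro ⟨y, hy⟩ ⟨y', hy'⟩
    rw [Subtype.dist_eq, Subtype.dist_eq]
    simp only [MapsTo.val_restrict_apply]
    rw [dist_pi_le_iff (by positivity)]
    intro i
    rw [dist_eq_norm]
    have := exT_lip h hlam (X := X) (X' := X') ((hs y).1 hy) ((hs y').1 hy') i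
    simpa using this
  obtain ⟨y, hys, hfix, -⟩ := hc.exists_fixedPoint' hsc hmaps (x := 0) (by simp [s]) (edist_ne_top _ _)
  have hy := (hs y).1 hys
  have hfix' : ∀ i, exT D lam X X' y i = y i := fun i => congrFun hfix i
  have key : ∀ i : Fin (D.q - 1), ((exG D lam (i + 1) : ℝ) : ℂ) * y i
      = ((exC D lam i : ℝ) : ℂ) + exE D X X' y (i + 2) + exE D X X' y i - lam * exR (D.xi (i + 1)) (y i) := by
    intro i
    have hG := exG_norm_ge h hlam i
    have hG0 : ((exG D lam (i + 1) : ℝ) : ℂ) ≠ 0 := by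
      rw [← norm_pos_iff]
      exact lt_of_lt_of_le (by positivity) hG
    have h1 := hfix' i
    unfold exT at h1
    rw [div_eq_iff hG0] at h1
    rw [h1]; ring
  have hbd : ∀ i : Fin (D.q - 1), ‖y i‖ ≤ 200 / lam := by
    intro i
    have h1 := exN_norm h hl hlam hb hy i
    rw [← key i, norm_mul] at h1
    have hG := exG_norm_ge h hlam i
    have h2 : lam / 21 * ‖y i‖ ≤ ‖((exG D lam (i + 1) : ℝ) : ℂ)‖ * ‖y i‖ := by gcongr
    rw [le_div_iff₀ hpos]
    nlinarith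
  have hx : ∀ n, 1 ≤ n → n < D.q → ∃ i : Fin (D.q - 1), n = i + 1 := by
    intro n h1 h2
    exact ⟨⟨n - 1, by omega⟩, by simp; omega⟩
  refine ⟨fun n => D.xi n + exE D X X' y n, ⟨?_, ?_, ?_, ?_⟩, ?_⟩
  · simp [exE]
  · simp only [exE]
    rw [if_neg (by omega), dif_neg (by omega)]
    ring
  · intro n hn
    have hn' : n < D.q - 1 := by omega
    have h1 := key ⟨n, hn'⟩
    have h2 := exE_succ (X := X) (X' := X') y ⟨n, hn'⟩
    simp only at h1 h2
    simp only [h2]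
    have h3 : ((exG D lam (n + 1) : ℝ) : ℂ) = 2 + lam * Complex.cos (D.xi (n + 1)) := by
      simp [exG]
    have h4 : ((exC D lam n : ℝ) : ℂ) = -(2 * D.xi (n + 1) + lam * Complex.sin (D.xi (n + 1)) - 2 * Real.pi * D.m (n + 1)
        - D.xi (n + 2) - D.xi n) := by
      simp [exC]
    rw [h3, h4] at h1
    unfold exR at h1
    linear_combination -h1
  · intro n h1 h2
    obtain ⟨i, rfl⟩ := hx n h1 h2
    have h3 := exE_succ (X := X) (X' := X') y i
    simp only [h3, add_sub_cancel_left]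
    exact hy i
  · intro n h1 h2
    obtain ⟨i, rfl⟩ := hx n h1 h2
    have h3 := exE_succ (X := X) (X' := X') y i
    simp only [h3, add_sub_cancel_left]
    exact hbd i

end Pool.Agent.MP31f1e8.KLC
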