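import Pool.Agent.Lib.MP_31f1e8_mp.KLC.Phi
import Pool.Agent.Lib.MP_31f1e8_mp.KLC.Cau

/-!
# KLC-ExpV: power series of `Ph` in the scaled variable, for `lam` near `lam2`.

Notation: `ς = sgm D X0 lam2`, `ε = ep D lam2 X0 X0` (real, `ε.re`), `ρ0 = 1 / (4 |ς|) ≥ 250`; for `‖x‖ ≤ ρ0`: `‖X0 + ς x - π/2‖ ≤ 1/10 + 1/4 < 1/2`.
PROOFS.
* `v_base`: `Ψ x = Ph D X0 lam2 (X0 + ς x) / (ε ς)`: `Ψ 0 = 0` (`Ph_zero`), `Ψ' 0 = Phd X0 / ε = 2 cc` (`Phd_zero`), `Ψ'' 0 = ς Φ''/ε = 2` (definition of `sgm`; `Phdd`: `Φ''` real; `ep_real`), `‖Ψ‖ ≤ 2 lam2 (1/4) / (‖ε‖ |ς|)` on the ball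
  (`Ph_lip`, `Ph_zero`). `cauchy_one`; put `v j = Re g j` for `j ≥ 3`, `0` for `j ≤ 2`: `∑ |v j| ≤ (lam2 / (2 ‖ε‖ |ς|)) ρ0^{-3} * 2 = 64 lam2 ς^2/‖ε‖ ≤ 1024 ‖ε‖/lam2 ≤ ‖ε‖/1000` (`sgm_bounds`). `Ph` is real on the real axis (`Ph_im`).
* `v_near`: `Ψ x = (Ph D X0 lam (X0 + ς x) - Ph D X0 lam2 (X0 + ς x))/(ε ς)`, `‖Ψ‖ ≤ 2 |lam - lam2| / (‖ε‖ |ς|)` (`Ph_lam`), `cauchy_one`, geometric series.
-/

namespace Pool.Agent.MP31f1e8.KLC

open Set

private theorem ExpV_re {g : ℕ → ℂ} {F : ℂ} {x : ℝ} (h : HasSum (fun j => g j * (x : ℂ) ^ j) F) :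
    HasSum (fun j => (g j).re * x ^ j) F.re := by
  have h1 := Complex.hasSum_re h
  have e : (fun j => (g j * (x : ℂ) ^ j).re) = fun j => (g j).re * x ^ j := by
    funext j
    rw [← Complex.ofReal_pow, Complex.re_mul_ofReal]
  rw [e] at h1
  exact h1

private theorem ExpV_geo {r M : ℝ} (h0 : 0 ≤ r) (h1 : r ≤ 1 / 2) (hM : 0 ≤ M) {v : ℕ → ℝ} (hv : ∀ j, |v j| ≤ M * r ^ j) :
    Summable (fun j => |v j|) ∧ ∑' j, |v j| ≤ 2 * M := by
  have hs : Summable fun j : ℕ => M * r ^ j := (summable_geometric_of_lt_one h0 (by linarith)).mul_left M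
  have hs' : Summable (fun j => |v j|) := Summable.of_nonneg_of_le (fun j => abs_nonneg _) hv hs
  refine ⟨hs', ?_⟩
  have h2 : ∑' j, |v j| ≤ ∑' j : ℕ, M * r ^ j := hs'.tsum_le_tsum hv hs
  rw [tsum_mul_left, tsum_geometric_of_lt_one h0 (by linarith)] at h2
  have h3 : (1 - r)⁻¹ ≤ 2 := by
    rw [inv_le_comm₀ (by linarith) (by norm_num)]
    linarith
  nlinarith

private theorem ExpV_bd {D : Dat} {lam1 lam2 X0 : ℝ} (T : Tun D lam1 lam2 X0) {x : ℂ} (hx : ‖x‖ < 1 / (4 * |sgm D X0 lam2|)) :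
    ‖((X0 : ℂ) + (sgm D X0 lam2 : ℂ) * x) - (Real.pi / 2 : ℝ)‖ < 1 / 2 ∧ ‖((X0 : ℂ) + (sgm D X0 lam2 : ℂ) * x) - (X0 : ℂ)‖ ≤ 1 / 4 := by
  obtain ⟨hs0, -, -, -⟩ := sgm_bounds T
  have hs : 0 < |sgm D X0 lam2| := abs_pos.2 hs0
  have h1 : ‖(sgm D X0 lam2 : ℂ) * x‖ < 1 / 4 := by
    rw [norm_mul, Complex.norm_real, Real.norm_eq_abs]
    calc |sgm D X0 lam2| * ‖x‖ < |sgm D X0 lam2| * (1 / (4 * |sgm D X0 lam2|)) := mul_lt_mul_of_pos_left hx hs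
      _ = 1 / 4 := by field_simp
  have h2 : |X0 - Real.pi / 2| ≤ 1 / 10 := by
    have := T.hX
    unfold UU at this
    rw [abs_le]
    constructor <;> linarith [this.1, this.2]
  constructor
  · have e : ((X0 : ℂ) + (sgm D X0 lam2 : ℂ) * x) - (Real.pi / 2 : ℝ) = ((X0 - Real.pi / 2 : ℝ) : ℂ) + (sgm D X0 lam2 : ℂ) * x := by
      push_cast
      ring
    rw [e]
    calc ‖((X0 - Real.pi / 2 : ℝ) : ℂ) + (sgm D X0 lam2 : ℂ) * x‖ ≤ ‖((X0 - Real.pi / 2 : ℝ) : ℂ)‖ + ‖(sgm D X0 lam2 : ℂ) * x‖ := norm_add_le _ _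
      _ = |X0 - Real.pi / 2| + ‖(sgm D X0 lam2 : ℂ) * x‖ := by rw [Complex.norm_real, Real.norm_eq_abs]
      _ < 1 / 2 := by linarith
  · rw [add_sub_cancel_left]
    exact h1.le

private theorem ExpV_X0 {D : Dat} {lam1 lam2 X0 : ℝ} (T : Tun D lam1 lam2 X0) : ‖(X0 : ℂ) - (Real.pi / 2 : ℝ)‖ ≤ 1 / 2 := by
  have := T.hX
  unfold UU at this
  rw [← Complex.ofReal_sub, Complex.norm_real, Real.norm_eq_abs, abs_le]
  constructor <;> linarith [this.1, this.2]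

private theorem ExpV_ep {D : Dat} {lam1 lam2 X0 : ℝ} (T : Tun D lam1 lam2 X0) :
    (((ep D lam2 X0 X0).re : ℝ) : ℂ) = ep D lam2 X0 X0 ∧ (ep D lam2 X0 X0).re ≠ 0 ∧ ‖ep D lam2 X0 X0‖ = |(ep D lam2 X0 X0).re| := by
  have hX : |X0 - Real.pi / 2| ≤ 1 / 2 := by
    have := T.hX
    unfold UU at this
    rw [abs_le]
    constructor <;> linarith [this.1, this.2]
  have hb := crit_bd T.crit hX hX
  have hl : |lam2 - lam1| ≤ 1 := T.hl.trans (by norm_num)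
  have h1 := (ep_real T.crit.ref hl hb).1
  have h2 := ep_ne T.crit.ref hl hb
  refine ⟨h1, ?_, ?_⟩
  · intro h0
    rw [← h1, h0] at h2
    exact h2 Complex.ofReal_zero
  · conv_lhs => rw [← h1]
    rw [Complex.norm_real, Real.norm_eq_abs]

private theorem ExpV_rho {D : Dat} {lam1 lam2 X0 : ℝ} (T : Tun D lam1 lam2 X0) :
    0 < 1 / (4 * |sgm D X0 lam2|) ∧ 250 ≤ 1 / (4 * |sgm D X0 lam2|) := by
  obtain ⟨hs0, -, -, h3⟩ := sgm_bounds T
  have hs : 0 < |sgm D X0 lam2| := abs_pos.2 hs0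
  refine ⟨by positivity, ?_⟩
  rw [le_div_iff₀ (by positivity)]
  linarith

private theorem ExpV_deriv {D : Dat} {lam1 lam lam2 X0 : ℝ} (T : Tun D lam1 lam2 X0) (hl : |lam - lam1| ≤ 1) {x : ℂ}
    (hx : ‖x‖ < 1 / (4 * |sgm D X0 lam2|)) :
    HasDerivAt (fun x : ℂ => Ph D X0 lam ((X0 : ℂ) + (sgm D X0 lam2 : ℂ) * x))
      (Phd D X0 lam ((X0 : ℂ) + (sgm D X0 lam2 : ℂ) * x) * (sgm D X0 lam2 : ℂ)) x := by
  have h1 := Ph_deriv T.crit hl T.hX (ExpV_bd T hx).1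
  have h2 : HasDerivAt (fun x : ℂ => (X0 : ℂ) + (sgm D X0 lam2 : ℂ) * x) (sgm D X0 lam2 : ℂ) x := by
    have := ((hasDerivAt_id x).const_mul (sgm D X0 lam2 : ℂ)).const_add (X0 : ℂ)
    simpa using this
  exact HasDerivAt.comp x h1 h2

theorem v_base {D : Dat} {lam1 lam2 X0 : ℝ} (T : Tun D lam1 lam2 X0) : ∃ v : ℕ → ℝ, Summable (fun j => |v j|) ∧
    ∑' j, |v j| ≤ ‖ep D lam2 X0 X0‖ / 1000 ∧ ∀ x ∈ Icc (-1 : ℝ) 1,
      (Ph D X0 lam2 ((X0 + sgm D X0 lam2 * x : ℝ) : ℂ)).re =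
        (ep D lam2 X0 X0).re * sgm D X0 lam2 * (2 * KLF.cc * x + x ^ 2 + ∑' j, v j * x ^ j) := by
  obtain ⟨he, he0, hen⟩ := ExpV_ep T
  obtain ⟨hs0, hs1, hs2, hs3⟩ := sgm_bounds T
  obtain ⟨hρ, hρ1⟩ := ExpV_rho T
  have hl : |lam2 - lam1| ≤ 1 := T.hl.trans (by norm_num)
  have hlam : (10 : ℝ) ^ 7 ≤ lam2 := by
    have h1 := T.crit.ref.hlam
    have h2 := abs_le.1 T.hl
    linarith [h2.1]
  set e : ℝ := (ep D lam2 X0 X0).re with hedef
  set s : ℝ := sgm D X0 lam2 with hsdef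
  set R : ℝ := 1 / (4 * |s|) with hRdef
  have hsp : 0 < |s| := abs_pos.2 hs0
  have hep : 0 < |e| := abs_pos.2 he0
  have hsC : (s : ℂ) ≠ 0 := Complex.ofReal_ne_zero.2 hs0
  have heC : (e : ℂ) ≠ 0 := Complex.ofReal_ne_zero.2 he0
  set M : ℝ := lam2 / 2 / (|e| * |s|) with hMdef
  have hM0 : 0 ≤ M := by positivity
  -- the function
  have hder : ∀ x : ℂ, ‖x‖ < R → HasDerivAt (fun x : ℂ => Ph D X0 lam2 ((X0 : ℂ) + (s : ℂ) * x) / ((e : ℂ) * s))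
      (Phd D X0 lam2 ((X0 : ℂ) + (s : ℂ) * x) / e) x := by
    intro x hx
    have h := (ExpV_deriv T hl hx).div_const ((e : ℂ) * s)
    have e1 : Phd D X0 lam2 ((X0 : ℂ) + (s : ℂ) * x) * (s : ℂ) / ((e : ℂ) * s) = Phd D X0 lam2 ((X0 : ℂ) + (s : ℂ) * x) / e := by
      field_simp
    rw [← e1]
    exact h
  have hdiff : DifferentiableOn ℂ (fun x : ℂ => Ph D X0 lam2 ((X0 : ℂ) + (s : ℂ) * x) / ((e : ℂ) * s)) (Metric.ball 0 R) := by
    intro x hx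
    rw [mem_ball_zero_iff] at hx
    exact (hder x hx).differentiableAt.differentiableWithinAt
  have hbd : ∀ x ∈ Metric.ball (0 : ℂ) R, ‖Ph D X0 lam2 ((X0 : ℂ) + (s : ℂ) * x) / ((e : ℂ) * s)‖ ≤ M := by
    intro x hx
    rw [mem_ball_zero_iff] at hx
    obtain ⟨h1, h2⟩ := ExpV_bd T hx
    have h3 := Ph_lip T.crit hl T.hX h1.le (ExpV_X0 T)
    rw [Ph_zero T, sub_zero] at h3
    rw [norm_div, norm_mul, Complex.norm_real, Complex.norm_real, Real.norm_eq_abs, Real.norm_eq_abs, hMdef]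
    apply div_le_div_of_nonneg_right _ (by positivity)
    calc ‖Ph D X0 lam2 ((X0 : ℂ) + (s : ℂ) * x)‖ ≤ 2 * lam2 * ‖((X0 : ℂ) + (s : ℂ) * x) - (X0 : ℂ)‖ := h3
      _ ≤ 2 * lam2 * (1 / 4) := mul_le_mul_of_nonneg_left h2 (by linarith)
      _ = lam2 / 2 := by ring
  obtain ⟨g, g0, g1, g2, gb, gs⟩ := cauchy_one hρ hdiff hbd
  have hg0 : g 0 = 0 := by
    rw [g0]
    simp only [mul_zero, add_zero]
    rw [Ph_zero T, zero_div]
  have hg1 : g 1 = ((2 * KLF.cc : ℝ) : ℂ) := by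
    rw [g1, (hder 0 (by simpa using hρ)).deriv, mul_zero, add_zero, Phd_zero T, ← he]
    push_cast
    field_simp
  have hg2 : g 2 = 1 := by
    have h1 : deriv (fun x : ℂ => Ph D X0 lam2 ((X0 : ℂ) + (s : ℂ) * x) / ((e : ℂ) * s)) =ᶠ[nhds 0]
        fun x : ℂ => Phd D X0 lam2 ((X0 : ℂ) + (s : ℂ) * x) / e := by
      have : Metric.ball (0 : ℂ) R ∈ nhds (0 : ℂ) := Metric.ball_mem_nhds _ hρ
      filter_upwards [this] with x hx
      rw [mem_ball_zero_iff] at hx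
      exact (hder x hx).deriv
    have h2 : HasDerivAt (Phd D X0 lam2) (deriv (Phd D X0 lam2) X0) ((X0 : ℂ) + (s : ℂ) * 0) := by
      rw [mul_zero, add_zero]
      have h4 : ‖(X0 : ℂ) - (Real.pi / 2 : ℝ)‖ < 1 / 2 := by
        have := (ExpV_bd T (x := 0) (by rw [norm_zero]; exact hρ)).1
        simpa using this
      exact (Phd_diff T.crit hl T.hX h4).hasDerivAt
    have h3 : HasDerivAt (fun x : ℂ => (X0 : ℂ) + (s : ℂ) * x) (s : ℂ) 0 := by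
      have := ((hasDerivAt_id (0 : ℂ)).const_mul (s : ℂ)).const_add (X0 : ℂ)
      simpa using this
    have h5 : HasDerivAt (fun x : ℂ => Phd D X0 lam2 ((X0 : ℂ) + (s : ℂ) * x) / e) (deriv (Phd D X0 lam2) X0 * s / e) 0 :=
      (HasDerivAt.comp (0 : ℂ) h2 h3).div_const _
    rw [g2, h1.deriv_eq, h5.deriv]
    have h6 : s = 2 * e / (deriv (Phd D X0 lam2) X0).re := rfl
    have h7 : (deriv (Phd D X0 lam2) X0).re ≠ 0 := by
      intro h0
      rw [h0, div_zero] at h6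
      exact hs0 h6
    have h8 : (((deriv (Phd D X0 lam2) X0).re : ℝ) : ℂ) = deriv (Phd D X0 lam2) X0 :=
      Complex.ext (by simp) (by rw [(Phdd T).2]; simp)
    have h9 : (deriv (Phd D X0 lam2) X0).re * s = 2 * e := by
      rw [h6]
      field_simp
    have h10 : deriv (Phd D X0 lam2) X0 * (s : ℂ) = 2 * (e : ℂ) := by
      rw [← h8]
      exact_mod_cast h9
    rw [h10]
    field_simp
  refine ⟨fun j => if j < 3 then 0 else (g j).re, ?_⟩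
  have hR0 : R⁻¹ ≤ 1 / 2 := by
    rw [inv_le_comm₀ hρ (by norm_num)]
    linarith
  have hgv : ∀ j : ℕ, |(g (j + 3)).re| ≤ M * R⁻¹ ^ 3 * R⁻¹ ^ j := by
    intro j
    calc |(g (j + 3)).re| ≤ ‖g (j + 3)‖ := Complex.abs_re_le_norm _
      _ ≤ M / R ^ (j + 3) := gb _
      _ = M * R⁻¹ ^ 3 * R⁻¹ ^ j := by rw [div_eq_mul_inv, ← inv_pow, pow_add]; ring
  obtain ⟨S1, S2⟩ := ExpV_geo (inv_nonneg.2 hρ.le) hR0 (by positivity) hgv
  have hshift : (fun j : ℕ => |(if j + 3 < 3 then (0 : ℝ) else (g (j + 3)).re)|) = fun j => |(g (j + 3)).re| := by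
    funext j
    rw [if_neg (by omega)]
  have hsum : Summable (fun j : ℕ => |(if j < 3 then (0 : ℝ) else (g j).re)|) := by
    rw [← summable_nat_add_iff 3, hshift]
    exact S1
  refine ⟨hsum, ?_, ?_⟩
  · rw [← hsum.sum_add_tsum_nat_add 3, hshift]
    have h0 : ∑ i ∈ Finset.range 3, |(if i < 3 then (0 : ℝ) else (g i).re)| = 0 := by
      simp [Finset.sum_range_succ]
    rw [h0, zero_add]
    refine S2.trans ?_
    have hRi : R⁻¹ = 4 * |s| := by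
      rw [hRdef, one_div, inv_inv]
    rw [hRi, hMdef, hen]
    have h1 : 2 * (lam2 / 2 / (|e| * |s|) * (4 * |s|) ^ 3) = 64 * (lam2 * |s| ^ 2) / |e| := by
      field_simp
      ring
    rw [h1, div_le_iff₀ hep]
    have h2 : lam2 * |s| ≤ 4 * |e| := by
      rw [hen] at hs2
      rw [le_div_iff₀ (by linarith)] at hs2
      linarith
    have h3 : lam2 * (lam2 * |s| ^ 2) ≤ 16 * (|e| * |e|) := by
      have : lam2 * (lam2 * |s| ^ 2) = (lam2 * |s|) * (lam2 * |s|) := by ring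
      rw [this]
      have h4 : 0 ≤ lam2 * |s| := mul_nonneg (by linarith) hsp.le
      nlinarith
    have h5 : 0 ≤ lam2 * |s| ^ 2 := by positivity
    have h6 : (10 : ℝ) ^ 7 * (lam2 * |s| ^ 2) ≤ lam2 * (lam2 * |s| ^ 2) := mul_le_mul_of_nonneg_right hlam h5
    have h7 : 0 < |e| * |e| := mul_pos hep hep
    have h8 : |e| / 1000 * |e| = (|e| * |e|) / 1000 := by ring
    rw [h8]
    have h9 : (10 : ℝ) ^ 7 = 10000000 := by norm_num
    rw [h9] at h6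
    linarith
  · intro x hx
    have hx1 : ‖(x : ℂ)‖ < R := by
      rw [Complex.norm_real, Real.norm_eq_abs]
      have : |x| ≤ 1 := abs_le.2 hx
      linarith
    have h1 := ExpV_re (gs (x : ℂ) hx1)
    have hc : ((X0 + s * x : ℝ) : ℂ) = (X0 : ℂ) + (s : ℂ) * (x : ℂ) := by push_cast; ring
    have h2 : (Ph D X0 lam2 ((X0 : ℂ) + (s : ℂ) * (x : ℂ)) / ((e : ℂ) * s)).re = (Ph D X0 lam2 ((X0 : ℂ) + (s : ℂ) * (x : ℂ))).re / (e * s) := by
      rw [← Complex.ofReal_mul e s, Complex.div_ofReal_re]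
    have h3 := h1.tsum_eq
    rw [h2] at h3
    rw [← h1.summable.sum_add_tsum_nat_add 3] at h3
    have hx2 : |x| ≤ 1 := abs_le.2 hx
    have hsv : Summable (fun j : ℕ => (if j < 3 then (0 : ℝ) else (g j).re) * x ^ j) := by
      refine Summable.of_norm_bounded hsum fun j => ?_
      rw [norm_mul, norm_pow, Real.norm_eq_abs, Real.norm_eq_abs]
      exact mul_le_of_le_one_right (abs_nonneg _) (pow_le_one₀ (abs_nonneg _) hx2)
    rw [← hsv.sum_add_tsum_nat_add 3]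
    have h4 : (fun j : ℕ => (if j + 3 < 3 then (0 : ℝ) else (g (j + 3)).re) * x ^ (j + 3)) = fun j => (g (j + 3)).re * x ^ (j + 3) := by
      funext j
      rw [if_neg (by omega)]
    rw [h4]
    have h5 : ∑ i ∈ Finset.range 3, (if i < 3 then (0 : ℝ) else (g i).re) * x ^ i = 0 := by
      simp [Finset.sum_range_succ]
    have h6 : ∑ i ∈ Finset.range 3, (g i).re * x ^ i = 2 * KLF.cc * x + x ^ 2 := by
      rw [Finset.sum_range_succ, Finset.sum_range_succ, Finset.sum_range_succ, Finset.sum_range_zero, hg0, hg1, hg2,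
        Complex.ofReal_re, Complex.zero_re, Complex.one_re]
      ring
    rw [h6] at h3
    rw [h5, zero_add, h3, hc]
    field_simp

theorem v_near {D : Dat} {lam1 lam2 X0 μ : ℝ} (T : Tun D lam1 lam2 X0) (hμ : 0 < μ) : ∃ ρ > 0, ∀ lam, |lam - lam2| < ρ →
    ∃ v : ℕ → ℝ, Summable (fun j => |v j|) ∧ ∑' j, |v j| ≤ μ ∧ ∀ x ∈ Icc (-1 : ℝ) 1,
      (Ph D X0 lam ((X0 + sgm D X0 lam2 * x : ℝ) : ℂ)).re = (Ph D X0 lam2 ((X0 + sgm D X0 lam2 * x : ℝ) : ℂ)).re +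
        (ep D lam2 X0 X0).re * sgm D X0 lam2 * ∑' j, v j * x ^ j := by
  obtain ⟨he, he0, hen⟩ := ExpV_ep T
  obtain ⟨hs0, hs1, hs2, hs3⟩ := sgm_bounds T
  obtain ⟨hρ, hρ1⟩ := ExpV_rho T
  have hl2 : |lam2 - lam1| ≤ 1 := T.hl.trans (by norm_num)
  set e : ℝ := (ep D lam2 X0 X0).re with hedef
  set s : ℝ := sgm D X0 lam2 with hsdef
  set R : ℝ := 1 / (4 * |s|) with hRdef
  have hsp : 0 < |s| := abs_pos.2 hs0
  have hep : 0 < |e| := abs_pos.2 he0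
  refine ⟨min (1 / 2) (μ * (|e| * |s|) / 4), lt_min (by norm_num) (by positivity), fun lam hlam => ?_⟩
  have hl : |lam - lam1| ≤ 1 := by
    have h1 := hlam.trans_le (min_le_left _ _)
    calc |lam - lam1| = |(lam - lam2) + (lam2 - lam1)| := by ring_nf
      _ ≤ |lam - lam2| + |lam2 - lam1| := abs_add_le _ _
      _ ≤ 1 := by linarith [T.hl]
  set M : ℝ := 2 * |lam - lam2| / (|e| * |s|) with hMdef
  have hM0 : 0 ≤ M := by positivity
  have hdiff : DifferentiableOn ℂ (fun x : ℂ => (Ph D X0 lam ((X0 : ℂ) + (s : ℂ) * x) - Ph D X0 lam2 ((X0 : ℂ) + (s : ℂ) * x)) / ((e : ℂ) * s))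
      (Metric.ball 0 R) := by
    intro x hx
    rw [mem_ball_zero_iff] at hx
    exact (((ExpV_deriv T hl hx).sub (ExpV_deriv T hl2 hx)).div_const _).differentiableAt.differentiableWithinAt
  have hbd : ∀ x ∈ Metric.ball (0 : ℂ) R, ‖(Ph D X0 lam ((X0 : ℂ) + (s : ℂ) * x) - Ph D X0 lam2 ((X0 : ℂ) + (s : ℂ) * x)) / ((e : ℂ) * s)‖ ≤ M := by
    intro x hx
    rw [mem_ball_zero_iff] at hx
    have h3 := Ph_lam T.crit hl hl2 T.hX (ExpV_bd T hx).1.le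
    rw [norm_div, norm_mul, Complex.norm_real, Complex.norm_real, Real.norm_eq_abs, Real.norm_eq_abs, hMdef]
    exact div_le_div_of_nonneg_right h3 (by positivity)
  obtain ⟨g, -, -, -, gb, gs⟩ := cauchy_one hρ hdiff hbd
  have hR0 : R⁻¹ ≤ 1 / 2 := by
    rw [inv_le_comm₀ hρ (by norm_num)]
    linarith
  have hgv : ∀ j : ℕ, |(g j).re| ≤ M * R⁻¹ ^ j := by
    intro j
    calc |(g j).re| ≤ ‖g j‖ := Complex.abs_re_le_norm _
      _ ≤ M / R ^ j := gb _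
      _ = M * R⁻¹ ^ j := by rw [div_eq_mul_inv, ← inv_pow]
  obtain ⟨S1, S2⟩ := ExpV_geo (inv_nonneg.2 hρ.le) hR0 hM0 hgv
  refine ⟨fun j => (g j).re, S1, ?_, ?_⟩
  · refine S2.trans ?_
    have h1 := hlam.trans_le (min_le_right _ _)
    rw [hMdef]
    have h2 : 2 * (2 * |lam - lam2| / (|e| * |s|)) = 4 * |lam - lam2| / (|e| * |s|) := by ring
    rw [h2, div_le_iff₀ (by positivity)]
    linarith
  · intro x hx
    have hx1 : ‖(x : ℂ)‖ < R := by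
      rw [Complex.norm_real, Real.norm_eq_abs]
      have : |x| ≤ 1 := abs_le.2 hx
      linarith
    have h1 := (ExpV_re (gs (x : ℂ) hx1)).tsum_eq
    have hc : ((X0 + s * x : ℝ) : ℂ) = (X0 : ℂ) + (s : ℂ) * (x : ℂ) := by push_cast; ring
    rw [← Complex.ofReal_mul e s, Complex.div_ofReal_re, Complex.sub_re] at h1
    rw [hc, h1]
    field_simp
    ring

end Pool.Agent.MP31f1e8.KLC
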