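import Pool.Agent.Lib.MP_31f1e8_mp.KLC.ExpG
import Pool.Agent.Lib.MP_31f1e8_mp.KLC.ExpV

/-!
# KLC-Exp: both expansions.

PROOF. `ρ` = minimum of the two radii for `μ = η/4` (and `1/2`); `g = g_base + g_near`, `v = v_base + v_near`; `2 ‖ε‖/1000 + η/2 ≤ η`. (`tsum_add`, `|a + b| ≤ |a| + |b|`; the series in `x, y ∈ [-1,1]` are dominated by `|g|`, `|v|`.)
-/

namespace Pool.Agent.MP31f1e8.KLC

open Set

/-- the expansions for `lam` near `lam2` -/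
def Expn (D : Dat) (X0 lam2 lam : ℝ) (g : ℕ → ℕ → ℝ) (v : ℕ → ℝ) : Prop :=
  Summable (fun p : ℕ × ℕ => |g p.1 p.2|) ∧ Summable (fun j => |v j|) ∧
    (∀ x ∈ Icc (-1 : ℝ) 1, ∀ y ∈ Icc (-1 : ℝ) 1,
      (ep D lam ((X0 + sgm D X0 lam2 * x : ℝ) : ℂ) ((X0 + sgm D X0 lam2 * y : ℝ) : ℂ)).re =
        (ep D lam2 X0 X0).re * (1 + ∑' p : ℕ × ℕ, g p.1 p.2 * x ^ p.1 * y ^ p.2)) ∧
    ∀ x ∈ Icc (-1 : ℝ) 1, (Ph D X0 lam ((X0 + sgm D X0 lam2 * x : ℝ) : ℂ)).re =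
        (ep D lam2 X0 X0).re * sgm D X0 lam2 * (2 * KLF.cc * x + x ^ 2 + ∑' j, v j * x ^ j)

private theorem pow_abs_le_one {x : ℝ} (hx : x ∈ Icc (-1 : ℝ) 1) (n : ℕ) : |x ^ n| ≤ 1 := by
  rw [abs_pow]; exact pow_le_one₀ (abs_nonneg x) (abs_le.mpr hx)

private theorem summable_gxy {g : ℕ → ℕ → ℝ} (h : Summable (fun p : ℕ × ℕ => |g p.1 p.2|)) {x y : ℝ} (hx : x ∈ Icc (-1 : ℝ) 1)
    (hy : y ∈ Icc (-1 : ℝ) 1) : Summable (fun p : ℕ × ℕ => g p.1 p.2 * x ^ p.1 * y ^ p.2) := by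
  refine Summable.of_norm_bounded h fun p => ?_
  rw [Real.norm_eq_abs, abs_mul, abs_mul]
  have h1 := pow_abs_le_one hx p.1
  have h2 := pow_abs_le_one hy p.2
  calc |g p.1 p.2| * |x ^ p.1| * |y ^ p.2| ≤ |g p.1 p.2| * 1 * 1 := by gcongr
    _ = |g p.1 p.2| := by ring

private theorem summable_vx {v : ℕ → ℝ} (h : Summable (fun j => |v j|)) {x : ℝ} (hx : x ∈ Icc (-1 : ℝ) 1) :
    Summable (fun j => v j * x ^ j) := by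
  refine Summable.of_norm_bounded h fun p => ?_
  rw [Real.norm_eq_abs, abs_mul]
  have h1 := pow_abs_le_one hx p
  calc |v p| * |x ^ p| ≤ |v p| * 1 := by gcongr
    _ = |v p| := by ring

theorem exp_near {D : Dat} {lam1 lam2 X0 η : ℝ} (T : Tun D lam1 lam2 X0) (hη : 0 < η) (hε : ‖ep D lam2 X0 X0‖ ≤ η) :
    ∃ ρ > 0, ∀ lam, |lam - lam2| < ρ → ∃ g v, Expn D X0 lam2 lam g v ∧ ∑' p : ℕ × ℕ, |g p.1 p.2| + ∑' j, |v j| ≤ η := by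
  obtain ⟨g1, hg1, hg1s, hg1e⟩ := g_base T
  obtain ⟨v1, hv1, hv1s, hv1e⟩ := v_base T
  have hμ : 0 < η / 4 := by positivity
  obtain ⟨ρ1, hρ1, hgn⟩ := g_near T hμ
  obtain ⟨ρ2, hρ2, hvn⟩ := v_near T hμ
  refine ⟨min ρ1 ρ2, lt_min hρ1 hρ2, fun lam hlam => ?_⟩
  obtain ⟨g2, hg2, hg2s, hg2e⟩ := hgn lam (lt_of_lt_of_le hlam (min_le_left _ _))
  obtain ⟨v2, hv2, hv2s, hv2e⟩ := hvn lam (lt_of_lt_of_le hlam (min_le_right _ _))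
  have hgs : Summable (fun p : ℕ × ℕ => |g1 p.1 p.2 + g2 p.1 p.2|) :=
    Summable.of_nonneg_of_le (fun p => abs_nonneg _) (fun p => abs_add_le _ _) (hg1.add hg2)
  have hvs : Summable (fun j => |v1 j + v2 j|) :=
    Summable.of_nonneg_of_le (fun p => abs_nonneg _) (fun p => abs_add_le _ _) (hv1.add hv2)
  have hgt : ∑' p : ℕ × ℕ, |g1 p.1 p.2 + g2 p.1 p.2| ≤ ∑' p : ℕ × ℕ, |g1 p.1 p.2| + ∑' p : ℕ × ℕ, |g2 p.1 p.2| := by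
    rw [← hg1.tsum_add hg2]
    exact hgs.tsum_le_tsum (fun p => abs_add_le _ _) (hg1.add hg2)
  have hvt : ∑' j, |v1 j + v2 j| ≤ ∑' j, |v1 j| + ∑' j, |v2 j| := by
    rw [← hv1.tsum_add hv2]
    exact hvs.tsum_le_tsum (fun p => abs_add_le _ _) (hv1.add hv2)
  refine ⟨fun j k => g1 j k + g2 j k, fun j => v1 j + v2 j, ⟨hgs, hvs, fun x hx y hy => ?_, fun x hx => ?_⟩, ?_⟩
  · have e1 : ∑' p : ℕ × ℕ, (g1 p.1 p.2 + g2 p.1 p.2) * x ^ p.1 * y ^ p.2 =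
        ∑' p : ℕ × ℕ, g1 p.1 p.2 * x ^ p.1 * y ^ p.2 + ∑' p : ℕ × ℕ, g2 p.1 p.2 * x ^ p.1 * y ^ p.2 := by
      rw [← (summable_gxy hg1 hx hy).tsum_add (summable_gxy hg2 hx hy)]
      exact tsum_congr fun p => by ring
    rw [e1, hg2e x hx y hy, hg1e x hx y hy]
    ring
  · have e1 : ∑' j, (v1 j + v2 j) * x ^ j = ∑' j, v1 j * x ^ j + ∑' j, v2 j * x ^ j := by
      rw [← (summable_vx hv1 hx).tsum_add (summable_vx hv2 hx)]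
      exact tsum_congr fun p => by ring
    rw [e1, hv2e x hx, hv1e x hx]
    ring
  · have := norm_nonneg (ep D lam2 X0 X0)
    dsimp only
    linarith

end Pool.Agent.MP31f1e8.KLC
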