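import Pool.Agent.Lib.MP_31f1e8_mp.KLC.Phi
import Pool.Agent.Lib.MP_31f1e8_mp.KLC.Cau

/-!
# KLC-ExpG: power series of `ep` in the scaled variables, for `lam` near `lam2`.

Notation: `ς = sgm D X0 lam2`, `ε = ep D lam2 X0 X0` (real, `ε.re`), `ρ0 = 1 / (4 |ς|) ≥ 250`; for `‖x‖ ≤ ρ0`: `‖X0 + ς x - π/2‖ ≤ 1/10 + 1/4 < 1/2`. `ep` is jointly continuous (`e_cont`) and
holomorphic in each variable (`e_diff_left`, `e_diff_right`).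
PROOFS.
* `g_base`: `E x y = ep D lam2 (X0 + ς x) (X0 + ς y) / ε - 1`, `‖E‖ ≤ 20000/lam2 * (1/4 + 1/4) ≤ 1` (`ep_ratio`), `cauchy_two` with `M = 1`; `g 0 0 = E 0 0 = 0` (the sum at `x = y = 0`). Real parts:
  for real `x, y` `E x y` is real (`ep_real`), so the real parts of the coefficients satisfy the same identity. `∑_{(j,k) ≠ (0,0)} ρ0^{-(j+k)} = (1 - 1/ρ0)^{-2} - 1 ≤ 4/ρ0 = 16 |ς| ≤ 64 ‖ε‖ / lam2 ≤ ‖ε‖/1000`.
* `g_near`: `E x y = (ep D lam (..) (..) - ep D lam2 (..) (..)) / ε`: by uniform continuity on the compact set `[lam2 - 1/2, lam2 + 1/2] × closed balls` (`IsCompact.uniformContinuousOn_of_continuous`) there is `ρ > 0` with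
  `‖E‖ ≤ μ/2` for `|lam - lam2| < ρ`; `cauchy_two` with `M = μ/2`; sum of the geometric series `(1 - 1/ρ0)^{-2} ≤ 2`.
-/

namespace Pool.Agent.MP31f1e8.KLC

open Set

private theorem ExpG_sum {M r : ℝ} (hr0 : 0 ≤ r) (hr : r ≤ 1 / 250) (hM : 0 ≤ M) :
    ∃ S : ℝ, HasSum (fun p : ℕ × ℕ => M * (r ^ p.1 * r ^ p.2)) S ∧ S ≤ M * (1 + 4 * r) := by
  have h1 : HasSum (fun n : ℕ => r ^ n) (1 - r)⁻¹ := hasSum_geometric_of_lt_one hr0 (by linarith)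
  have hs : Summable (fun p : ℕ × ℕ => r ^ p.1 * r ^ p.2) :=
    h1.summable.mul_of_nonneg h1.summable (fun n => pow_nonneg hr0 n) (fun n => pow_nonneg hr0 n)
  refine ⟨_, (h1.mul h1 hs).mul_left M, mul_le_mul_of_nonneg_left ?_ hM⟩
  have h2 : 0 < 1 - r := by linarith
  rw [← mul_inv, inv_le_iff_one_le_mul₀ (by positivity)]
  nlinarith [mul_nonneg hr0 hr0, mul_nonneg hr0 (sub_nonneg.2 hr), mul_nonneg (mul_nonneg hr0 hr0) hr0]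

private theorem ExpG_core {f : ℂ → ℂ → ℂ} {ρ M : ℝ} (hρ : 250 ≤ ρ)
    (hc : ContinuousOn (fun p : ℂ × ℂ => f p.1 p.2) (Metric.closedBall 0 ρ ×ˢ Metric.closedBall 0 ρ))
    (h1 : ∀ y ∈ Metric.closedBall (0 : ℂ) ρ, DifferentiableOn ℂ (fun x => f x y) (Metric.ball 0 ρ))
    (h2 : ∀ x ∈ Metric.closedBall (0 : ℂ) ρ, DifferentiableOn ℂ (fun y => f x y) (Metric.ball 0 ρ))
    (hM : ∀ x ∈ Metric.closedBall (0 : ℂ) ρ, ∀ y ∈ Metric.closedBall (0 : ℂ) ρ, ‖f x y‖ ≤ M) :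
    ∃ g : ℕ → ℕ → ℝ, Summable (fun p : ℕ × ℕ => |g p.1 p.2|) ∧ ∑' p : ℕ × ℕ, |g p.1 p.2| ≤ 2 * M ∧
      (f 0 0 = 0 → ∑' p : ℕ × ℕ, |g p.1 p.2| ≤ 4 * M / ρ) ∧
      ∀ x ∈ Icc (-1 : ℝ) 1, ∀ y ∈ Icc (-1 : ℝ) 1, (f (x : ℂ) (y : ℂ)).re = ∑' p : ℕ × ℕ, g p.1 p.2 * x ^ p.1 * y ^ p.2 := by
  have hρ0 : 0 < ρ := by linarith
  obtain ⟨G, hG, hGs⟩ := cauchy_two hρ0 hc h1 h2 hM
  have hM0 : 0 ≤ M := (norm_nonneg _).trans (hM 0 (Metric.mem_closedBall_self hρ0.le) 0 (Metric.mem_closedBall_self hρ0.le))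
  have hr0 : 0 ≤ 1 / ρ := by positivity
  have hr : 1 / ρ ≤ 1 / 250 := one_div_le_one_div_of_le (by norm_num) hρ
  obtain ⟨S, hS, hS1⟩ := ExpG_sum hr0 hr hM0
  have hb : ∀ p : ℕ × ℕ, |(G p.1 p.2).re| ≤ M * ((1 / ρ) ^ p.1 * (1 / ρ) ^ p.2) := by
    intro p
    refine (Complex.abs_re_le_norm _).trans ((hG p.1 p.2).trans (le_of_eq ?_))
    rw [← pow_add, one_div, inv_pow, div_eq_mul_inv]
  have hsum : Summable (fun p : ℕ × ℕ => |(G p.1 p.2).re|) :=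
    Summable.of_nonneg_of_le (fun p => abs_nonneg _) hb hS.summable
  refine ⟨fun j k => (G j k).re, hsum, ?_, ?_, ?_⟩
  · calc ∑' p : ℕ × ℕ, |(G p.1 p.2).re| ≤ ∑' p : ℕ × ℕ, M * ((1 / ρ) ^ p.1 * (1 / ρ) ^ p.2) := hsum.tsum_le_tsum hb hS.summable
      _ = S := hS.tsum_eq
      _ ≤ M * (1 + 4 * (1 / ρ)) := hS1
      _ ≤ M * 2 := mul_le_mul_of_nonneg_left (by linarith) hM0
      _ = 2 * M := by ring
  · intro h00
    have hg0 : G 0 0 = 0 := by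
      have h3 := hGs 0 0 (by simpa using hρ0) (by simpa using hρ0)
      rw [h00] at h3
      have h4 : HasSum (fun p : ℕ × ℕ => G p.1 p.2 * (0 : ℂ) ^ p.1 * (0 : ℂ) ^ p.2) (G 0 0 * (0 : ℂ) ^ 0 * (0 : ℂ) ^ 0) := by
        refine hasSum_single (0, 0) ?_
        rintro ⟨j, k⟩ hjk
        rcases Nat.eq_zero_or_pos j with rfl | hj
        · rcases Nat.eq_zero_or_pos k with rfl | hk
          · exact absurd rfl hjk
          · show G 0 k * (0 : ℂ) ^ 0 * (0 : ℂ) ^ k = 0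
            rw [zero_pow hk.ne', mul_zero]
        · show G j k * (0 : ℂ) ^ j * (0 : ℂ) ^ k = 0
          rw [zero_pow hj.ne', mul_zero, zero_mul]
      have h5 := h4.unique h3
      simpa using h5
    have h6 : HasSum (fun p : ℕ × ℕ => M * ((1 / ρ) ^ p.1 * (1 / ρ) ^ p.2) - (if p = (0, 0) then M else 0)) (S - M) :=
      hS.sub (hasSum_ite_eq (0, 0) M)
    have h7 : ∀ p : ℕ × ℕ, |(G p.1 p.2).re| ≤ M * ((1 / ρ) ^ p.1 * (1 / ρ) ^ p.2) - (if p = (0, 0) then M else 0) := by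
      intro p
      by_cases hp : p = (0, 0)
      · subst hp
        simp [hg0]
      · rw [if_neg hp, sub_zero]
        exact hb p
    calc ∑' p : ℕ × ℕ, |(G p.1 p.2).re| ≤ ∑' p : ℕ × ℕ, (M * ((1 / ρ) ^ p.1 * (1 / ρ) ^ p.2) - (if p = (0, 0) then M else 0)) :=
          hsum.tsum_le_tsum h7 h6.summable
      _ = S - M := h6.tsum_eq
      _ ≤ M * (1 + 4 * (1 / ρ)) - M := by linarith
      _ = 4 * M / ρ := by ring
  · intro x hx y hy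
    have hx1 : ‖(x : ℂ)‖ < ρ := by
      rw [Complex.norm_real, Real.norm_eq_abs]
      have := abs_le.2 ⟨hx.1, hx.2⟩
      linarith
    have hy1 : ‖(y : ℂ)‖ < ρ := by
      rw [Complex.norm_real, Real.norm_eq_abs]
      have := abs_le.2 ⟨hy.1, hy.2⟩
      linarith
    have h3 := Complex.hasSum_re (hGs x y hx1 hy1)
    rw [← h3.tsum_eq]
    refine tsum_congr fun p => ?_
    have e1 : G p.1 p.2 * (x : ℂ) ^ p.1 * (y : ℂ) ^ p.2 = G p.1 p.2 * ((x ^ p.1 * y ^ p.2 : ℝ) : ℂ) := by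
      push_cast
      ring
    rw [e1, Complex.re_mul_ofReal]
    ring

private theorem ExpG_rho {D : Dat} {lam1 lam2 X0 : ℝ} (T : Tun D lam1 lam2 X0) : 250 ≤ 1 / (4 * |sgm D X0 lam2|) := by
  obtain ⟨h0, -, -, h3⟩ := sgm_bounds T
  have h1 : 0 < |sgm D X0 lam2| := abs_pos.2 h0
  rw [le_div_iff₀ (by positivity)]
  linarith

private theorem ExpG_pt {D : Dat} {lam1 lam2 X0 : ℝ} (T : Tun D lam1 lam2 X0) {x : ℂ} (hx : ‖x‖ ≤ 1 / (4 * |sgm D X0 lam2|)) :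
    ‖((sgm D X0 lam2 : ℝ) : ℂ) * x‖ ≤ 1 / 4 ∧ ‖(X0 : ℂ) + (sgm D X0 lam2 : ℝ) * x - D.xi 0‖ < 1 / 2 ∧
      ‖(X0 : ℂ) + (sgm D X0 lam2 : ℝ) * x - D.xi D.q‖ < 1 / 2 := by
  obtain ⟨h0, -, -, -⟩ := sgm_bounds T
  have h1 : 0 < |sgm D X0 lam2| := abs_pos.2 h0
  have h2 : ‖((sgm D X0 lam2 : ℝ) : ℂ) * x‖ ≤ 1 / 4 := by
    rw [norm_mul, Complex.norm_real, Real.norm_eq_abs]
    rw [le_div_iff₀ (by positivity)] at hx
    linarith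
  have h3 : ‖(X0 : ℂ) + (sgm D X0 lam2 : ℝ) * x - ((Real.pi / 2 : ℝ) : ℂ)‖ < 1 / 2 := by
    have e1 : (X0 : ℂ) + (sgm D X0 lam2 : ℝ) * x - ((Real.pi / 2 : ℝ) : ℂ) = ((X0 - Real.pi / 2 : ℝ) : ℂ) + (sgm D X0 lam2 : ℝ) * x := by
      push_cast
      ring
    rw [e1]
    have h4 : ‖((X0 - Real.pi / 2 : ℝ) : ℂ)‖ ≤ 1 / 10 := by
      rw [Complex.norm_real, Real.norm_eq_abs, abs_le]
      have hX := T.hX
      unfold UU at hX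
      constructor <;> linarith [hX.1, hX.2]
    have h5 := norm_add_le ((X0 - Real.pi / 2 : ℝ) : ℂ) ((sgm D X0 lam2 : ℝ) * x)
    linarith
  refine ⟨h2, ?_, ?_⟩
  · rw [T.crit.l]
    exact h3
  · rw [T.crit.r]
    exact h3

private theorem ExpG_cont {D : Dat} {lam1 lam2 X0 : ℝ} (T : Tun D lam1 lam2 X0) :
    ContinuousOn (fun p : ℝ × ℂ × ℂ => ep D p.1 ((X0 : ℂ) + (sgm D X0 lam2 : ℝ) * p.2.1) ((X0 : ℂ) + (sgm D X0 lam2 : ℝ) * p.2.2))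
      (Icc (lam2 - 1 / 2) (lam2 + 1 / 2) ×ˢ (Metric.closedBall 0 (1 / (4 * |sgm D X0 lam2|)) ×ˢ Metric.closedBall 0 (1 / (4 * |sgm D X0 lam2|)))) := by
  have h1 := (e_cont T.crit.ref).1
  intro p hp
  obtain ⟨l, x, y⟩ := p
  obtain ⟨hl, hx, hy⟩ := hp
  have hmap : ∀ q : ℝ × ℂ × ℂ, q ∈ (Icc (lam2 - 1 / 2) (lam2 + 1 / 2) ×ˢ (Metric.closedBall (0 : ℂ) (1 / (4 * |sgm D X0 lam2|)) ×ˢ
      Metric.closedBall (0 : ℂ) (1 / (4 * |sgm D X0 lam2|)))) →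
      ((q.1, (X0 : ℂ) + (sgm D X0 lam2 : ℝ) * q.2.1, (X0 : ℂ) + (sgm D X0 lam2 : ℝ) * q.2.2) : ℝ × ℂ × ℂ) ∈
        {p : ℝ × ℂ × ℂ | |p.1 - lam1| ≤ 1 ∧ Bd D p.2.1 p.2.2} := by
    rintro ⟨l, x, y⟩ ⟨hl, hx, hy⟩
    have hx' : ‖x‖ ≤ 1 / (4 * |sgm D X0 lam2|) := mem_closedBall_zero_iff.1 hx
    have hy' : ‖y‖ ≤ 1 / (4 * |sgm D X0 lam2|) := mem_closedBall_zero_iff.1 hy
    have h3 := T.hl
    have h4 : |l - lam1| ≤ 1 := by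
      have hl1 : lam2 - 1 / 2 ≤ l := hl.1
      have hl2 : l ≤ lam2 + 1 / 2 := hl.2
      rw [abs_le] at h3 ⊢
      constructor <;> linarith [h3.1, h3.2]
    exact ⟨h4, (ExpG_pt T hx').2.1.le, (ExpG_pt T hy').2.2.le⟩
  have h5 := h1 _ (hmap (l, x, y) ⟨hl, hx, hy⟩)
  have h6 : ContinuousWithinAt (fun p : ℝ × ℂ × ℂ => ((p.1, (X0 : ℂ) + (sgm D X0 lam2 : ℝ) * p.2.1, (X0 : ℂ) + (sgm D X0 lam2 : ℝ) * p.2.2) : ℝ × ℂ × ℂ))
      (Icc (lam2 - 1 / 2) (lam2 + 1 / 2) ×ˢ (Metric.closedBall (0 : ℂ) (1 / (4 * |sgm D X0 lam2|)) ×ˢ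
        Metric.closedBall (0 : ℂ) (1 / (4 * |sgm D X0 lam2|)))) (l, x, y) := by
    apply Continuous.continuousWithinAt
    fun_prop
  have h7 := ContinuousWithinAt.comp (x := ((l, x, y) : ℝ × ℂ × ℂ)) h5 h6 hmap
  exact h7

private theorem ExpG_lam {D : Dat} {lam1 lam2 X0 lam : ℝ} (T : Tun D lam1 lam2 X0) (hl : |lam - lam2| ≤ 1 / 2) : |lam - lam1| ≤ 1 := by
  have h3 := T.hl
  rw [abs_le] at h3 hl ⊢
  constructor <;> linarith [hl.1, hl.2, h3.1, h3.2]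

private theorem ExpG_diff1 {D : Dat} {lam1 lam2 X0 lam : ℝ} (T : Tun D lam1 lam2 X0) (hl : |lam - lam2| ≤ 1 / 2)
    {y : ℂ} (hy : ‖y‖ ≤ 1 / (4 * |sgm D X0 lam2|)) :
    DifferentiableOn ℂ (fun x => ep D lam ((X0 : ℂ) + (sgm D X0 lam2 : ℝ) * x) ((X0 : ℂ) + (sgm D X0 lam2 : ℝ) * y))
      (Metric.ball 0 (1 / (4 * |sgm D X0 lam2|))) := by
  intro x hx
  have hx' : ‖x‖ ≤ 1 / (4 * |sgm D X0 lam2|) := (mem_ball_zero_iff.1 hx).le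
  have h1 := (e_diff_left T.crit.ref (ExpG_lam T hl) (ExpG_pt T hx').2.1 (ExpG_pt T hy).2.2.le).1
  have h2 : DifferentiableAt ℂ (fun x : ℂ => (X0 : ℂ) + (sgm D X0 lam2 : ℝ) * x) x := by fun_prop
  exact (DifferentiableAt.comp x h1 h2).differentiableWithinAt

private theorem ExpG_diff2 {D : Dat} {lam1 lam2 X0 lam : ℝ} (T : Tun D lam1 lam2 X0) (hl : |lam - lam2| ≤ 1 / 2)
    {x : ℂ} (hx : ‖x‖ ≤ 1 / (4 * |sgm D X0 lam2|)) :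
    DifferentiableOn ℂ (fun y => ep D lam ((X0 : ℂ) + (sgm D X0 lam2 : ℝ) * x) ((X0 : ℂ) + (sgm D X0 lam2 : ℝ) * y))
      (Metric.ball 0 (1 / (4 * |sgm D X0 lam2|))) := by
  intro y hy
  have hy' : ‖y‖ ≤ 1 / (4 * |sgm D X0 lam2|) := (mem_ball_zero_iff.1 hy).le
  have h1 := (e_diff_right T.crit.ref (ExpG_lam T hl) (ExpG_pt T hx).2.1.le (ExpG_pt T hy').2.2).1
  have h2 : DifferentiableAt ℂ (fun y : ℂ => (X0 : ℂ) + (sgm D X0 lam2 : ℝ) * y) y := by fun_prop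
  exact (DifferentiableAt.comp y h1 h2).differentiableWithinAt

private theorem ExpG_base {D : Dat} {lam1 lam2 X0 : ℝ} (T : Tun D lam1 lam2 X0) :
    Bd D (X0 : ℂ) (X0 : ℂ) ∧ ep D lam2 X0 X0 ≠ 0 ∧ ((((ep D lam2 X0 X0).re : ℝ) : ℂ) = ep D lam2 X0 X0) := by
  have h0 : (0 : ℝ) ≤ 1 / (4 * |sgm D X0 lam2|) := by positivity
  have h1 := ExpG_pt T (x := 0) (by simpa using h0)
  simp only [mul_zero, add_zero] at h1
  have hb : Bd D (X0 : ℂ) (X0 : ℂ) := ⟨h1.2.1.le, h1.2.2.le⟩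
  have hl : |lam2 - lam1| ≤ 1 := T.hl.trans (by norm_num)
  exact ⟨hb, ep_ne T.crit.ref hl hb, (ep_real T.crit.ref hl hb).1⟩

private theorem ExpG_cast (X0 s x : ℝ) : ((X0 + s * x : ℝ) : ℂ) = (X0 : ℂ) + (s : ℝ) * (x : ℂ) := by
  push_cast
  ring

theorem g_base {D : Dat} {lam1 lam2 X0 : ℝ} (T : Tun D lam1 lam2 X0) : ∃ g : ℕ → ℕ → ℝ, Summable (fun p : ℕ × ℕ => |g p.1 p.2|) ∧
    ∑' p : ℕ × ℕ, |g p.1 p.2| ≤ ‖ep D lam2 X0 X0‖ / 1000 ∧ ∀ x ∈ Icc (-1 : ℝ) 1, ∀ y ∈ Icc (-1 : ℝ) 1,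
      (ep D lam2 ((X0 + sgm D X0 lam2 * x : ℝ) : ℂ) ((X0 + sgm D X0 lam2 * y : ℝ) : ℂ)).re =
        (ep D lam2 X0 X0).re * (1 + ∑' p : ℕ × ℕ, g p.1 p.2 * x ^ p.1 * y ^ p.2) := by
  obtain ⟨hb, hne, hre⟩ := ExpG_base T
  have hl0 : |lam2 - lam2| ≤ 1 / 2 := by rw [sub_self, abs_zero]; norm_num
  have hl : |lam2 - lam1| ≤ 1 := T.hl.trans (by norm_num)
  have hlam : (9 : ℝ) * 10 ^ 7 ≤ lam2 := by
    have h1 := T.crit.ref.hlam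
    have h2 := abs_le.1 T.hl
    norm_num at h1 ⊢
    linarith [h2.1]
  have hlam0 : 0 < lam2 := lt_of_lt_of_le (by norm_num) hlam
  have hρ := ExpG_rho T
  obtain ⟨hs0, -, hs2, -⟩ := sgm_bounds T
  have hs1 : 0 < |sgm D X0 lam2| := abs_pos.2 hs0
  obtain ⟨g, hg1, -, hg3, hg4⟩ := ExpG_core (M := 1)
    (f := fun x y => ep D lam2 ((X0 : ℂ) + (sgm D X0 lam2 : ℝ) * x) ((X0 : ℂ) + (sgm D X0 lam2 : ℝ) * y) / ep D lam2 X0 X0 - 1) hρ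
    (by
      have h1 := (ExpG_cont T).comp (f := fun p : ℂ × ℂ => ((lam2, p.1, p.2) : ℝ × ℂ × ℂ))
        (s := Metric.closedBall 0 (1 / (4 * |sgm D X0 lam2|)) ×ˢ Metric.closedBall 0 (1 / (4 * |sgm D X0 lam2|)))
        (by fun_prop) (by
          rintro ⟨x, y⟩ ⟨hx, hy⟩
          exact ⟨⟨by linarith, by linarith⟩, hx, hy⟩)
      exact (h1.div_const _).sub continuousOn_const)
    (fun y hy => ((ExpG_diff1 T hl0 (mem_closedBall_zero_iff.1 hy)).div_const _).sub_const _)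
    (fun x hx => ((ExpG_diff2 T hl0 (mem_closedBall_zero_iff.1 hx)).div_const _).sub_const _)
    (by
      intro x hx y hy
      have hx' := ExpG_pt T (mem_closedBall_zero_iff.1 hx)
      have hy' := ExpG_pt T (mem_closedBall_zero_iff.1 hy)
      have h1 := ep_ratio T.crit.ref hl (X := (X0 : ℂ) + (sgm D X0 lam2 : ℝ) * x) (X' := (X0 : ℂ) + (sgm D X0 lam2 : ℝ) * y)
        (Y := X0) (Y' := X0) ⟨hx'.2.1.le, hy'.2.2.le⟩ hb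
      refine h1.trans ?_
      rw [add_sub_cancel_left, add_sub_cancel_left]
      calc 20000 / lam2 * (‖((sgm D X0 lam2 : ℝ) : ℂ) * x‖ + ‖((sgm D X0 lam2 : ℝ) : ℂ) * y‖) ≤ 20000 / lam2 * (1 / 4 + 1 / 4) :=
            mul_le_mul_of_nonneg_left (add_le_add hx'.1 hy'.1) (by positivity)
        _ ≤ 1 := by
          rw [div_mul_eq_mul_div, div_le_one hlam0]
          norm_num at hlam ⊢
          linarith)
  refine ⟨g, hg1, ?_, ?_⟩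
  · refine (hg3 ?_).trans ?_
    · simp [hne]
    · have e1 : (4 : ℝ) * 1 / (1 / (4 * |sgm D X0 lam2|)) = 16 * |sgm D X0 lam2| := by
        field_simp
        ring
      rw [e1]
      calc 16 * |sgm D X0 lam2| ≤ 16 * (4 * ‖ep D lam2 X0 X0‖ / lam2) := by linarith
        _ = ‖ep D lam2 X0 X0‖ * (64 / lam2) := by ring
        _ ≤ ‖ep D lam2 X0 X0‖ * (1 / 1000) := by
          refine mul_le_mul_of_nonneg_left ?_ (norm_nonneg _)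
          rw [div_le_iff₀ hlam0]
          norm_num at hlam ⊢
          linarith
        _ = ‖ep D lam2 X0 X0‖ / 1000 := by ring
  · intro x hx y hy
    rw [← hg4 x hx y hy, ExpG_cast, ExpG_cast]
    have h2 : ep D lam2 ((X0 : ℂ) + (sgm D X0 lam2 : ℝ) * x) ((X0 : ℂ) + (sgm D X0 lam2 : ℝ) * y) =
        (((ep D lam2 X0 X0).re : ℝ) : ℂ) * (1 + (ep D lam2 ((X0 : ℂ) + (sgm D X0 lam2 : ℝ) * x) ((X0 : ℂ) + (sgm D X0 lam2 : ℝ) * y) / ep D lam2 X0 X0 - 1)) := by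
      rw [hre]
      field_simp
      ring
    have h3 := congrArg Complex.re h2
    rw [Complex.re_ofReal_mul, Complex.add_re, Complex.one_re] at h3
    exact h3

theorem g_near {D : Dat} {lam1 lam2 X0 μ : ℝ} (T : Tun D lam1 lam2 X0) (hμ : 0 < μ) : ∃ ρ > 0, ∀ lam, |lam - lam2| < ρ →
    ∃ g : ℕ → ℕ → ℝ, Summable (fun p : ℕ × ℕ => |g p.1 p.2|) ∧ ∑' p : ℕ × ℕ, |g p.1 p.2| ≤ μ ∧
      ∀ x ∈ Icc (-1 : ℝ) 1, ∀ y ∈ Icc (-1 : ℝ) 1,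
      (ep D lam ((X0 + sgm D X0 lam2 * x : ℝ) : ℂ) ((X0 + sgm D X0 lam2 * y : ℝ) : ℂ)).re =
        (ep D lam2 ((X0 + sgm D X0 lam2 * x : ℝ) : ℂ) ((X0 + sgm D X0 lam2 * y : ℝ) : ℂ)).re +
        (ep D lam2 X0 X0).re * ∑' p : ℕ × ℕ, g p.1 p.2 * x ^ p.1 * y ^ p.2 := by
  obtain ⟨hb, hne, hre⟩ := ExpG_base T
  have hl0 : |lam2 - lam2| ≤ 1 / 2 := by rw [sub_self, abs_zero]; norm_num
  have hρ := ExpG_rho T
  have hC := ExpG_cont T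
  have hK : IsCompact (Icc (lam2 - 1 / 2) (lam2 + 1 / 2) ×ˢ ((Metric.closedBall 0 (1 / (4 * |sgm D X0 lam2|)) : Set ℂ) ×ˢ
      (Metric.closedBall 0 (1 / (4 * |sgm D X0 lam2|)) : Set ℂ))) :=
    isCompact_Icc.prod ((isCompact_closedBall _ _).prod (isCompact_closedBall _ _))
  have hU := hK.uniformContinuousOn_of_continuous hC
  have hnp : 0 < ‖ep D lam2 X0 X0‖ := norm_pos_iff.2 hne
  obtain ⟨δ, hδ, hδ2⟩ := Metric.uniformContinuousOn_iff.1 hU (μ / 2 * ‖ep D lam2 X0 X0‖) (by positivity)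
  refine ⟨min δ (1 / 2), by positivity, fun lam hlam => ?_⟩
  have hlamδ : |lam - lam2| < δ := lt_of_lt_of_le hlam (min_le_left _ _)
  have hlamh : |lam - lam2| ≤ 1 / 2 := hlam.le.trans (min_le_right _ _)
  have hmem : lam ∈ Icc (lam2 - 1 / 2) (lam2 + 1 / 2) := by
    have := abs_le.1 hlamh
    constructor <;> linarith [this.1, this.2]
  have hmem2 : lam2 ∈ Icc (lam2 - 1 / 2) (lam2 + 1 / 2) := ⟨by linarith, by linarith⟩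
  have hcc : ∀ l ∈ Icc (lam2 - 1 / 2) (lam2 + 1 / 2), ContinuousOn (fun p : ℂ × ℂ => ep D l ((X0 : ℂ) + (sgm D X0 lam2 : ℝ) * p.1) ((X0 : ℂ) + (sgm D X0 lam2 : ℝ) * p.2))
      (Metric.closedBall 0 (1 / (4 * |sgm D X0 lam2|)) ×ˢ Metric.closedBall 0 (1 / (4 * |sgm D X0 lam2|))) := by
    intro l hl
    exact hC.comp (f := fun p : ℂ × ℂ => ((l, p.1, p.2) : ℝ × ℂ × ℂ))
        (s := Metric.closedBall 0 (1 / (4 * |sgm D X0 lam2|)) ×ˢ Metric.closedBall 0 (1 / (4 * |sgm D X0 lam2|)))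
        (by fun_prop) (by
          rintro ⟨x, y⟩ ⟨hx, hy⟩
          exact ⟨hl, hx, hy⟩)
  obtain ⟨g, hg1, hg2, -, hg4⟩ := ExpG_core (M := μ / 2)
    (f := fun x y => (ep D lam ((X0 : ℂ) + (sgm D X0 lam2 : ℝ) * x) ((X0 : ℂ) + (sgm D X0 lam2 : ℝ) * y) -
      ep D lam2 ((X0 : ℂ) + (sgm D X0 lam2 : ℝ) * x) ((X0 : ℂ) + (sgm D X0 lam2 : ℝ) * y)) / ep D lam2 X0 X0) hρ
    (((hcc lam hmem).sub (hcc lam2 hmem2)).div_const _)
    (fun y hy => ((ExpG_diff1 T hlamh (mem_closedBall_zero_iff.1 hy)).sub (ExpG_diff1 T hl0 (mem_closedBall_zero_iff.1 hy))).div_const _)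
    (fun x hx => ((ExpG_diff2 T hlamh (mem_closedBall_zero_iff.1 hx)).sub (ExpG_diff2 T hl0 (mem_closedBall_zero_iff.1 hx))).div_const _)
    (by
      intro x hx y hy
      have h1 := hδ2 (lam, x, y) ⟨hmem, hx, hy⟩ (lam2, x, y) ⟨hmem2, hx, hy⟩ (by
        rw [Prod.dist_eq, dist_self, Real.dist_eq]
        exact max_lt hlamδ hδ)
      rw [dist_eq_norm] at h1
      rw [norm_div, div_le_iff₀ hnp]
      exact h1.le)
  refine ⟨g, hg1, hg2.trans (by linarith), ?_⟩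
  intro x hx y hy
  rw [← hg4 x hx y hy, ExpG_cast, ExpG_cast]
  have h2 : ep D lam ((X0 : ℂ) + (sgm D X0 lam2 : ℝ) * x) ((X0 : ℂ) + (sgm D X0 lam2 : ℝ) * y) =
      ep D lam2 ((X0 : ℂ) + (sgm D X0 lam2 : ℝ) * x) ((X0 : ℂ) + (sgm D X0 lam2 : ℝ) * y) +
        (((ep D lam2 X0 X0).re : ℝ) : ℂ) * ((ep D lam ((X0 : ℂ) + (sgm D X0 lam2 : ℝ) * x) ((X0 : ℂ) + (sgm D X0 lam2 : ℝ) * y) -
          ep D lam2 ((X0 : ℂ) + (sgm D X0 lam2 : ℝ) * x) ((X0 : ℂ) + (sgm D X0 lam2 : ℝ) * y)) / ep D lam2 X0 X0) := by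
    rw [hre]
    field_simp
    ring
  have h3 := congrArg Complex.re h2
  rw [Complex.add_re, Complex.re_ofReal_mul] at h3
  exact h3

end Pool.Agent.MP31f1e8.KLC
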