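import Pool.Agent.Lib.MP_31f1e8_mp.KLC.GL

/-!
# KLC-GI: the greedy lemma. For every approximate reflection `γ` and every `N` there is `s` such that both orbits `W lam s`, `W lam (γ s)` are good up to time `N`.

PROOF. A state `St lam γ n n' a b`: `a < b`, for all `t ∈ [a,b]`: `GN lam n t`, `GN lam n' (γ t)`, `40 ≤ |W1 lam t (n+1)| (b - a)`, `40 ≤ |W1 lam (γ t) (n'+1)| (b - a)`.
* `st_zero`: `n = n' = 0`, `[0, 40]` (`W1 _ _ 1 = 1`).
* `slope_left`: for a state, `Slope (fun t => W lam t (n+1)) (fun t => |W1 lam t (n+1)|) a b (500/lam)`: continuity (`W_hasDerivAt`), `W1 ≠ 0` (`W1_pow`), `inv_lip`; `lo`, `hi`: mean value theorem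
  (`exists_hasDerivAt_eq_slope`) even with factor `1`.
* `slope_right`: `Slope (fun t => W lam (γ t) (n'+1)) (fun t => |W1 lam (γ t) (n'+1)|) a b (510/lam)`: `γ` is continuous (`|γ a - γ b| ≤ 51/50 |a - b|`) and `49/50 |a-b| ≤ |γ a - γ b| ≤ 51/50 |a - b|`; `γ` maps `[t,u]`
  onto the interval between `γ u` and `γ t` (intermediate value theorem), so the mean value point is `γ v` with `v ∈ [t,u]`. For `inv_lip` use the interval `[γ b, γ a]` (`γ` is strictly decreasing: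
  `γ a - γ b ≥ (49/50)(b - a)`), every point of which is `γ t`.
* `st_step`: `step` with `K = 510/lam ≤ 10^-4` (`lam ≥ 10^7`), new state `(n+1, n')`, `(n, n'+1)` or `(n+1, n'+1)` on `[a', b']`: `GN lam (n+1) t` from `GN lam n t` and `GG (W lam t (n+1))`; next derivative:
  `|W1 (n+2)| (b'-a') ≥ (lam/20 - 3) / 200 ≥ 40` (`W1_step`). If `n` is not advanced the condition `40 ≤ ..` is part of the conclusion of `step`.
* `st_many`: for every `k` there is a state with `n + n' ≥ k` (induction).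
* `st_bound`: for a state: if `n ≥ 1` then `GG_short` gives `|W lam b n - W lam a n| < 4`, mean value theorem and `W1_pow`: `(lam/20 - 3)^(n-1) (b - a) ≤ 4`; the same with `n'` (factor `49/50`: `≤ 5`). And
  `40 ≤ (lam+3)^n (b-a)`, `40 ≤ (lam+3)^n' (b-a)`. So `(lam/20-3)^(max n n' - 1) ≤ (lam+3)^(min n n')`.
* `greedy`: choose `M` with `(lam/20 - 3)^M > (lam+3)^N` and a state with `n + n' ≥ 2M + 2`: `max ≥ M + 1`, so `(lam+3)^(min) ≥ (lam/20-3)^M > (lam+3)^N`, `min n n' ≥ N`. Take `s = a`.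
-/

namespace Pool.Agent.MP31f1e8.KLC

open Set

private theorem GI_GN_succ {lam s : ℝ} {N : ℕ} (h : GN lam N s) (hg : GG (W lam s (N + 1))) :
    GN lam (N + 1) s := by
  intro j hj1 hj2
  rcases Nat.lt_or_ge N j with h1 | h1
  · have h2 : j = N + 1 := by omega
    rw [h2]
    exact hg
  · exact h j hj1 h1

private theorem GI_next {lam s l : ℝ} {N : ℕ} (hlam : 10 ^ 7 ≤ lam) (h : GN lam (N + 1) s) (hl : 0 ≤ l)
    (h1 : 1 / 200 ≤ |W1 lam s (N + 1)| * l) : 40 ≤ |W1 lam s (N + 1 + 1)| * l := by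
  have h2 := (W1_step (by norm_num at hlam ⊢; linarith) h (N + 1) (by omega) le_rfl).1
  have h3 : (lam / 20 - 3) * |W1 lam s (N + 1)| * l ≤ |W1 lam s (N + 1 + 1)| * l :=
    mul_le_mul_of_nonneg_right h2 hl
  have h4 : (8000 : ℝ) ≤ lam / 20 - 3 := by
    norm_num at hlam
    linarith
  have h5 : 0 ≤ |W1 lam s (N + 1)| * l := by positivity
  have h6 : 8000 * (|W1 lam s (N + 1)| * l) ≤ (lam / 20 - 3) * (|W1 lam s (N + 1)| * l) :=
    mul_le_mul_of_nonneg_right h4 h5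
  nlinarith

private theorem GI_lip {γ : ℝ → ℝ} (hγ : Refl γ) {a b : ℝ} (hab : a ≤ b) :
    49 / 50 * (b - a) ≤ γ a - γ b ∧ γ a - γ b ≤ 51 / 50 * (b - a) := by
  have h1 := hγ a b
  rw [abs_of_nonpos (by linarith : a - b ≤ 0)] at h1
  obtain ⟨h2, h3⟩ := abs_le.1 h1
  constructor <;> linarith

private theorem GI_cont {γ : ℝ → ℝ} (hγ : Refl γ) : Continuous γ := by
  have h : LipschitzWith 2 γ := by
    refine LipschitzWith.of_dist_le_mul fun x y => ?_
    rw [Real.dist_eq, Real.dist_eq]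
    have h1 := hγ x y
    have h2 : |γ x - γ y| ≤ |γ x - γ y + (x - y)| + |x - y| := by
      have := abs_sub (γ x - γ y + (x - y)) (x - y)
      simpa using this
    have h3 := abs_nonneg (x - y)
    have h4 : ((2 : NNReal) : ℝ) = 2 := by norm_num
    rw [h4]
    linarith
  exact h.continuous

/-- the starting state -/
private theorem GI_zero {lam : ℝ} {γ : ℝ → ℝ} : St lam γ 0 0 0 40 where
  lt := by norm_num
  l := fun t _ j h1 h2 => by omega
  r := fun t _ j h1 h2 => by omega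
  nl := fun t _ => by simp [W1]
  nr := fun t _ => by simp [W1]

theorem st_step {lam : ℝ} {γ : ℝ → ℝ} (hγ : Refl γ) {n n' : ℕ} {a b : ℝ} (hlam : 10 ^ 7 ≤ lam) (h : St lam γ n n' a b) :
    ∃ m m' a' b', n + n' < m + m' ∧ St lam γ m m' a' b' := by
  have hlam0 : (0 : ℝ) < lam := lt_of_lt_of_le (by norm_num) hlam
  have hK : 510 / lam ≤ 1 / 10000 := by
    rw [div_le_div_iff₀ hlam0 (by norm_num)]
    norm_num at hlam ⊢
    linarith
  have hK0 : 0 ≤ 510 / lam := by positivity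
  obtain ⟨a', b', h1, h2, h3, h4⟩ := step h.lt hK hK0 (slope_left hlam h) (slope_right hγ hlam h) h.nl h.nr
  have hsub : ∀ t ∈ Icc a' b', t ∈ Icc a b := fun t ht => ⟨h1.trans ht.1, ht.2.trans h3⟩
  have hl : 0 ≤ b' - a' := by linarith
  rcases h4 with ⟨h5, h6⟩ | ⟨h5, h6⟩ | ⟨h5, h6⟩
  · refine ⟨n + 1, n', a', b', by omega, ⟨h2, ?_, ?_, ?_, ?_⟩⟩
    · exact fun t ht => GI_GN_succ (h.l t (hsub t ht)) (h5 t ht).1
    · exact fun t ht => h.r t (hsub t ht)
    · exact fun t ht => GI_next hlam (GI_GN_succ (h.l t (hsub t ht)) (h5 t ht).1) hl (h5 t ht).2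
    · exact h6
  · refine ⟨n, n' + 1, a', b', by omega, ⟨h2, ?_, ?_, ?_, ?_⟩⟩
    · exact fun t ht => h.l t (hsub t ht)
    · exact fun t ht => GI_GN_succ (h.r t (hsub t ht)) (h5 t ht).1
    · exact h6
    · exact fun t ht => GI_next hlam (GI_GN_succ (h.r t (hsub t ht)) (h5 t ht).1) hl (h5 t ht).2
  · refine ⟨n + 1, n' + 1, a', b', by omega, ⟨h2, ?_, ?_, ?_, ?_⟩⟩
    · exact fun t ht => GI_GN_succ (h.l t (hsub t ht)) (h5 t ht).1
    · exact fun t ht => GI_GN_succ (h.r t (hsub t ht)) (h6 t ht).1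
    · exact fun t ht => GI_next hlam (GI_GN_succ (h.l t (hsub t ht)) (h5 t ht).1) hl (h5 t ht).2
    · exact fun t ht => GI_next hlam (GI_GN_succ (h.r t (hsub t ht)) (h6 t ht).1) hl (h6 t ht).2

theorem st_many {lam : ℝ} {γ : ℝ → ℝ} (hγ : Refl γ) (hlam : 10 ^ 7 ≤ lam) (k : ℕ) :
    ∃ n n' a b, k ≤ n + n' ∧ St lam γ n n' a b := by
  induction k with
  | zero => exact ⟨0, 0, 0, 40, by omega, GI_zero⟩
  | succ k ih =>
    obtain ⟨n, n', a, b, h1, h2⟩ := ih
    obtain ⟨m, m', a', b', h3, h4⟩ := st_step hγ hlam h2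
    exact ⟨m, m', a', b', by omega, h4⟩

private theorem GI_left {lam : ℝ} {γ : ℝ → ℝ} {n n' : ℕ} {a b : ℝ} (hlam : 10 ^ 7 ≤ lam)
    (h : St lam γ (n + 1) n' a b) : (lam / 20 - 3) ^ n * (b - a) ≤ 5 := by
  have hc : Continuous fun t => W lam t (n + 1) :=
    continuous_iff_continuousAt.2 fun t => (W_hasDerivAt lam t (n + 1)).continuousAt
  have h1 := GG_short h.lt.le hc.continuousOn fun t ht => h.l t ht (n + 1) (by omega) le_rfl
  obtain ⟨c, hc1, hc2⟩ := exists_hasDerivAt_eq_slope (fun t => W lam t (n + 1))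
    (fun t => W1 lam t (n + 1)) h.lt hc.continuousOn fun t _ => W_hasDerivAt lam t (n + 1)
  have hba : 0 < b - a := by linarith [h.lt]
  have h2 : W lam b (n + 1) - W lam a (n + 1) = W1 lam c (n + 1) * (b - a) := by
    rw [hc2]
    field_simp
  rw [h2, abs_mul, abs_of_pos hba] at h1
  have h3 := (W1_pow (by norm_num at hlam ⊢; linarith)
    (h.l c ⟨hc1.1.le, hc1.2.le⟩) n (by omega)).1
  have h4 : (lam / 20 - 3) ^ n * (b - a) ≤ |W1 lam c (n + 1)| * (b - a) :=
    mul_le_mul_of_nonneg_right h3 hba.le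
  linarith

private theorem GI_right {lam : ℝ} {γ : ℝ → ℝ} (hγ : Refl γ) {n n' : ℕ} {a b : ℝ} (hlam : 10 ^ 7 ≤ lam)
    (h : St lam γ n (n' + 1) a b) : (lam / 20 - 3) ^ n' * (b - a) ≤ 5 := by
  have hc : Continuous fun t => W lam t (n' + 1) :=
    continuous_iff_continuousAt.2 fun t => (W_hasDerivAt lam t (n' + 1)).continuousAt
  have hγc := GI_cont hγ
  have h1 := GG_short h.lt.le (hc.comp hγc).continuousOn
    fun t ht => h.r t ht (n' + 1) (by omega) le_rfl
  have hba : 0 < b - a := by linarith [h.lt]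
  obtain ⟨h5, -⟩ := GI_lip hγ h.lt.le
  have hlt : γ b < γ a := by linarith
  obtain ⟨c, hc1, hc2⟩ := exists_hasDerivAt_eq_slope (fun t => W lam t (n' + 1))
    (fun t => W1 lam t (n' + 1)) hlt hc.continuousOn fun t _ => W_hasDerivAt lam t (n' + 1)
  have hpos : 0 < γ a - γ b := by linarith
  have h2 : W lam (γ b) (n' + 1) - W lam (γ a) (n' + 1) = -(W1 lam c (n' + 1) * (γ a - γ b)) := by
    rw [hc2]
    field_simp
    ring
  simp only [Function.comp_apply] at h1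
  rw [h2, abs_neg, abs_mul, abs_of_pos hpos] at h1
  obtain ⟨v, hv, hvc⟩ := intermediate_value_Icc' h.lt.le hγc.continuousOn
    (show c ∈ Icc (γ b) (γ a) from ⟨hc1.1.le, hc1.2.le⟩)
  have h3 := (W1_pow (by norm_num at hlam ⊢; linarith) (h.r v hv) n' (by omega)).1
  rw [hvc] at h3
  have h0 : 0 ≤ |W1 lam c (n' + 1)| := abs_nonneg _
  have h6 : (lam / 20 - 3) ^ n' * (b - a) ≤ |W1 lam c (n' + 1)| * (b - a) :=
    mul_le_mul_of_nonneg_right h3 hba.le
  have h7 : |W1 lam c (n' + 1)| * (49 / 50 * (b - a)) ≤ |W1 lam c (n' + 1)| * (γ a - γ b) :=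
    mul_le_mul_of_nonneg_left h5 h0
  linarith

theorem st_bound {lam : ℝ} {γ : ℝ → ℝ} (hγ : Refl γ) {n n' : ℕ} {a b : ℝ} (hlam : 10 ^ 7 ≤ lam) (h : St lam γ n n' a b) :
    (lam / 20 - 3) ^ (max n n' - 1) ≤ (lam + 3) ^ (min n n') := by
  have hba : 0 < b - a := by linarith [h.lt]
  have hlam6 : 10 ^ 6 ≤ lam := by norm_num at hlam ⊢; linarith
  have ha : a ∈ Icc a b := ⟨le_rfl, h.lt.le⟩
  have hn : 40 ≤ (lam + 3) ^ n * (b - a) :=
    (h.nl a ha).trans (mul_le_mul_of_nonneg_right (W1_pow hlam6 (h.l a ha) n le_rfl).2 hba.le)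
  have hn' : 40 ≤ (lam + 3) ^ n' * (b - a) :=
    (h.nr a ha).trans (mul_le_mul_of_nonneg_right (W1_pow hlam6 (h.r a ha) n' le_rfl).2 hba.le)
  have key : ∀ m k : ℕ, (lam / 20 - 3) ^ m * (b - a) ≤ 5 → 40 ≤ (lam + 3) ^ k * (b - a) →
      (lam / 20 - 3) ^ m ≤ (lam + 3) ^ k := by
    intro m k h1 h2
    have h3 : (lam / 20 - 3) ^ m * (b - a) ≤ (lam + 3) ^ k * (b - a) := by linarith
    exact le_of_mul_le_mul_right h3 hba
  rcases le_total n n' with hle | hle
  · rw [max_eq_right hle, min_eq_left hle]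
    cases n' with
    | zero =>
      have h0 : n = 0 := by omega
      simp [h0]
    | succ k =>
      rw [Nat.add_sub_cancel]
      exact key k n (GI_right hγ hlam h) hn
  · rw [max_eq_left hle, min_eq_right hle]
    cases n with
    | zero =>
      have h0 : n' = 0 := by omega
      simp [h0]
    | succ k =>
      rw [Nat.add_sub_cancel]
      exact key k n' (GI_left hlam h) hn'

theorem greedy {lam : ℝ} (hlam : 10 ^ 7 ≤ lam) {γ : ℝ → ℝ} (hγ : Refl γ) (N : ℕ) : ∃ s, GN lam N s ∧ GN lam N (γ s) := by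
  have h1 : (1 : ℝ) < lam / 20 - 3 := by
    norm_num at hlam
    linarith
  have h2 : (1 : ℝ) < lam + 3 := by
    norm_num at hlam
    linarith
  obtain ⟨M, hM⟩ := pow_unbounded_of_one_lt ((lam + 3) ^ N) h1
  obtain ⟨n, n', a, b, h3, h4⟩ := st_many hγ hlam (2 * M + 2)
  have h5 := st_bound hγ hlam h4
  have h6 : M ≤ max n n' - 1 := by
    rcases le_total n n' with hle | hle
    · rw [max_eq_right hle]
      omega
    · rw [max_eq_left hle]
      omega
  have h7 : (lam / 20 - 3) ^ M ≤ (lam / 20 - 3) ^ (max n n' - 1) := pow_le_pow_right₀ h1.le h6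
  have h8 : (lam + 3) ^ N < (lam + 3) ^ (min n n') := by linarith
  have h9 : N < min n n' := (pow_lt_pow_iff_right₀ h2).1 h8
  have ha : a ∈ Icc a b := ⟨le_rfl, h4.lt.le⟩
  refine ⟨a, fun j hj1 hj2 => h4.l a ha j hj1 ?_, fun j hj1 hj2 => h4.r a ha j hj1 ?_⟩
  · exact hj2.trans (h9.le.trans (min_le_left _ _))
  · exact hj2.trans (h9.le.trans (min_le_right _ _))

end Pool.Agent.MP31f1e8.KLC
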