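import Pool.Agent.Lib.MP_31f1e8_mp.KLC.GT

/-!
# KLC-GS: the step of the greedy lemma.

`Slope Φ p a b K`: `Φ` moves with speed `p` (up to 2 percent), `1 / p` is `K`-Lipschitz, `K ≤ 10^(-4)`.

PROOF of `step` (both total lengths `p (b - a)`, `r (b - a) ≥ 40`). By symmetry assume `p a ≤ r a` (`step_aux`); by `slope_neg`, `GG_neg` and injectivity (from `lo`; a continuous injective
function on an interval is strictly monotone) we may assume that `Φ` and `Ψ` are strictly increasing on `[a, b]`. Let `A = 1 / p a ≥ 1 / r a`.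
(1) `Φ b - Φ a ≥ (49/50) * (40/(b-a)) * (b-a) ≥ 10`. Choose `r0 ∈ [a,b]` with `Φ r0 = Φ a + 10`, `h = r0 - a`. On `[a, r0]`: `1/p ≤ A + K h`, so `10 ≥ (49/50) h / (A + K h)`, hence `h ≤ 10.4 A`
(`K ≤ 10^-4`). So on `[a, r0]`: `0.998 A ≤ 1/p ≤ 1.002 A`, and `1/r ≤ 1/r a + K h ≤ 1.002 A`.
(2) There is an integer `k` with `[2πk - 3/2, 2πk + 3/2] ⊆ [Φ a, Φ a + 10]` (`10 ≥ 2π + 3`). Let `a1 < b1` in `[a, r0]` with `Φ a1 = 2πk - 3/2`, `Φ b1 = 2πk + 3/2`; on `[a1,b1]` all `Φ t` are good (`GG_window`).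
`l = b1 - a1`: `3 ≤ (51/50) l /(0.998 A)` and `3 ≥ (49/50) l / (1.002 A)`: `2.93 A ≤ l ≤ 3.08 A`.
(3) If `40 ≤ r t * l` for all `t ∈ [a1, b1]`: conclusion (A) with `[a1, b1]` (`p t * l ≥ 2.93 / 1.002 ≥ 1/200`).
(4) Otherwise some `t1` has `1 / r t1 > l / 40`, so `1 / r t ≥ l/40 - K l ≥ l / 80` on `[a1,b1]`, `r ≤ 80 / l`. And `Ψ b1 - Ψ a1 ≥ (49/50) l / (1.002 A) ≥ 2.8 ≥ 1`. By `GG_quarter` (at `Ψ a1`) there is an interval
of length `1/4` inside `[Ψ a1, Ψ a1 + 1]` consisting of good points; let `[a3, b3] ⊆ [a1, b1]` be its preimage (`Ψ` increasing, continuous). `1/4 ≤ (51/50) (80/l) (b3 - a3)`: `b3 - a3 ≥ l/326.4`;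
`p t (b3 - a3) ≥ (1/(1.002 A)) (2.93 A) / 326.4 ≥ 0.0089 ≥ 1/200`. For `r`: some `t* ∈ [a3,b3]` has `r t* (b3 - a3) ≥ 0.245` (otherwise `hi` with `c = 0.245/(b3-a3)` gives `1/4 ≤ (51/50) 0.245 < 1/4`), and
`1 / r t ≤ 1 / r t* + K (b3 - a3) ≤ (b3 - a3) (1/0.245 + K)`: `r t (b3 - a3) ≥ 1/5 ≥ 1/200`. Conclusion (C).
-/

namespace Pool.Agent.MP31f1e8.KLC

open Set

theorem slope_neg {Φ p : ℝ → ℝ} {a b K : ℝ} (h : Slope Φ p a b K) : Slope (fun t => -Φ t) p a b K := by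
  have e : ∀ t u, |(-Φ u) - (-Φ t)| = |Φ u - Φ t| := fun t u => by
    rw [← abs_neg]; congr 1; ring
  refine ⟨h.cont.neg, h.pos, h.lip, ?_, ?_⟩
  · intro t u c h1 h2 h3 h4 h5
    rw [e]
    exact h.lo t u c h1 h2 h3 h4 h5
  · intro t u c h1 h2 h3 h4
    rw [e]
    exact h.hi t u c h1 h2 h3 h4

theorem slope_mono {Φ p : ℝ → ℝ} {a b K : ℝ} (h : Slope Φ p a b K) (hab : a ≤ b) :
    StrictMonoOn Φ (Icc a b) ∨ StrictAntiOn Φ (Icc a b) := by
  have ha : a ∈ Icc a b := ⟨le_rfl, hab⟩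
  have hM : ∀ v ∈ Icc a b, 1 / p v ≤ 1 / p a + |K| * (b - a) := by
    intro v hv
    have h1 := h.lip v hv a ha
    have h2 : K * |v - a| ≤ |K| * (b - a) := by
      have h3 : |v - a| ≤ b - a := by
        rw [abs_of_nonneg (by linarith [hv.1])]
        linarith [hv.2]
      exact mul_le_mul (le_abs_self K) h3 (abs_nonneg _) (abs_nonneg _)
    have h4 := le_abs_self (1 / p v - 1 / p a)
    linarith
  have hM0 : 0 < 1 / p a + |K| * (b - a) := by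
    have h1 : 0 < 1 / p a := one_div_pos.2 (h.pos a ha)
    have h2 : 0 ≤ |K| * (b - a) := mul_nonneg (abs_nonneg _) (by linarith)
    linarith
  have hlt : ∀ t u, t ∈ Icc a b → u ∈ Icc a b → t < u → Φ t ≠ Φ u := by
    intro t u ht hu htu he
    have h1 := h.lo t u (1 / (1 / p a + |K| * (b - a))) ht.1 htu hu.2 (one_div_pos.2 hM0).le
      (fun v hv => by
        have hv' : v ∈ Icc a b := ⟨ht.1.trans hv.1, hv.2.trans hu.2⟩
        rw [one_div_le hM0 (h.pos v hv')]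
        exact hM v hv')
    rw [he, sub_self, abs_zero] at h1
    have h2 : 0 < 49 / 50 * (1 / (1 / p a + |K| * (b - a))) * (u - t) := by
      have := one_div_pos.2 hM0
      have h3 : 0 < u - t := by linarith
      positivity
    linarith
  refine ContinuousOn.strictMonoOn_of_injOn_Icc' hab h.cont ?_
  intro t ht u hu he
  rcases lt_trichotomy t u with h1 | h1 | h1
  · exact absurd he (hlt t u ht hu h1)
  · exact h1
  · exact absurd he.symm (hlt u t hu ht h1)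

/-- restriction of the intermediate value theorem -/
private theorem GS_ivt {Φ : ℝ → ℝ} {a b x y : ℝ} (hc : ContinuousOn Φ (Icc a b)) (hx : x ∈ Icc a b)
    (hy : y ∈ Icc a b) (hxy : x ≤ y) {z : ℝ} (h1 : Φ x ≤ z) (h2 : z ≤ Φ y) :
    ∃ t, x ≤ t ∧ t ≤ y ∧ Φ t = z := by
  have h3 : ContinuousOn Φ (Icc x y) := hc.mono (Icc_subset_Icc hx.1 hy.2)
  obtain ⟨t, ht, h4⟩ := intermediate_value_Icc hxy h3 ⟨h1, h2⟩
  exact ⟨t, ht.1, ht.2, h4⟩

private theorem GS_core {Φ p Ψ r : ℝ → ℝ} {a b K : ℝ} (hab : a < b) (hK : K ≤ 1 / 10000) (hK0 : 0 ≤ K)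
    (h1 : Slope Φ p a b K) (h2 : Slope Ψ r a b K) (hp : ∀ t ∈ Icc a b, 40 ≤ p t * (b - a))
    (hpr : p a ≤ r a) (m1 : StrictMonoOn Φ (Icc a b)) (m2 : StrictMonoOn Ψ (Icc a b)) :
    ∃ a' b', a ≤ a' ∧ a' < b' ∧ b' ≤ b ∧ (∀ t ∈ Icc a' b', GG (Φ t) ∧ 1 / 200 ≤ p t * (b' - a')) ∧
      ((∀ t ∈ Icc a' b', 40 ≤ r t * (b' - a')) ∨ (∀ t ∈ Icc a' b', GG (Ψ t) ∧ 1 / 200 ≤ r t * (b' - a'))) := by
  have haI : a ∈ Icc a b := ⟨le_rfl, hab.le⟩
  have hbI : b ∈ Icc a b := ⟨hab.le, le_rfl⟩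
  have hba : 0 < b - a := by linarith
  obtain ⟨A, hA⟩ : ∃ A, A = 1 / p a := ⟨_, rfl⟩
  have hA0 : 0 < A := by rw [hA]; exact one_div_pos.2 (h1.pos a haI)
  have hrA : 1 / r a ≤ A := by
    rw [hA]; exact one_div_le_one_div_of_le (h1.pos a haI) hpr
  -- (1)
  have e1 : Φ a + 10 ≤ Φ b := by
    have h3 := h1.lo a b (40 / (b - a)) le_rfl hab le_rfl (by positivity)
      (fun v hv => by rw [div_le_iff₀ hba]; exact hp v hv)
    have h4 : 49 / 50 * (40 / (b - a)) * (b - a) = 49 / 50 * 40 := by field_simp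
    rw [h4, abs_of_pos (by linarith [m1 haI hbI hab])] at h3
    linarith
  obtain ⟨r0, hr1, hr2, hr0⟩ := GS_ivt h1.cont haI hbI hab.le (z := Φ a + 10) (by linarith) e1
  have har0 : a < r0 := by
    rcases hr1.lt_or_eq with h | h
    · exact h
    · rw [← h] at hr0; linarith
  have hr0I : r0 ∈ Icc a b := ⟨hr1, hr2⟩
  obtain ⟨h, hh⟩ : ∃ h, h = r0 - a := ⟨_, rfl⟩
  have hh0 : 0 < h := by rw [hh]; linarith
  have hKh0 : 0 ≤ K * h := mul_nonneg hK0 hh0.le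
  have hlipa : ∀ {q : ℝ → ℝ} {F : ℝ → ℝ}, Slope F q a b K → ∀ v ∈ Icc a r0, |1 / q v - 1 / q a| ≤ K * h := by
    intro q F hF v hv
    have h3 := hF.lip v ⟨hv.1, hv.2.trans hr2⟩ a haI
    refine h3.trans (mul_le_mul_of_nonneg_left ?_ hK0)
    rw [abs_of_nonneg (by linarith [hv.1]), hh]
    linarith [hv.2]
  have hhA : h ≤ 10.4 * A := by
    have hAK : 0 < A + K * h := by linarith
    have h3 := h1.lo a r0 (1 / (A + K * h)) le_rfl har0 hr2 (one_div_pos.2 hAK).le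
      (fun v hv => by
        have hv' : v ∈ Icc a b := ⟨hv.1, hv.2.trans hr2⟩
        rw [one_div_le hAK (h1.pos v hv')]
        have h4 := hlipa h1 v hv
        have h5 := le_abs_self (1 / p v - 1 / p a)
        rw [hA]
        linarith)
    rw [hr0, ← hh, add_sub_cancel_left, abs_of_pos (by norm_num : (0 : ℝ) < 10)] at h3
    have h4 : 49 / 50 * h ≤ 10 * (A + K * h) := by
      have h5 : 49 / 50 * (1 / (A + K * h)) * h = (49 / 50 * h) / (A + K * h) := by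
        field_simp
      rw [h5, div_le_iff₀ hAK] at h3
      exact h3
    have h6 : K * h ≤ 1 / 10000 * h := mul_le_mul_of_nonneg_right hK hh0.le
    linarith
  have hKhA : K * h ≤ 0.002 * A := by
    have h6 : K * h ≤ 1 / 10000 * h := mul_le_mul_of_nonneg_right hK hh0.le
    linarith
  have hpl : ∀ v ∈ Icc a r0, 0.998 * A ≤ 1 / p v ∧ 1 / p v ≤ 1.002 * A := by
    intro v hv
    have h3 := abs_le.1 (hlipa h1 v hv)
    rw [← hA] at h3
    constructor <;> linarith [h3.1, h3.2]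
  have hrl : ∀ v ∈ Icc a r0, 1 / r v ≤ 1.002 * A := by
    intro v hv
    have h3 := abs_le.1 (hlipa h2 v hv)
    linarith [h3.1, h3.2]
  -- bounds of `p` and `r` themselves
  have hA1 : 0 < 1.002 * A := by linarith
  have hA2 : 0 < 0.998 * A := by linarith
  have hpge : ∀ v ∈ Icc a r0, 1 / (1.002 * A) ≤ p v := by
    intro v hv
    rw [one_div_le hA1 (h1.pos v ⟨hv.1, hv.2.trans hr2⟩)]
    exact (hpl v hv).2
  have hple : ∀ v ∈ Icc a r0, p v ≤ 1 / (0.998 * A) := by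
    intro v hv
    rw [le_one_div (h1.pos v ⟨hv.1, hv.2.trans hr2⟩) hA2]
    exact (hpl v hv).1
  have hrge : ∀ v ∈ Icc a r0, 1 / (1.002 * A) ≤ r v := by
    intro v hv
    rw [one_div_le hA1 (h2.pos v ⟨hv.1, hv.2.trans hr2⟩)]
    exact hrl v hv
  -- (2)
  obtain ⟨k, hk1, hk2⟩ : ∃ k : ℤ, Φ a ≤ 2 * Real.pi * k - 3 / 2 ∧ 2 * Real.pi * k + 3 / 2 ≤ Φ a + 10 := by
    have hpi : 0 < 2 * Real.pi := by linarith [Real.pi_pos]
    refine ⟨⌈(Φ a + 3 / 2) / (2 * Real.pi)⌉, ?_, ?_⟩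
    · have h3 := Int.le_ceil ((Φ a + 3 / 2) / (2 * Real.pi))
      rw [div_le_iff₀ hpi] at h3
      linarith
    · have h3 := Int.ceil_lt_add_one ((Φ a + 3 / 2) / (2 * Real.pi))
      have h4 : ((⌈(Φ a + 3 / 2) / (2 * Real.pi)⌉ : ℤ) : ℝ) * (2 * Real.pi) <
          ((Φ a + 3 / 2) / (2 * Real.pi) + 1) * (2 * Real.pi) := mul_lt_mul_of_pos_right h3 hpi
      rw [add_mul, div_mul_cancel₀ _ hpi.ne', one_mul] at h4
      linarith [Real.pi_lt_d2]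
  obtain ⟨a1, ha1, ha1', hfa⟩ := GS_ivt h1.cont haI hr0I hr1 (z := 2 * Real.pi * k - 3 / 2) hk1 (by linarith)
  obtain ⟨b1, hb1, hb1', hfb⟩ := GS_ivt h1.cont haI hr0I hr1 (z := 2 * Real.pi * k + 3 / 2) (by linarith) (by linarith)
  have ha1I : a1 ∈ Icc a b := ⟨ha1, ha1'.trans hr2⟩
  have hb1I : b1 ∈ Icc a b := ⟨hb1, hb1'.trans hr2⟩
  have hab1 : a1 < b1 := by
    rw [← m1.lt_iff_lt ha1I hb1I, hfa, hfb]
    linarith
  have hsub : ∀ v ∈ Icc a1 b1, v ∈ Icc a r0 := fun v hv => ⟨ha1.trans hv.1, hv.2.trans hb1'⟩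
  have hsubb : ∀ v ∈ Icc a1 b1, v ∈ Icc a b := fun v hv => ⟨ha1.trans hv.1, (hv.2.trans hb1').trans hr2⟩
  have hgood : ∀ t ∈ Icc a1 b1, GG (Φ t) := by
    intro t ht
    refine GG_window (k := k) ?_
    have h3 : Φ a1 ≤ Φ t := (m1.le_iff_le ha1I (hsubb t ht)).2 ht.1
    have h4 : Φ t ≤ Φ b1 := (m1.le_iff_le (hsubb t ht) hb1I).2 ht.2
    rw [abs_le]
    constructor <;> linarith
  obtain ⟨l, hl⟩ : ∃ l, l = b1 - a1 := ⟨_, rfl⟩
  have hl0 : 0 < l := by rw [hl]; linarith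
  have hΦl : |Φ b1 - Φ a1| = 3 := by
    rw [hfa, hfb]
    rw [show 2 * Real.pi * (k : ℝ) + 3 / 2 - (2 * Real.pi * k - 3 / 2) = 3 by ring]
    norm_num
  have hl1 : 2.93 * A ≤ l := by
    have h3 := h1.hi a1 b1 (1 / (0.998 * A)) ha1 hab1 hb1I.2 (fun v hv => hple v (hsub v hv))
    rw [hΦl, ← hl] at h3
    have h5 : 51 / 50 * (1 / (0.998 * A)) * l = (51 / 50 * l) / (0.998 * A) := by
      field_simp
    rw [h5, le_div_iff₀ hA2] at h3
    linarith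
  have hl2 : l ≤ 3.08 * A := by
    have h3 := h1.lo a1 b1 (1 / (1.002 * A)) ha1 hab1 hb1I.2 (one_div_pos.2 hA1).le
      (fun v hv => hpge v (hsub v hv))
    rw [hΦl, ← hl] at h3
    have h5 : 49 / 50 * (1 / (1.002 * A)) * l = (49 / 50 * l) / (1.002 * A) := by
      field_simp
    rw [h5, div_le_iff₀ hA1] at h3
    linarith
  by_cases h40 : ∀ t ∈ Icc a1 b1, 40 ≤ r t * (b1 - a1)
  · -- (3)
    refine ⟨a1, b1, ha1, hab1, hb1I.2, fun t ht => ⟨hgood t ht, ?_⟩, Or.inl h40⟩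
    rw [← hl]
    have h3 := mul_le_mul_of_nonneg_right (hpge t (hsub t ht)) hl0.le
    refine le_trans ?_ h3
    rw [one_div_mul_eq_div, le_div_iff₀ hA1]
    linarith
  · -- (4)
    push Not at h40
    obtain ⟨t1, ht1, h40⟩ := h40
    rw [← hl] at h40
    have hrt1 : 0 < r t1 := h2.pos t1 (hsubb t1 ht1)
    have h3 : l / 40 ≤ 1 / r t1 := by
      rw [div_le_div_iff₀ (by norm_num) hrt1]
      linarith
    have hrle : ∀ v ∈ Icc a1 b1, r v ≤ 80 / l := by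
      intro v hv
      have h4 := h2.lip v (hsubb v hv) t1 (hsubb t1 ht1)
      have h5 : |v - t1| ≤ l := by
        rw [abs_le, hl]
        constructor <;> linarith [hv.1, hv.2, ht1.1, ht1.2]
      have h6 : K * |v - t1| ≤ 1 / 10000 * l := mul_le_mul hK h5 (abs_nonneg _) (by norm_num)
      have h7 := (abs_le.1 h4).1
      have h8 : l / 80 ≤ 1 / r v := by linarith
      have h9 := h2.pos v (hsubb v hv)
      rw [div_le_div_iff₀ (by norm_num) h9] at h8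
      rw [le_div_iff₀ hl0]
      linarith
    have hΨ : Ψ a1 + 1 ≤ Ψ b1 := by
      have h4 := h2.lo a1 b1 (1 / (1.002 * A)) ha1 hab1 hb1I.2 (one_div_pos.2 hA1).le
        (fun v hv => hrge v (hsub v hv))
      have h5 : 49 / 50 * (1 / (1.002 * A)) * (b1 - a1) = (49 / 50 * l) / (1.002 * A) := by
        rw [← hl]; field_simp
      rw [h5, abs_of_pos (by linarith [m2 ha1I hb1I hab1]), div_le_iff₀ hA1] at h4
      by_contra hcon
      push Not at hcon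
      have h6 : (Ψ b1 - Ψ a1) * (1.002 * A) ≤ 1 * (1.002 * A) :=
        mul_le_mul_of_nonneg_right (by linarith) hA1.le
      linarith
    obtain ⟨c, hc1, hc2, hc3⟩ : ∃ c, Ψ a1 ≤ c ∧ c + 1 / 4 ≤ Ψ a1 + 1 ∧ ∀ x ∈ Icc c (c + 1 / 4), GG x := by
      rcases GG_quarter (Ψ a1) with hq | hq
      · exact ⟨Ψ a1, le_rfl, by linarith, hq⟩
      · refine ⟨Ψ a1 + 3 / 4, by linarith, by linarith, ?_⟩
        rw [show Ψ a1 + 3 / 4 + 1 / 4 = Ψ a1 + 1 by ring]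
        exact hq
    obtain ⟨a3, ha3, ha3', hga⟩ := GS_ivt h2.cont ha1I hb1I hab1.le (z := c) hc1 (by linarith)
    obtain ⟨b3, hb3, hb3', hgb⟩ := GS_ivt h2.cont ha1I hb1I hab1.le (z := c + 1 / 4) (by linarith) (by linarith)
    have ha3I : a3 ∈ Icc a b := hsubb a3 ⟨ha3, ha3'⟩
    have hb3I : b3 ∈ Icc a b := hsubb b3 ⟨hb3, hb3'⟩
    have hab3 : a3 < b3 := by
      rw [← m2.lt_iff_lt ha3I hb3I, hga, hgb]
      linarith
    have hs3 : ∀ v ∈ Icc a3 b3, v ∈ Icc a1 b1 := fun v hv => ⟨ha3.trans hv.1, hv.2.trans hb3'⟩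
    obtain ⟨e, he⟩ : ∃ e, e = b3 - a3 := ⟨_, rfl⟩
    have he0 : 0 < e := by rw [he]; linarith
    have hΨe : |Ψ b3 - Ψ a3| = 1 / 4 := by
      rw [hga, hgb, add_sub_cancel_left]
      norm_num
    have hel : l ≤ 326.4 * e := by
      have h4 := h2.hi a3 b3 (80 / l) ha3I.1 hab3 hb3I.2 (fun v hv => hrle v (hs3 v hv))
      rw [hΨe, ← he] at h4
      have h5 : 51 / 50 * (80 / l) * e = (51 / 50 * 80 * e) / l := by
        field_simp
      rw [h5, le_div_iff₀ hl0] at h4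
      linarith
    obtain ⟨ts, hts, hrts⟩ : ∃ t ∈ Icc a3 b3, 0.245 ≤ r t * e := by
      by_contra hcon
      push Not at hcon
      have h4 := h2.hi a3 b3 (0.245 / e) ha3I.1 hab3 hb3I.2 (fun v hv => by
        rw [le_div_iff₀ he0]
        exact (hcon v hv).le)
      rw [hΨe, ← he] at h4
      have h5 : 51 / 50 * (0.245 / e) * e = 51 / 50 * 0.245 := by
        field_simp
      rw [h5] at h4
      norm_num at h4
    refine ⟨a3, b3, ha3I.1, hab3, hb3I.2, fun t ht => ⟨hgood t (hs3 t ht), ?_⟩,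
      Or.inr fun t ht => ⟨hc3 (Ψ t) ⟨?_, ?_⟩, ?_⟩⟩
    · rw [← he]
      have h4 := mul_le_mul_of_nonneg_right (hpge t (hsub t (hs3 t ht))) he0.le
      refine le_trans ?_ h4
      rw [one_div_mul_eq_div, le_div_iff₀ hA1]
      linarith
    · rw [← hga]
      exact (m2.le_iff_le ha3I (hsubb t (hs3 t ht))).2 ht.1
    · rw [← hgb]
      exact (m2.le_iff_le (hsubb t (hs3 t ht)) hb3I).2 ht.2
    · rw [← he]
      have h4 := h2.lip t (hsubb t (hs3 t ht)) ts (hsubb ts (hs3 ts hts))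
      have h5 : |t - ts| ≤ e := by
        rw [abs_le, he]
        constructor <;> linarith [ht.1, ht.2, hts.1, hts.2]
      have h6 : K * |t - ts| ≤ 1 / 10000 * e := mul_le_mul hK h5 (abs_nonneg _) (by norm_num)
      have h7 := (abs_le.1 h4).2
      have hrt := h2.pos t (hsubb t (hs3 t ht))
      have hrt' := h2.pos ts (hsubb ts (hs3 ts hts))
      have h8 : 1 / r ts ≤ e / 0.245 := by
        rw [div_le_div_iff₀ hrt' (by norm_num)]
        linarith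
      have h9 : 1 / r t ≤ 200 * e := by
        have h10 : e / 0.245 ≤ 5 * e := by
          rw [div_le_iff₀ (by norm_num)]
          linarith
        linarith
      rw [div_le_iff₀ hrt] at h9
      linarith

theorem step_aux {Φ p Ψ r : ℝ → ℝ} {a b K : ℝ} (hab : a < b) (hK : K ≤ 1 / 10000) (hK0 : 0 ≤ K) (h1 : Slope Φ p a b K)
    (h2 : Slope Ψ r a b K) (hp : ∀ t ∈ Icc a b, 40 ≤ p t * (b - a)) (hr : ∀ t ∈ Icc a b, 40 ≤ r t * (b - a)) (hpr : p a ≤ r a) :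
    ∃ a' b', a ≤ a' ∧ a' < b' ∧ b' ≤ b ∧ (∀ t ∈ Icc a' b', GG (Φ t) ∧ 1 / 200 ≤ p t * (b' - a')) ∧
      ((∀ t ∈ Icc a' b', 40 ≤ r t * (b' - a')) ∨ (∀ t ∈ Icc a' b', GG (Ψ t) ∧ 1 / 200 ≤ r t * (b' - a'))) := by
  have _ := hr
  rcases slope_mono h1 hab.le with m1 | m1 <;> rcases slope_mono h2 hab.le with m2 | m2
  · exact GS_core hab hK hK0 h1 h2 hp hpr m1 m2
  · have m2' : StrictMonoOn (fun t => -Ψ t) (Icc a b) := m2.neg
    obtain ⟨a', b', h3, h4, h5, h6, h7⟩ := GS_core hab hK hK0 h1 (slope_neg h2) hp hpr m1 m2'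
    simp only [GG_neg] at h7
    exact ⟨a', b', h3, h4, h5, h6, h7⟩
  · have m1' : StrictMonoOn (fun t => -Φ t) (Icc a b) := m1.neg
    obtain ⟨a', b', h3, h4, h5, h6, h7⟩ := GS_core hab hK hK0 (slope_neg h1) h2 hp hpr m1' m2
    simp only [GG_neg] at h6
    exact ⟨a', b', h3, h4, h5, h6, h7⟩
  · have m1' : StrictMonoOn (fun t => -Φ t) (Icc a b) := m1.neg
    have m2' : StrictMonoOn (fun t => -Ψ t) (Icc a b) := m2.neg
    obtain ⟨a', b', h3, h4, h5, h6, h7⟩ := GS_core hab hK hK0 (slope_neg h1) (slope_neg h2) hp hpr m1' m2'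
    simp only [GG_neg] at h6 h7
    exact ⟨a', b', h3, h4, h5, h6, h7⟩

theorem step {Φ p Ψ r : ℝ → ℝ} {a b K : ℝ} (hab : a < b) (hK : K ≤ 1 / 10000) (hK0 : 0 ≤ K) (h1 : Slope Φ p a b K)
    (h2 : Slope Ψ r a b K) (hp : ∀ t ∈ Icc a b, 40 ≤ p t * (b - a)) (hr : ∀ t ∈ Icc a b, 40 ≤ r t * (b - a)) :
    ∃ a' b', a ≤ a' ∧ a' < b' ∧ b' ≤ b ∧
      (((∀ t ∈ Icc a' b', GG (Φ t) ∧ 1 / 200 ≤ p t * (b' - a')) ∧ (∀ t ∈ Icc a' b', 40 ≤ r t * (b' - a'))) ∨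
       ((∀ t ∈ Icc a' b', GG (Ψ t) ∧ 1 / 200 ≤ r t * (b' - a')) ∧ (∀ t ∈ Icc a' b', 40 ≤ p t * (b' - a'))) ∨
       ((∀ t ∈ Icc a' b', GG (Φ t) ∧ 1 / 200 ≤ p t * (b' - a')) ∧ (∀ t ∈ Icc a' b', GG (Ψ t) ∧ 1 / 200 ≤ r t * (b' - a')))) := by
  rcases le_total (p a) (r a) with h | h
  · obtain ⟨a', b', h3, h4, h5, h6, h7⟩ := step_aux hab hK hK0 h1 h2 hp hr h
    refine ⟨a', b', h3, h4, h5, ?_⟩
    rcases h7 with h7 | h7
    · exact Or.inl ⟨h6, h7⟩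
    · exact Or.inr (Or.inr ⟨h6, h7⟩)
  · obtain ⟨a', b', h3, h4, h5, h6, h7⟩ := step_aux hab hK hK0 h2 h1 hr hp h
    refine ⟨a', b', h3, h4, h5, ?_⟩
    rcases h7 with h7 | h7
    · exact Or.inr (Or.inl ⟨h6, h7⟩)
    · exact Or.inr (Or.inr ⟨h7, h6⟩)

end Pool.Agent.MP31f1e8.KLC
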