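import Pool.Agent.Lib.MP_31f1e8_mp.KLC.GW
import Pool.Agent.Lib.MP_31f1e8_mp.KLC.GS

/-!
# KLC-GL: the two functions of a state of the greedy algorithm satisfy `Slope`.

PROOF.
* `slope_left`: `Slope (fun t => W lam t (n+1)) (fun t => |W1 lam t (n+1)|) a b (510/lam)`: continuity (`W_hasDerivAt`), `W1 ≠ 0` (`W1_pow`), `inv_lip`; `lo`, `hi`: mean value theorem
  (`exists_hasDerivAt_eq_slope`) even with factor `1`.
* `slope_right`: `Slope (fun t => W lam (γ t) (n'+1)) (fun t => |W1 lam (γ t) (n'+1)|) a b (510/lam)`: `γ` is continuous (`|γ a - γ b| ≤ 51/50 |a - b|`) and `49/50 |a-b| ≤ |γ a - γ b| ≤ 51/50 |a - b|`; `γ` maps `[t,u]`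
  onto the interval between `γ u` and `γ t` (intermediate value theorem), so the mean value point is `γ v` with `v ∈ [t,u]`. For `inv_lip` use the interval `[γ b, γ a]` (`γ` is strictly decreasing:
  `γ a - γ b ≥ (49/50)(b - a)`), every point of which is `γ t`; `500/lam * 51/50 = 510/lam`.
-/

namespace Pool.Agent.MP31f1e8.KLC

open Set

/-- a state of the greedy algorithm -/
structure St (lam : ℝ) (γ : ℝ → ℝ) (n n' : ℕ) (a b : ℝ) : Prop where
  lt : a < b
  l : ∀ t ∈ Icc a b, GN lam n t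
  r : ∀ t ∈ Icc a b, GN lam n' (γ t)
  nl : ∀ t ∈ Icc a b, 40 ≤ |W1 lam t (n + 1)| * (b - a)
  nr : ∀ t ∈ Icc a b, 40 ≤ |W1 lam (γ t) (n' + 1)| * (b - a)

private theorem GL_mvt {lam : ℝ} {N : ℕ} {x y : ℝ} (hxy : x < y) :
    ∃ v ∈ Icc x y, |W lam y N - W lam x N| = |W1 lam v N| * (y - x) := by
  obtain ⟨v, hv, h1⟩ := exists_hasDerivAt_eq_slope (fun s => W lam s N) (fun s => W1 lam s N) hxy
    (fun s _ => (W_hasDerivAt lam s N).continuousAt.continuousWithinAt)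
    (fun s _ => W_hasDerivAt lam s N)
  refine ⟨v, ⟨hv.1.le, hv.2.le⟩, ?_⟩
  have h0 : 0 < y - x := sub_pos.2 hxy
  rw [h1, abs_div, abs_of_pos h0, div_mul_cancel₀ _ h0.ne']

private theorem GL_pos {lam s : ℝ} {N : ℕ} (hlam : 10 ^ 7 ≤ lam) (h : GN lam N s) :
    0 < |W1 lam s (N + 1)| := by
  have h1 : (10 : ℝ) ^ 6 ≤ lam := le_trans (by norm_num) hlam
  have h2 := (W1_pow h1 h N le_rfl).1
  refine lt_of_lt_of_le (pow_pos ?_ N) h2
  have h3 : (10 : ℝ) ^ 6 = 1000000 := by norm_num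
  rw [h3] at h1
  linarith

private theorem GL_c {lam : ℝ} {N : ℕ} : Continuous (fun s => W lam s N) :=
  continuous_iff_continuousAt.2 fun s => (W_hasDerivAt lam s N).continuousAt

theorem slope_left {lam : ℝ} {γ : ℝ → ℝ} {n n' : ℕ} {a b : ℝ} (hlam : 10 ^ 7 ≤ lam) (h : St lam γ n n' a b) :
    Slope (fun t => W lam t (n + 1)) (fun t => |W1 lam t (n + 1)|) a b (510 / lam) := by
  have h1 : (10 : ℝ) ^ 6 ≤ lam := le_trans (by norm_num) hlam
  have hl0 : (0 : ℝ) < lam := lt_of_lt_of_le (by norm_num) hlam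
  refine ⟨GL_c.continuousOn, fun t ht => GL_pos hlam (h.l t ht), fun t ht u hu => ?_, ?_, ?_⟩
  · refine (inv_lip h1 h.l t ht u hu).trans (mul_le_mul_of_nonneg_right ?_ (abs_nonneg _))
    exact div_le_div_of_nonneg_right (by norm_num) hl0.le
  · intro t u c _ htu _ hc hp
    obtain ⟨v, hv, h2⟩ := GL_mvt (lam := lam) (N := n + 1) htu
    show 49 / 50 * c * (u - t) ≤ |W lam u (n + 1) - W lam t (n + 1)|
    rw [h2]
    have h3 := hp v hv
    have h4 : 0 < u - t := sub_pos.2 htu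
    have h5 : c * (u - t) ≤ |W1 lam v (n + 1)| * (u - t) := mul_le_mul_of_nonneg_right h3 h4.le
    have h6 : 0 ≤ c * (u - t) := mul_nonneg hc h4.le
    linarith
  · intro t u c _ htu _ hp
    obtain ⟨v, hv, h2⟩ := GL_mvt (lam := lam) (N := n + 1) htu
    show |W lam u (n + 1) - W lam t (n + 1)| ≤ 51 / 50 * c * (u - t)
    rw [h2]
    have h3 := hp v hv
    have h4 : 0 < u - t := sub_pos.2 htu
    have h5 : |W1 lam v (n + 1)| * (u - t) ≤ c * (u - t) := mul_le_mul_of_nonneg_right h3 h4.le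
    have h6 : 0 ≤ |W1 lam v (n + 1)| * (u - t) := by positivity
    linarith

private theorem GL_refl {γ : ℝ → ℝ} (hγ : Refl γ) {t u : ℝ} (htu : t ≤ u) :
    49 / 50 * (u - t) ≤ γ t - γ u ∧ γ t - γ u ≤ 51 / 50 * (u - t) := by
  have h1 := hγ t u
  rw [abs_of_nonpos (by linarith : t - u ≤ 0), abs_le] at h1
  exact ⟨by linarith [h1.1], by linarith [h1.2]⟩

private theorem GL_gc {γ : ℝ → ℝ} (hγ : Refl γ) : Continuous γ := by
  have h1 : LipschitzWith (Real.toNNReal (51 / 50)) γ := by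
    refine LipschitzWith.of_dist_le_mul fun t u => ?_
    rw [Real.coe_toNNReal _ (by norm_num), Real.dist_eq, Real.dist_eq]
    rcases le_total t u with h | h
    · have h2 := GL_refl hγ h
      rw [abs_of_nonpos (by linarith : t - u ≤ 0), abs_of_nonneg (by linarith [h2.1])]
      linarith [h2.2]
    · have h2 := GL_refl hγ h
      rw [abs_of_nonneg (by linarith : 0 ≤ t - u), abs_of_nonpos (by linarith [h2.1])]
      linarith [h2.2]
  exact h1.continuous

private theorem GL_surj {γ : ℝ → ℝ} (hγ : Refl γ) {t u x : ℝ} (htu : t ≤ u)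
    (hx : x ∈ Icc (γ u) (γ t)) : ∃ v ∈ Icc t u, γ v = x :=
  intermediate_value_Icc' htu (GL_gc hγ).continuousOn hx

theorem slope_right {lam : ℝ} {γ : ℝ → ℝ} (hγ : Refl γ) {n n' : ℕ} {a b : ℝ} (hlam : 10 ^ 7 ≤ lam) (h : St lam γ n n' a b) :
    Slope (fun t => W lam (γ t) (n' + 1)) (fun t => |W1 lam (γ t) (n' + 1)|) a b (510 / lam) := by
  have h1 : (10 : ℝ) ^ 6 ≤ lam := le_trans (by norm_num) hlam
  have hl0 : (0 : ℝ) < lam := lt_of_lt_of_le (by norm_num) hlam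
  have key : ∀ t ∈ Icc a b, ∀ u ∈ Icc a b, t ≤ u →
      |(1 / |W1 lam (γ t) (n' + 1)|) - (1 / |W1 lam (γ u) (n' + 1)|)| ≤ 510 / lam * (u - t) := by
    intro t ht u hu htu
    have h2 := GL_refl hγ htu
    have h3 : γ u ≤ γ t := by linarith [h2.1]
    have h4 := inv_lip (a := γ u) (b := γ t) (N := n') h1 (fun s hs => by
      obtain ⟨v, hv, hvs⟩ := GL_surj hγ htu hs
      rw [← hvs]
      exact h.r v ⟨ht.1.trans hv.1, hv.2.trans hu.2⟩) (γ t) ⟨h3, le_rfl⟩ (γ u) ⟨le_rfl, h3⟩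
    refine h4.trans ?_
    rw [abs_of_nonneg (by linarith)]
    have h5 : 500 / lam * (γ t - γ u) ≤ 500 / lam * (51 / 50 * (u - t)) :=
      mul_le_mul_of_nonneg_left h2.2 (by positivity)
    refine h5.trans (le_of_eq ?_)
    ring
  refine ⟨(GL_c.comp (GL_gc hγ)).continuousOn, fun t ht => GL_pos hlam (h.r t ht),
    fun t ht u hu => ?_, ?_, ?_⟩
  · rcases le_total t u with htu | htu
    · have h2 := key t ht u hu htu
      rwa [abs_of_nonpos (by linarith : t - u ≤ 0), neg_sub]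
    · have h2 := key u hu t ht htu
      rw [abs_sub_comm] at h2
      rwa [abs_of_nonneg (by linarith : 0 ≤ t - u)]
  · intro t u c _ htu _ hc hp
    have h2 := GL_refl hγ htu.le
    have h4 : 0 < u - t := sub_pos.2 htu
    have h3 : γ u < γ t := by linarith [h2.1]
    obtain ⟨x, hx, h5⟩ := GL_mvt (lam := lam) (N := n' + 1) h3
    obtain ⟨v, hv, hvx⟩ := GL_surj hγ htu.le hx
    show 49 / 50 * c * (u - t) ≤ |W lam (γ u) (n' + 1) - W lam (γ t) (n' + 1)|
    rw [abs_sub_comm, h5, ← hvx]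
    have h6 := hp v hv
    have h7 : c * (49 / 50 * (u - t)) ≤ |W1 lam (γ v) (n' + 1)| * (γ t - γ u) :=
      mul_le_mul h6 h2.1 (by positivity) (abs_nonneg _)
    linarith
  · intro t u c _ htu _ hp
    have h2 := GL_refl hγ htu.le
    have h4 : 0 < u - t := sub_pos.2 htu
    have h3 : γ u < γ t := by linarith [h2.1]
    obtain ⟨x, hx, h5⟩ := GL_mvt (lam := lam) (N := n' + 1) h3
    obtain ⟨v, hv, hvx⟩ := GL_surj hγ htu.le hx
    show |W lam (γ u) (n' + 1) - W lam (γ t) (n' + 1)| ≤ 51 / 50 * c * (u - t)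
    rw [abs_sub_comm, h5, ← hvx]
    have h6 := hp v hv
    have h8 : 0 ≤ c := (abs_nonneg _).trans h6
    have h7 : |W1 lam (γ v) (n' + 1)| * (γ t - γ u) ≤ c * (51 / 50 * (u - t)) :=
      mul_le_mul h6 h2.2 (by linarith [h2.1]) h8
    linarith

end Pool.Agent.MP31f1e8.KLC
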