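import Pool.Agent.Lib.MP_31f1e8_mp.KLC.Defs

/-!
# KLC-GT: the good set of angles.

PROOFS.
* `GG_neg`, `GG_add`: `cos` is even and `2π`-periodic.
* `GG_window`: `|x - 2πk| ≤ 3/2`: `cos x = cos (x - 2πk) ≥ cos (3/2) ≥ 0.07` (`cos (3/2) = sin (π/2 - 3/2)`, `π/2 - 3/2 ≥ 0.0707`, `sin y ≥ y - y^3/4`: `Real.sin_gt_sub_cube`, or `Real.one_sub_sq_div_two_le_cos` is too weak).
* `GG_gap`: suppose `x`, `y` both not good, `h = y - x ∈ [1/2, 1]`. `¬ GG z` means `|cos z| < 1/20` or `cos z < -49/50`. `cos y = cos x cos h - sin x sin h`, `cos x = cos y cos h + sin y sin h`.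
  If `|cos x| < 1/20`: `|sin x| ≥ 0.998`, `|cos y| ≥ 0.998 sin h - 1/20 ≥ 0.998 sin(1/2) - 1/20 > 1/20` (`sin (1/2) ≥ 1/2 - 1/48 ≥ 0.47`) and `|cos y| ≤ 1/20 + sin 1 ≤ 0.05 + 0.85 < 49/50`
  (`sin 1 ≤ 0.85`: `Real.sin_bound` or `cos 1 ≥ 0.54`), so `y` is good. By symmetry if `|cos y| < 1/20`. If `cos x, cos y < -49/50`: `cos h = cos x cos y + sin x sin y ≥ 0.96 - 0.04 = 0.92`
  (`sin^2 ≤ 1 - 0.9604 ≤ 0.0396`), but `cos h ≤ cos (1/2) ≤ 1 - 1/8 + 1/384 ≤ 0.878` (`Real.cos_le_one_sub...`, `Real.cos_bound`).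
* `GG_quarter`: by `GG_gap`: if some `x ∈ [a, a+1/4]` is bad then every `y ∈ [a+3/4, a+1]` is good.
* `GG_short`: if `Φ` is continuous on `[a,b]` and `GG (Φ t)` for all `t` then `|Φ b - Φ a| < 4`: otherwise the image contains an interval of length `4 > π`, hence a zero of `cos`
  (some `π/2 + kπ`), intermediate value theorem.
-/

namespace Pool.Agent.MP31f1e8.KLC

open Set

theorem GG_neg {x : ℝ} : GG (-x) ↔ GG x := by
  simp only [GG, Real.cos_neg]

theorem GG_window {x : ℝ} {k : ℤ} (h : |x - 2 * Real.pi * k| ≤ 3 / 2) : GG x := by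
  have hpi := Real.pi_gt_d4
  have hpi2 := Real.pi_lt_d4
  have e1 : Real.cos x = Real.cos |x - 2 * Real.pi * k| := by
    rw [Real.cos_abs]
    have := Real.cos_sub_int_mul_two_pi x k
    rw [← this]
    congr 1
    ring
  have e2 : Real.cos (3 / 2) ≤ Real.cos |x - 2 * Real.pi * k| :=
    Real.cos_le_cos_of_nonneg_of_le_pi (abs_nonneg _) (by linarith) h
  have e3 : Real.cos (3 / 2) = Real.sin (Real.pi / 2 - 3 / 2) := by
    rw [Real.sin_pi_div_two_sub]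
  have e4 : (Real.pi / 2 - 3 / 2) - (Real.pi / 2 - 3 / 2) ^ 3 / 6 < Real.sin (Real.pi / 2 - 3 / 2) :=
    Real.sin_gt_sub_cube (by linarith)
  have e5 : (Real.pi / 2 - 3 / 2) ^ 3 ≤ (8 / 100) ^ 3 :=
    pow_le_pow_left₀ (by linarith) (by linarith) 3
  have e6 : 1 / 20 ≤ Real.cos x := by
    rw [e1]
    norm_num at e5
    linarith
  refine ⟨e6.trans (le_abs_self _), by linarith⟩

private theorem GT_aux {p q c s : ℝ} (h1 : p ^ 2 + q ^ 2 = 1) (h2 : |p| < 1 / 20)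
    (h3 : c ^ 2 + s ^ 2 = 1) (h4 : 46 / 100 ≤ s) (h5 : 1 / 2 ≤ c) :
    1 / 20 ≤ |p * c - q * s| ∧ |p * c - q * s| ≤ 49 / 50 := by
  have hs : s ≤ 87 / 100 := by nlinarith
  have hc : c ≤ 1 := by nlinarith
  have hp2 : p ^ 2 ≤ (1 / 20) ^ 2 := by
    rw [← sq_abs p]
    exact pow_le_pow_left₀ (abs_nonneg _) h2.le 2
  have hq : 998 / 1000 ≤ |q| := by
    have : (998 / 1000 : ℝ) ^ 2 ≤ |q| ^ 2 := by
      rw [sq_abs]
      norm_num at hp2 ⊢
      linarith
    exact le_of_sq_le_sq this (abs_nonneg _)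
  have hq1 : |q| ≤ 1 := by
    have : |q| ^ 2 ≤ 1 ^ 2 := by
      rw [sq_abs]
      nlinarith
    exact le_of_sq_le_sq this (by norm_num)
  have a1 : |p * c| ≤ 1 / 20 := by
    rw [abs_mul, abs_of_nonneg (by linarith : (0 : ℝ) ≤ c)]
    nlinarith [abs_nonneg p]
  have a2 : 998 / 1000 * (46 / 100) ≤ |q * s| := by
    rw [abs_mul, abs_of_nonneg (by linarith : (0 : ℝ) ≤ s)]
    exact mul_le_mul hq h4 (by norm_num) (by linarith)
  have a3 : |q * s| ≤ 87 / 100 := by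
    rw [abs_mul, abs_of_nonneg (by linarith : (0 : ℝ) ≤ s)]
    nlinarith [abs_nonneg q]
  constructor
  · have := abs_sub_abs_le_abs_sub (q * s) (p * c)
    rw [abs_sub_comm (p * c)]
    linarith
  · have := abs_sub (p * c) (q * s)
    linarith

private theorem GT_bad {x : ℝ} (h : ¬ GG x) : |Real.cos x| < 1 / 20 ∨ Real.cos x < -49 / 50 := by
  unfold GG at h
  by_contra hc
  push Not at hc
  exact h ⟨hc.1, hc.2⟩

theorem GG_gap {x y : ℝ} (h1 : 1 / 2 ≤ y - x) (h2 : y - x ≤ 1) : GG x ∨ GG y := by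
  by_contra hc
  push Not at hc
  obtain ⟨hx, hy⟩ := hc
  have hpi := Real.pi_gt_d4
  set h := y - x with hh
  have cs : Real.cos h ^ 2 + Real.sin h ^ 2 = 1 := Real.cos_sq_add_sin_sq h
  have hc1 : 1 / 2 ≤ Real.cos h := by
    have := Real.one_sub_sq_div_two_le_cos (x := h)
    nlinarith
  have hs0 : Real.sin (1 / 2) ≤ Real.sin h :=
    Real.sin_le_sin_of_le_of_le_pi_div_two (by linarith) (by linarith) h1
  have hs1 : (1 / 2 : ℝ) - (1 / 2) ^ 3 / 6 < Real.sin (1 / 2) :=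
    Real.sin_gt_sub_cube (by norm_num)
  have hs : 46 / 100 ≤ Real.sin h := by
    norm_num at hs1
    linarith
  have ey : Real.cos y = Real.cos x * Real.cos h - Real.sin x * Real.sin h := by
    rw [← Real.cos_add]
    congr 1
    rw [hh]
    ring
  have ex : Real.cos x = Real.cos y * Real.cos h - (-Real.sin y) * Real.sin h := by
    have : Real.cos x = Real.cos (y - h) := by
      congr 1
      rw [hh]
      ring
    rw [this, Real.cos_sub]
    ring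
  have eh : Real.cos h = Real.cos y * Real.cos x + Real.sin y * Real.sin x := by
    rw [hh, Real.cos_sub]
  rcases GT_bad hx with h3 | h3
  · obtain ⟨k1, k2⟩ := GT_aux (Real.cos_sq_add_sin_sq x) h3 cs hs hc1
    rw [← ey] at k1 k2
    exact hy ⟨k1, by linarith [(abs_le.1 k2).1]⟩
  · rcases GT_bad hy with h4 | h4
    · have e5 : Real.cos y ^ 2 + (-Real.sin y) ^ 2 = 1 := by
        rw [neg_sq]
        exact Real.cos_sq_add_sin_sq y
      obtain ⟨k1, k2⟩ := GT_aux e5 h4 cs hs hc1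
      rw [← ex] at k1 k2
      exact hx ⟨k1, by linarith [(abs_le.1 k2).1]⟩
    · have b1 := Real.cos_sq_add_sin_sq x
      have b2 := Real.cos_sq_add_sin_sq y
      have b3 : 96 / 100 ≤ Real.cos y * Real.cos x := by nlinarith
      have b4 : Real.sin x ^ 2 ≤ 4 / 100 := by nlinarith
      have b5 : Real.sin y ^ 2 ≤ 4 / 100 := by nlinarith
      have b6 : -(4 / 100) ≤ Real.sin y * Real.sin x := by
        nlinarith [sq_nonneg (Real.sin y + Real.sin x)]
      have b7 : 92 / 100 ≤ Real.cos h := by linarith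
      nlinarith

theorem GG_quarter (a : ℝ) : (∀ x ∈ Icc a (a + 1 / 4), GG x) ∨ (∀ x ∈ Icc (a + 3 / 4) (a + 1), GG x) := by
  by_contra hc
  push Not at hc
  obtain ⟨⟨x, hx, hgx⟩, ⟨y, hy, hgy⟩⟩ := hc
  rcases GG_gap (x := x) (y := y) (by linarith [hx.1, hx.2, hy.1, hy.2])
    (by linarith [hx.1, hx.2, hy.1, hy.2]) with h | h
  · exact hgx h
  · exact hgy h

private theorem GT_zero {u v : ℝ} (h : u + 4 ≤ v) : ∃ w ∈ Icc u v, ¬ GG w := by
  have hpi := Real.pi_gt_d4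
  have hpi2 := Real.pi_lt_d4
  have hp : 0 < Real.pi := Real.pi_pos
  set k : ℤ := ⌈(u - Real.pi / 2) / Real.pi⌉ with hk
  have k1 : (u - Real.pi / 2) / Real.pi ≤ k := Int.le_ceil _
  have k2 : (k : ℝ) < (u - Real.pi / 2) / Real.pi + 1 := Int.ceil_lt_add_one _
  rw [div_le_iff₀ hp] at k1
  have k3 : (k : ℝ) * Real.pi < u - Real.pi / 2 + Real.pi := by
    have := mul_lt_mul_of_pos_right k2 hp
    rwa [add_mul, div_mul_cancel₀ _ hp.ne', one_mul] at this
  refine ⟨(2 * (k : ℝ) + 1) * Real.pi / 2, ⟨by linarith, by linarith⟩, fun hg => ?_⟩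
  have : Real.cos ((2 * (k : ℝ) + 1) * Real.pi / 2) = 0 := Real.cos_eq_zero_iff.2 ⟨k, rfl⟩
  have h1 := hg.1
  rw [this, abs_zero] at h1
  norm_num at h1

theorem GG_short {Φ : ℝ → ℝ} {a b : ℝ} (hab : a ≤ b) (hc : ContinuousOn Φ (Icc a b)) (h : ∀ t ∈ Icc a b, GG (Φ t)) :
    |Φ b - Φ a| < 4 := by
  by_contra hcon
  push Not at hcon
  have hiv : uIcc (Φ a) (Φ b) ⊆ Φ '' Icc a b := by
    have := intermediate_value_uIcc (a := a) (b := b) (f := Φ) (by rwa [uIcc_of_le hab])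
    rwa [uIcc_of_le hab] at this
  rcases le_abs.1 hcon with h1 | h1
  · obtain ⟨w, hw, hgw⟩ := GT_zero (u := Φ a) (v := Φ b) (by linarith)
    obtain ⟨t, ht, rfl⟩ := hiv (Icc_subset_uIcc hw)
    exact hgw (h t ht)
  · obtain ⟨w, hw, hgw⟩ := GT_zero (u := Φ b) (v := Φ a) (by linarith)
    obtain ⟨t, ht, rfl⟩ := hiv (Icc_subset_uIcc' hw)
    exact hgw (h t ht)

end Pool.Agent.MP31f1e8.KLC
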