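import Pool.Agent.Lib.MP_31f1e8_mp.KLC.Defs

/-!
# KLC-GW: derivatives of the orbit `W lam s n` in `s`.

PROOFS.
* `W_hasDerivAt`, `W1_hasDerivAt`: two-step induction on `n`, chain and product rule (the derivative of `(2 + lam cos W) W1` is `(2 + lam cos W) W2 - lam sin W * W1 * W1`).
* `W1_step`: induction on `n` together with `|W1 (n-1)| ≤ |W1 n|` (`n = 1`: `0 ≤ 1`): `|W1 (n+1)| ≥ |2 + lam cos W_n| |W1 n| - |W1 (n-1)| ≥ (lam/20 - 2 - 1) |W1 n|`; upper bound `(lam + 2) + 1`.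
* `W1_ne`, `W1_pow`: from `W1_step`.
* `W2_bound`: induction: with `K = 500 / lam`, `|W2 (n+1)| ≤ (lam + 2) |W2 n| + lam |W1 n|^2 + |W2 (n-1)| ≤ ((lam + 2) K + lam + K) |W1 n|^2` (`|W1 (n-1)| ≤ |W1 n|`) and
  `|W1 (n+1)|^2 ≥ (lam/20 - 3)^2 |W1 n|^2`, `(lam/20 - 3)^2 K ≥ (lam + 3) K + lam`: for `lam ≥ 10^6`: `(lam/20 - 3)^2 ≥ lam^2/401`, `500 lam / 401 ≥ 1.24 lam ≥ lam + 500 + 1500/lam`.
  Start: `W2 0 = W2 1 = 0`. The statement at `n + 1` uses `GG` at `1, …, n` only.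
* `inv_lip`: the function `s ↦ 1 / W1 lam s (N+1)` has the derivative `- W2 / W1^2` (`W1 ≠ 0`), bounded by `500 / lam` on the interval: mean value inequality
  (`Convex.norm_image_sub_le_of_norm_hasDerivWithin_le`).
* `W1_sign`/absolute values: `W1 lam · (N+1)` is continuous without zeros on the interval, so it has constant sign and `|1/|W1 s| - 1/|W1 t|| = |1/W1 s - 1/W1 t|`; simply `||a| - |b|| ≤ |a - b|`.
-/

namespace Pool.Agent.MP31f1e8.KLC

open Set

theorem W_hasDerivAt (lam s : ℝ) (n : ℕ) : HasDerivAt (fun s => W lam s n) (W1 lam s n) s := by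
  induction n using Nat.twoStepInduction with
  | zero => exact hasDerivAt_const s _
  | one => exact hasDerivAt_id s
  | more n h0 h1 =>
    have h2 := ((h1.const_mul 2).add ((h1.sin).const_mul lam)).sub h0
    refine (h2.congr_deriv ?_)
    change _ = (2 + lam * Real.cos (W lam s (n + 1))) * W1 lam s (n + 1) - W1 lam s n
    ring

theorem W1_hasDerivAt (lam s : ℝ) (n : ℕ) : HasDerivAt (fun s => W1 lam s n) (W2 lam s n) s := by
  induction n using Nat.twoStepInduction with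
  | zero => exact hasDerivAt_const s _
  | one => exact hasDerivAt_const s _
  | more n h0 h1 =>
    have hW := W_hasDerivAt lam s (n + 1)
    have h2 := ((((hW.cos).const_mul lam).const_add 2).mul h1).sub h0
    refine (h2.congr_deriv ?_)
    change _ = (2 + lam * Real.cos (W lam s (n + 1))) * W2 lam s (n + 1)
      - lam * Real.sin (W lam s (n + 1)) * W1 lam s (n + 1) ^ 2 - W2 lam s n
    ring

private theorem gw_rec (lam s : ℝ) (n : ℕ) : W1 lam s (n + 2) =
    (2 + lam * Real.cos (W lam s (n + 1))) * W1 lam s (n + 1) - W1 lam s n := rfl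

private theorem gw_rec2 (lam s : ℝ) (n : ℕ) : W2 lam s (n + 2) =
    (2 + lam * Real.cos (W lam s (n + 1))) * W2 lam s (n + 1)
      - lam * Real.sin (W lam s (n + 1)) * W1 lam s (n + 1) ^ 2 - W2 lam s n := rfl

private theorem gw_coef {lam x : ℝ} (hlam : 10 ^ 6 ≤ lam) (h : GG x) :
    lam / 20 - 2 ≤ |2 + lam * Real.cos x| ∧ |2 + lam * Real.cos x| ≤ lam + 2 := by
  have hl : (0 : ℝ) < lam := by linarith
  have h1 : |lam * Real.cos x| = lam * |Real.cos x| := by rw [abs_mul, abs_of_pos hl]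
  have h2 : lam * (1 / 20) ≤ lam * |Real.cos x| := mul_le_mul_of_nonneg_left h.1 hl.le
  have h3 : lam * |Real.cos x| ≤ lam * 1 := mul_le_mul_of_nonneg_left (Real.abs_cos_le_one x) hl.le
  have h4 := abs_add_le (2 : ℝ) (lam * Real.cos x)
  have h5 : |lam * Real.cos x| ≤ |2 + lam * Real.cos x| + |(2 : ℝ)| := by
    have := abs_sub (2 + lam * Real.cos x) 2
    have e : 2 + lam * Real.cos x - 2 = lam * Real.cos x := by ring
    rw [e] at this
    exact this
  have h6 : |(2 : ℝ)| = 2 := abs_of_pos (by norm_num)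
  rw [h6] at h4 h5
  constructor
  · linarith
  · linarith

private theorem gw_next {lam s : ℝ} {n : ℕ} (hlam : 10 ^ 6 ≤ lam) (h : GG (W lam s (n + 1)))
    (hm : |W1 lam s n| ≤ |W1 lam s (n + 1)|) :
    (lam / 20 - 3) * |W1 lam s (n + 1)| ≤ |W1 lam s (n + 2)| ∧
      |W1 lam s (n + 2)| ≤ (lam + 3) * |W1 lam s (n + 1)| := by
  obtain ⟨hc1, hc2⟩ := gw_coef hlam h
  have hW0 : 0 ≤ |W1 lam s (n + 1)| := abs_nonneg _
  rw [gw_rec]
  have e1 : |(2 + lam * Real.cos (W lam s (n + 1))) * W1 lam s (n + 1)| =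
      |2 + lam * Real.cos (W lam s (n + 1))| * |W1 lam s (n + 1)| := abs_mul _ _
  have h1 := abs_sub ((2 + lam * Real.cos (W lam s (n + 1))) * W1 lam s (n + 1)) (W1 lam s n)
  have h2 := abs_sub_abs_le_abs_sub ((2 + lam * Real.cos (W lam s (n + 1))) * W1 lam s (n + 1)) (W1 lam s n)
  rw [e1] at h1 h2
  have h3 := mul_le_mul_of_nonneg_right hc1 hW0
  have h4 := mul_le_mul_of_nonneg_right hc2 hW0
  constructor
  · nlinarith
  · nlinarith

private theorem gw_mono {lam s : ℝ} {N : ℕ} (hlam : 10 ^ 6 ≤ lam) (h : GN lam N s) : ∀ n, n ≤ N →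
    |W1 lam s n| ≤ |W1 lam s (n + 1)| := by
  intro n
  induction n with
  | zero =>
    intro _
    change |(0 : ℝ)| ≤ |(1 : ℝ)|
    simp
  | succ n ih =>
    intro hn
    have h1 := (gw_next hlam (h (n + 1) (by omega) hn) (ih (by omega))).1
    have h2 : 0 ≤ |W1 lam s (n + 1)| := abs_nonneg _
    nlinarith

theorem W1_step {lam s : ℝ} {N : ℕ} (hlam : 10 ^ 6 ≤ lam) (h : GN lam N s) : ∀ n, 1 ≤ n → n ≤ N →
    (lam / 20 - 3) * |W1 lam s n| ≤ |W1 lam s (n + 1)| ∧ |W1 lam s (n + 1)| ≤ (lam + 3) * |W1 lam s n| := by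
  intro n hn hnN
  obtain ⟨m, rfl⟩ : ∃ m, n = m + 1 := ⟨n - 1, by omega⟩
  exact gw_next hlam (h (m + 1) (by omega) hnN) (gw_mono hlam h m (by omega))

theorem W1_pow {lam s : ℝ} {N : ℕ} (hlam : 10 ^ 6 ≤ lam) (h : GN lam N s) : ∀ n, n ≤ N →
    (lam / 20 - 3) ^ n ≤ |W1 lam s (n + 1)| ∧ |W1 lam s (n + 1)| ≤ (lam + 3) ^ n := by
  intro n
  induction n with
  | zero =>
    intro _
    change (lam / 20 - 3) ^ 0 ≤ |(1 : ℝ)| ∧ |(1 : ℝ)| ≤ (lam + 3) ^ 0
    simp
  | succ n ih =>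
    intro hn
    obtain ⟨h1, h2⟩ := ih (by omega)
    obtain ⟨h3, h4⟩ := W1_step hlam h (n + 1) (by omega) hn
    have h5 : 0 ≤ lam / 20 - 3 := by linarith
    have h6 : 0 ≤ lam + 3 := by linarith
    constructor
    · calc (lam / 20 - 3) ^ (n + 1) = (lam / 20 - 3) * (lam / 20 - 3) ^ n := by ring
        _ ≤ (lam / 20 - 3) * |W1 lam s (n + 1)| := mul_le_mul_of_nonneg_left h1 h5
        _ ≤ _ := h3
    · calc |W1 lam s (n + 1 + 1)| ≤ (lam + 3) * |W1 lam s (n + 1)| := h4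
        _ ≤ (lam + 3) * (lam + 3) ^ n := mul_le_mul_of_nonneg_left h2 h6
        _ = (lam + 3) ^ (n + 1) := by ring

private theorem gw_two {lam s : ℝ} {N : ℕ} (hlam : 10 ^ 6 ≤ lam) (h : GN lam N s) : ∀ n, n ≤ N + 1 →
    |W2 lam s n| ≤ 500 / lam * W1 lam s n ^ 2 := by
  have hl : (0 : ℝ) < lam := by linarith
  intro n
  induction n using Nat.twoStepInduction with
  | zero =>
    intro _
    change |(0 : ℝ)| ≤ 500 / lam * (0 : ℝ) ^ 2
    simp
  | one =>
    intro _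
    change |(0 : ℝ)| ≤ 500 / lam * (1 : ℝ) ^ 2
    rw [abs_zero]
    positivity
  | more n h0 h1 =>
    intro hn
    have hg := h (n + 1) (by omega) (by omega)
    have g0 := h0 (by omega)
    have g1 := h1 (by omega)
    have hm := gw_mono hlam h n (by omega)
    have hst := (gw_next hlam hg hm).1
    obtain ⟨-, hc2⟩ := gw_coef hlam hg
    have hsq0 : W1 lam s n ^ 2 ≤ W1 lam s (n + 1) ^ 2 := sq_le_sq.2 hm
    have hK : 0 < 500 / lam := by positivity
    have hsq : (lam / 20 - 3) ^ 2 * W1 lam s (n + 1) ^ 2 ≤ W1 lam s (n + 2) ^ 2 := by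
      have h5 : 0 ≤ (lam / 20 - 3) * |W1 lam s (n + 1)| := mul_nonneg (by linarith) (abs_nonneg _)
      have h6 := pow_le_pow_left₀ h5 hst 2
      rw [mul_pow, sq_abs, sq_abs] at h6
      exact h6
    have hX : 0 ≤ W1 lam s (n + 1) ^ 2 := sq_nonneg _
    rw [gw_rec2]
    have b1 : |(2 + lam * Real.cos (W lam s (n + 1))) * W2 lam s (n + 1)| ≤
        (lam + 2) * (500 / lam * W1 lam s (n + 1) ^ 2) := by
      rw [abs_mul]
      exact mul_le_mul hc2 g1 (abs_nonneg _) (by linarith)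
    have b2 : |lam * Real.sin (W lam s (n + 1)) * W1 lam s (n + 1) ^ 2| ≤ lam * W1 lam s (n + 1) ^ 2 := by
      rw [abs_mul, abs_mul, abs_of_pos hl, abs_of_nonneg hX]
      have := mul_le_mul_of_nonneg_left (Real.abs_sin_le_one (W lam s (n + 1))) hl.le
      have h7 := mul_le_mul_of_nonneg_right this hX
      linarith
    have b3 : |W2 lam s n| ≤ 500 / lam * W1 lam s (n + 1) ^ 2 :=
      g0.trans (mul_le_mul_of_nonneg_left hsq0 hK.le)
    have t1 := abs_sub ((2 + lam * Real.cos (W lam s (n + 1))) * W2 lam s (n + 1)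
      - lam * Real.sin (W lam s (n + 1)) * W1 lam s (n + 1) ^ 2) (W2 lam s n)
    have t2 := abs_sub ((2 + lam * Real.cos (W lam s (n + 1))) * W2 lam s (n + 1))
      (lam * Real.sin (W lam s (n + 1)) * W1 lam s (n + 1) ^ 2)
    have key : (lam + 3) * (500 / lam) + lam ≤ (lam / 20 - 3) ^ 2 * (500 / lam) := by
      have e1 : ((lam + 3) * (500 / lam) + lam) * lam = 500 * (lam + 3) + lam ^ 2 := by
        field_simp
      have e2 : ((lam / 20 - 3) ^ 2 * (500 / lam)) * lam = 500 * (lam / 20 - 3) ^ 2 := by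
        field_simp
      have e3 : 500 * (lam + 3) + lam ^ 2 ≤ 500 * (lam / 20 - 3) ^ 2 := by nlinarith
      rw [← e1, ← e2] at e3
      exact le_of_mul_le_mul_right e3 hl
    have key2 := mul_le_mul_of_nonneg_right key hX
    have key3 := mul_le_mul_of_nonneg_left hsq hK.le
    calc _ ≤ _ := t1
      _ ≤ (lam + 2) * (500 / lam * W1 lam s (n + 1) ^ 2) + lam * W1 lam s (n + 1) ^ 2 +
          500 / lam * W1 lam s (n + 1) ^ 2 := by linarith
      _ = ((lam + 3) * (500 / lam) + lam) * W1 lam s (n + 1) ^ 2 := by ring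
      _ ≤ (lam / 20 - 3) ^ 2 * (500 / lam) * W1 lam s (n + 1) ^ 2 := key2
      _ = 500 / lam * ((lam / 20 - 3) ^ 2 * W1 lam s (n + 1) ^ 2) := by ring
      _ ≤ _ := key3

theorem W2_bound {lam s : ℝ} {N : ℕ} (hlam : 10 ^ 6 ≤ lam) (h : GN lam N s) : ∀ n, n ≤ N →
    |W2 lam s (n + 1)| ≤ 500 / lam * W1 lam s (n + 1) ^ 2 :=
  fun n hn => gw_two hlam h (n + 1) (by omega)

theorem inv_lip {lam a b : ℝ} {N : ℕ} (hlam : 10 ^ 6 ≤ lam) (h : ∀ s ∈ Icc a b, GN lam N s) :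
    ∀ s ∈ Icc a b, ∀ t ∈ Icc a b, |(1 / |W1 lam s (N + 1)|) - (1 / |W1 lam t (N + 1)|)| ≤ 500 / lam * |s - t| := by
  have hl : (0 : ℝ) < lam := by linarith
  have hne : ∀ s ∈ Icc a b, W1 lam s (N + 1) ≠ 0 := by
    intro s hs h0
    have h1 := (W1_pow hlam (h s hs) N le_rfl).1
    rw [h0, abs_zero] at h1
    have h2 : 0 < (lam / 20 - 3) ^ N := pow_pos (by linarith) N
    linarith
  intro s hs t ht
  have hd : ∀ x ∈ Icc a b, HasDerivWithinAt (fun x => (W1 lam x (N + 1))⁻¹)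
      (-(W2 lam x (N + 1)) / W1 lam x (N + 1) ^ 2) (Icc a b) x := fun x hx =>
    ((W1_hasDerivAt lam x (N + 1)).inv (hne x hx)).hasDerivWithinAt
  have hb : ∀ x ∈ Icc a b, ‖-(W2 lam x (N + 1)) / W1 lam x (N + 1) ^ 2‖ ≤ 500 / lam := by
    intro x hx
    have h1 := W2_bound hlam (h x hx) N le_rfl
    have h2 : 0 < W1 lam x (N + 1) ^ 2 := by have := hne x hx; positivity
    rw [norm_div, norm_neg, Real.norm_eq_abs, Real.norm_eq_abs, abs_of_pos h2, div_le_iff₀ h2]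
    exact h1
  have h3 := (convex_Icc a b).norm_image_sub_le_of_norm_hasDerivWithin_le hd hb ht hs
  rw [Real.norm_eq_abs, Real.norm_eq_abs] at h3
  have h4 := abs_abs_sub_abs_le (W1 lam s (N + 1))⁻¹ (W1 lam t (N + 1))⁻¹
  rw [abs_inv, abs_inv] at h4
  rw [one_div, one_div]
  exact h4.trans h3

end Pool.Agent.MP31f1e8.KLC
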