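import Pool.Agent.Lib.MP_31f1e8_mp.KLC.Cont

/-!
# KLC-Thr: the continuant depends little on the coefficients (relative error).

PROOF of `th_ratio`. Let `t n = th B (n+1) / th B n` for `1 ≤ n < q` (`th_step`: `‖t n‖ ≥ ‖B n‖ - 1 ≥ β - 1 ≥ 3`, all `th ≠ 0` by `th_one_le`), so `t 1 = B 1`, `t (n+1) = B (n+1) - 1 / t n`;
the same for `B'`, `t'`. Let `δ n = ‖B n - B' n‖`, `e n = ‖t n - t' n‖`: `e 1 = δ 1`, `e (n+1) ≤ δ (n+1) + e n / 9`. By induction on `n`: `∑ k ∈ Ico 1 n, e k + e n / 8 * 1 ≤ ...`; simplest form: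
`S n + e n / 8 ≤ (9/8) D n` where `S n = ∑ k ∈ Ico 1 n, e k`, hence prove by induction `∑ k ∈ Ico 1 (n+1), e k + e n / 8 ≤ 9/8 * ∑ k ∈ Ico 1 (n+1), δ k` for `1 ≤ n < q`:
step: adding `e (n+1) (1 + 1/8) ≤ (9/8) (δ (n+1) + e n / 9) = (9/8) δ (n+1) + e n / 8`. So `∑ e ≤ (9/8) ∑ δ`.
`th B q / th B' q = ∏ n ∈ Ico 1 q, t n / t' n` (telescoping, `th B 1 = 1`), and `‖t n / t' n - 1‖ ≤ e n / (β - 1) ≤ (4/3) e n / β`.
`‖∏ (1 + a n) - 1‖ ≤ exp (∑ ‖a n‖) - 1` (`Finset.prod_add`-free: induction, `‖P (1 + a) - 1‖ ≤ ‖P - 1‖ (1 + ‖a‖) + ‖a‖`, `(exp S - 1)(1 + x) + x = exp S (1 + x) - 1 ≤ exp (S + x) - 1`).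
`(4/3)(9/8) = 3/2 ≤ 4`.
`th_ratio_two`: `exp x - 1 ≤ 2 x` for `0 ≤ x ≤ 1` (`Real.exp_bound'` or `Real.abs_exp_sub_one_le`, `|x| ≤ 1`: `|exp x - 1| ≤ 2 |x|`).
-/

namespace Pool.Agent.MP31f1e8.KLC

open Set

variable {K : Type*} [NormedField K]

theorem norm_prod_sub_one_le {ι : Type*} (s : Finset ι) (a : ι → K) :
    ‖∏ i ∈ s, (1 + a i) - 1‖ ≤ Real.exp (∑ i ∈ s, ‖a i‖) - 1 := by
  classical
  induction s using Finset.induction_on with
  | empty => simp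
  | insert j s hj ih =>
    rw [Finset.prod_insert hj, Finset.sum_insert hj]
    have e : (1 + a j) * ∏ i ∈ s, (1 + a i) - 1 = (1 + a j) * (∏ i ∈ s, (1 + a i) - 1) + a j := by ring
    rw [e]
    have h1 : ‖(1 + a j) * (∏ i ∈ s, (1 + a i) - 1) + a j‖ ≤
        (1 + ‖a j‖) * (Real.exp (∑ i ∈ s, ‖a i‖) - 1) + ‖a j‖ := by
      refine (norm_add_le _ _).trans ?_
      have h2 : ‖(1 + a j)‖ ≤ 1 + ‖a j‖ := by
        refine (norm_add_le _ _).trans ?_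
        rw [norm_one]
      rw [norm_mul]
      have h3 := mul_le_mul h2 ih (norm_nonneg _) (by positivity)
      linarith
    refine h1.trans ?_
    have h4 : 1 + ‖a j‖ ≤ Real.exp ‖a j‖ := by
      have := Real.add_one_le_exp ‖a j‖
      linarith
    have h5 : (1 + ‖a j‖) * Real.exp (∑ i ∈ s, ‖a i‖) ≤ Real.exp (‖a j‖ + ∑ i ∈ s, ‖a i‖) := by
      rw [Real.exp_add]
      exact mul_le_mul_of_nonneg_right h4 (Real.exp_pos _).le
    linarith

private theorem Thr_ne {B : ℕ → K} {q : ℕ} {β : ℝ} (hβ : 4 ≤ β)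
    (hB : ∀ n, 1 ≤ n → n < q → β ≤ ‖B n‖) {n : ℕ} (h1 : 1 ≤ n) (h2 : n ≤ q) : th B n ≠ 0 := by
  have h := th_one_le (fun n h1 h2 => (by linarith : (2 : ℝ) ≤ β).trans (hB n h1 h2)) n h1 h2
  intro h0
  rw [h0, norm_zero] at h
  linarith

private theorem Thr_t {B : ℕ → K} {q : ℕ} {β : ℝ} (hβ : 4 ≤ β)
    (hB : ∀ n, 1 ≤ n → n < q → β ≤ ‖B n‖) {n : ℕ} (h1 : 1 ≤ n) (h2 : n < q) :
    β - 1 ≤ ‖th B (n + 1) / th B n‖ := by
  have h := (th_step (fun n h1 h2 => (by linarith : (2 : ℝ) ≤ β).trans (hB n h1 h2)) n h1 h2).1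
  have hp : 0 < ‖th B n‖ := norm_pos_iff.mpr (Thr_ne hβ hB h1 h2.le)
  rw [norm_div, le_div_iff₀ hp]
  refine le_trans ?_ h
  have := hB n h1 h2
  exact mul_le_mul_of_nonneg_right (by linarith) hp.le

private theorem Thr_rec {B : ℕ → K} {n : ℕ} (h : th B (n + 1) ≠ 0) :
    th B (n + 2) / th B (n + 1) = B (n + 1) - (th B (n + 1) / th B n)⁻¹ := by
  have e : th B (n + 2) = B (n + 1) * th B (n + 1) - th B n := rfl
  rw [e, inv_div]
  field_simp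

private theorem Thr_sum {B B' : ℕ → K} {q : ℕ} {β : ℝ} (hβ : 4 ≤ β) (hB : ∀ n, 1 ≤ n → n < q → β ≤ ‖B n‖)
    (hB' : ∀ n, 1 ≤ n → n < q → β ≤ ‖B' n‖) : ∀ n, 1 ≤ n → n < q →
    (∑ k ∈ Finset.Ico 1 (n + 1), ‖th B (k + 1) / th B k - th B' (k + 1) / th B' k‖) +
      ‖th B (n + 1) / th B n - th B' (n + 1) / th B' n‖ / 8 ≤
        9 / 8 * ∑ k ∈ Finset.Ico 1 (n + 1), ‖B k - B' k‖ := by
  intro n h1
  induction n, h1 using Nat.le_induction with
  | base =>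
    intro _
    have e1 : th B 1 = 1 := rfl
    have e2 : th B' 1 = 1 := rfl
    have e3 : th B 2 = B 1 := by
      show B 1 * th B 1 - th B 0 = B 1
      rw [e1]
      show B 1 * 1 - 0 = B 1
      ring
    have e4 : th B' 2 = B' 1 := by
      show B' 1 * th B' 1 - th B' 0 = B' 1
      rw [e2]
      show B' 1 * 1 - 0 = B' 1
      ring
    rw [Finset.sum_Ico_succ_top (le_refl 1), Finset.sum_Ico_succ_top (le_refl 1)]
    simp only [Finset.Ico_self, Finset.sum_empty, zero_add]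
    show ‖th B 2 / th B 1 - th B' 2 / th B' 1‖ + ‖th B 2 / th B 1 - th B' 2 / th B' 1‖ / 8 ≤ _
    rw [e1, e2, e3, e4, div_one, div_one]
    linarith
  | succ n hn ih =>
    intro hq
    have ih' := ih (by omega)
    rw [Finset.sum_Ico_succ_top (by omega : 1 ≤ n + 1),
      Finset.sum_Ico_succ_top (by omega : 1 ≤ n + 1)]
    have hz1 := Thr_ne hβ hB hn (by omega : n ≤ q)
    have hz2 := Thr_ne hβ hB (by omega : 1 ≤ n + 1) (by omega : n + 1 ≤ q)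
    have hz3 := Thr_ne hβ hB' hn (by omega : n ≤ q)
    have hz4 := Thr_ne hβ hB' (by omega : 1 ≤ n + 1) (by omega : n + 1 ≤ q)
    have ht := Thr_t hβ hB hn (by omega : n < q)
    have ht' := Thr_t hβ hB' hn (by omega : n < q)
    have key : ‖th B (n + 1 + 1) / th B (n + 1) - th B' (n + 1 + 1) / th B' (n + 1)‖ ≤
        ‖B (n + 1) - B' (n + 1)‖ + ‖th B (n + 1) / th B n - th B' (n + 1) / th B' n‖ / 9 := by
      show ‖th B (n + 2) / th B (n + 1) - th B' (n + 2) / th B' (n + 1)‖ ≤ _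
      rw [Thr_rec hz2, Thr_rec hz4]
      set t := th B (n + 1) / th B n with htd
      set t' := th B' (n + 1) / th B' n with htd'
      have p1 : t ≠ 0 := div_ne_zero hz2 hz1
      have p2 : t' ≠ 0 := div_ne_zero hz4 hz3
      have e : B (n + 1) - t⁻¹ - (B' (n + 1) - t'⁻¹) = (B (n + 1) - B' (n + 1)) + (t - t') / (t * t') := by
        field_simp
        ring
      rw [e]
      refine (norm_add_le _ _).trans ?_
      have h9 : ‖(t - t') / (t * t')‖ ≤ ‖t - t'‖ / 9 := by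
        rw [norm_div, norm_mul]
        refine div_le_div_of_nonneg_left (norm_nonneg _) (by norm_num) ?_
        have h3 : 3 ≤ ‖t‖ := by linarith
        have h3' : 3 ≤ ‖t'‖ := by linarith
        nlinarith
      linarith
    linarith

private theorem Thr_prod {B B' : ℕ → K} {q : ℕ} (hB : ∀ n, 1 ≤ n → n ≤ q → th B n ≠ 0)
    (hB' : ∀ n, 1 ≤ n → n ≤ q → th B' n ≠ 0) : ∀ n, 1 ≤ n → n ≤ q →
    th B n / th B' n = ∏ k ∈ Finset.Ico 1 n, ((th B (k + 1) / th B k) / (th B' (k + 1) / th B' k)) := by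
  intro n h1
  induction n, h1 using Nat.le_induction with
  | base =>
    intro _
    show (1 : K) / 1 = _
    simp
  | succ n hn ih =>
    intro hq
    rw [Finset.prod_Ico_succ_top hn, ← ih (by omega)]
    have h1 := hB n hn (by omega)
    have h2 := hB' n hn (by omega)
    have h3 := hB (n + 1) (by omega) hq
    have h4 := hB' (n + 1) (by omega) hq
    field_simp

theorem th_ratio {B B' : ℕ → K} {q : ℕ} {β : ℝ} (hβ : 4 ≤ β) (hq : 1 ≤ q) (hB : ∀ n, 1 ≤ n → n < q → β ≤ ‖B n‖)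
    (hB' : ∀ n, 1 ≤ n → n < q → β ≤ ‖B' n‖) :
    ‖th B q / th B' q - 1‖ ≤ Real.exp (4 / β * ∑ n ∈ Finset.Ico 1 q, ‖B n - B' n‖) - 1 := by
  have hβ0 : 0 < β := by linarith
  rw [Thr_prod (fun n h1 h2 => Thr_ne hβ hB h1 h2) (fun n h1 h2 => Thr_ne hβ hB' h1 h2) q hq le_rfl]
  have e : ∏ k ∈ Finset.Ico 1 q, ((th B (k + 1) / th B k) / (th B' (k + 1) / th B' k)) =
      ∏ k ∈ Finset.Ico 1 q, (1 + ((th B (k + 1) / th B k) / (th B' (k + 1) / th B' k) - 1)) := by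
    refine Finset.prod_congr rfl fun k _ => ?_
    ring
  rw [e]
  refine (norm_prod_sub_one_le _ _).trans ?_
  refine sub_le_sub_right (Real.exp_le_exp.mpr ?_) 1
  have h1 : ∀ k ∈ Finset.Ico 1 q, ‖(th B (k + 1) / th B k) / (th B' (k + 1) / th B' k) - 1‖ ≤
      4 / (3 * β) * ‖th B (k + 1) / th B k - th B' (k + 1) / th B' k‖ := by
    intro k hk
    rw [Finset.mem_Ico] at hk
    have ht' := Thr_t hβ hB' hk.1 hk.2
    have hp : 0 < ‖th B' (k + 1) / th B' k‖ := by linarith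
    have hne : th B' (k + 1) / th B' k ≠ 0 := norm_pos_iff.mp hp
    have e1 : (th B (k + 1) / th B k) / (th B' (k + 1) / th B' k) - 1 =
        (th B (k + 1) / th B k - th B' (k + 1) / th B' k) / (th B' (k + 1) / th B' k) := by
      rw [sub_div, div_self hne]
    rw [e1, norm_div, div_le_iff₀ hp]
    have h4 : 1 ≤ 4 / (3 * β) * ‖th B' (k + 1) / th B' k‖ := by
      rw [div_mul_eq_mul_div, le_div_iff₀ (by positivity)]
      linarith
    have h5 := mul_le_mul_of_nonneg_left h4 (norm_nonneg (th B (k + 1) / th B k - th B' (k + 1) / th B' k))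
    linarith
  refine (Finset.sum_le_sum h1).trans ?_
  rw [← Finset.mul_sum]
  have hδ : 0 ≤ ∑ n ∈ Finset.Ico 1 q, ‖B n - B' n‖ := Finset.sum_nonneg fun _ _ => norm_nonneg _
  have h2 : ∑ k ∈ Finset.Ico 1 q, ‖th B (k + 1) / th B k - th B' (k + 1) / th B' k‖ ≤
      9 / 8 * ∑ n ∈ Finset.Ico 1 q, ‖B n - B' n‖ := by
    rcases Nat.lt_or_ge 1 q with h | h
    · obtain ⟨m, rfl⟩ : ∃ m, q = m + 1 := ⟨q - 1, by omega⟩
      have h3 := Thr_sum hβ hB hB' m (by omega) (by omega)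
      have h4 : 0 ≤ ‖th B (m + 1) / th B m - th B' (m + 1) / th B' m‖ := norm_nonneg _
      linarith
    · have : q = 1 := by omega
      subst this
      simp
  have h3 : 4 / (3 * β) * (9 / 8 * ∑ n ∈ Finset.Ico 1 q, ‖B n - B' n‖) ≤
      4 / β * ∑ n ∈ Finset.Ico 1 q, ‖B n - B' n‖ := by
    have e2 : 4 / (3 * β) * (9 / 8 * ∑ n ∈ Finset.Ico 1 q, ‖B n - B' n‖) =
        3 / 8 * (4 / β * ∑ n ∈ Finset.Ico 1 q, ‖B n - B' n‖) := by
      field_simp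
      ring
    rw [e2]
    have : 0 ≤ 4 / β * ∑ n ∈ Finset.Ico 1 q, ‖B n - B' n‖ := by positivity
    linarith
  refine le_trans (mul_le_mul_of_nonneg_left h2 (by positivity)) h3

theorem th_ratio_two {B B' : ℕ → K} {q : ℕ} {β S : ℝ} (hβ : 4 ≤ β) (hq : 1 ≤ q) (hB : ∀ n, 1 ≤ n → n < q → β ≤ ‖B n‖)
    (hB' : ∀ n, 1 ≤ n → n < q → β ≤ ‖B' n‖) (hS : ∑ n ∈ Finset.Ico 1 q, ‖B n - B' n‖ ≤ S) (hS1 : 4 / β * S ≤ 1) :
    ‖th B q / th B' q - 1‖ ≤ 8 / β * S := by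
  have hβ0 : 0 < β := by linarith
  have h := th_ratio hβ hq hB hB'
  have hδ : 0 ≤ ∑ n ∈ Finset.Ico 1 q, ‖B n - B' n‖ := Finset.sum_nonneg fun _ _ => norm_nonneg _
  have h1 : 4 / β * ∑ n ∈ Finset.Ico 1 q, ‖B n - B' n‖ ≤ 4 / β * S :=
    mul_le_mul_of_nonneg_left hS (by positivity)
  have h0 : 0 ≤ 4 / β * ∑ n ∈ Finset.Ico 1 q, ‖B n - B' n‖ := by positivity
  have h2 : Real.exp (4 / β * ∑ n ∈ Finset.Ico 1 q, ‖B n - B' n‖) - 1 ≤
      2 * (4 / β * ∑ n ∈ Finset.Ico 1 q, ‖B n - B' n‖) := by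
    have h3 := Real.abs_exp_sub_one_le (x := 4 / β * ∑ n ∈ Finset.Ico 1 q, ‖B n - B' n‖)
      (by rw [abs_of_nonneg h0]; linarith)
    rw [abs_of_nonneg h0] at h3
    exact (le_abs_self _).trans h3
  refine h.trans (h2.trans ?_)
  have e : 8 / β * S = 2 * (4 / β * S) := by ring
  rw [e]
  linarith

end Pool.Agent.MP31f1e8.KLC
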