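import Pool.Agent.Lib.MP_31f1e8_mp.KLC.Un
import Pool.Agent.Lib.MP_31f1e8_mp.KLC.Thr

/-!
# KLC-Hol: the solution is holomorphic in `X` and in `X'`, continuous in all variables.

PROOFS.
* `AA_lower`: `coef_lower` with `a = b` (`dd_self`). `th_AA_ne`: `th_one_le`.
* `sol_cont`: from `sol_lip` (the bound tends to `0` as `(lam', Y, Y') → (lam, X, X')`).
* `th B n` is a polynomial in `B 1, …, B (n-1)`: `th_tendsto`, `th_diff`, `si_diff`: two-step induction.
* `sol_hasDerivAt_left`: by `sol_diff`, for `Y ≠ X` near `X`: `(sol Y n - sol X n) / (Y - X) = th (B(n + ·)) (q - n) / th B q` with `B k = 2 + lam dd (sol Y k) (sol X k)`, which tends to the same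
  expression with `AA` as `Y → X` (`dd_lip` and `dd_self`: `‖dd (sol Y k) (sol X k) - cos (sol X k)‖ ≤ 6/5 ‖sol Y k - sol X k‖`, `th AA q ≠ 0` by `th_one_le`); `hasDerivAt_iff_tendsto_slope`.
  (`th B q ≠ 0` also for the divided differences: `coef_sol`.) The same for `X'`.
-/

namespace Pool.Agent.MP31f1e8.KLC

open Set Filter Topology

theorem AA_lower {D : Dat} {lam1 lam : ℝ} (h : Ref D lam1) (hl : |lam - lam1| ≤ 1) {X X' : ℂ} (hb : Bd D X X') :
    ∀ n, 1 ≤ n → n < D.q → lam / 22 ≤ ‖AA D lam X X' n‖ := by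
  intro n h1 hn
  have hs := sol_spec h hl hb
  have := coef_sol h hl hs hs n h1 hn
  rw [dd_self] at this
  exact this

private theorem hol_two {D : Dat} {lam1 lam : ℝ} (h : Ref D lam1) (hl : |lam - lam1| ≤ 1) {z : ℂ} (hz : lam / 22 ≤ ‖z‖) : 2 ≤ ‖z‖ := by
  have := lam_large h hl
  have h2 : (2 : ℝ) ≤ lam / 22 := by
    rw [le_div_iff₀ (by norm_num)]
    norm_num at *
    linarith
  exact h2.trans hz

theorem th_AA_ne {D : Dat} {lam1 lam : ℝ} (h : Ref D lam1) (hl : |lam - lam1| ≤ 1) {X X' : ℂ} (hb : Bd D X X') :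
    th (AA D lam X X') D.q ≠ 0 := by
  have hq := h.hq
  have h1 := th_one_le (B := AA D lam X X') (q := D.q) (fun n h1 hn => hol_two h hl (AA_lower h hl hb n h1 hn)) D.q (by omega) le_rfl
  intro h0
  rw [h0, norm_zero] at h1
  exact absurd h1 (by norm_num)

theorem th_tendsto {ι : Type*} {l : Filter ι} {B : ι → ℕ → ℂ} {A : ℕ → ℂ} {q : ℕ}
    (h : ∀ n, 1 ≤ n → n < q → Tendsto (fun i => B i n) l (𝓝 (A n))) : ∀ n ≤ q, Tendsto (fun i => th (B i) n) l (𝓝 (th A n)) := by
  intro n
  induction n using Nat.twoStepInduction with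
  | zero => intro _; simp only [th]; exact tendsto_const_nhds
  | one => intro _; simp only [th]; exact tendsto_const_nhds
  | more n ih0 ih1 =>
    intro hn
    simp only [th]
    exact ((h (n + 1) (by omega) (by omega)).mul (ih1 (by omega))).sub (ih0 (by omega))

theorem th_diff {B : ℂ → ℕ → ℂ} {q : ℕ} {X : ℂ} (h : ∀ n, 1 ≤ n → n < q → DifferentiableAt ℂ (fun z => B z n) X) :
    ∀ n ≤ q, DifferentiableAt ℂ (fun z => th (B z) n) X := by
  intro n
  induction n using Nat.twoStepInduction with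
  | zero => intro _; simp only [th]; exact differentiableAt_const _
  | one => intro _; simp only [th]; exact differentiableAt_const _
  | more n ih0 ih1 =>
    intro hn
    simp only [th]
    exact ((h (n + 1) (by omega) (by omega)).mul (ih1 (by omega))).sub (ih0 (by omega))

theorem si_diff {B : ℂ → ℕ → ℂ} {q : ℕ} {X : ℂ} (h : ∀ n, 1 ≤ n → n < q → DifferentiableAt ℂ (fun z => B z n) X) :
    ∀ n ≤ q, DifferentiableAt ℂ (fun z => si (B z) n) X := by
  intro n
  induction n using Nat.twoStepInduction with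
  | zero => intro _; simp only [si]; exact differentiableAt_const _
  | one => intro _; simp only [si]; exact differentiableAt_const _
  | more n ih0 ih1 =>
    intro hn
    simp only [si]
    exact ((h (n + 1) (by omega) (by omega)).mul (ih1 (by omega))).sub (ih0 (by omega))

/-- joint continuity -/
theorem sol_cont {D : Dat} {lam1 : ℝ} (h : Ref D lam1) {n : ℕ} (hn : n ≤ D.q) :
    ContinuousOn (fun p : ℝ × ℂ × ℂ => sol D p.1 p.2.1 p.2.2 n) {p | |p.1 - lam1| ≤ 1 ∧ Bd D p.2.1 p.2.2} := by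
  rintro p0 ⟨hl0, hb0⟩
  have hlim : Tendsto (fun p : ℝ × ℂ × ℂ => (44 / p0.1) ^ n * ‖p0.2.1 - p.2.1‖ + (44 / p0.1) ^ (D.q - n) * ‖p0.2.2 - p.2.2‖ +
      44 / p0.1 * (6 / 5 * |p0.1 - p.1|)) (𝓝[{p | |p.1 - lam1| ≤ 1 ∧ Bd D p.2.1 p.2.2}] p0) (𝓝 0) := by
    have hc : Continuous (fun p : ℝ × ℂ × ℂ => (44 / p0.1) ^ n * ‖p0.2.1 - p.2.1‖ + (44 / p0.1) ^ (D.q - n) * ‖p0.2.2 - p.2.2‖ +
      44 / p0.1 * (6 / 5 * |p0.1 - p.1|)) := by
      refine Continuous.add (Continuous.add ?_ ?_) ?_
      · exact continuous_const.mul (continuous_const.sub (continuous_fst.comp continuous_snd)).norm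
      · exact continuous_const.mul (continuous_const.sub (continuous_snd.comp continuous_snd)).norm
      · exact continuous_const.mul (continuous_const.mul (continuous_const.sub continuous_fst).abs)
    have := hc.tendsto p0
    simp only [sub_self, norm_zero, mul_zero, abs_zero, add_zero] at this
    exact this.mono_left nhdsWithin_le_nhds
  rw [ContinuousWithinAt, tendsto_iff_norm_sub_tendsto_zero]
  refine squeeze_zero' (Eventually.of_forall fun _ => norm_nonneg _) ?_ hlim
  filter_upwards [self_mem_nhdsWithin] with p hp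
  rw [norm_sub_rev]
  exact sol_lip h hl0 hp.1 hb0 hp.2 n hn

private theorem hol_im {z : ℂ} {x : ℝ} (h : ‖z - x‖ ≤ 1 / 1000) : |z.im| ≤ 1 / 2 := by
  have h1 := Complex.abs_im_le_norm (z - x)
  simp only [Complex.sub_im, Complex.ofReal_im, sub_zero] at h1
  linarith

private theorem hol_dd {ι : Type*} {l : Filter ι} {a b : ι → ℂ} {c : ℂ} (ha : Tendsto a l (𝓝 c)) (hb : Tendsto b l (𝓝 c))
    (ha' : ∀ᶠ i in l, |(a i).im| ≤ 1 / 2) (hb' : ∀ᶠ i in l, |(b i).im| ≤ 1 / 2) (hc : |c.im| ≤ 1 / 2) :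
    Tendsto (fun i => dd (a i) (b i)) l (𝓝 (Complex.cos c)) := by
  rw [tendsto_iff_norm_sub_tendsto_zero]
  have hlim : Tendsto (fun i => 6 / 5 * (‖a i - c‖ + ‖b i - c‖)) l (𝓝 0) := by
    have := ((tendsto_iff_norm_sub_tendsto_zero.1 ha).add (tendsto_iff_norm_sub_tendsto_zero.1 hb)).const_mul (6 / 5)
    simpa using this
  refine squeeze_zero' (Eventually.of_forall fun _ => norm_nonneg _) ?_ hlim
  filter_upwards [ha', hb'] with i h1 h2
  rw [← dd_self]
  exact dd_lip h1 h2 hc hc

theorem sol_hasDerivAt_left {D : Dat} {lam1 lam : ℝ} (h : Ref D lam1) (hl : |lam - lam1| ≤ 1) {X X' : ℂ}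
    (hX : ‖X - D.xi 0‖ < 1 / 2) (hX' : ‖X' - D.xi D.q‖ ≤ 1 / 2) {n : ℕ} (hn : n ≤ D.q) :
    HasDerivAt (fun z => sol D lam z X' n) (th (fun k => AA D lam X X' (n + k)) (D.q - n) / th (AA D lam X X') D.q) X := by
  have hb : Bd D X X' := ⟨hX.le, hX'⟩
  have hev : ∀ᶠ z in 𝓝[≠] X, Bd D z X' := by
    have hc : Continuous (fun z : ℂ => ‖z - D.xi 0‖) := (continuous_id.sub continuous_const).norm
    have := (hc.tendsto X).eventually (gt_mem_nhds hX)
    filter_upwards [nhdsWithin_le_nhds this] with z hz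
    exact ⟨le_of_lt hz, hX'⟩
  have hsol : ∀ k ≤ D.q, Tendsto (fun z => sol D lam z X' k) (𝓝[≠] X) (𝓝 (sol D lam X X' k)) := by
    intro k hk
    rw [tendsto_iff_norm_sub_tendsto_zero]
    have hlim : Tendsto (fun z : ℂ => (44 / lam) ^ k * ‖z - X‖) (𝓝[≠] X) (𝓝 0) := by
      have hc : Continuous (fun z : ℂ => (44 / lam) ^ k * ‖z - X‖) := continuous_const.mul (continuous_id.sub continuous_const).norm
      have := hc.tendsto X
      simp only [sub_self, norm_zero, mul_zero] at this
      exact this.mono_left nhdsWithin_le_nhds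
    refine squeeze_zero' (Eventually.of_forall fun _ => norm_nonneg _) ?_ hlim
    filter_upwards [hev] with z hz
    have := sol_lip h hl hl hz hb k hk
    simpa using this
  have hB : ∀ k, 1 ≤ k → k < D.q → Tendsto (fun z => 2 + (lam : ℂ) * dd (sol D lam z X' k) (sol D lam X X' k)) (𝓝[≠] X) (𝓝 (AA D lam X X' k)) := by
    intro k h1 hk
    refine Tendsto.const_add _ (Tendsto.const_mul _ ?_)
    refine hol_dd (hsol k hk.le) tendsto_const_nhds ?_ ?_ ?_
    · filter_upwards [hev] with z hz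
      exact hol_im ((sol_spec h hl hz).near k h1 hk)
    · exact Eventually.of_forall fun _ => hol_im ((sol_spec h hl hb).near k h1 hk)
    · exact hol_im ((sol_spec h hl hb).near k h1 hk)
  rw [hasDerivAt_iff_tendsto_slope]
  have hnum := th_tendsto (l := 𝓝[≠] X) (B := fun z k => 2 + (lam : ℂ) * dd (sol D lam z X' (n + k)) (sol D lam X X' (n + k)))
    (A := fun k => AA D lam X X' (n + k)) (q := D.q - n) (fun k h1 hk => hB (n + k) (by omega) (by omega)) (D.q - n) le_rfl
  have hden := th_tendsto (l := 𝓝[≠] X) (B := fun z k => 2 + (lam : ℂ) * dd (sol D lam z X' k) (sol D lam X X' k))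
    (A := AA D lam X X') (q := D.q) hB D.q le_rfl
  refine (hnum.div hden (th_AA_ne h hl hb)).congr' ?_
  filter_upwards [hev, self_mem_nhdsWithin] with z hz hne
  have hzX : z - X ≠ 0 := sub_ne_zero.2 hne
  have hq := h.hq
  have hne' : th (fun k => 2 + (lam : ℂ) * dd (sol D lam z X' k) (sol D lam X X' k)) D.q ≠ 0 := by
    have h1 := th_one_le (B := fun k => 2 + (lam : ℂ) * dd (sol D lam z X' k) (sol D lam X X' k)) (q := D.q)
      (fun n h1 hn => hol_two h hl (coef_sol h hl (sol_spec h hl hz) (sol_spec h hl hb) n h1 hn)) D.q (by omega) le_rfl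
    intro h0
    rw [h0, norm_zero] at h1
    exact absurd h1 (by norm_num)
  have hd := sol_diff h hl hz hb n hn
  simp only [sub_self, zero_mul, add_zero] at hd
  simp only [slope, vsub_eq_sub, smul_eq_mul, Pi.div_apply]
  rw [div_eq_iff hne', inv_mul_eq_div, div_mul_eq_mul_div, eq_div_iff hzX]
  linear_combination -hd

theorem sol_hasDerivAt_right {D : Dat} {lam1 lam : ℝ} (h : Ref D lam1) (hl : |lam - lam1| ≤ 1) {X X' : ℂ}
    (hX : ‖X - D.xi 0‖ ≤ 1 / 2) (hX' : ‖X' - D.xi D.q‖ < 1 / 2) {n : ℕ} (hn : n ≤ D.q) :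
    HasDerivAt (fun z => sol D lam X z n) (th (AA D lam X X') n / th (AA D lam X X') D.q) X' := by
  have hb : Bd D X X' := ⟨hX, hX'.le⟩
  have hev : ∀ᶠ z in 𝓝[≠] X', Bd D X z := by
    have hc : Continuous (fun z : ℂ => ‖z - D.xi D.q‖) := (continuous_id.sub continuous_const).norm
    have := (hc.tendsto X').eventually (gt_mem_nhds hX')
    filter_upwards [nhdsWithin_le_nhds this] with z hz
    exact ⟨hX, le_of_lt hz⟩
  have hsol : ∀ k ≤ D.q, Tendsto (fun z => sol D lam X z k) (𝓝[≠] X') (𝓝 (sol D lam X X' k)) := by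
    intro k hk
    rw [tendsto_iff_norm_sub_tendsto_zero]
    have hlim : Tendsto (fun z : ℂ => (44 / lam) ^ (D.q - k) * ‖z - X'‖) (𝓝[≠] X') (𝓝 0) := by
      have hc : Continuous (fun z : ℂ => (44 / lam) ^ (D.q - k) * ‖z - X'‖) := continuous_const.mul (continuous_id.sub continuous_const).norm
      have := hc.tendsto X'
      simp only [sub_self, norm_zero, mul_zero] at this
      exact this.mono_left nhdsWithin_le_nhds
    refine squeeze_zero' (Eventually.of_forall fun _ => norm_nonneg _) ?_ hlim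
    filter_upwards [hev] with z hz
    have := sol_lip h hl hl hz hb k hk
    simpa using this
  have hB : ∀ k, 1 ≤ k → k < D.q → Tendsto (fun z => 2 + (lam : ℂ) * dd (sol D lam X z k) (sol D lam X X' k)) (𝓝[≠] X') (𝓝 (AA D lam X X' k)) := by
    intro k h1 hk
    refine Tendsto.const_add _ (Tendsto.const_mul _ ?_)
    refine hol_dd (hsol k hk.le) tendsto_const_nhds ?_ ?_ ?_
    · filter_upwards [hev] with z hz
      exact hol_im ((sol_spec h hl hz).near k h1 hk)
    · exact Eventually.of_forall fun _ => hol_im ((sol_spec h hl hb).near k h1 hk)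
    · exact hol_im ((sol_spec h hl hb).near k h1 hk)
  rw [hasDerivAt_iff_tendsto_slope]
  have hnum := th_tendsto (l := 𝓝[≠] X') (B := fun z k => 2 + (lam : ℂ) * dd (sol D lam X z k) (sol D lam X X' k))
    (A := AA D lam X X') (q := D.q) hB n hn
  have hden := th_tendsto (l := 𝓝[≠] X') (B := fun z k => 2 + (lam : ℂ) * dd (sol D lam X z k) (sol D lam X X' k))
    (A := AA D lam X X') (q := D.q) hB D.q le_rfl
  refine (hnum.div hden (th_AA_ne h hl hb)).congr' ?_
  filter_upwards [hev, self_mem_nhdsWithin] with z hz hne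
  have hzX : z - X' ≠ 0 := sub_ne_zero.2 hne
  have hq := h.hq
  have hne' : th (fun k => 2 + (lam : ℂ) * dd (sol D lam X z k) (sol D lam X X' k)) D.q ≠ 0 := by
    have h1 := th_one_le (B := fun k => 2 + (lam : ℂ) * dd (sol D lam X z k) (sol D lam X X' k)) (q := D.q)
      (fun n h1 hn => hol_two h hl (coef_sol h hl (sol_spec h hl hz) (sol_spec h hl hb) n h1 hn)) D.q (by omega) le_rfl
    intro h0
    rw [h0, norm_zero] at h1
    exact absurd h1 (by norm_num)
  have hd := sol_diff h hl hz hb n hn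
  simp only [sub_self, zero_mul, zero_add] at hd
  simp only [slope, vsub_eq_sub, smul_eq_mul, Pi.div_apply]
  rw [div_eq_iff hne', inv_mul_eq_div, div_mul_eq_mul_div, eq_div_iff hzX]
  linear_combination -hd

end Pool.Agent.MP31f1e8.KLC
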