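import Pool.Agent.Lib.MP_31f1e8_mp.KLC.Hol

/-!
# KLC-Hol2: the derivatives of the first and of the last inner site; `ep`, `eL`, `eR` are holomorphic and continuous.

PROOFS.
* `one_left` etc.: special cases `n = 1`, `n = q - 1` of `sol_hasDerivAt_left/right`: `th (AA(1 + ·)) (q - 1) = - si AA q` by `si_th` with `n = 1` (`si AA 1 = 0`, `th AA 1 = 1`), `th (AA(q-1+·)) 1 = 1`.
* `e_diff_*`: `ep = 1 / th AA q` etc.; `AA k` is differentiable in `X` (composition of `sol_hasDerivAt_left` with `cos`), `th_diff`, `si_diff`, `th AA q ≠ 0`.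
* `e_cont`: joint continuity: `sol_cont`, `th` is a polynomial in the `AA k` (`th_tendsto` with `l = 𝓝[set] p`, the same for `si`: two-step induction).
-/

namespace Pool.Agent.MP31f1e8.KLC

open Set Filter Topology

private theorem Hol2_th_one {K : Type*} [CommRing K] (B : ℕ → K) : th B 1 = 1 := rfl

private theorem Hol2_si_one {K : Type*} [CommRing K] (B : ℕ → K) : si B 1 = 0 := rfl

theorem one_left {D : Dat} {lam1 lam : ℝ} (h : Ref D lam1) (hl : |lam - lam1| ≤ 1) {X X' : ℂ}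
    (hX : ‖X - D.xi 0‖ < 1 / 2) (hX' : ‖X' - D.xi D.q‖ ≤ 1 / 2) : HasDerivAt (fun z => sol D lam z X' 1) (eL D lam X X') X := by
  have hq := h.hq
  have h1 := sol_hasDerivAt_left h hl hX hX' (n := 1) (by omega)
  have h2 := si_th (AA D lam X X') 1 (D.q - 1)
  rw [Hol2_si_one, Hol2_th_one, zero_mul, mul_one, zero_sub, show 1 + (D.q - 1) = D.q by omega] at h2
  rw [← h2] at h1
  unfold eL
  rwa [neg_div] at h1

theorem one_right {D : Dat} {lam1 lam : ℝ} (h : Ref D lam1) (hl : |lam - lam1| ≤ 1) {X X' : ℂ}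
    (hX : ‖X - D.xi 0‖ ≤ 1 / 2) (hX' : ‖X' - D.xi D.q‖ < 1 / 2) : HasDerivAt (fun z => sol D lam X z 1) (ep D lam X X') X' := by
  have hq := h.hq
  have h1 := sol_hasDerivAt_right h hl hX hX' (n := 1) (by omega)
  rwa [Hol2_th_one] at h1

theorem last_left {D : Dat} {lam1 lam : ℝ} (h : Ref D lam1) (hl : |lam - lam1| ≤ 1) {X X' : ℂ}
    (hX : ‖X - D.xi 0‖ < 1 / 2) (hX' : ‖X' - D.xi D.q‖ ≤ 1 / 2) : HasDerivAt (fun z => sol D lam z X' (D.q - 1)) (ep D lam X X') X := by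
  have hq := h.hq
  have h1 := sol_hasDerivAt_left h hl hX hX' (n := D.q - 1) (by omega)
  rwa [show D.q - (D.q - 1) = 1 by omega, Hol2_th_one] at h1

theorem last_right {D : Dat} {lam1 lam : ℝ} (h : Ref D lam1) (hl : |lam - lam1| ≤ 1) {X X' : ℂ}
    (hX : ‖X - D.xi 0‖ ≤ 1 / 2) (hX' : ‖X' - D.xi D.q‖ < 1 / 2) : HasDerivAt (fun z => sol D lam X z (D.q - 1)) (eR D lam X X') X' :=
  sol_hasDerivAt_right h hl hX hX' (n := D.q - 1) (Nat.sub_le _ _)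

theorem e_diff_left {D : Dat} {lam1 lam : ℝ} (h : Ref D lam1) (hl : |lam - lam1| ≤ 1) {X X' : ℂ}
    (hX : ‖X - D.xi 0‖ < 1 / 2) (hX' : ‖X' - D.xi D.q‖ ≤ 1 / 2) : DifferentiableAt ℂ (fun z => ep D lam z X') X ∧
      DifferentiableAt ℂ (fun z => eL D lam z X') X ∧ DifferentiableAt ℂ (fun z => eR D lam z X') X := by
  have hA : ∀ n, 1 ≤ n → n < D.q → DifferentiableAt ℂ (fun z => AA D lam z X' n) X := by
    intro n _ hn
    have h1 := (sol_hasDerivAt_left h hl hX hX' hn.le).differentiableAt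
    unfold AA
    exact (differentiableAt_const _).add ((differentiableAt_const _).mul h1.ccos)
  have hne := th_AA_ne h hl (X := X) (X' := X') ⟨hX.le, hX'⟩
  have ht := th_diff (B := fun z => AA D lam z X') hA
  have hs := si_diff (B := fun z => AA D lam z X') hA
  refine ⟨?_, ?_, ?_⟩
  · exact (differentiableAt_const _).div (ht D.q le_rfl) hne
  · exact ((hs D.q le_rfl).div (ht D.q le_rfl) hne).neg
  · exact (ht (D.q - 1) (Nat.sub_le _ _)).div (ht D.q le_rfl) hne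

theorem e_diff_right {D : Dat} {lam1 lam : ℝ} (h : Ref D lam1) (hl : |lam - lam1| ≤ 1) {X X' : ℂ}
    (hX : ‖X - D.xi 0‖ ≤ 1 / 2) (hX' : ‖X' - D.xi D.q‖ < 1 / 2) : DifferentiableAt ℂ (fun z => ep D lam X z) X' ∧
      DifferentiableAt ℂ (fun z => eL D lam X z) X' ∧ DifferentiableAt ℂ (fun z => eR D lam X z) X' := by
  have hA : ∀ n, 1 ≤ n → n < D.q → DifferentiableAt ℂ (fun z => AA D lam X z n) X' := by
    intro n _ hn
    have h1 := (sol_hasDerivAt_right h hl hX hX' hn.le).differentiableAt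
    unfold AA
    exact (differentiableAt_const _).add ((differentiableAt_const _).mul h1.ccos)
  have hne := th_AA_ne h hl (X := X) (X' := X') ⟨hX, hX'.le⟩
  have ht := th_diff (B := fun z => AA D lam X z) hA
  have hs := si_diff (B := fun z => AA D lam X z) hA
  refine ⟨?_, ?_, ?_⟩
  · exact (differentiableAt_const _).div (ht D.q le_rfl) hne
  · exact ((hs D.q le_rfl).div (ht D.q le_rfl) hne).neg
  · exact (ht (D.q - 1) (Nat.sub_le _ _)).div (ht D.q le_rfl) hne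

theorem Hol2_si_tendsto {ι : Type*} {l : Filter ι} {B : ι → ℕ → ℂ} {A : ℕ → ℂ} {q : ℕ}
    (h : ∀ n, 1 ≤ n → n < q → Tendsto (fun i => B i n) l (𝓝 (A n))) : ∀ n ≤ q, Tendsto (fun i => si (B i) n) l (𝓝 (si A n)) := by
  intro n
  induction n using Nat.twoStepInduction with
  | zero => exact fun _ => tendsto_const_nhds
  | one => exact fun _ => tendsto_const_nhds
  | more n h1 h2 =>
    intro hn
    exact ((h (n + 1) (by omega) (by omega)).mul (h2 (by omega))).sub (h1 (by omega))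

theorem Hol2_AA_tendsto {D : Dat} {lam1 : ℝ} (h : Ref D lam1) {n : ℕ} (hn : n ≤ D.q) {p : ℝ × ℂ × ℂ}
    (hp : p ∈ {p : ℝ × ℂ × ℂ | |p.1 - lam1| ≤ 1 ∧ Bd D p.2.1 p.2.2}) :
    Tendsto (fun p' : ℝ × ℂ × ℂ => AA D p'.1 p'.2.1 p'.2.2 n) (𝓝[{p | |p.1 - lam1| ≤ 1 ∧ Bd D p.2.1 p.2.2}] p)
      (𝓝 (AA D p.1 p.2.1 p.2.2 n)) := by
  have h1 := sol_cont h hn p hp
  have h2 : Tendsto (fun p' : ℝ × ℂ × ℂ => (p'.1 : ℂ)) (𝓝[{p | |p.1 - lam1| ≤ 1 ∧ Bd D p.2.1 p.2.2}] p) (𝓝 (p.1 : ℂ)) :=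
    ((Complex.continuous_ofReal.comp continuous_fst).tendsto p).mono_left nhdsWithin_le_nhds
  unfold AA
  exact tendsto_const_nhds.add (h2.mul ((Complex.continuous_cos.tendsto _).comp h1))

theorem e_cont {D : Dat} {lam1 : ℝ} (h : Ref D lam1) :
    ContinuousOn (fun p : ℝ × ℂ × ℂ => ep D p.1 p.2.1 p.2.2) {p | |p.1 - lam1| ≤ 1 ∧ Bd D p.2.1 p.2.2} ∧
    ContinuousOn (fun p : ℝ × ℂ × ℂ => eL D p.1 p.2.1 p.2.2) {p | |p.1 - lam1| ≤ 1 ∧ Bd D p.2.1 p.2.2} ∧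
    ContinuousOn (fun p : ℝ × ℂ × ℂ => eR D p.1 p.2.1 p.2.2) {p | |p.1 - lam1| ≤ 1 ∧ Bd D p.2.1 p.2.2} := by
  have key : ∀ p ∈ {p : ℝ × ℂ × ℂ | |p.1 - lam1| ≤ 1 ∧ Bd D p.2.1 p.2.2}, th (AA D p.1 p.2.1 p.2.2) D.q ≠ 0 ∧
      (∀ n ≤ D.q, Tendsto (fun p' : ℝ × ℂ × ℂ => th (AA D p'.1 p'.2.1 p'.2.2) n) (𝓝[{p | |p.1 - lam1| ≤ 1 ∧ Bd D p.2.1 p.2.2}] p)
        (𝓝 (th (AA D p.1 p.2.1 p.2.2) n))) ∧
      (∀ n ≤ D.q, Tendsto (fun p' : ℝ × ℂ × ℂ => si (AA D p'.1 p'.2.1 p'.2.2) n) (𝓝[{p | |p.1 - lam1| ≤ 1 ∧ Bd D p.2.1 p.2.2}] p)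
        (𝓝 (si (AA D p.1 p.2.1 p.2.2) n))) := by
    intro p hp
    refine ⟨th_AA_ne h hp.1 hp.2, ?_, ?_⟩
    · exact th_tendsto (B := fun p' : ℝ × ℂ × ℂ => AA D p'.1 p'.2.1 p'.2.2) fun n _ hn => Hol2_AA_tendsto h hn.le hp
    · exact Hol2_si_tendsto (B := fun p' : ℝ × ℂ × ℂ => AA D p'.1 p'.2.1 p'.2.2) fun n _ hn => Hol2_AA_tendsto h hn.le hp
  refine ⟨fun p hp => ?_, fun p hp => ?_, fun p hp => ?_⟩
  · obtain ⟨h1, h2, h3⟩ := key p hp
    exact tendsto_const_nhds.div (h2 D.q le_rfl) h1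
  · obtain ⟨h1, h2, h3⟩ := key p hp
    exact ((h3 D.q le_rfl).div (h2 D.q le_rfl) h1).neg
  · obtain ⟨h1, h2, h3⟩ := key p hp
    exact (h2 (D.q - 1) (Nat.sub_le _ _)).div (h2 D.q le_rfl) h1

end Pool.Agent.MP31f1e8.KLC
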