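import Pool.Agent.Lib.MP_31f1e8_mp.KLC.QR

/-!
# KLC-Ivt: tuning of `lam`: a common zero of `Rr` and `Qf`.

PROOF of `exists_tuned`. `I = [lam1 - δ/2, lam1 + δ/2]`, `a` its left, `b` its right end. Let `P = {lam ∈ I | ∃ X ∈ UU, Qf lam X = 0 ∧ 0 ≤ Rr lam X}`, `M = {lam ∈ I | ∃ X ∈ UU, Qf lam X = 0 ∧ Rr lam X ≤ 0}`.
Both are closed (projections of compact subsets of `I ×ˢ UU`, `QR_cont`), their union is `I` (`Qf_root`). At `a`: for every `X ∈ UU` `Rr a X ≤ Rr lam1 X - δ/4 ≤ δ/20 - δ/4 < 0` (`Rr_lam`), so `a ∈ M`.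
At `b`: let `X0 ∈ UU` with `Rr lam1 X0 ≥ -δ/20`; `Rr b X0 ≥ δ/4 - δ/20 = δ/5`; for a root `X` of `Qf b` `Rr b X ≥ Rr b X0 - (25/b)^(q-1) ≥ δ/5 - δ/20 > 0` (`Rr_root`): `b ∈ P`. `I` is preconnected
(`isPreconnected_Icc`, `IsPreconnected.subset_...`/`isPreconnected_closed_iff`), so there is `lam2 ∈ P ∩ M`, with roots `X1`, `X2` of `Qf lam2`; `X1 = X2` by `Qf_anti`, hence `Rr = 0` there.
-/

namespace Pool.Agent.MP31f1e8.KLC

open Set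

private theorem Ivt_closed {D : Dat} {lam1 c : ℝ} (h : Crit D lam1) {I : Set ℝ} (hI : IsCompact I)
    (hI1 : I ⊆ Icc (lam1 - 1) (lam1 + 1)) {T : Set ℝ} (hT : IsClosed T) :
    IsClosed {lam | lam ∈ I ∧ ∃ X ∈ UU, Qf D c lam X = 0 ∧ Rr D lam X ∈ T} := by
  have hUU : IsCompact UU := isCompact_Icc
  have hK : IsCompact (I ×ˢ UU) := hI.prod hUU
  have hsub : I ×ˢ UU ⊆ Icc (lam1 - 1) (lam1 + 1) ×ˢ UU := prod_mono hI1 Subset.rfl
  have hR : ContinuousOn (fun p : ℝ × ℝ => Rr D p.1 p.2) (I ×ˢ UU) := (QR_cont c h).1.mono hsub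
  have hQ : ContinuousOn (fun p : ℝ × ℝ => Qf D c p.1 p.2) (I ×ˢ UU) := (QR_cont c h).2.mono hsub
  have c1 := hR.preimage_isClosed_of_isClosed hK.isClosed hT
  have c2 := hQ.preimage_isClosed_of_isClosed hK.isClosed (isClosed_singleton (x := (0 : ℝ)))
  have hS : IsCompact ((I ×ˢ UU ∩ (fun p : ℝ × ℝ => Rr D p.1 p.2) ⁻¹' T) ∩
      (I ×ˢ UU ∩ (fun p : ℝ × ℝ => Qf D c p.1 p.2) ⁻¹' {0})) :=
    hK.of_isClosed_subset (c1.inter c2) fun p hp => hp.1.1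
  have himg := (hS.image (continuous_fst (X := ℝ) (Y := ℝ))).isClosed
  have heq : {lam | lam ∈ I ∧ ∃ X ∈ UU, Qf D c lam X = 0 ∧ Rr D lam X ∈ T} =
      Prod.fst '' ((I ×ˢ UU ∩ (fun p : ℝ × ℝ => Rr D p.1 p.2) ⁻¹' T) ∩
      (I ×ˢ UU ∩ (fun p : ℝ × ℝ => Qf D c p.1 p.2) ⁻¹' {0})) := by
    ext lam
    constructor
    · rintro ⟨h1, X, hX, h2, h3⟩
      exact ⟨(lam, X), ⟨⟨⟨h1, hX⟩, h3⟩, ⟨⟨h1, hX⟩, h2⟩⟩, rfl⟩
    · rintro ⟨⟨l, X⟩, ⟨⟨⟨h1, hX⟩, h3⟩, ⟨-, h2⟩⟩, rfl⟩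
      exact ⟨h1, X, hX, h2, h3⟩
  rw [heq]
  exact himg

theorem exists_tuned {D : Dat} {lam1 c δ : ℝ} (h : Crit D lam1) (hc : |c| ≤ 1) (hδ : 0 < δ) (hδ1 : δ ≤ 1)
    (h1 : ∀ X ∈ UU, Rr D lam1 X ≤ δ / 20) (h2 : ∃ X ∈ UU, -(δ / 20) ≤ Rr D lam1 X) (hq : (26 / lam1) ^ (D.q - 1) ≤ δ / 20) :
    ∃ lam2, |lam2 - lam1| < δ ∧ ∃ X ∈ UU, Rr D lam2 X = 0 ∧ Qf D c lam2 X = 0 := by
  have hlam1 : (10 : ℝ) ^ 8 ≤ lam1 := h.ref.hlam
  have hpos : (100 : ℝ) ≤ lam1 := by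
    norm_num at hlam1
    linarith
  set I : Set ℝ := Icc (lam1 - δ / 2) (lam1 + δ / 2) with hI
  have hI1 : I ⊆ Icc (lam1 - 1) (lam1 + 1) := Icc_subset_Icc (by linarith) (by linarith)
  have hIabs : ∀ lam ∈ I, |lam - lam1| ≤ 1 := by
    intro lam hl
    rw [abs_le]
    constructor
    · linarith [hl.1]
    · linarith [hl.2]
  have hcP := Ivt_closed (c := c) h isCompact_Icc hI1 (isClosed_Ici (a := (0 : ℝ)))
  have hcM := Ivt_closed (c := c) h isCompact_Icc hI1 (isClosed_Iic (a := (0 : ℝ)))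
  have hroot : ∀ lam ∈ I, ∃ X ∈ UU, Qf D c lam X = 0 := fun lam hl => Qf_root h (hIabs lam hl) hc
  have hcon : IsPreconnected I := isPreconnected_Icc
  have ha : lam1 - δ / 2 ∈ I := ⟨le_rfl, by linarith⟩
  have hb : lam1 + δ / 2 ∈ I := ⟨by linarith, le_rfl⟩
  obtain ⟨lam2, hl2, hP, hM⟩ := (isPreconnected_closed_iff.1 hcon) _ _ hcP hcM
    (by
      intro lam hl
      obtain ⟨X, hX, hQ⟩ := hroot lam hl
      rcases le_total 0 (Rr D lam X) with h3 | h3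
      · exact Or.inl ⟨hl, X, hX, hQ, h3⟩
      · exact Or.inr ⟨hl, X, hX, hQ, h3⟩)
    (by
      refine ⟨lam1 + δ / 2, hb, hb, ?_⟩
      obtain ⟨X, hX, hQ⟩ := hroot _ hb
      obtain ⟨X0, hX0, hR0⟩ := h2
      refine ⟨X, hX, hQ, ?_⟩
      have h3 := Rr_root h (hIabs _ hb) hc hX hX0 hQ
      have h4 := Rr_lam h (lam := lam1) (lam' := lam1 + δ / 2) (by rw [sub_self, abs_zero]; norm_num)
        (hIabs _ hb) (by linarith) hX0
      have h5 : (25 / (lam1 + δ / 2)) ^ (D.q - 1) ≤ (26 / lam1) ^ (D.q - 1) := by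
        refine pow_le_pow_left₀ (by positivity) ?_ _
        rw [div_le_div_iff₀ (by linarith) (by linarith)]
        nlinarith
      show 0 ≤ Rr D (lam1 + δ / 2) X
      linarith)
    (by
      refine ⟨lam1 - δ / 2, ha, ha, ?_⟩
      obtain ⟨X, hX, hQ⟩ := hroot _ ha
      refine ⟨X, hX, hQ, ?_⟩
      have h4 := Rr_lam h (lam := lam1 - δ / 2) (lam' := lam1) (hIabs _ ha)
        (by rw [sub_self, abs_zero]; norm_num) (by linarith) hX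
      have h5 := h1 X hX
      show Rr D (lam1 - δ / 2) X ≤ 0
      linarith)
  obtain ⟨-, X1, hX1, hQ1, hR1⟩ := hP
  obtain ⟨-, X2, hX2, hQ2, hR2⟩ := hM
  have hlam2 : 0 < lam2 := by
    have := hl2.1
    linarith
  have heq : X1 = X2 := by
    rcases le_total X1 X2 with h3 | h3
    · have h4 := Qf_anti h (hIabs _ hl2) hc hX1 hX2 h3
      rw [hQ1, hQ2] at h4
      by_contra h5
      have h6 : 0 < X2 - X1 := sub_pos.2 (lt_of_le_of_ne h3 h5)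
      have h7 : 0 < lam2 / 2 * (X2 - X1) := by positivity
      linarith
    · have h4 := Qf_anti h (hIabs _ hl2) hc hX2 hX1 h3
      rw [hQ1, hQ2] at h4
      by_contra h5
      have h6 : 0 < X1 - X2 := sub_pos.2 (lt_of_le_of_ne h3 (Ne.symm h5))
      have h7 : 0 < lam2 / 2 * (X1 - X2) := by positivity
      linarith
  refine ⟨lam2, ?_, X1, hX1, ?_, hQ1⟩
  · rw [abs_lt]
    constructor
    · linarith [hl2.1]
    · linarith [hl2.2]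
  · refine le_antisymm ?_ hR1
    rw [heq]
    exact hR2

end Pool.Agent.MP31f1e8.KLC
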