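import Pool.Agent.Lib.MP_31f1e8_mp.KLC.Defs
import Pool.Agent.Lib.MP_31f1e8_mp.KLF.Intf

/-!
# KLC-Ser: the double series `H` from the series of `e` and of the on-site term.

`g j k` real with `|g j k| ≤ M / ρ^(j+k)`, `v j` real with `|v j| ≤ M / ρ^j`, `ρ ≥ 2`. Put
`H (j+1) (k+1) = - g j k / ((j+1)(k+1))`, `H (j+1) 0 = v j / (j+1)`, `H 0 k = 0` (`HH g v`).
`G1 x y = ∑ g j k x^j y^(k+1)/(k+1)`, `G2 x y = ∑ g j k x^(j+1) y^k/(j+1)`.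
PROOFS.
* `HH_small`: `∑ |H| ≤ ∑ |g| + ∑ |v|`; the family `H` on `ℕ × ℕ` is supported on the images of the injective maps `(j,k) ↦ (j+1,k+1)` and `j ↦ (j+1,0)`; e.g. write `H = H' + H''` and use
  `Function.Injective.hasSum_iff`, `|g j k/((j+1)(k+1))| ≤ |g j k|`.
* `d1_HH`: the terms `p.1 * H p.1 p.2 * x^(p.1-1) * y^p.2` are, at `(j+1,k+1)`, `- g j k x^j y^(k+1)/(k+1)`, at `(j+1, 0)`: `v j x^j`, zero at `(0,k)`. Summability for `|x|, |y| ≤ 1` from that of `|g|`, `|v|`.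
* `d2_HH`: the terms at `(j+1, k+1)` are `- g j k x^(j+1) y^k/(j+1)`, all others vanish (`p.2 = 0` gives the factor `0`; `H 0 k = 0`).
-/

namespace Pool.Agent.MP31f1e8.KLC

open Set

noncomputable def HH (g : ℕ → ℕ → ℝ) (v : ℕ → ℝ) : ℕ → ℕ → ℝ
  | 0, _ => 0
  | (j + 1), 0 => v j / (j + 1)
  | (j + 1), (k + 1) => -(g j k / ((j + 1) * (k + 1)))

private theorem ser_hasSum {F : ℕ × ℕ → ℝ} {A B : ℝ} (hA : HasSum (fun p : ℕ × ℕ => F (p.1 + 1, p.2 + 1)) A)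
    (hB : HasSum (fun j : ℕ => F (j + 1, 0)) B) (h0 : ∀ k, F (0, k) = 0) : HasSum F (A + B) := by
  have i1 : Function.Injective (fun p : ℕ × ℕ => (p.1 + 1, p.2 + 1)) := by
    intro p q h
    simp only [Prod.mk.injEq, add_left_inj] at h
    exact Prod.ext h.1 h.2
  have i2 : Function.Injective (fun j : ℕ => ((j + 1, 0) : ℕ × ℕ)) := by
    intro p q h
    simpa using h
  have h1 : HasSum (fun p : ℕ × ℕ => if p.2 = 0 ∨ p.1 = 0 then 0 else F p) A := by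
    rw [← i1.hasSum_iff]
    · simpa [Function.comp_def] using hA
    · rintro ⟨a, b⟩ hp
      simp only [Set.mem_range, Prod.exists, Prod.mk.injEq, not_exists, not_and] at hp
      simp only [ite_eq_left_iff, not_or]
      rintro ⟨hb, ha⟩
      exact absurd (by omega) (hp (a - 1) (b - 1) (by omega))
  have h2 : HasSum (fun p : ℕ × ℕ => if p.2 = 0 ∧ p.1 ≠ 0 then F p else 0) B := by
    rw [← i2.hasSum_iff]
    · simpa [Function.comp_def] using hB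
    · rintro ⟨a, b⟩ hp
      simp only [Set.mem_range, Prod.mk.injEq, not_exists, not_and] at hp
      simp only [ite_eq_right_iff]
      rintro ⟨hb, ha⟩
      exact absurd hb.symm (hp (a - 1) (by omega))
  have h3 := h1.add h2
  refine h3.congr_fun ?_
  rintro ⟨a, b⟩
  by_cases hb : b = 0
  · by_cases ha : a = 0
    · subst ha; simp [h0]
    · simp [hb, ha]
  · by_cases ha : a = 0
    · subst ha; simp [h0]
    · simp [hb, ha]

theorem HH_small {g : ℕ → ℕ → ℝ} {v : ℕ → ℝ} (hg : Summable (fun p : ℕ × ℕ => |g p.1 p.2|)) (hv : Summable (fun j => |v j|)) {e : ℝ}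
    (h : ∑' p : ℕ × ℕ, |g p.1 p.2| + ∑' j, |v j| ≤ e) : KLF.Small (HH g v) e := by
  have l1 : ∀ p : ℕ × ℕ, |HH g v (p.1 + 1) (p.2 + 1)| ≤ |g p.1 p.2| := by
    intro p
    have e1 : HH g v (p.1 + 1) (p.2 + 1) = -(g p.1 p.2 / (((p.1 : ℝ) + 1) * ((p.2 : ℝ) + 1))) := rfl
    have hp : (1 : ℝ) ≤ ((p.1 : ℝ) + 1) * ((p.2 : ℝ) + 1) := by
      have h1 : (0 : ℝ) ≤ p.1 := Nat.cast_nonneg _
      have h2 : (0 : ℝ) ≤ p.2 := Nat.cast_nonneg _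
      nlinarith
    rw [e1, abs_neg, abs_div, abs_of_pos (by linarith : (0 : ℝ) < ((p.1 : ℝ) + 1) * ((p.2 : ℝ) + 1))]
    exact div_le_self (abs_nonneg _) hp
  have l2 : ∀ j : ℕ, |HH g v (j + 1) 0| ≤ |v j| := by
    intro j
    have e1 : HH g v (j + 1) 0 = v j / ((j : ℝ) + 1) := rfl
    have hp : (1 : ℝ) ≤ (j : ℝ) + 1 := by
      have h1 : (0 : ℝ) ≤ j := Nat.cast_nonneg _
      linarith
    rw [e1, abs_div, abs_of_pos (by linarith : (0 : ℝ) < (j : ℝ) + 1)]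
    exact div_le_self (abs_nonneg _) hp
  have s1 : Summable (fun p : ℕ × ℕ => |HH g v (p.1 + 1) (p.2 + 1)|) :=
    Summable.of_nonneg_of_le (fun _ => abs_nonneg _) l1 hg
  have s2 : Summable (fun j : ℕ => |HH g v (j + 1) 0|) :=
    Summable.of_nonneg_of_le (fun _ => abs_nonneg _) l2 hv
  have hs := ser_hasSum (F := fun p : ℕ × ℕ => |HH g v p.1 p.2|) s1.hasSum s2.hasSum (by intro k; simp [HH])
  refine ⟨hs.summable, ?_⟩
  rw [hs.tsum_eq]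
  have t1 := s1.tsum_le_tsum l1 hg
  have t2 := s2.tsum_le_tsum l2 hv
  linarith

private theorem ser_pow {x : ℝ} (hx : |x| ≤ 1) (n : ℕ) : |x ^ n| ≤ 1 := by
  rw [abs_pow]; exact pow_le_one₀ (abs_nonneg _) hx

theorem d1_HH {g : ℕ → ℕ → ℝ} {v : ℕ → ℝ} (hg : Summable (fun p : ℕ × ℕ => |g p.1 p.2|)) (hv : Summable (fun j => |v j|)) {x y : ℝ}
    (hx : |x| ≤ 1) (hy : |y| ≤ 1) :
    KLF.d1 (HH g v) x y = ∑' j, v j * x ^ j - ∑' p : ℕ × ℕ, g p.1 p.2 * x ^ p.1 * (y ^ (p.2 + 1) / (p.2 + 1)) := by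
  have s1 : Summable (fun p : ℕ × ℕ => g p.1 p.2 * x ^ p.1 * (y ^ (p.2 + 1) / ((p.2 : ℝ) + 1))) := by
    refine Summable.of_norm_bounded hg (fun p => ?_)
    rw [Real.norm_eq_abs, abs_mul, abs_mul, abs_div]
    have a1 := ser_pow hx p.1
    have a2 := ser_pow hy (p.2 + 1)
    have hp : (1 : ℝ) ≤ |(p.2 : ℝ) + 1| := by
      have h1 : (0 : ℝ) ≤ p.2 := Nat.cast_nonneg _
      rw [abs_of_pos (by linarith)]; linarith
    have a3 : |y ^ (p.2 + 1)| / |(p.2 : ℝ) + 1| ≤ 1 := by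
      rw [div_le_one (by linarith)]; linarith
    have a4 : |g p.1 p.2| * |x ^ p.1| ≤ |g p.1 p.2| := mul_le_of_le_one_right (abs_nonneg _) a1
    calc _ ≤ |g p.1 p.2| * |x ^ p.1| * 1 := mul_le_mul_of_nonneg_left a3 (mul_nonneg (abs_nonneg _) (abs_nonneg _))
      _ ≤ _ := by rw [mul_one]; exact a4
  have s2 : Summable (fun j : ℕ => v j * x ^ j) := by
    refine Summable.of_norm_bounded hv (fun j => ?_)
    rw [Real.norm_eq_abs, abs_mul]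
    exact mul_le_of_le_one_right (abs_nonneg _) (ser_pow hx j)
  have e1 : (fun p : ℕ × ℕ => (((p.1 + 1 : ℕ) : ℝ)) * HH g v (p.1 + 1) (p.2 + 1) * x ^ (p.1 + 1 - 1) * y ^ (p.2 + 1)) =
      fun p : ℕ × ℕ => -(g p.1 p.2 * x ^ p.1 * (y ^ (p.2 + 1) / ((p.2 : ℝ) + 1))) := by
    funext p
    have e0 : HH g v (p.1 + 1) (p.2 + 1) = -(g p.1 p.2 / (((p.1 : ℝ) + 1) * ((p.2 : ℝ) + 1))) := rfl
    have h1 : ((p.1 : ℝ) + 1) ≠ 0 := by positivity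
    have h2 : ((p.2 : ℝ) + 1) ≠ 0 := by positivity
    rw [e0, Nat.add_sub_cancel]
    push_cast
    field_simp
  have e2 : (fun j : ℕ => (((j + 1 : ℕ) : ℝ)) * HH g v (j + 1) 0 * x ^ (j + 1 - 1) * y ^ 0) = fun j : ℕ => v j * x ^ j := by
    funext j
    have e0 : HH g v (j + 1) 0 = v j / ((j : ℝ) + 1) := rfl
    have h1 : ((j : ℝ) + 1) ≠ 0 := by positivity
    rw [e0, Nat.add_sub_cancel]
    push_cast
    field_simp
  have hs := ser_hasSum (F := fun p : ℕ × ℕ => (p.1 : ℝ) * HH g v p.1 p.2 * x ^ (p.1 - 1) * y ^ p.2)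
    (A := -∑' p : ℕ × ℕ, g p.1 p.2 * x ^ p.1 * (y ^ (p.2 + 1) / ((p.2 : ℝ) + 1))) (B := ∑' j, v j * x ^ j)
    (by
      show HasSum (fun p : ℕ × ℕ => (((p.1 + 1 : ℕ) : ℝ)) * HH g v (p.1 + 1) (p.2 + 1) * x ^ (p.1 + 1 - 1) * y ^ (p.2 + 1)) _
      rw [e1]; exact s1.hasSum.neg)
    (by
      show HasSum (fun j : ℕ => (((j + 1 : ℕ) : ℝ)) * HH g v (j + 1) 0 * x ^ (j + 1 - 1) * y ^ 0) _
      rw [e2]; exact s2.hasSum)
    (by intro k; simp)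
  rw [KLF.d1, hs.tsum_eq]
  ring

theorem d2_HH {g : ℕ → ℕ → ℝ} {v : ℕ → ℝ} (hg : Summable (fun p : ℕ × ℕ => |g p.1 p.2|)) (hv : Summable (fun j => |v j|)) {x y : ℝ}
    (hx : |x| ≤ 1) (hy : |y| ≤ 1) :
    KLF.d2 (HH g v) x y = -∑' p : ℕ × ℕ, g p.1 p.2 * (x ^ (p.1 + 1) / (p.1 + 1)) * y ^ p.2 := by
  have s1 : Summable (fun p : ℕ × ℕ => g p.1 p.2 * (x ^ (p.1 + 1) / ((p.1 : ℝ) + 1)) * y ^ p.2) := by
    refine Summable.of_norm_bounded hg (fun p => ?_)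
    rw [Real.norm_eq_abs, abs_mul, abs_mul, abs_div]
    have a1 := ser_pow hx (p.1 + 1)
    have a2 := ser_pow hy p.2
    have hp : (1 : ℝ) ≤ |(p.1 : ℝ) + 1| := by
      have h1 : (0 : ℝ) ≤ p.1 := Nat.cast_nonneg _
      rw [abs_of_pos (by linarith)]; linarith
    have a3 : |x ^ (p.1 + 1)| / |(p.1 : ℝ) + 1| ≤ 1 := by
      rw [div_le_one (by linarith)]; linarith
    have a4 : |g p.1 p.2| * (|x ^ (p.1 + 1)| / |(p.1 : ℝ) + 1|) ≤ |g p.1 p.2| := mul_le_of_le_one_right (abs_nonneg _) a3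
    calc _ ≤ |g p.1 p.2| * (|x ^ (p.1 + 1)| / |(p.1 : ℝ) + 1|) * 1 := mul_le_mul_of_nonneg_left a2 (by positivity)
      _ ≤ _ := by rw [mul_one]; exact a4
  have e1 : (fun p : ℕ × ℕ => (((p.2 + 1 : ℕ) : ℝ)) * HH g v (p.1 + 1) (p.2 + 1) * x ^ (p.1 + 1) * y ^ (p.2 + 1 - 1)) =
      fun p : ℕ × ℕ => -(g p.1 p.2 * (x ^ (p.1 + 1) / ((p.1 : ℝ) + 1)) * y ^ p.2) := by
    funext p
    have e0 : HH g v (p.1 + 1) (p.2 + 1) = -(g p.1 p.2 / (((p.1 : ℝ) + 1) * ((p.2 : ℝ) + 1))) := rfl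
    have h1 : ((p.1 : ℝ) + 1) ≠ 0 := by positivity
    have h2 : ((p.2 : ℝ) + 1) ≠ 0 := by positivity
    rw [e0, Nat.add_sub_cancel]
    push_cast
    field_simp
  have hs := ser_hasSum (F := fun p : ℕ × ℕ => (p.2 : ℝ) * HH g v p.1 p.2 * x ^ p.1 * y ^ (p.2 - 1))
    (A := -∑' p : ℕ × ℕ, g p.1 p.2 * (x ^ (p.1 + 1) / ((p.1 : ℝ) + 1)) * y ^ p.2) (B := 0)
    (by
      show HasSum (fun p : ℕ × ℕ => (((p.2 + 1 : ℕ) : ℝ)) * HH g v (p.1 + 1) (p.2 + 1) * x ^ (p.1 + 1) * y ^ (p.2 + 1 - 1)) _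
      rw [e1]; exact s1.hasSum.neg)
    (by simp)
    (by intro k; simp [HH])
  rw [KLF.d2, hs.tsum_eq]
  ring

end Pool.Agent.MP31f1e8.KLC
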