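import Pool.Agent.Lib.MP_31f1e8_mp.KLC.Exp
import Pool.Agent.Lib.MP_31f1e8_mp.KLC.Ser

/-!
# KLC-Jun: the junction condition is the reduced equation.

Notation `ς = sgm D X0 lam2`, `ε = (ep D lam2 X0 X0).re`, `X x = X0 + ς x`.
PROOFS.
* `int_one`: for real `v, u' ∈ [-1,1]`: `(sol D lam (X v) (X u') 1).re - (sol D lam (X v) X0 1).re = ∫ y in 0..u', ς (ep D lam (X v) (X y)).re` (derivative: `one_right` and chain rule `y ↦ X y`, real part)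
  `= ες ∫ y in 0..u', (1 + ∑ g v^j y^k) = ες (u' + ∑ g j k v^j u'^(k+1)/(k+1))`: termwise integration (`intervalIntegral.hasSum_integral_of_summable_norm` or `hasSum_integral_of_dominated_convergence`, the norms are `≤ |g j k|` on `[-1,1]`;
  or: show that the right side has the right derivative).
* `int_last`: the same for `(sol D lam (X u) (X v) (q-1)).re - (sol D lam X0 (X v) (q-1)).re = ες (u + ∑ g j k u^(j+1)/(j+1) v^k)` (`last_left`).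
* `junction`: add: `x_1 (v,u') + x_{q-1} (u,v) - 2 X v - lam sin (X v) = - (Ph D X0 lam (X v)).re + ες (u' + u + S1 + S2)`, where `S1 = ∑ g v^j u'^(k+1)/(k+1) = ∑' v j x^j - d1 (HH g v) v u'` and `S2 = - d2 (HH g v) u v`
  (`d1_HH`, `d2_HH`), `(Ph ..).re = ες (2 cc v + v^2 + ∑' ..)` (`Expn`). So the bracket is `u' + u - (2 cc v + v^2 + d1 .. + d2 ..) = 0` by `Red`.
-/

namespace Pool.Agent.MP31f1e8.KLC

open Set MeasureTheory

private theorem jun_int {G : ℕ → ℕ → ℝ} (hG : Summable (fun p : ℕ × ℕ => |G p.1 p.2|)) {φ γ : ℝ → ℝ}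
    {c v : ℝ} (hv : |v| ≤ 1) (hφ : ∀ s ∈ Icc (-1 : ℝ) 1, HasDerivAt φ (c * γ s) s)
    (hγ : ∀ s ∈ Icc (-1 : ℝ) 1, γ s = 1 + ∑' p : ℕ × ℕ, G p.1 p.2 * v ^ p.1 * s ^ p.2)
    {u : ℝ} (hu : u ∈ Icc (-1 : ℝ) 1) :
    φ u - φ 0 = c * (u + ∑' p : ℕ × ℕ, G p.1 p.2 * v ^ p.1 * (u ^ (p.2 + 1) / (p.2 + 1))) := by
  have hsub : uIcc 0 u ⊆ Icc (-1 : ℝ) 1 := by
    have h1 : Icc (-1 : ℝ) 1 = uIcc (-1) 1 := by rw [uIcc_of_le (by norm_num)]
    rw [h1]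
    refine uIcc_subset_uIcc ?_ ?_
    · rw [← h1]; constructor <;> norm_num
    · rw [← h1]; exact hu
  have hsub2 : ∀ s ∈ uIoc 0 u, s ∈ Icc (-1 : ℝ) 1 := fun s hs => hsub (uIoc_subset_uIcc hs)
  have hbd : ∀ (p : ℕ × ℕ) (s : ℝ), s ∈ Icc (-1 : ℝ) 1 → ‖G p.1 p.2 * v ^ p.1 * s ^ p.2‖ ≤ |G p.1 p.2| := by
    intro p s hs
    have hs1 : |s| ≤ 1 := abs_le.2 hs
    rw [Real.norm_eq_abs, abs_mul, abs_mul, abs_pow, abs_pow]
    have h1 : |v| ^ p.1 ≤ 1 := pow_le_one₀ (abs_nonneg _) hv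
    have h2 : |s| ^ p.2 ≤ 1 := pow_le_one₀ (abs_nonneg _) hs1
    calc |G p.1 p.2| * |v| ^ p.1 * |s| ^ p.2 ≤ |G p.1 p.2| * 1 * 1 := by gcongr
      _ = _ := by ring
  set T : ℝ → ℝ := fun s => ∑' p : ℕ × ℕ, G p.1 p.2 * v ^ p.1 * s ^ p.2 with hT
  have hTc : ContinuousOn T (Icc (-1) 1) := by
    refine continuousOn_tsum (fun p => (continuous_const.mul (continuous_pow p.2)).continuousOn) hG ?_
    intro p s hs
    exact hbd p s hs
  have hint : IntervalIntegrable T volume 0 u := (hTc.mono hsub).intervalIntegrable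
  have hφ' : ∀ s ∈ uIcc 0 u, HasDerivAt φ (c * (1 + T s)) s := by
    intro s hs
    have h1 := hφ s (hsub hs)
    rw [hγ s (hsub hs)] at h1
    exact h1
  have hftc : ∫ s in (0 : ℝ)..u, c * (1 + T s) = φ u - φ 0 := by
    refine intervalIntegral.integral_eq_sub_of_hasDerivAt hφ' ?_
    exact (intervalIntegrable_const.add hint).const_mul c
  have key := intervalIntegral.hasSum_integral_of_dominated_convergence (μ := volume) (a := 0) (b := u)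
    (F := fun (p : ℕ × ℕ) s => G p.1 p.2 * v ^ p.1 * s ^ p.2) (f := T)
    (fun p _ => |G p.1 p.2|)
    (fun p => (continuous_const.mul (continuous_pow p.2)).aestronglyMeasurable)
    (fun p => Filter.Eventually.of_forall fun s hs => hbd p s (hsub2 s hs))
    (Filter.Eventually.of_forall fun s hs => hG)
    intervalIntegrable_const
    (Filter.Eventually.of_forall fun s hs =>
      (Summable.of_norm_bounded hG (fun p => hbd p s (hsub2 s hs))).hasSum)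
  have e : (fun p : ℕ × ℕ => G p.1 p.2 * v ^ p.1 * (u ^ (p.2 + 1) / (p.2 + 1))) =
      fun p : ℕ × ℕ => ∫ s in (0 : ℝ)..u, G p.1 p.2 * v ^ p.1 * s ^ p.2 := by
    funext p
    rw [intervalIntegral.integral_const_mul, integral_pow]
    simp
  rw [e, key.tsum_eq, ← hftc, intervalIntegral.integral_const_mul, intervalIntegral.integral_add intervalIntegrable_const hint,
    intervalIntegral.integral_const, sub_zero, smul_eq_mul, mul_one]

private theorem jun_deriv {f : ℂ → ℂ} {f' : ℂ} {X0 c y : ℝ} (h : HasDerivAt f f' ((X0 + c * y : ℝ) : ℂ)) :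
    HasDerivAt (fun t : ℝ => (f ((X0 + c * t : ℝ) : ℂ)).re) (c * f'.re) y := by
  have h1 : HasDerivAt (fun t : ℝ => (f (t : ℂ)).re) f'.re (X0 + c * y) := h.real_of_complex
  have h2 : HasDerivAt (fun t : ℝ => X0 + c * t) c y := by
    have := ((hasDerivAt_id y).const_mul c).const_add X0
    simpa using this
  have h3 := HasDerivAt.comp y h1 h2
  rw [mul_comm]
  exact h3

private theorem jun_bd {D : Dat} {lam1 lam2 X0 : ℝ} (T : Tun D lam1 lam2 X0) {y : ℝ} (hy : y ∈ Icc (-1 : ℝ) 1) :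
    |X0 + sgm D X0 lam2 * y - Real.pi / 2| < 1 / 2 := by
  obtain ⟨-, -, -, hs⟩ := sgm_bounds T
  have hX : |X0 - Real.pi / 2| ≤ 1 / 10 := by
    obtain ⟨h1, h2⟩ := T.hX
    rw [abs_le]
    constructor <;> linarith
  have h1 : |sgm D X0 lam2 * y| ≤ 1 / 1000 := by
    rw [abs_mul]
    have : |y| ≤ 1 := abs_le.2 hy
    calc |sgm D X0 lam2| * |y| ≤ 1 / 1000 * 1 := by gcongr
      _ = _ := by ring
  have h2 : X0 + sgm D X0 lam2 * y - Real.pi / 2 = (X0 - Real.pi / 2) + sgm D X0 lam2 * y := by ring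
  rw [h2]
  calc |(X0 - Real.pi / 2) + sgm D X0 lam2 * y| ≤ |X0 - Real.pi / 2| + |sgm D X0 lam2 * y| := abs_add_le _ _
    _ ≤ 1 / 10 + 1 / 1000 := by gcongr
    _ < 1 / 2 := by norm_num

private theorem jun_norm {D : Dat} {lam1 lam2 X0 : ℝ} (T : Tun D lam1 lam2 X0) {y a : ℝ} (hy : y ∈ Icc (-1 : ℝ) 1)
    (ha : a = Real.pi / 2) : ‖((X0 + sgm D X0 lam2 * y : ℝ) : ℂ) - (a : ℂ)‖ < 1 / 2 := by
  rw [ha, ← Complex.ofReal_sub, Complex.norm_real, Real.norm_eq_abs]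
  exact jun_bd T hy

theorem int_one {D : Dat} {lam1 lam2 lam X0 : ℝ} (T : Tun D lam1 lam2 X0) (hl : |lam - lam1| ≤ 1) {g : ℕ → ℕ → ℝ} {v : ℕ → ℝ}
    (hE : Expn D X0 lam2 lam g v) {x y : ℝ} (hx : x ∈ Icc (-1 : ℝ) 1) (hy : y ∈ Icc (-1 : ℝ) 1) :
    (sol D lam ((X0 + sgm D X0 lam2 * x : ℝ) : ℂ) ((X0 + sgm D X0 lam2 * y : ℝ) : ℂ) 1).re -
      (sol D lam ((X0 + sgm D X0 lam2 * x : ℝ) : ℂ) X0 1).re =
      (ep D lam2 X0 X0).re * sgm D X0 lam2 * (y + ∑' p : ℕ × ℕ, g p.1 p.2 * x ^ p.1 * (y ^ (p.2 + 1) / (p.2 + 1))) := by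
  obtain ⟨hg, -, he, -⟩ := hE
  have key := jun_int hg (G := g)
    (φ := fun t : ℝ => (sol D lam ((X0 + sgm D X0 lam2 * x : ℝ) : ℂ) ((X0 + sgm D X0 lam2 * t : ℝ) : ℂ) 1).re)
    (γ := fun t : ℝ => 1 + ∑' p : ℕ × ℕ, g p.1 p.2 * x ^ p.1 * t ^ p.2)
    (c := (ep D lam2 X0 X0).re * sgm D X0 lam2) (v := x) (abs_le.2 hx) ?_ (fun s _ => rfl) hy
  · simp only [mul_zero, add_zero] at key
    exact key
  · intro s hs
    have h1 := one_right T.crit.ref hl (X := ((X0 + sgm D X0 lam2 * x : ℝ) : ℂ)) (X' := ((X0 + sgm D X0 lam2 * s : ℝ) : ℂ))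
      (jun_norm T hx T.crit.l).le (jun_norm T hs T.crit.r)
    have h2 := jun_deriv h1
    rw [he x hx s hs] at h2
    convert h2 using 1
    ring

theorem int_last {D : Dat} {lam1 lam2 lam X0 : ℝ} (T : Tun D lam1 lam2 X0) (hl : |lam - lam1| ≤ 1) {g : ℕ → ℕ → ℝ} {v : ℕ → ℝ}
    (hE : Expn D X0 lam2 lam g v) {x y : ℝ} (hx : x ∈ Icc (-1 : ℝ) 1) (hy : y ∈ Icc (-1 : ℝ) 1) :
    (sol D lam ((X0 + sgm D X0 lam2 * x : ℝ) : ℂ) ((X0 + sgm D X0 lam2 * y : ℝ) : ℂ) (D.q - 1)).re -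
      (sol D lam X0 ((X0 + sgm D X0 lam2 * y : ℝ) : ℂ) (D.q - 1)).re =
      (ep D lam2 X0 X0).re * sgm D X0 lam2 * (x + ∑' p : ℕ × ℕ, g p.1 p.2 * (x ^ (p.1 + 1) / (p.1 + 1)) * y ^ p.2) := by
  obtain ⟨hg, -, he, -⟩ := hE
  have hg' : Summable (fun p : ℕ × ℕ => |g p.2 p.1|) := by
    have := (Equiv.prodComm ℕ ℕ).summable_iff.2 hg
    exact this
  have key := jun_int hg' (G := fun j k => g k j)
    (φ := fun t : ℝ => (sol D lam ((X0 + sgm D X0 lam2 * t : ℝ) : ℂ) ((X0 + sgm D X0 lam2 * y : ℝ) : ℂ) (D.q - 1)).re)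
    (γ := fun t : ℝ => 1 + ∑' p : ℕ × ℕ, g p.2 p.1 * y ^ p.1 * t ^ p.2)
    (c := (ep D lam2 X0 X0).re * sgm D X0 lam2) (v := y) (abs_le.2 hy) ?_ (fun s _ => rfl) hx
  · simp only [mul_zero, add_zero] at key
    rw [key]
    congr 2
    rw [← (Equiv.prodComm ℕ ℕ).tsum_eq]
    refine tsum_congr fun p => ?_
    simp only [Equiv.prodComm_apply, Prod.fst_swap, Prod.snd_swap]
    ring
  · intro s hs
    have h1 := last_left T.crit.ref hl (X := ((X0 + sgm D X0 lam2 * s : ℝ) : ℂ)) (X' := ((X0 + sgm D X0 lam2 * y : ℝ) : ℂ))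
      (jun_norm T hs T.crit.l) (jun_norm T hy T.crit.r).le
    have h2 := jun_deriv (f := fun z => sol D lam z ((X0 + sgm D X0 lam2 * y : ℝ) : ℂ) (D.q - 1)) h1
    rw [he s hs y hy] at h2
    convert h2 using 1
    have e : ∑' p : ℕ × ℕ, g p.2 p.1 * y ^ p.1 * s ^ p.2 = ∑' p : ℕ × ℕ, g p.1 p.2 * s ^ p.1 * y ^ p.2 := by
      rw [← (Equiv.prodComm ℕ ℕ).tsum_eq]
      refine tsum_congr fun p => ?_
      simp only [Equiv.prodComm_apply, Prod.fst_swap, Prod.snd_swap]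
      ring
    rw [e]
    ring

theorem junction {D : Dat} {lam1 lam2 lam X0 : ℝ} (T : Tun D lam1 lam2 X0) (hl : |lam - lam1| ≤ 1) {g : ℕ → ℕ → ℝ} {v : ℕ → ℝ}
    (hE : Expn D X0 lam2 lam g v) {xm x xp : ℝ} (h1 : xm ∈ Icc (-1 : ℝ) 1) (h2 : x ∈ Icc (-1 : ℝ) 1) (h3 : xp ∈ Icc (-1 : ℝ) 1)
    (hR : KLF.Red (HH g v) xm x xp) :
    (sol D lam ((X0 + sgm D X0 lam2 * x : ℝ) : ℂ) ((X0 + sgm D X0 lam2 * xp : ℝ) : ℂ) 1).re +
      (sol D lam ((X0 + sgm D X0 lam2 * xm : ℝ) : ℂ) ((X0 + sgm D X0 lam2 * x : ℝ) : ℂ) (D.q - 1)).re =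
      2 * (X0 + sgm D X0 lam2 * x) + lam * Real.sin (X0 + sgm D X0 lam2 * x) := by
  have i1 := int_one T hl hE h2 h3
  have i2 := int_last T hl hE h1 h2
  obtain ⟨hg, hv, -, hp⟩ := hE
  have i3 := hp x h2
  have e1 := d1_HH hg hv (abs_le.2 h2) (abs_le.2 h3)
  have e2 := d2_HH hg hv (abs_le.2 h1) (abs_le.2 h2)
  unfold KLF.Red at hR
  rw [e1, e2] at hR
  have i4 : (Ph D X0 lam ((X0 + sgm D X0 lam2 * x : ℝ) : ℂ)).re = 2 * (X0 + sgm D X0 lam2 * x) +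
      lam * Real.sin (X0 + sgm D X0 lam2 * x) - (sol D lam ((X0 + sgm D X0 lam2 * x : ℝ) : ℂ) X0 1).re -
      (sol D lam X0 ((X0 + sgm D X0 lam2 * x : ℝ) : ℂ) (D.q - 1)).re := by
    unfold Ph
    rw [Complex.sub_re, Complex.sub_re, Complex.add_re, ← Complex.ofReal_sin, ← Complex.ofReal_mul, Complex.ofReal_re]
    congr 3
    simp
  rw [i4] at i3
  linear_combination i1 + i2 - i3 + (ep D lam2 X0 X0).re * sgm D X0 lam2 * hR

end Pool.Agent.MP31f1e8.KLC
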