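import Pool.Agent.Lib.MP_31f1e8_mp.KLC.Lf1

/-!
# KLC-Lf: quasi-additivity of the leaves of depth `N` through `(π/2, s)`.

`LD lam N s` is the period data with `q = N + 1`, reference `W lam s n`, integers `0`; for a good `s` (`GN lam N s`) it satisfies `Ref` with defect `0`. `lf lam N s X` is the first inner site of the
solution with `x_0 = X`, `x_{N+1} = W lam s (N+1)`.
PROOFS.
* `ref_LD`, `bd_LD` (`|X - π/2| ≤ 1/2`), `lf_base`: the sequence `W lam s n` itself is the solution for `X = π/2` (`sol_eq`, real numbers as complex ones, `Complex.ofReal_sin`).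
* `lf_lip`: `sol_lip` with `X' = Y'`, `n = 1`: factor `44/lam ≤ 1`.
* `lf_quasi`. Let `x^i` (`i = 1,2`) be the solutions for `s_i` with `x_0 = X` and `w^i_n = W lam s_i n`; `‖x^i_n - w^i_n‖ ≤ (44/lam)^n |X - π/2| ≤ (44/lam)^n / 10` (`sol_lip`, `lf_base`-type identity for all `n`).
  Let `j` be the least index in `[1, N+1]` with `|w^1_j - w^2_j| ≥ 1/1000`, or `j = N+1` if there is none (if `s1 = s2` the claim is trivial).
  For `1 ≤ n < j` all four points `x^i_n`, `w^i_n` are within `1/1000 + 1/10^5 ≤ 1/500` of the real number `w^1_n`, `|cos w^1_n| ≥ 1/20`, so `B_n = 2 + lam dd x^1_n x^2_n` and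
  `B'_n = 2 + lam dd w^1_n w^2_n` have norm `≥ β = lam/22` (`coef_lower`), and `‖B_n - B'_n‖ ≤ lam (6/5) 2 (44/lam)^n / 10` (`dd_lip`), with sum over `n` at most `S = 11`.
  The differences `d = x^1 - x^2`, `d' = w^1 - w^2` satisfy `Rec B 0 j d`, `Rec B' 0 j d'` (as in `diff_rec`; the integers are `0`), `d 0 = d' 0 = 0`, so (`rec_solve` with `q = j`, `n = 1`)
  `th B j * d 1 = d j`, `th B' j * d' 1 = d' j`. Hence `d 1 = d' 1 * (d j / d' j) * (th B' j / th B j)` (if `d' j = 0` then `d' 1 = 0`, i.e. `s1 = s2`).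
  `‖th B' j / th B j - 1‖ ≤ 8/β S ≤ 176 * 11/lam ≤ 1/10^4` (`th_ratio_two`). If `j = N+1` then `d j = d' j` (same boundary values) or, if `j ≤ N`, `‖d j - d' j‖ ≤ 2 (44/lam)^j/10 ≤ 10/lam` and `|d' j| ≥ 1/1000`:
  `‖d j / d' j - 1‖ ≤ 10^4/lam ≤ 1/10^4`. So `|d 1 - d' 1| ≤ 3/10^4 |d' 1| ≤ |s1 - s2|/200`, and the real parts.
-/

namespace Pool.Agent.MP31f1e8.KLC

open Set

private theorem Lf_near {lam s X : ℝ} {N : ℕ} (hlam : 10 ^ 8 ≤ lam) (hN : 1 ≤ N) (hs : GN lam N s) (hX : X ∈ UU) :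
    ∀ n ≤ N + 1, ‖sol (LD lam N s) lam X (W lam s (N + 1) : ℝ) n - (W lam s n : ℝ)‖ ≤ (44 / lam) ^ n * (1 / 10) := by
  intro n hn
  have hX1 : |X - Real.pi / 2| ≤ 1 / 10 := by
    have h1 := hX.1
    have h2 := hX.2
    rw [abs_le]
    constructor <;> linarith
  have h0 : |lam - lam| ≤ (1 : ℝ) := by simp
  have h1 := sol_lip (ref_LD hlam hN hs) h0 h0 (bd_LD (N := N) (s := s) (lam := lam) (X := X) (by linarith))
    (bd_LD (N := N) (s := s) (lam := lam) (X := Real.pi / 2) (by simp)) n hn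
  rw [sol_LD hlam hN hs n hn] at h1
  have h2 : ‖((X : ℝ) : ℂ) - ((Real.pi / 2 : ℝ) : ℂ)‖ = |X - Real.pi / 2| := by
    rw [← Complex.ofReal_sub, Complex.norm_real, Real.norm_eq_abs]
  rw [h2, sub_self, norm_zero, mul_zero, sub_self, abs_zero, mul_zero, mul_zero, add_zero, add_zero] at h1
  have hl : (0 : ℝ) < lam := by
    have : (0 : ℝ) < 10 ^ 8 := by norm_num
    linarith
  exact h1.trans (mul_le_mul_of_nonneg_left hX1 (by positivity))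

private theorem Lf_cut (f : ℕ → ℝ) (N : ℕ) : ∃ j, 1 ≤ j ∧ j ≤ N + 1 ∧ (∀ n, 1 ≤ n → n < j → f n < 1 / 1000) ∧
    (j = N + 1 ∨ 1 / 1000 ≤ f j) := by
  by_cases h : ∃ j, 1 ≤ j ∧ j ≤ N + 1 ∧ 1 / 1000 ≤ f j
  · classical
    have h1 := Nat.find_spec h
    refine ⟨Nat.find h, h1.1, h1.2.1, ?_, Or.inr h1.2.2⟩
    intro n hn1 hn2
    have h2 := Nat.find_min h hn2
    by_contra h3
    exact h2 ⟨hn1, by omega, not_lt.1 h3⟩
  · push Not at h
    exact ⟨N + 1, by omega, le_rfl, fun n h1 h2 => h n h1 (by omega), Or.inl rfl⟩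

private theorem Lf_sum {t : ℝ} (ht : 0 ≤ t) (ht1 : t ≤ 1 / 2000) (j : ℕ) :
    ∑ n ∈ Finset.Ico 1 j, t ^ n ≤ t * (1001 / 1000) := by
  have h1 : ∀ j : ℕ, ∑ n ∈ Finset.Ico 1 j, t ^ n ≤ t * (1001 / 1000) * (1 - t ^ (j - 1)) := by
    intro j
    rcases Nat.eq_zero_or_pos j with h | h
    · subst h; simp
    · induction j, h using Nat.le_induction with
      | base => simp
      | succ k hk ih =>
        rw [Finset.sum_Ico_succ_top hk]
        obtain ⟨m, rfl⟩ : ∃ m, k = m + 1 := ⟨k - 1, by omega⟩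
        simp only [Nat.add_sub_cancel] at ih ⊢
        have h2 : 0 ≤ t ^ m := by positivity
        have h3 : t ^ (m + 1) = t * t ^ m := by ring
        have h4 : ∑ n ∈ Finset.Ico (Nat.succ 0) (m + 1), t ^ n ≤ t * (1001 / 1000) * (1 - t ^ m) := ih
        rw [h3]
        nlinarith [mul_nonneg ht h2, mul_nonneg (mul_nonneg ht h2) (sub_nonneg.2 ht1)]
  refine (h1 j).trans ?_
  have h2 : 0 ≤ t ^ (j - 1) := by positivity
  nlinarith

theorem lf_quasi {lam s1 s2 X : ℝ} {N : ℕ} (hlam : 10 ^ 8 ≤ lam) (hN : 1 ≤ N) (h1 : GN lam N s1) (h2 : GN lam N s2) (hX : X ∈ UU) :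
    |lf lam N s1 X - lf lam N s2 X - (s1 - s2)| ≤ |s1 - s2| / 200 := by
  have hl7 : (10 : ℝ) ^ 7 ≤ lam := by norm_num at *; linarith
  have hl0 : (0 : ℝ) < lam := by norm_num at *; linarith
  have hl8 : (100000000 : ℝ) ≤ lam := by norm_num at *; linarith
  by_cases hs : s1 = s2
  · subst hs
    simp
  have h00 : |lam - lam| ≤ (1 : ℝ) := by simp
  have hX1 : |X - Real.pi / 2| ≤ 1 / 2 := by
    have h1 := hX.1
    have h2 := hX.2
    rw [abs_le]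
    constructor <;> linarith
  have hS1 := sol_spec (ref_LD hlam hN h1) h00 (bd_LD (N := N) (s := s1) (lam := lam) hX1)
  have hS2 := sol_spec (ref_LD hlam hN h2) h00 (bd_LD (N := N) (s := s2) (lam := lam) hX1)
  have hn1 := Lf_near hlam hN h1 hX
  have hn2 := Lf_near hlam hN h2 hX
  have hlf1 : lf lam N s1 X = (sol (LD lam N s1) lam X (W lam s1 (N + 1) : ℝ) 1).re := rfl
  have hlf2 : lf lam N s2 X = (sol (LD lam N s2) lam X (W lam s2 (N + 1) : ℝ) 1).re := rfl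
  rw [hlf1, hlf2]
  generalize sol (LD lam N s1) lam X (W lam s1 (N + 1) : ℝ) = x1 at *
  generalize sol (LD lam N s2) lam X (W lam s2 (N + 1) : ℝ) = x2 at *
  obtain ⟨j, hj1, hjN, hjlt, hj⟩ := Lf_cut (fun n => |W lam s1 n - W lam s2 n|) N
  have ht1 : 44 / lam ≤ 44 / 100000000 := div_le_div_of_nonneg_left (by norm_num) (by norm_num) hl8
  have ht0 : 0 ≤ 44 / lam := by positivity
  have hpow : ∀ n, 1 ≤ n → (44 / lam) ^ n ≤ 44 / lam := by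
    intro n hn
    have := pow_le_pow_of_le_one ht0 (by linarith) hn
    simpa using this
  -- closeness
  have hw : ∀ n, ‖((W lam s2 n : ℝ) : ℂ) - ((W lam s1 n : ℝ) : ℂ)‖ = |W lam s1 n - W lam s2 n| := by
    intro n
    rw [← Complex.ofReal_sub, Complex.norm_real, Real.norm_eq_abs, abs_sub_comm]
  have hx1 : ∀ n, 1 ≤ n → n < j → ‖x1 n - ((W lam s1 n : ℝ) : ℂ)‖ ≤ 1 / 500 := by
    intro n hn hnj
    have h3 := hn1 n (by omega)
    have h4 := hpow n hn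
    linarith
  have hx2' : ∀ n, 1 ≤ n → n < j → ‖x2 n - ((W lam s2 n : ℝ) : ℂ)‖ ≤ 1 / 100000 := by
    intro n hn hnj
    have h3 := hn2 n (by omega)
    have h4 := hpow n hn
    linarith
  have hx2 : ∀ n, 1 ≤ n → n < j → ‖x2 n - ((W lam s1 n : ℝ) : ℂ)‖ ≤ 1 / 500 := by
    intro n hn hnj
    have h3 := hx2' n hn hnj
    have h4 := hjlt n hn hnj
    have h5 := norm_sub_le_norm_sub_add_norm_sub (x2 n) ((W lam s2 n : ℝ) : ℂ) ((W lam s1 n : ℝ) : ℂ)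
    rw [hw n] at h5
    linarith
  have hw1 : ∀ n, 1 ≤ n → n < j → ‖((W lam s1 n : ℝ) : ℂ) - ((W lam s1 n : ℝ) : ℂ)‖ ≤ 1 / 500 := by
    intro n _ _
    rw [sub_self, norm_zero]
    norm_num
  have hw2 : ∀ n, 1 ≤ n → n < j → ‖((W lam s2 n : ℝ) : ℂ) - ((W lam s1 n : ℝ) : ℂ)‖ ≤ 1 / 500 := by
    intro n hn hnj
    rw [hw n]
    have h4 := hjlt n hn hnj
    linarith
  have hcos : ∀ n, 1 ≤ n → n < j → 1 / 20 ≤ |Real.cos (W lam s1 n)| := by
    intro n hn hnj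
    exact (h1 n hn (by omega)).1
  -- the coefficients
  have hBB : ∀ n, 1 ≤ n → n < j → lam / 22 ≤ ‖2 + (lam : ℂ) * dd (x1 n) (x2 n)‖ := fun n hn hnj =>
    coef_lower hl7 (hcos n hn hnj) (hx1 n hn hnj) (hx2 n hn hnj)
  have hBB' : ∀ n, 1 ≤ n → n < j → lam / 22 ≤ ‖2 + (lam : ℂ) * dd ((W lam s1 n : ℝ) : ℂ) ((W lam s2 n : ℝ) : ℂ)‖ := fun n hn hnj =>
    coef_lower hl7 (hcos n hn hnj) (hw1 n hn hnj) (hw2 n hn hnj)
  have him : ∀ (z : ℂ) (r : ℝ), ‖z - (r : ℂ)‖ ≤ 1 / 500 → |z.im| ≤ 1 / 2 := by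
    intro z r hz
    have h5 : |(z - (r : ℂ)).im| ≤ ‖z - (r : ℂ)‖ := Complex.abs_im_le_norm _
    rw [Complex.sub_im, Complex.ofReal_im, sub_zero] at h5
    linarith
  have hdiff : ∀ n, 1 ≤ n → n < j → ‖(2 + (lam : ℂ) * dd ((W lam s1 n : ℝ) : ℂ) ((W lam s2 n : ℝ) : ℂ)) - (2 + (lam : ℂ) * dd (x1 n) (x2 n))‖ ≤
      lam * (6 / 25) * (44 / lam) ^ n := by
    intro n hn hnj
    have h5 := dd_lip (him _ _ (hw1 n hn hnj)) (him _ _ (hw2 n hn hnj)) (him _ _ (hx1 n hn hnj)) (him _ _ (hx2 n hn hnj))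
    have h6 := hn1 n (by omega)
    have h7 := hn2 n (by omega)
    have e : (2 + (lam : ℂ) * dd ((W lam s1 n : ℝ) : ℂ) ((W lam s2 n : ℝ) : ℂ)) - (2 + (lam : ℂ) * dd (x1 n) (x2 n)) =
      (lam : ℂ) * (dd ((W lam s1 n : ℝ) : ℂ) ((W lam s2 n : ℝ) : ℂ) - dd (x1 n) (x2 n)) := by ring
    rw [e, norm_mul, Complex.norm_real, Real.norm_of_nonneg hl0.le]
    rw [norm_sub_rev] at h6 h7
    have h8 : ‖dd ((W lam s1 n : ℝ) : ℂ) ((W lam s2 n : ℝ) : ℂ) - dd (x1 n) (x2 n)‖ ≤ 6 / 25 * (44 / lam) ^ n := by linarith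
    calc lam * ‖dd ((W lam s1 n : ℝ) : ℂ) ((W lam s2 n : ℝ) : ℂ) - dd (x1 n) (x2 n)‖ ≤ lam * (6 / 25 * (44 / lam) ^ n) :=
          mul_le_mul_of_nonneg_left h8 hl0.le
      _ = _ := by ring
  have hsum : ∑ n ∈ Finset.Ico 1 j, ‖(2 + (lam : ℂ) * dd ((W lam s1 n : ℝ) : ℂ) ((W lam s2 n : ℝ) : ℂ)) - (2 + (lam : ℂ) * dd (x1 n) (x2 n))‖ ≤ 11 := by
    calc _ ≤ ∑ n ∈ Finset.Ico 1 j, lam * (6 / 25) * (44 / lam) ^ n := Finset.sum_le_sum fun n hn => by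
            rw [Finset.mem_Ico] at hn
            exact hdiff n hn.1 hn.2
      _ = lam * (6 / 25) * ∑ n ∈ Finset.Ico 1 j, (44 / lam) ^ n := by rw [Finset.mul_sum]
      _ ≤ lam * (6 / 25) * (44 / lam * (1001 / 1000)) :=
            mul_le_mul_of_nonneg_left (Lf_sum ht0 (by linarith) j) (by positivity)
      _ = 6 / 25 * 44 * (1001 / 1000) := by field_simp
      _ ≤ 11 := by norm_num
  -- the recursions
  have hR : Rec (fun n => 2 + (lam : ℂ) * dd (x1 n) (x2 n)) 0 j (fun n => x1 n - x2 n) := by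
    intro n hn
    have h3 := hS1.eq n (by show n + 2 ≤ N + 1; omega)
    have h4 := hS2.eq n (by show n + 2 ≤ N + 1; omega)
    have h5 := dd_mul (x1 (n + 1)) (x2 (n + 1))
    have h6 : ((LD lam N s1).m (n + 1) : ℂ) = 0 := by simp [LD]
    have h7 : ((LD lam N s2).m (n + 1) : ℂ) = 0 := by simp [LD]
    rw [h6] at h3
    rw [h7] at h4
    show x1 (n + 2) - x2 (n + 2) + (x1 n - x2 n) = (2 + (lam : ℂ) * dd (x1 (n + 1)) (x2 (n + 1))) * (x1 (n + 1) - x2 (n + 1)) + 0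
    linear_combination h3 - h4 + (lam : ℂ) * h5
  have hR' : Rec (fun n => 2 + (lam : ℂ) * dd ((W lam s1 n : ℝ) : ℂ) ((W lam s2 n : ℝ) : ℂ)) 0 j
      (fun n => ((W lam s1 n : ℝ) : ℂ) - ((W lam s2 n : ℝ) : ℂ)) := by
    intro n hn
    have h3 : ((W lam s1 (n + 2) : ℝ) : ℂ) = 2 * (W lam s1 (n + 1) : ℝ) + lam * Complex.sin (W lam s1 (n + 1) : ℝ) - (W lam s1 n : ℝ) := by
      simp only [W]
      push_cast
      ring
    have h4 : ((W lam s2 (n + 2) : ℝ) : ℂ) = 2 * (W lam s2 (n + 1) : ℝ) + lam * Complex.sin (W lam s2 (n + 1) : ℝ) - (W lam s2 n : ℝ) := by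
      simp only [W]
      push_cast
      ring
    have h5 := dd_mul ((W lam s1 (n + 1) : ℝ) : ℂ) ((W lam s2 (n + 1) : ℝ) : ℂ)
    show ((W lam s1 (n + 2) : ℝ) : ℂ) - ((W lam s2 (n + 2) : ℝ) : ℂ) + (((W lam s1 n : ℝ) : ℂ) - ((W lam s2 n : ℝ) : ℂ)) =
      (2 + (lam : ℂ) * dd ((W lam s1 (n + 1) : ℝ) : ℂ) ((W lam s2 (n + 1) : ℝ) : ℂ)) * (((W lam s1 (n + 1) : ℝ) : ℂ) - ((W lam s2 (n + 1) : ℝ) : ℂ)) + 0
    linear_combination h3 - h4 + (lam : ℂ) * h5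
  have hd := rec_solve hR hj1
  have hd' := rec_solve hR' hj1
  have e1 : ∀ B : ℕ → ℂ, th B 1 = 1 := fun B => rfl
  have e0 : x1 0 - x2 0 = 0 := by rw [hS1.left, hS2.left, sub_self]
  have e0' : ((W lam s1 0 : ℝ) : ℂ) - ((W lam s2 0 : ℝ) : ℂ) = 0 := by simp [W]
  simp only [e0, e0', zero_mul, zero_add, e1, mul_one] at hd hd'
  have hT := th_one_le (fun n hn hnj => le_trans (by linarith) (hBB n hn hnj)) j hj1 le_rfl
  have hrat := th_ratio_two (β := lam / 22) (S := 11) (by linarith) hj1 hBB' hBB hsum (by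
    rw [div_mul_eq_mul_div, div_le_one (by positivity)]
    linarith)
  generalize th (fun n => 2 + (lam : ℂ) * dd (x1 n) (x2 n)) j = T at *
  generalize th (fun n => 2 + (lam : ℂ) * dd ((W lam s1 n : ℝ) : ℂ) ((W lam s2 n : ℝ) : ℂ)) j = T' at *
  have hT0 : T ≠ 0 := by
    intro h
    rw [h, norm_zero] at hT
    linarith
  have hTp : 0 < ‖T‖ := norm_pos_iff.2 hT0
  have hrat2 : 8 / (lam / 22) * 11 ≤ 1 / 50000 := by
    rw [div_mul_eq_mul_div, div_le_iff₀ (by positivity)]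
    linarith
  have hr := hrat.trans hrat2
  have hTT : ‖T' - T‖ ≤ 1 / 50000 * ‖T‖ := by
    have e : T' - T = (T' / T - 1) * T := by field_simp
    rw [e, norm_mul]
    exact mul_le_mul_of_nonneg_right hr (norm_nonneg _)
  have hT' : ‖T'‖ ≤ 2 * ‖T‖ := by
    have := norm_le_norm_add_norm_sub' T' T
    linarith
  -- the end values
  have hend : ‖(x1 j - x2 j) - (((W lam s1 j : ℝ) : ℂ) - ((W lam s2 j : ℝ) : ℂ))‖ ≤ 1 / 10000 * ‖((W lam s1 j : ℝ) : ℂ) - ((W lam s2 j : ℝ) : ℂ)‖ := by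
    rcases hj with hj | hj
    · subst hj
      have h3 : x1 (N + 1) = (W lam s1 (N + 1) : ℝ) := hS1.right
      have h4 : x2 (N + 1) = (W lam s2 (N + 1) : ℝ) := hS2.right
      rw [h3, h4, sub_self, norm_zero]
      positivity
    · have h5 := hn1 j hjN
      have h6 := hn2 j hjN
      have h7 := hpow j hj1
      rw [norm_sub_rev ((W lam s1 j : ℝ) : ℂ), hw j]
      have h8 : (x1 j - x2 j) - (((W lam s1 j : ℝ) : ℂ) - ((W lam s2 j : ℝ) : ℂ)) = (x1 j - ((W lam s1 j : ℝ) : ℂ)) - (x2 j - ((W lam s2 j : ℝ) : ℂ)) := by ring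
      rw [h8]
      have h9 := norm_sub_le (x1 j - ((W lam s1 j : ℝ) : ℂ)) (x2 j - ((W lam s2 j : ℝ) : ℂ))
      linarith
  have e2 : T * ((x1 1 - x2 1) - (((W lam s1 1 : ℝ) : ℂ) - ((W lam s2 1 : ℝ) : ℂ))) =
      ((x1 j - x2 j) - (((W lam s1 j : ℝ) : ℂ) - ((W lam s2 j : ℝ) : ℂ))) + (T' - T) * (((W lam s1 1 : ℝ) : ℂ) - ((W lam s2 1 : ℝ) : ℂ)) := by
    linear_combination hd - hd'
  have e3 : ‖((W lam s1 j : ℝ) : ℂ) - ((W lam s2 j : ℝ) : ℂ)‖ = ‖T'‖ * |s1 - s2| := by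
    rw [← hd', norm_mul]
    congr 1
    show ‖((s1 : ℝ) : ℂ) - ((s2 : ℝ) : ℂ)‖ = _
    rw [← Complex.ofReal_sub, Complex.norm_real, Real.norm_eq_abs]
  have e4 : ‖((W lam s1 1 : ℝ) : ℂ) - ((W lam s2 1 : ℝ) : ℂ)‖ = |s1 - s2| := by
    show ‖((s1 : ℝ) : ℂ) - ((s2 : ℝ) : ℂ)‖ = _
    rw [← Complex.ofReal_sub, Complex.norm_real, Real.norm_eq_abs]
  have h10 : ‖T‖ * ‖(x1 1 - x2 1) - (((W lam s1 1 : ℝ) : ℂ) - ((W lam s2 1 : ℝ) : ℂ))‖ ≤ ‖T‖ * (|s1 - s2| / 200) := by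
    rw [← norm_mul, e2]
    refine (norm_add_le _ _).trans ?_
    rw [norm_mul, e4]
    rw [e3] at hend
    have h11 : ‖T'‖ * |s1 - s2| ≤ 2 * ‖T‖ * |s1 - s2| := mul_le_mul_of_nonneg_right hT' (abs_nonneg _)
    have h12 : ‖T' - T‖ * |s1 - s2| ≤ 1 / 50000 * ‖T‖ * |s1 - s2| := mul_le_mul_of_nonneg_right hTT (abs_nonneg _)
    have h13 : 0 ≤ ‖T‖ * |s1 - s2| := by positivity
    nlinarith
  have h14 := le_of_mul_le_mul_left h10 hTp
  have h15 : |((x1 1 - x2 1) - (((W lam s1 1 : ℝ) : ℂ) - ((W lam s2 1 : ℝ) : ℂ))).re| ≤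
      ‖(x1 1 - x2 1) - (((W lam s1 1 : ℝ) : ℂ) - ((W lam s2 1 : ℝ) : ℂ))‖ := Complex.abs_re_le_norm _
  rw [Complex.sub_re, Complex.sub_re, Complex.sub_re, Complex.ofReal_re, Complex.ofReal_re] at h15
  exact h15.trans h14

end Pool.Agent.MP31f1e8.KLC
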