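import Pool.Agent.Lib.MP_31f1e8_mp.KLC.Un

/-!
# KLC-Rea: reality, reading backwards.

PROOFS.
* `sol_conj`: if `x` solves with data `(X, X')` then `conj ∘ x` solves with data `(conj X, conj X')` (`Complex.sin_conj`; `D.xi`, `D.m`, `lam`, `π` real; norms are preserved), `sol_eq`.
* `sol_real`: for real data `conj (sol ..) = sol ..` so the imaginary part vanishes.
* `sol_rev`: if `x` solves for `D` with `(X, X')` then `n ↦ x (q - n)` solves for `D.rev` with `(X', X)` (index `q - n`, natural subtraction, `n + 2 ≤ q`: `q - (n + 2)`, `q - (n + 1)`, `q - n`);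
  `ref_rev`: immediate; uniqueness (`sol_eq`).
-/

namespace Pool.Agent.MP31f1e8.KLC

open Set

theorem bd_conj {D : Dat} {X X' : ℂ} (hb : Bd D X X') : Bd D (starRingEnd ℂ X) (starRingEnd ℂ X') := by
  have h1 : ∀ (z : ℂ) (r : ℝ), ‖starRingEnd ℂ z - r‖ = ‖z - r‖ := by
    intro z r
    rw [← Complex.norm_conj (z - r), map_sub, Complex.conj_ofReal]
  refine ⟨?_, ?_⟩
  · rw [h1]
    exact hb.1
  · rw [h1]
    exact hb.2

theorem sol_conj {D : Dat} {lam1 lam : ℝ} (h : Ref D lam1) (hl : |lam - lam1| ≤ 1) {X X' : ℂ} (hb : Bd D X X') :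
    ∀ n ≤ D.q, sol D lam (starRingEnd ℂ X) (starRingEnd ℂ X') n = starRingEnd ℂ (sol D lam X X' n) := by
  have hs := sol_spec h hl hb
  have h1 : Sol D lam (starRingEnd ℂ X) (starRingEnd ℂ X') (fun n => starRingEnd ℂ (sol D lam X X' n)) := by
    refine ⟨?_, ?_, ?_, ?_⟩
    · show starRingEnd ℂ (sol D lam X X' 0) = _
      rw [hs.left]
    · show starRingEnd ℂ (sol D lam X X' D.q) = _
      rw [hs.right]
    · intro n hn
      have h2 := congrArg (starRingEnd ℂ) (hs.eq n hn)
      simp only [map_add, map_sub, map_mul, map_ofNat, Complex.conj_ofReal, map_intCast] at h2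
      show starRingEnd ℂ (sol D lam X X' (n + 2)) + starRingEnd ℂ (sol D lam X X' n) = _
      rw [h2, Complex.sin_conj]
    · intro n h2 h3
      show ‖starRingEnd ℂ (sol D lam X X' n) - D.xi n‖ ≤ 1 / 1000
      rw [← Complex.norm_conj, map_sub, Complex.conj_conj, Complex.conj_ofReal]
      exact hs.near n h2 h3
  exact sol_eq h hl h1 (bd_conj hb)

theorem sol_real {D : Dat} {lam1 lam : ℝ} (h : Ref D lam1) (hl : |lam - lam1| ≤ 1) {X X' : ℝ} (hb : Bd D X X') :
    ∀ n ≤ D.q, (((sol D lam X X' n).re : ℝ) : ℂ) = sol D lam X X' n := by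
  intro n hn
  have h1 := sol_conj h hl hb n hn
  rw [Complex.conj_ofReal, Complex.conj_ofReal] at h1
  exact Complex.conj_eq_iff_re.1 h1.symm

theorem AA_real {D : Dat} {lam1 lam : ℝ} (h : Ref D lam1) (hl : |lam - lam1| ≤ 1) {X X' : ℝ} (hb : Bd D X X') :
    ∀ n ≤ D.q, AA D lam X X' n = ((2 + lam * Real.cos (sol D lam X X' n).re : ℝ) : ℂ) := by
  intro n hn
  have h1 := sol_real h hl hb n hn
  unfold AA
  push_cast
  rw [h1]

theorem th_real {B : ℕ → ℂ} {b : ℕ → ℝ} {q : ℕ} (h : ∀ n, 1 ≤ n → n < q → B n = b n) : ∀ n ≤ q, th B n = ((th b n : ℝ) : ℂ) := by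
  intro n
  induction n using Nat.strong_induction_on with
  | _ n ih =>
    intro hn
    match n, ih, hn with
    | 0, _, _ => simp [th]
    | 1, _, _ => simp [th]
    | (k + 2), ih, hn =>
      show B (k + 1) * th B (k + 1) - th B k = ((b (k + 1) * th b (k + 1) - th b k : ℝ) : ℂ)
      rw [ih (k + 1) (by omega) (by omega), ih k (by omega) (by omega), h (k + 1) (by omega) (by omega)]
      push_cast
      ring

theorem si_real {B : ℕ → ℂ} {b : ℕ → ℝ} {q : ℕ} (h : ∀ n, 1 ≤ n → n < q → B n = b n) : ∀ n ≤ q, si B n = ((si b n : ℝ) : ℂ) := by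
  intro n
  induction n using Nat.strong_induction_on with
  | _ n ih =>
    intro hn
    match n, ih, hn with
    | 0, _, _ => simp [si]
    | 1, _, _ => simp [si]
    | (k + 2), ih, hn =>
      show B (k + 1) * si B (k + 1) - si B k = ((b (k + 1) * si b (k + 1) - si b k : ℝ) : ℂ)
      rw [ih (k + 1) (by omega) (by omega), ih k (by omega) (by omega), h (k + 1) (by omega) (by omega)]
      push_cast
      ring

theorem ep_real {D : Dat} {lam1 lam : ℝ} (h : Ref D lam1) (hl : |lam - lam1| ≤ 1) {X X' : ℝ} (hb : Bd D X X') :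
    (((ep D lam X X').re : ℝ) : ℂ) = ep D lam X X' ∧ (((eL D lam X X').re : ℝ) : ℂ) = eL D lam X X' ∧
      (((eR D lam X X').re : ℝ) : ℂ) = eR D lam X X' := by
  have hA : ∀ n, 1 ≤ n → n < D.q →
      AA D lam X X' n = ((2 + lam * Real.cos (sol D lam X X' n).re : ℝ) : ℂ) :=
    fun n _ h2 => AA_real h hl hb n h2.le
  have key : ∀ (z : ℂ) (r : ℝ), z = r → ((z.re : ℝ) : ℂ) = z := by
    intro z r hz
    rw [hz, Complex.ofReal_re]
  have t1 := th_real (b := fun n => 2 + lam * Real.cos (sol D lam X X' n).re) hA D.q le_rfl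
  have t2 := th_real (b := fun n => 2 + lam * Real.cos (sol D lam X X' n).re) hA (D.q - 1) (Nat.sub_le _ _)
  have t3 := si_real (b := fun n => 2 + lam * Real.cos (sol D lam X X' n).re) hA D.q le_rfl
  refine ⟨?_, ?_, ?_⟩
  · refine key _ (1 / th (fun n => 2 + lam * Real.cos (sol D lam X X' n).re) D.q) ?_
    unfold ep
    rw [t1]
    push_cast
    rfl
  · refine key _ (-(si (fun n => 2 + lam * Real.cos (sol D lam X X' n).re) D.q /
      th (fun n => 2 + lam * Real.cos (sol D lam X X' n).re) D.q)) ?_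
    unfold eL
    rw [t1, t3]
    push_cast
    rfl
  · refine key _ (th (fun n => 2 + lam * Real.cos (sol D lam X X' n).re) (D.q - 1) /
      th (fun n => 2 + lam * Real.cos (sol D lam X X' n).re) D.q) ?_
    unfold eR
    rw [t1, t2]
    push_cast
    rfl

theorem ref_rev {D : Dat} {lam1 : ℝ} (h : Ref D lam1) : Ref D.rev lam1 := by
  refine ⟨h.hq, h.hlam, ?_, ?_⟩
  · intro n h1 h2
    have h3 : n < D.q := h2
    exact h.cos (D.q - n) (by omega) (by omega)
  · intro n hn
    have hn' : n + 2 ≤ D.q := hn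
    have h1 := h.defect (D.q - (n + 2)) (by omega)
    have e1 : D.q - (n + 2) + 1 = D.q - (n + 1) := by omega
    have e2 : D.q - (n + 2) + 2 = D.q - n := by omega
    rw [e1, e2] at h1
    show |2 * D.xi (D.q - (n + 1)) + lam1 * Real.sin (D.xi (D.q - (n + 1))) - 2 * Real.pi * D.m (D.q - (n + 1))
      - D.xi (D.q - (n + 2)) - D.xi (D.q - n)| ≤ 5
    rw [show ∀ a b c : ℝ, a - b - c = a - c - b from fun a b c => by ring]
    exact h1

theorem bd_rev {D : Dat} {X X' : ℂ} (hb : Bd D X X') : Bd D.rev X' X := by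
  refine ⟨?_, ?_⟩
  · show ‖X' - D.xi (D.q - 0)‖ ≤ 1 / 2
    rw [Nat.sub_zero]
    exact hb.2
  · show ‖X - D.xi (D.q - D.q)‖ ≤ 1 / 2
    rw [Nat.sub_self]
    exact hb.1

theorem sol_rev {D : Dat} {lam1 lam : ℝ} (h : Ref D lam1) (hl : |lam - lam1| ≤ 1) {X X' : ℂ} (hb : Bd D X X') :
    ∀ n ≤ D.q, sol D.rev lam X' X n = sol D lam X X' (D.q - n) := by
  have hs := sol_spec h hl hb
  have h1 : Sol D.rev lam X' X (fun n => sol D lam X X' (D.q - n)) := by
    refine ⟨?_, ?_, ?_, ?_⟩
    · show sol D lam X X' (D.q - 0) = X'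
      rw [Nat.sub_zero, hs.right]
    · show sol D lam X X' (D.q - D.q) = X
      rw [Nat.sub_self, hs.left]
    · intro n hn
      have hn' : n + 2 ≤ D.q := hn
      have h2 := hs.eq (D.q - (n + 2)) (by omega)
      have e1 : D.q - (n + 2) + 1 = D.q - (n + 1) := by omega
      have e2 : D.q - (n + 2) + 2 = D.q - n := by omega
      rw [e1, e2] at h2
      show sol D lam X X' (D.q - (n + 2)) + sol D lam X X' (D.q - n) =
        2 * sol D lam X X' (D.q - (n + 1)) + lam * Complex.sin (sol D lam X X' (D.q - (n + 1))) -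
          2 * Real.pi * D.m (D.q - (n + 1))
      rw [← h2, add_comm]
    · intro n h2 h3
      have h4 : n < D.q := h3
      exact hs.near (D.q - n) (by omega) (by omega)
  exact sol_eq (ref_rev h) hl h1 (bd_rev hb)

end Pool.Agent.MP31f1e8.KLC
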