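import Pool.Agent.Lib.MP_31f1e8_mp.KLC.Bnd
import Pool.Agent.Lib.MP_31f1e8_mp.KLC.Rea

/-!
# KLC-Lf1: the leaves of depth `N` through `(π/2, s)`.

`LD lam N s` is the period data with `q = N + 1`, reference `W lam s n`, integers `0`; for a good `s` (`GN lam N s`) it satisfies `Ref` with defect `0`. `lf lam N s X` is the first inner site of the
solution with `x_0 = X`, `x_{N+1} = W lam s (N+1)`.
PROOFS.
* `ref_LD`, `bd_LD` (`|X - π/2| ≤ 1/2`); `sol_LD`, `lf_base`: the sequence `W lam s n` itself is the solution for `X = π/2` (`sol_eq`, real numbers as complex ones, `Complex.ofReal_sin`).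
* `lf_lip`: `sol_lip` with `X' = Y'`, `n = 1`: factor `44/lam ≤ 1`.
-/

namespace Pool.Agent.MP31f1e8.KLC

open Set

/-- the period data of a leaf -/
noncomputable def LD (lam : ℝ) (N : ℕ) (s : ℝ) : Dat := ⟨N + 1, fun n => W lam s n, fun _ => 0⟩

/-- the leaf -/
noncomputable def lf (lam : ℝ) (N : ℕ) (s X : ℝ) : ℝ := (sol (LD lam N s) lam X (W lam s (N + 1) : ℝ) 1).re

/-- the interval of the critical site -/
def UU : Set ℝ := Icc (Real.pi / 2 - 1 / 10) (Real.pi / 2 + 1 / 10)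

theorem ref_LD {lam s : ℝ} {N : ℕ} (hlam : 10 ^ 8 ≤ lam) (hN : 1 ≤ N) (hs : GN lam N s) : Ref (LD lam N s) lam := by
  refine ⟨?_, hlam, ?_, ?_⟩
  · show 2 ≤ N + 1
    omega
  · intro n h1 h2
    have h3 : n < N + 1 := h2
    exact (hs n h1 (by omega)).1
  · intro n _
    show |2 * W lam s (n + 1) + lam * Real.sin (W lam s (n + 1)) - 2 * Real.pi * ((0 : ℤ) : ℝ)
      - W lam s (n + 2) - W lam s n| ≤ 5
    have e : 2 * W lam s (n + 1) + lam * Real.sin (W lam s (n + 1)) - 2 * Real.pi * ((0 : ℤ) : ℝ)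
      - W lam s (n + 2) - W lam s n = 0 := by
      simp only [W, Int.cast_zero]
      ring
    rw [e]
    norm_num

theorem bd_LD {lam s X : ℝ} {N : ℕ} (hX : |X - Real.pi / 2| ≤ 1 / 2) : Bd (LD lam N s) X (W lam s (N + 1) : ℝ) := by
  constructor
  · show ‖(X : ℂ) - ((W lam s 0 : ℝ) : ℂ)‖ ≤ 1 / 2
    rw [← Complex.ofReal_sub, Complex.norm_real, Real.norm_eq_abs]
    exact hX
  · show ‖((W lam s (N + 1) : ℝ) : ℂ) - ((W lam s (N + 1) : ℝ) : ℂ)‖ ≤ 1 / 2
    rw [sub_self, norm_zero]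
    norm_num

theorem sol_LD {lam s : ℝ} {N : ℕ} (hlam : 10 ^ 8 ≤ lam) (hN : 1 ≤ N) (hs : GN lam N s) :
    ∀ n ≤ N + 1, sol (LD lam N s) lam ((Real.pi / 2 : ℝ) : ℂ) (W lam s (N + 1) : ℝ) n = (W lam s n : ℝ) := by
  have hb : Bd (LD lam N s) ((Real.pi / 2 : ℝ) : ℂ) (W lam s (N + 1) : ℝ) := by
    refine bd_LD ?_
    rw [sub_self, abs_zero]
    norm_num
  have hx : Sol (LD lam N s) lam ((Real.pi / 2 : ℝ) : ℂ) (W lam s (N + 1) : ℝ)
      (fun n => ((W lam s n : ℝ) : ℂ)) := by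
    refine ⟨rfl, rfl, ?_, ?_⟩
    · intro n _
      show ((W lam s (n + 2) : ℝ) : ℂ) + ((W lam s n : ℝ) : ℂ) = 2 * ((W lam s (n + 1) : ℝ) : ℂ)
        + lam * Complex.sin ((W lam s (n + 1) : ℝ) : ℂ) - 2 * Real.pi * ((0 : ℤ) : ℂ)
      have e : W lam s (n + 2) + W lam s n = 2 * W lam s (n + 1)
          + lam * Real.sin (W lam s (n + 1)) := by
        simp only [W]
        ring
      have e2 := congrArg (fun x : ℝ => (x : ℂ)) e
      push_cast at e2 ⊢
      rw [e2]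
      ring
    · intro n _ _
      show ‖((W lam s n : ℝ) : ℂ) - ((W lam s n : ℝ) : ℂ)‖ ≤ 1 / 1000
      rw [sub_self, norm_zero]
      norm_num
  intro n hn
  exact sol_eq (ref_LD hlam hN hs) (by rw [sub_self, abs_zero]; exact zero_le_one) hx hb n hn

theorem lf_base {lam s : ℝ} {N : ℕ} (hlam : 10 ^ 8 ≤ lam) (hN : 1 ≤ N) (hs : GN lam N s) : lf lam N s (Real.pi / 2) = s := by
  unfold lf
  rw [sol_LD hlam hN hs 1 (by omega), Complex.ofReal_re]
  rfl

theorem lf_lip {lam s X Y : ℝ} {N : ℕ} (hlam : 10 ^ 8 ≤ lam) (hN : 1 ≤ N) (hs : GN lam N s) (hX : X ∈ UU) (hY : Y ∈ UU) :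
    |lf lam N s X - lf lam N s Y| ≤ |X - Y| := by
  have hX2 : |X - Real.pi / 2| ≤ 1 / 2 := by
    rw [abs_le]
    constructor <;> linarith [hX.1, hX.2]
  have hY2 : |Y - Real.pi / 2| ≤ 1 / 2 := by
    rw [abs_le]
    constructor <;> linarith [hY.1, hY.2]
  have h0 : |lam - lam| ≤ 1 := by
    rw [sub_self, abs_zero]
    exact zero_le_one
  have hlam0 : 0 < lam := by
    have : (0 : ℝ) < 10 ^ 8 := by norm_num
    linarith
  have h1 := sol_lip (ref_LD hlam hN hs) h0 h0 (bd_LD (N := N) (s := s) (lam := lam) hX2)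
    (bd_LD (N := N) (s := s) (lam := lam) hY2) 1 (by
      show 1 ≤ N + 1
      omega)
  rw [sub_self, norm_zero, sub_self, abs_zero, mul_zero, mul_zero, mul_zero, add_zero, add_zero,
    pow_one, ← Complex.ofReal_sub, Complex.norm_real, Real.norm_eq_abs] at h1
  have h2 : 44 / lam ≤ 1 := by
    rw [div_le_one hlam0]
    have : (44 : ℝ) ≤ 10 ^ 8 := by norm_num
    linarith
  have h3 : |lf lam N s X - lf lam N s Y| ≤
      ‖sol (LD lam N s) lam X (W lam s (N + 1) : ℝ) 1 -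
        sol (LD lam N s) lam Y (W lam s (N + 1) : ℝ) 1‖ := by
    unfold lf
    rw [← Complex.sub_re]
    exact Complex.abs_re_le_norm _
  refine h3.trans (h1.trans ?_)
  calc 44 / lam * |X - Y| ≤ 1 * |X - Y| := mul_le_mul_of_nonneg_right h2 (abs_nonneg _)
    _ = |X - Y| := one_mul _

end Pool.Agent.MP31f1e8.KLC
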