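import Pool.Agent.Lib.MP_31f1e8_mp.KLC.Lf
import Pool.Agent.Lib.MP_31f1e8_mp.KLC.GI

/-!
# KLC-Mc: persistent tangency. For every `lam ≥ 10^8` and every depth `N` there are good `s`, `s'` with `max_X (2X + lam sin X - lf s X - lf s' X) = 0`.

PROOF. Let `G = {s | GN lam N s}`, for `s, s' ∈ G` let `M s s' = sSup ((fun X => 2X + lam sin X - lf lam N s X - lf lam N s' X) '' UU)` (a maximum: continuous by `lf_lip`, `UU` compact and nonempty),
`Q (s, s') = M s s' + s + s'`.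
`|Q (s1,s1') - Q (s2,s2')| ≤ (|s1 - s2| + |s1' - s2'|)/200 ≤ (1/100) dist` on `G ×ˢ G`: for every `X` the two functions `2X + lam sin X - lf s_i X - lf s_i' X + s_i + s_i'` differ by at most that
(`lf_quasi` twice), so do their maxima. `LipschitzOnWith (1/100) Q (G ×ˢ G)`, McShane extension `LipschitzOnWith.extend_real`: `P : ℝ × ℝ → ℝ`, `LipschitzWith (1/100) P`, `P = Q` on `G ×ˢ G`.
For every `s` the map `s' ↦ P (s, s') - s` is a contraction (`1/100`) of `ℝ`; `γ s` := its fixed point (`ContractingWith.fixedPoint`): `γ s + s = P (s, γ s)`. `|γ a - γ b + (a - b)| = |P (a, γ a) - P (b, γ b)| ≤ (1/100) max |a - b| |γ a - γ b|`,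
so `|γ a - γ b| ≤ |a-b| (1.01/0.99)`, and `Refl γ`. `greedy` gives `s` with `s, γ s ∈ G`; `M s (γ s) = Q - s - γ s = 0`.
-/

namespace Pool.Agent.MP31f1e8.KLC

open Set

private noncomputable def McF (lam : ℝ) (N : ℕ) (s s' X : ℝ) : ℝ :=
  2 * X + lam * Real.sin X - lf lam N s X - lf lam N s' X

private noncomputable def McM (lam : ℝ) (N : ℕ) (s s' : ℝ) : ℝ := sSup (McF lam N s s' '' UU)

private theorem Mc_lf_cont {lam s : ℝ} {N : ℕ} (hlam : 10 ^ 8 ≤ lam) (hN : 1 ≤ N) (hs : GN lam N s) :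
    ContinuousOn (lf lam N s) UU := by
  have h : LipschitzOnWith 1 (lf lam N s) UU := by
    refine LipschitzOnWith.of_dist_le_mul fun X hX Y hY => ?_
    rw [Real.dist_eq, Real.dist_eq, NNReal.coe_one, one_mul]
    exact lf_lip hlam hN hs hX hY
  exact h.continuousOn

private theorem Mc_max {lam s s' : ℝ} {N : ℕ} (hlam : 10 ^ 8 ≤ lam) (hN : 1 ≤ N) (hs : GN lam N s)
    (hs' : GN lam N s') :
    (∃ X ∈ UU, McF lam N s s' X = McM lam N s s') ∧ ∀ Y ∈ UU, McF lam N s s' Y ≤ McM lam N s s' := by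
  have hc : ContinuousOn (McF lam N s s') UU := by
    unfold McF
    have h1 : ContinuousOn (fun X : ℝ => 2 * X + lam * Real.sin X) UU := by fun_prop
    exact (h1.sub (Mc_lf_cont hlam hN hs)).sub (Mc_lf_cont hlam hN hs')
  have hK : IsCompact UU := isCompact_Icc
  have hne : UU.Nonempty := ⟨Real.pi / 2, by constructor <;> linarith⟩
  obtain ⟨X, hX, hmax⟩ := hK.exists_isMaxOn hne hc
  have hbd : BddAbove (McF lam N s s' '' UU) := by
    refine ⟨McF lam N s s' X, ?_⟩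
    rintro _ ⟨Y, hY, rfl⟩
    exact hmax hY
  have hle : ∀ Y ∈ UU, McF lam N s s' Y ≤ McM lam N s s' := fun Y hY =>
    le_csSup hbd ⟨Y, hY, rfl⟩
  refine ⟨⟨X, hX, le_antisymm (hle X hX) ?_⟩, hle⟩
  refine csSup_le (hne.image _) ?_
  rintro _ ⟨Y, hY, rfl⟩
  exact hmax hY

private noncomputable def McQ (lam : ℝ) (N : ℕ) (p : ℝ × ℝ) : ℝ := McM lam N p.1 p.2 + p.1 + p.2

private theorem Mc_le {lam : ℝ} {N : ℕ} (hlam : 10 ^ 8 ≤ lam) (hN : 1 ≤ N) {p r : ℝ × ℝ}
    (hp : GN lam N p.1 ∧ GN lam N p.2) (hr : GN lam N r.1 ∧ GN lam N r.2) :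
    McQ lam N p ≤ McQ lam N r + (|p.1 - r.1| + |p.2 - r.2|) / 200 := by
  obtain ⟨X, hX, hXm⟩ := (Mc_max hlam hN hp.1 hp.2).1
  have h1 := (Mc_max hlam hN hr.1 hr.2).2 X hX
  have h2 := abs_le.1 (lf_quasi hlam hN hp.1 hr.1 hX)
  have h3 := abs_le.1 (lf_quasi hlam hN hp.2 hr.2 hX)
  unfold McQ
  rw [← hXm]
  unfold McF at h1 ⊢
  linarith [h2.1, h3.1]

private theorem Mc_lips {lam : ℝ} {N : ℕ} (hlam : 10 ^ 8 ≤ lam) (hN : 1 ≤ N) :
    LipschitzOnWith (1 / 100) (McQ lam N) ({s | GN lam N s} ×ˢ {s | GN lam N s}) := by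
  refine LipschitzOnWith.of_dist_le_mul fun p hp r hr => ?_
  have h1 := Mc_le hlam hN (p := p) (r := r) hp hr
  have h2 := Mc_le hlam hN (p := r) (r := p) hr hp
  rw [abs_sub_comm r.1, abs_sub_comm r.2] at h2
  have h3 : |p.1 - r.1| ≤ dist p r := by
    rw [← Real.dist_eq, Prod.dist_eq]
    exact le_max_left _ _
  have h4 : |p.2 - r.2| ≤ dist p r := by
    rw [← Real.dist_eq, Prod.dist_eq]
    exact le_max_right _ _
  have h5 : (((1 / 100 : NNReal)) : ℝ) = 1 / 100 := by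
    push_cast
    rfl
  rw [Real.dist_eq, h5, abs_le]
  constructor <;> linarith

theorem exists_tangency {lam : ℝ} (hlam : 10 ^ 8 ≤ lam) {N : ℕ} (hN : 1 ≤ N) :
    ∃ s s', GN lam N s ∧ GN lam N s' ∧ (∀ X ∈ UU, 2 * X + lam * Real.sin X - lf lam N s X - lf lam N s' X ≤ 0) ∧
      ∃ X ∈ UU, 2 * X + lam * Real.sin X - lf lam N s X - lf lam N s' X = 0 := by
  obtain ⟨P, hP, hPQ⟩ := (Mc_lips hlam hN).extend_real
  have h5 : (((1 / 100 : NNReal)) : ℝ) = 1 / 100 := by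
    push_cast
    rfl
  have hPd : ∀ p r : ℝ × ℝ, |P p - P r| ≤ 1 / 100 * max |p.1 - r.1| |p.2 - r.2| := by
    intro p r
    have h1 := hP.dist_le_mul p r
    rw [h5, Real.dist_eq, Prod.dist_eq, Real.dist_eq, Real.dist_eq] at h1
    exact h1
  have hcon : ∀ s : ℝ, ContractingWith (1 / 100) fun s' => P (s, s') - s := by
    intro s
    refine ⟨by rw [← NNReal.coe_lt_coe, h5]; norm_num, ?_⟩
    refine LipschitzWith.of_dist_le_mul fun x y => ?_
    rw [h5, Real.dist_eq, Real.dist_eq]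
    have h1 := hPd (s, x) (s, y)
    have h2 : P (s, x) - s - (P (s, y) - s) = P (s, x) - P (s, y) := by ring
    rw [h2]
    refine h1.trans ?_
    simp only [sub_self, abs_zero]
    rw [max_eq_right (abs_nonneg _)]
  choose γ hγ using fun s => (⟨_, (hcon s).fixedPoint_isFixedPt⟩ :
    ∃ t, Function.IsFixedPt (fun s' => P (s, s') - s) t)
  have hγ' : ∀ s, P (s, γ s) = γ s + s := by
    intro s
    have h1 : P (s, γ s) - s = γ s := hγ s
    linarith
  have hrefl : Refl γ := by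
    intro a b
    have h1 := hPd (a, γ a) (b, γ b)
    rw [hγ', hγ'] at h1
    have h2 : γ a + a - (γ b + b) = γ a - γ b + (a - b) := by ring
    rw [h2] at h1
    simp only at h1
    have h3 : |γ a - γ b| ≤ |γ a - γ b + (a - b)| + |a - b| := by
      have h4 : γ a - γ b = (γ a - γ b + (a - b)) - (a - b) := by ring
      calc |γ a - γ b| = |(γ a - γ b + (a - b)) - (a - b)| := by rw [← h4]
        _ ≤ _ := abs_sub _ _
    rcases le_total |γ a - γ b| |a - b| with h4 | h4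
    · rw [max_eq_left h4] at h1
      linarith [abs_nonneg (a - b)]
    · rw [max_eq_right h4] at h1
      linarith [abs_nonneg (a - b)]
  obtain ⟨s, hs, hs'⟩ := greedy (by norm_num at hlam ⊢; linarith) hrefl N
  have h0 : McM lam N s (γ s) = 0 := by
    have h1 : McQ lam N (s, γ s) = P (s, γ s) := hPQ ⟨hs, hs'⟩
    rw [hγ'] at h1
    unfold McQ at h1
    simp only at h1
    linarith
  obtain ⟨⟨X, hX, hXm⟩, hmax⟩ := Mc_max hlam hN hs hs'
  rw [h0] at hXm hmax
  exact ⟨s, γ s, hs, hs', hmax, X, hX, hXm⟩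

end Pool.Agent.MP31f1e8.KLC
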