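import Pool.Agent.Lib.MP_31f1e8_mp.KLC.Mk1
import Pool.Agent.Lib.MP_31f1e8_mp.KLC.Mc

/-!
# KLC-Mk: the period data `MD` is nearly tangent at `lam1`.

PROOFS.
* For `1 ≤ n < N` the defect of `W` is zero, so the rounded integer of `MD` is `round 0 = 0`; the same at `n = q - k`, `1 ≤ k < N`.
* `MD_left`: the solution `x` for `MD` at `lam1` with real `X, X' ∈ UU` and the solution `y` of `LD lam1 N s` with the same `X` satisfy the same equations at the sites `1, …, N-1` (integers `0`); with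
  `d = x - y`, `B_n = 2 + lam dd x_n y_n`: `Rec B 0 N d` (as in `diff_rec`), `‖B_n‖ ≥ lam/22` (both within `1/1000` of `W lam1 s n`; `coef_lower`), `d 0 = 0`, `‖d N‖ ≤ 1/500`: `maxp_zero` with `q = N`, `n = 1`:
  `‖d 1‖ ≤ (44/lam1)^(N-1) / 500`; real parts.
* `MD_right`: the same for the reversed data: `n ↦ x (q - n)` against the solution of `LD lam1 N s'` with `X'`.
* `exists_MD`: choose `N ≥ 1` with `(44/lam1)^(N-1) ≤ ε`, `exists_tangency`, `MD_left`, `MD_right` (with `X = X'`).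
-/

namespace Pool.Agent.MP31f1e8.KLC

open Set

private theorem Mk_core {lam : ℝ} (hlam : 10 ^ 8 ≤ lam) {N : ℕ} (hN : 1 ≤ N) {w : ℕ → ℝ} {x y : ℕ → ℂ} (h0 : x 0 = y 0)
    (hw : ∀ n, 1 ≤ n → n ≤ N → 1 / 20 ≤ |Real.cos (w n)|)
    (hxw : ∀ n, 1 ≤ n → n ≤ N → ‖x n - w n‖ ≤ 1 / 1000)
    (hyw : ∀ n, 1 ≤ n → n ≤ N → ‖y n - w n‖ ≤ 1 / 1000)
    (hx : ∀ n, n + 2 ≤ N → x (n + 2) + x n = 2 * x (n + 1) + lam * Complex.sin (x (n + 1)))
    (hy : ∀ n, n + 2 ≤ N → y (n + 2) + y n = 2 * y (n + 1) + lam * Complex.sin (y (n + 1))) :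
    |(x 1).re - (y 1).re| ≤ (44 / lam) ^ (N - 1) / 500 := by
  have hl0 : (0 : ℝ) < lam := lt_of_lt_of_le (by norm_num) hlam
  have hl7 : (10 : ℝ) ^ 7 ≤ lam := le_trans (by norm_num) hlam
  have hrec : Rec (fun n => 2 + lam * dd (x n) (y n)) 0 N (fun n => x n - y n) := by
    intro n hn
    have h1 := hx n hn
    have h2 := hy n hn
    have h3 := dd_mul (x (n + 1)) (y (n + 1))
    show x (n + 2) - y (n + 2) + (x n - y n) = (2 + lam * dd (x (n + 1)) (y (n + 1))) * (x (n + 1) - y (n + 1))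
      + (0 : ℕ → ℂ) (n + 1)
    rw [Pi.zero_apply]
    linear_combination h1 - h2 + (lam : ℂ) * h3
  have hB : ∀ n, 1 ≤ n → n < N → lam / 22 ≤ ‖2 + lam * dd (x n) (y n)‖ := by
    intro n h1 h2
    refine coef_lower (x := w n) hl7 (hw n h1 h2.le) ?_ ?_
    · exact (hxw n h1 h2.le).trans (by norm_num)
    · exact (hyw n h1 h2.le).trans (by norm_num)
  have hβ : 4 ≤ lam / 22 := by
    rw [le_div_iff₀ (by norm_num)]
    exact le_trans (by norm_num) hlam
  have hm := maxp_zero (β := lam / 22) hβ hB hrec 1 hN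
  have h44 : 2 / (lam / 22) = 44 / lam := by
    field_simp
    norm_num
  rw [h44] at hm
  simp only [h0, sub_self, norm_zero, mul_zero, zero_add] at hm
  have hdN : ‖x N - y N‖ ≤ 1 / 500 := by
    have h1 := hxw N hN le_rfl
    have h2 := hyw N hN le_rfl
    have h3 : x N - y N = (x N - w N) - (y N - w N) := by ring
    rw [h3]
    refine (norm_sub_le _ _).trans ?_
    linarith
  have h1 : |(x 1).re - (y 1).re| ≤ ‖x 1 - y 1‖ := by
    rw [← Complex.sub_re]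
    exact Complex.abs_re_le_norm _
  refine h1.trans (hm.trans ?_)
  have h2 : (0 : ℝ) ≤ (44 / lam) ^ (N - 1) := by positivity
  calc (44 / lam) ^ (N - 1) * ‖x N - y N‖ ≤ (44 / lam) ^ (N - 1) * (1 / 500) :=
        mul_le_mul_of_nonneg_left hdN h2
    _ = (44 / lam) ^ (N - 1) / 500 := by ring

private theorem Mk_W {lam s : ℝ} {n : ℕ} (hn : 1 ≤ n) :
    2 * W lam s n + lam * Real.sin (W lam s n) - W lam s (n + 1) - W lam s (n - 1) = 0 := by
  obtain ⟨k, rfl⟩ : ∃ k, n = k + 1 := ⟨n - 1, by omega⟩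
  have h : W lam s (k + 1 + 1) = 2 * W lam s (k + 1) + lam * Real.sin (W lam s (k + 1)) - W lam s k := rfl
  rw [h, Nat.add_sub_cancel]
  ring

private theorem Mk_xl {lam1 s s' : ℝ} {N q n : ℕ} (hn : n ≤ N) : mxi lam1 N q s s' n = W lam1 s n := by
  unfold mxi
  rw [if_pos hn]

private theorem Mk_xr {lam1 s s' : ℝ} {N q n : ℕ} (hq : 2 * N + 10 ≤ q) (hn : n ≤ N) :
    mxi lam1 N q s s' (q - n) = W lam1 s' n := by
  unfold mxi
  rw [if_neg (by omega), if_pos (by omega)]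
  congr 1
  omega

private theorem Mk_ml {lam1 s s' : ℝ} {N q n : ℕ} (h1 : 1 ≤ n) (h2 : n < N) : (MD lam1 N q s s').m n = 0 := by
  show (if n = 0 then 0 else round ((2 * mxi lam1 N q s s' n + lam1 * Real.sin (mxi lam1 N q s s' n)
    - mxi lam1 N q s s' (n + 1) - mxi lam1 N q s s' (n - 1)) / (2 * Real.pi)) : ℤ) = 0
  rw [if_neg (by omega), Mk_xl (by omega), Mk_xl (by omega), Mk_xl (by omega), Mk_W h1, zero_div, round_zero]

private theorem Mk_mr {lam1 s s' : ℝ} {N q n : ℕ} (hq : 2 * N + 10 ≤ q) (h1 : 1 ≤ n) (h2 : n < N) :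
    (MD lam1 N q s s').m (q - n) = 0 := by
  show (if q - n = 0 then 0 else round ((2 * mxi lam1 N q s s' (q - n) + lam1 * Real.sin (mxi lam1 N q s s' (q - n))
    - mxi lam1 N q s s' (q - n + 1) - mxi lam1 N q s s' (q - n - 1)) / (2 * Real.pi)) : ℤ) = 0
  have e1 : q - n + 1 = q - (n - 1) := by omega
  have e2 : q - n - 1 = q - (n + 1) := by omega
  rw [if_neg (by omega), e1, e2, Mk_xr hq (by omega), Mk_xr hq (by omega), Mk_xr hq (by omega)]
  have h3 := Mk_W (lam := lam1) (s := s') h1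
  have h4 : 2 * W lam1 s' n + lam1 * Real.sin (W lam1 s' n) - W lam1 s' (n - 1) - W lam1 s' (n + 1) = 0 := by
    linarith
  rw [h4, zero_div, round_zero]

private theorem Mk_UU {X : ℝ} (hX : X ∈ UU) : |X - Real.pi / 2| ≤ 1 / 2 := by
  have h1 := hX.1
  have h2 := hX.2
  rw [abs_le]
  constructor <;> linarith

private theorem Mk_bd {lam1 s s' X X' : ℝ} {N q : ℕ} (hq : 2 * N + 10 ≤ q) (hX : X ∈ UU) (hX' : X' ∈ UU) :
    Bd (MD lam1 N q s s') X X' := by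
  constructor
  · show ‖(X : ℂ) - ((mxi lam1 N q s s' 0 : ℝ) : ℂ)‖ ≤ 1 / 2
    rw [mxi_zero, ← Complex.ofReal_sub, Complex.norm_real, Real.norm_eq_abs]
    exact Mk_UU hX
  · show ‖(X' : ℂ) - ((mxi lam1 N q s s' q : ℝ) : ℂ)‖ ≤ 1 / 2
    rw [mxi_last lam1 s s' hq, ← Complex.ofReal_sub, Complex.norm_real, Real.norm_eq_abs]
    exact Mk_UU hX'

private theorem Mk_solM {lam1 s s' X X' : ℝ} {N q : ℕ} (hlam : 10 ^ 8 ≤ lam1) (hs : GN lam1 N s) (hs' : GN lam1 N s')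
    (hq : 2 * N + 10 ≤ q) (hX : X ∈ UU) (hX' : X' ∈ UU) :
    Sol (MD lam1 N q s s') lam1 X X' (sol (MD lam1 N q s s') lam1 X X') :=
  sol_spec (ref_MD hlam hs hs' hq) (by simp) (Mk_bd hq hX hX')

private theorem Mk_solL {lam1 s X : ℝ} {N : ℕ} (hlam : 10 ^ 8 ≤ lam1) (hN : 1 ≤ N) (hs : GN lam1 N s) (hX : X ∈ UU) :
    Sol (LD lam1 N s) lam1 X (W lam1 s (N + 1) : ℝ) (sol (LD lam1 N s) lam1 X (W lam1 s (N + 1) : ℝ)) :=
  sol_spec (ref_LD hlam hN hs) (by simp) (bd_LD (Mk_UU hX))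

private theorem Mk_eqL {lam1 s X : ℝ} {N : ℕ} {y : ℕ → ℂ} (hy : Sol (LD lam1 N s) lam1 X (W lam1 s (N + 1) : ℝ) y) :
    ∀ n, n + 2 ≤ N → y (n + 2) + y n = 2 * y (n + 1) + lam1 * Complex.sin (y (n + 1)) := by
  intro n hn
  have h := hy.eq n (show n + 2 ≤ N + 1 by omega)
  have h0 : (LD lam1 N s).m (n + 1) = 0 := rfl
  rw [h0, Int.cast_zero, mul_zero, sub_zero] at h
  exact h

theorem MD_left {lam1 s s' X X' : ℝ} {N q : ℕ} (hlam : 10 ^ 8 ≤ lam1) (hN : 1 ≤ N) (hs : GN lam1 N s) (hs' : GN lam1 N s') (hq : 2 * N + 10 ≤ q)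
    (hX : X ∈ UU) (hX' : X' ∈ UU) : |(sol (MD lam1 N q s s') lam1 X X' 1).re - lf lam1 N s X| ≤ (44 / lam1) ^ (N - 1) / 500 := by
  have hx := Mk_solM hlam hs hs' hq hX hX'
  have hy := Mk_solL hlam hN hs hX
  refine Mk_core (w := fun n => W lam1 s n) hlam hN ?_ ?_ ?_ ?_ ?_ (Mk_eqL hy)
  · rw [hx.left, hy.left]
  · intro n h1 h2
    exact (hs n h1 h2).1
  · intro n h1 h2
    have h3 := hx.near n h1 (show n < q by omega)
    have h4 : (MD lam1 N q s s').xi n = W lam1 s n := Mk_xl h2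
    rw [h4] at h3
    exact h3
  · intro n h1 h2
    exact hy.near n h1 (show n < N + 1 by omega)
  · intro n hn
    have h := hx.eq n (show n + 2 ≤ q by omega)
    rw [Mk_ml (by omega) (by omega), Int.cast_zero, mul_zero, sub_zero] at h
    exact h

theorem MD_right {lam1 s s' X X' : ℝ} {N q : ℕ} (hlam : 10 ^ 8 ≤ lam1) (hN : 1 ≤ N) (hs : GN lam1 N s) (hs' : GN lam1 N s') (hq : 2 * N + 10 ≤ q)
    (hX : X ∈ UU) (hX' : X' ∈ UU) : |(sol (MD lam1 N q s s') lam1 X X' (q - 1)).re - lf lam1 N s' X'| ≤ (44 / lam1) ^ (N - 1) / 500 := by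
  have hx := Mk_solM hlam hs hs' hq hX hX'
  have hy := Mk_solL hlam hN hs' hX'
  refine Mk_core (w := fun n => W lam1 s' n) (x := fun n => sol (MD lam1 N q s s') lam1 X X' (q - n)) hlam hN ?_ ?_ ?_ ?_ ?_ (Mk_eqL hy)
  · show sol (MD lam1 N q s s') lam1 X X' q = _
    rw [show sol (MD lam1 N q s s') lam1 X X' q = X' from hx.right, hy.left]
  · intro n h1 h2
    exact (hs' n h1 h2).1
  · intro n h1 h2
    have h3 := hx.near (q - n) (show 1 ≤ q - n by omega) (show q - n < q by omega)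
    have h4 : (MD lam1 N q s s').xi (q - n) = W lam1 s' n := Mk_xr hq h2
    rw [h4] at h3
    exact h3
  · intro n h1 h2
    exact hy.near n h1 (show n < N + 1 by omega)
  · intro n hn
    have h := hx.eq (q - (n + 2)) (show q - (n + 2) + 2 ≤ q by omega)
    have e1 : q - (n + 2) + 1 = q - (n + 1) := by omega
    have e2 : q - (n + 2) + 2 = q - n := by omega
    rw [e1, e2, Mk_mr hq (by omega) (by omega), Int.cast_zero, mul_zero, sub_zero] at h
    show sol (MD lam1 N q s s') lam1 X X' (q - (n + 2)) + sol (MD lam1 N q s s') lam1 X X' (q - n) = _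
    rw [add_comm]
    exact h

theorem exists_MD {lam1 ε : ℝ} (hlam : 10 ^ 8 ≤ lam1) (hε : 0 < ε) : ∃ N : ℕ, 1 ≤ N ∧ ∃ s s', GN lam1 N s ∧ GN lam1 N s' ∧
    ∀ q, 2 * N + 10 ≤ q → (∀ X ∈ UU, Rr (MD lam1 N q s s') lam1 X ≤ ε) ∧ ∃ X ∈ UU, -ε ≤ Rr (MD lam1 N q s s') lam1 X := by
  have hl0 : (0 : ℝ) < lam1 := lt_of_lt_of_le (by norm_num) hlam
  have h44 : 44 / lam1 < 1 := by
    rw [div_lt_one hl0]
    exact lt_of_lt_of_le (by norm_num) hlam
  obtain ⟨k, hk⟩ := exists_pow_lt_of_lt_one hε h44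
  obtain ⟨s, s', hs, hs', hle, X0, hX0, heq⟩ := exists_tangency hlam (show 1 ≤ k + 1 by omega)
  refine ⟨k + 1, by omega, s, s', hs, hs', fun q hq => ?_⟩
  have key : ∀ X ∈ UU, |Rr (MD lam1 (k + 1) q s s') lam1 X
      - (2 * X + lam1 * Real.sin X - lf lam1 (k + 1) s X - lf lam1 (k + 1) s' X)| ≤ ε := by
    intro X hX
    have h1 := MD_left hlam (show 1 ≤ k + 1 by omega) hs hs' hq hX hX
    have h2 := MD_right hlam (show 1 ≤ k + 1 by omega) hs hs' hq hX hX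
    rw [Nat.add_sub_cancel] at h1 h2
    have h3 : Rr (MD lam1 (k + 1) q s s') lam1 X = 2 * X + lam1 * Real.sin X
      - (sol (MD lam1 (k + 1) q s s') lam1 X X 1).re - (sol (MD lam1 (k + 1) q s s') lam1 X X (q - 1)).re := rfl
    rw [h3]
    rw [abs_le] at h1 h2 ⊢
    constructor <;> linarith [h1.1, h1.2, h2.1, h2.2]
  constructor
  · intro X hX
    have h1 := (abs_le.1 (key X hX)).2
    have h2 := hle X hX
    linarith
  · refine ⟨X0, hX0, ?_⟩
    have h1 := (abs_le.1 (key X0 hX0)).1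
    rw [heq] at h1
    linarith

end Pool.Agent.MP31f1e8.KLC
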