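import Pool.Agent.Lib.MP_31f1e8_mp.KLC.Mn1
import Pool.Agent.Lib.MP_31f1e8_mp.KLC.Mk
import Pool.Agent.Lib.MP_31f1e8_mp.KLC.Ivt
import Pool.Agent.Lib.MP_31f1e8_mp.KLC.Jun

/-!
# KLC-Main: the cell exists for an open and dense set of `lam`.
-/

namespace Pool.Agent.MP31f1e8.KLC

open Set Filter Topology

theorem crit_MD {lam1 s s' : ℝ} {N q : ℕ} (hlam : 10 ^ 8 ≤ lam1) (hs : GN lam1 N s) (hs' : GN lam1 N s') (hq : 2 * N + 10 ≤ q) :
    Crit (MD lam1 N q s s') lam1 where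
  ref := ref_MD hlam hs hs' hq
  l := mxi_zero lam1 N q s s'
  r := mxi_last lam1 s s' hq

/-- the boosters -/
def Boo (N q : ℕ) : Finset ℕ := Finset.Ico (N + 2) (q - N)

theorem Boo_card {N q : ℕ} (hq : 2 * N + 10 ≤ q) : (Boo N q).card = q - (2 * N + 2) := by
  unfold Boo
  rw [Nat.card_Ico]
  omega

theorem saG_MD {lam1 lam s s' X0 sg : ℝ} {N q : ℕ} (hlam : 10 ^ 8 ≤ lam1) (hs : GN lam1 N s) (hs' : GN lam1 N s') (hq : 2 * N + 10 ≤ q)
    (hl : |lam - lam1| ≤ 1) (hX : X0 ∈ UU) (hsg : lam * |sg| ≤ 1 / 1000) :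
    SaG (MD lam1 N q s s') lam1 lam X0 sg (N + 1) (Boo N q) := by
  have hC := crit_MD hlam hs hs' hq
  refine ⟨⟨hC.ref, hl, hC.r.trans hC.l.symm, ?_, hsg⟩, by omega, ?_, mxi_well lam1 s s' hq, ?_, ?_, ?_⟩
  · rw [hC.l, abs_le]
    constructor <;> [have := hX.1; have := hX.2] <;> linarith
  · show N + 1 < q
    omega
  · intro n h1 h2 h3
    have h2' : n < q := h2
    show -49 / 50 ≤ Real.cos (mxi lam1 N q s s' n)
    by_cases h4 : n ≤ N ∨ q - N ≤ n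
    · exact (mxi_free hs hs' hq h1 h4 h2').2
    · push Not at h4
      rw [mxi_boost lam1 s s' (by omega) (by omega), Real.cos_zero]
      norm_num
  · have := (Mn1_cos_UU hX).1
    linarith
  · intro n hn
    unfold Boo at hn
    rw [Finset.mem_Ico] at hn
    refine ⟨by omega, ?_, ?_⟩
    · show n < q
      omega
    · show Real.cos (mxi lam1 N q s s' n) = 1
      rw [mxi_boost lam1 s s' (by omega) (by omega), Real.cos_zero]

theorem Main_pow_small {r e : ℝ} (h0 : 0 ≤ r) (h1 : r < 1) (he : 0 < e) : ∃ n0 : ℕ, ∀ n ≥ n0, r ^ n ≤ e := by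
  obtain ⟨n0, hn0⟩ := exists_pow_lt_of_lt_one he h1
  exact ⟨n0, fun n hn => (pow_le_pow_of_le_one h0 h1.le hn).trans hn0.le⟩

/-- choice of the length of the period -/
theorem Main_exists_q {lam1 η kap δ : ℝ} (hlam : 10 ^ 8 ≤ lam1) (hη : 0 < η) (hkap : 0 < kap) (hδ : 0 < δ) (N : ℕ) :
    ∃ q : ℕ, 4 * N + 20 ≤ q ∧ (26 / lam1) ^ (q - 1) ≤ δ / 20 ∧ (26 / lam1) ^ (q - 1) ≤ η ∧ (26 / lam1) ^ (q - 1) ≤ 1 / 10000 ∧
      (lam1 + 5) ^ (2 * (2 * N + 2)) * (51 / 100 : ℝ) ^ (q - (2 * N + 2)) ≤ kap := by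
  have hl0 : 0 < lam1 := by linarith [show (0:ℝ) < 10 ^ 8 by norm_num]
  have hr : 26 / lam1 < 1 := by
    rw [div_lt_one hl0]
    linarith [show (26:ℝ) < 10 ^ 8 by norm_num]
  have hr0 : 0 ≤ 26 / lam1 := by positivity
  obtain ⟨n1, h1⟩ := Main_pow_small hr0 hr (show 0 < δ / 20 by positivity)
  obtain ⟨n2, h2⟩ := Main_pow_small hr0 hr hη
  obtain ⟨n3, h3⟩ := Main_pow_small hr0 hr (show (0:ℝ) < 1 / 10000 by norm_num)
  have hA : 0 < (lam1 + 5) ^ (2 * (2 * N + 2)) := by positivity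
  obtain ⟨n4, h4⟩ := Main_pow_small (r := 51 / 100) (by norm_num) (by norm_num) (show 0 < kap / (lam1 + 5) ^ (2 * (2 * N + 2)) by positivity)
  refine ⟨n1 + n2 + n3 + n4 + 4 * N + 20, by omega, h1 _ (by omega), h2 _ (by omega), h3 _ (by omega), ?_⟩
  have := h4 (n1 + n2 + n3 + n4 + 4 * N + 20 - (2 * N + 2)) (by omega)
  rw [le_div_iff₀ hA] at this
  linarith

theorem local_cell {η kap lam1 δ : ℝ} (hη : 0 < η) (hkap : 0 < kap) (hlam : 10 ^ 8 ≤ lam1) (hδ : 0 < δ) (hδ1 : δ ≤ 1 / 2) :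
    ∃ lam2, |lam2 - lam1| < δ ∧ ∃ ρ > 0, ∀ lam, |lam - lam2| < ρ → ∃ (q w : ℕ) (m : ℕ → ℤ) (sg tau sigma Xr E0 : ℝ) (kp : ℕ → ℝ)
      (x : ℕ → ℝ → ℝ → ℝ) (H : ℕ → ℕ → ℝ), KLF.Cell lam η kap q w m sg tau sigma Xr E0 kp x H := by
  obtain ⟨N, hN, s, s', hs, hs', hMD⟩ := exists_MD hlam (show 0 < δ / 20 by positivity)
  obtain ⟨q, hq, hq1, hq2, hq3, hq4⟩ := Main_exists_q hlam hη hkap hδ N
  have hq' : 2 * N + 10 ≤ q := by omega
  obtain ⟨hM1, hM2⟩ := hMD q hq'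
  set D := MD lam1 N q s s' with hD
  have hDq : D.q = q := rfl
  have hC : Crit D lam1 := crit_MD hlam hs hs' hq'
  have hcc : |KLF.cc| ≤ 1 := Real.abs_cos_le_one _
  obtain ⟨lam2, hl2, X0, hX0, hR, hQ⟩ := exists_tuned hC hcc hδ (by linarith) hM1 hM2 (by rw [hDq]; exact hq1)
  have T : Tun D lam1 lam2 X0 := ⟨hC, by linarith, hX0, hR, hQ⟩
  have hl21 : |lam2 - lam1| ≤ 1 := by linarith
  have hX' : |X0 - Real.pi / 2| ≤ 1 / 2 := by
    rw [abs_le]
    constructor <;> [have := hX0.1; have := hX0.2] <;> linarith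
  have hb : Bd D (X0 : ℂ) (X0 : ℂ) := crit_bd hC hX' hX'
  have hlam2 := lam_large hC.ref hl21
  have hep : ‖ep D lam2 X0 X0‖ ≤ (26 / lam1) ^ (q - 1) := by
    refine (ep_upper hC.ref hl21 hb).trans ?_
    rw [hDq]
    refine pow_le_pow_left₀ (by positivity) ?_ _
    have h1 := abs_lt.1 hl2
    rw [div_le_div_iff₀ (by linarith) (by linarith)]
    nlinarith
  obtain ⟨ρ1, hρ1, hE⟩ := exp_near T hη (hep.trans hq2)
  obtain ⟨ρ2, hρ2, hS⟩ := Mn1_scale T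
  refine ⟨lam2, hl2, min (min ρ1 ρ2) (1 / 2), lt_min (lt_min hρ1 hρ2) (by norm_num), fun lam hlm => ?_⟩
  have hlm1 : |lam - lam2| < ρ1 := hlm.trans_le ((min_le_left _ _).trans (min_le_left _ _))
  have hlm2 : |lam - lam2| < ρ2 := hlm.trans_le ((min_le_left _ _).trans (min_le_right _ _))
  have hlm3 : |lam - lam2| < 1 / 2 := hlm.trans_le (min_le_right _ _)
  have hl : |lam - lam1| ≤ 1 := by
    have h1 : |lam - lam1| ≤ |lam - lam2| + |lam2 - lam1| := abs_sub_le _ _ _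
    linarith
  obtain ⟨g, v, hgv, hsum⟩ := hE lam hlm1
  have hsgb := sgm_bounds T
  set sg := sgm D X0 lam2 with hsg
  have hsg1 : lam * |sg| ≤ 1 / 1000 := by
    have h1 := hsgb.2.2.1
    have h2 := abs_lt.1 hlm3
    have h3 : lam * |sg| ≤ 2 * lam2 * |sg| := by
      refine mul_le_mul_of_nonneg_right ?_ (abs_nonneg _)
      linarith
    have h4 : 2 * lam2 * |sg| ≤ 2 * lam2 * (4 * ‖ep D lam2 X0 X0‖ / lam2) :=
      mul_le_mul_of_nonneg_left h1 (by linarith)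
    have h5 : 2 * lam2 * (4 * ‖ep D lam2 X0 X0‖ / lam2) = 8 * ‖ep D lam2 X0 X0‖ := by
      field_simp
      ring
    have h6 := hep.trans hq3
    linarith
  have hG := saG_MD (N := N) (q := q) hlam hs hs' hq' hl hX0 hsg1
  rw [← hD] at hG
  have hlam0 := lam_large hC.ref hl
  have hkap' : (lam + 4) ^ (2 * (D.q - (Boo N q).card)) * (51 / 100) ^ (Boo N q).card ≤ kap := by
    rw [Boo_card hq', hDq, show q - (q - (2 * N + 2)) = 2 * N + 2 by omega]
    refine le_trans ?_ hq4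
    refine mul_le_mul_of_nonneg_right ?_ (by positivity)
    refine pow_le_pow_left₀ (by linarith) ?_ _
    have := abs_le.1 hl
    linarith
  obtain ⟨sigma, hcell⟩ := cell_of hG (kap := kap) (eta := η) (H := HH g v) (by rw [hDq]; omega) hsgb.1
    (Mn1_hsg hG.base hX0 hC (hS lam hlm2)) hkap' (HH_small hgv.1 hgv.2.1 hsum) (by
      intro u hu v' hv' u' hu' hred
      have h1 := junction T hl hgv hu hv' hu' hred
      have h2 : D.m 0 = 0 := by
        rw [hD]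
        simp [MD]
      rw [h2]
      unfold xs
      rw [h1]
      push_cast
      ring)
  exact ⟨_, _, _, _, _, _, _, _, _, _, _, hcell⟩

theorem main : KLF.CellMain := by
  intro η kap hη hkap
  set P : ℝ → Prop := fun lam => ∃ (q w : ℕ) (m : ℕ → ℤ) (sg tau sigma Xr E0 : ℝ) (kp : ℕ → ℝ)
      (x : ℕ → ℝ → ℝ → ℝ) (H : ℕ → ℕ → ℝ), KLF.Cell lam η kap q w m sg tau sigma Xr E0 kp x H with hP
  refine ⟨10 ^ 8, interior {lam | (10 : ℝ) ^ 8 < lam ∧ P lam}, isOpen_interior, ?_, ?_, ?_⟩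
  · intro lam hlm
    exact (interior_subset hlm).1
  · intro lam1 hlm
    have hlm' : (10 : ℝ) ^ 8 < lam1 := hlm
    rw [Metric.mem_closure_iff]
    intro e he
    set δ := min (min e (1 / 2)) (lam1 - 10 ^ 8) with hδ
    have hδ0 : 0 < δ := lt_min (lt_min he (by norm_num)) (by linarith)
    obtain ⟨lam2, hl2, ρ, hρ, hc⟩ := local_cell hη hkap hlm'.le hδ0 ((min_le_left _ _).trans (min_le_right _ _))
    refine ⟨lam2, ?_, ?_⟩
    · rw [mem_interior_iff_mem_nhds, Metric.mem_nhds_iff]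
      have h1 : 0 < lam2 - 10 ^ 8 := by
        have h2 := abs_lt.1 hl2
        have h3 : δ ≤ lam1 - 10 ^ 8 := min_le_right _ _
        linarith
      refine ⟨min ρ (lam2 - 10 ^ 8), lt_min hρ h1, ?_⟩
      intro lam hb
      rw [Metric.mem_ball, Real.dist_eq] at hb
      refine ⟨?_, hc lam (hb.trans_le (min_le_left _ _))⟩
      have h4 := abs_lt.1 (hb.trans_le (min_le_right _ _))
      linarith
    · rw [dist_comm, Real.dist_eq]
      exact hl2.trans_le ((min_le_left _ _).trans (min_le_left _ _))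
  · intro lam hlm
    exact (interior_subset hlm).2

end Pool.Agent.MP31f1e8.KLC
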