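import Pool.Agent.Lib.MP_31f1e8_mp.KLC.Defs

/-!
# KLC-Maxp: the maximum principle for `d (n+1) + d (n-1) = B n * d n + f n`.

PROOFS.
* `maxp_gen` (comparison with a supersolution `b`): let `e n = ‖d n‖ - b n` and let `n0 ≤ q` be a point where `e` is maximal on `Finset.range (q + 1)` (`Finset.exists_max_image`).
  If `e n0 ≤ 0` we are done. Otherwise `n0 ≠ 0`, `n0 ≠ q`, so `1 ≤ n0 < q` and
  `‖B n0‖ ‖d n0‖ = ‖d (n0+1) + d (n0-1) - f n0‖ ≤ 2 e n0 + b (n0+1) + b (n0-1) + ‖f n0‖ ≤ 2 e n0 + ‖B n0‖ b n0`, i.e. `(‖B n0‖ - 2) e n0 ≤ 0`: contradiction to `2 < ‖B n0‖`.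
* `maxp`: `maxp_gen` with `b n = x ^ n * ‖d 0‖ + x ^ (q - n) * ‖d q‖ + x * F`, `x = 2 / β ≤ 1 / 2`. Check of the supersolution inequality for `1 ≤ n < q` (it suffices with `β` instead of `‖B n‖` since `b ≥ 0`):
  `x ^ (n-1) + x ^ (n+1) = x ^ n (1/x + x) ≤ β x ^ n` as `1/x + x = β/2 + 2/β ≤ β`; the same for `x ^ (q - n)`; and `2 x F + F ≤ β x F = 2 F`.
* `maxp_sum`: `maxp_gen` with `b n = ∑ m ∈ Ico 1 q, x ^ (|n - m| + 1) * F m` (distance as natural number `(n - m) + (m - n)`); for `m ≠ n` the inequality `x ^ (k) + x ^ (k+2) ≤ β x ^ (k+1)`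
  (`k = |n - m| ≥ 1`), for `m = n`: `2 x ^ 2 F n + F n ≤ β x F n = 2 F n`; sum over `m`.
-/

namespace Pool.Agent.MP31f1e8.KLC

open Set

variable {K : Type*} [NormedField K]

theorem maxp_gen {B f d : ℕ → K} {b : ℕ → ℝ} {q : ℕ} (hB : ∀ n, 1 ≤ n → n < q → 2 < ‖B n‖)
    (h : Rec B f q d) (h0 : ‖d 0‖ ≤ b 0) (hq : ‖d q‖ ≤ b q)
    (hb : ∀ n, n + 2 ≤ q → b (n + 2) + b n + ‖f (n + 1)‖ ≤ ‖B (n + 1)‖ * b (n + 1)) :
    ∀ n ≤ q, ‖d n‖ ≤ b n := by
  obtain ⟨n0, hn0, hmax⟩ := Finset.exists_max_image (Finset.range (q + 1))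
    (fun n => ‖d n‖ - b n) ⟨0, by simp⟩
  by_contra hcon
  push Not at hcon
  obtain ⟨n, hn, hlt⟩ := hcon
  have he : 0 < ‖d n0‖ - b n0 :=
    lt_of_lt_of_le (sub_pos.2 hlt) (hmax n (Finset.mem_range.2 (by omega)))
  have hn0q : n0 ≤ q := by
    have := Finset.mem_range.1 hn0
    omega
  have h1 : n0 ≠ 0 := by rintro rfl; linarith
  have h2 : n0 ≠ q := by rintro rfl; linarith
  obtain ⟨k, rfl⟩ : ∃ k, n0 = k + 1 := ⟨n0 - 1, by omega⟩
  have hk : k + 2 ≤ q := by omega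
  have hrec := h k hk
  have hbk := hb k hk
  have hm1 := hmax k (Finset.mem_range.2 (by omega))
  have hm2 := hmax (k + 2) (Finset.mem_range.2 (by omega))
  have hBk := hB (k + 1) (by omega) (by omega)
  have e1 : ‖B (k + 1)‖ * ‖d (k + 1)‖ ≤ ‖d (k + 2)‖ + ‖d k‖ + ‖f (k + 1)‖ := by
    rw [← norm_mul]
    have e2 : B (k + 1) * d (k + 1) = d (k + 2) + d k - f (k + 1) := by rw [hrec]; ring
    rw [e2]
    refine (norm_sub_le _ _).trans ?_
    have := norm_add_le (d (k + 2)) (d k)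
    linarith
  have hp := mul_pos (sub_pos.2 hBk) he
  nlinarith

private theorem Maxp_three {x β : ℝ} (hx0 : 0 ≤ x) (hx1 : x ≤ 1 / 2) (hβ : β * x = 2) (k : ℕ) :
    x ^ k + x ^ (k + 2) ≤ β * x ^ (k + 1) := by
  have e1 : β * x ^ (k + 1) = 2 * x ^ k := by rw [pow_succ, ← hβ]; ring
  have e2 : x ^ (k + 2) = x ^ 2 * x ^ k := by rw [pow_add]; ring
  have hk : 0 ≤ x ^ k := pow_nonneg hx0 k
  have hx2 : x ^ 2 ≤ 1 := by nlinarith
  rw [e1, e2]
  nlinarith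

theorem maxp {B f d : ℕ → K} {q : ℕ} {β F : ℝ} (hβ : 4 ≤ β) (hB : ∀ n, 1 ≤ n → n < q → β ≤ ‖B n‖)
    (hF : 0 ≤ F) (hf : ∀ n, 1 ≤ n → n < q → ‖f n‖ ≤ F) (h : Rec B f q d) :
    ∀ n ≤ q, ‖d n‖ ≤ (2 / β) ^ n * ‖d 0‖ + (2 / β) ^ (q - n) * ‖d q‖ + 2 / β * F := by
  have hβ0 : 0 < β := by linarith
  have hx0 : 0 ≤ 2 / β := by positivity
  have hx1 : 2 / β ≤ 1 / 2 := by
    rw [div_le_div_iff₀ hβ0 two_pos]
    linarith
  have hβx : β * (2 / β) = 2 := by field_simp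
  set x := 2 / β with hx
  have hb0 : ∀ n, 0 ≤ x ^ n * ‖d 0‖ + x ^ (q - n) * ‖d q‖ + x * F := fun n => by positivity
  refine maxp_gen (b := fun n => x ^ n * ‖d 0‖ + x ^ (q - n) * ‖d q‖ + x * F)
    (fun n h1 h2 => by linarith [hB n h1 h2]) h ?_ ?_ fun n hn => ?_
  · have h1 : 0 ≤ x ^ (q - 0) * ‖d q‖ := by positivity
    have h2 : 0 ≤ x * F := by positivity
    simp only [pow_zero, one_mul]
    linarith
  · have h1 : 0 ≤ x ^ q * ‖d 0‖ := by positivity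
    have h2 : 0 ≤ x * F := by positivity
    simp only [Nat.sub_self, pow_zero, one_mul]
    linarith
  · have hBn := hB (n + 1) (by omega) (by omega)
    have hfn := hf (n + 1) (by omega) (by omega)
    obtain ⟨k, rfl⟩ : ∃ k, q = n + 2 + k := ⟨q - (n + 2), by omega⟩
    have e1 : n + 2 + k - (n + 2) = k := by omega
    have e2 : n + 2 + k - (n + 1) = k + 1 := by omega
    have e3 : n + 2 + k - n = k + 2 := by omega
    have hb1 := hb0 (n + 1)
    simp only [e1, e2, e3] at hb1 ⊢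
    have h1 := mul_le_mul_of_nonneg_right (Maxp_three hx0 hx1 hβx n) (norm_nonneg (d 0))
    have h2 := mul_le_mul_of_nonneg_right (Maxp_three hx0 hx1 hβx k)
      (norm_nonneg (d (n + 2 + k)))
    have h3 : 2 * (x * F) + F ≤ β * (x * F) := by
      have : β * (x * F) = 2 * F := by rw [← hβx]; ring
      rw [this]
      nlinarith
    have h4 := mul_le_mul_of_nonneg_right hBn hb1
    nlinarith

theorem maxp_zero {B d : ℕ → K} {q : ℕ} {β : ℝ} (hβ : 4 ≤ β) (hB : ∀ n, 1 ≤ n → n < q → β ≤ ‖B n‖)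
    (h : Rec B 0 q d) :
    ∀ n ≤ q, ‖d n‖ ≤ (2 / β) ^ n * ‖d 0‖ + (2 / β) ^ (q - n) * ‖d q‖ := by
  intro n hn
  have := maxp hβ hB le_rfl (by intro n _ _; simp) h n hn
  simpa using this

/-- forcing with weights, zero boundary values -/
theorem maxp_sum {B f d : ℕ → K} {F : ℕ → ℝ} {q : ℕ} {β : ℝ} (hβ : 4 ≤ β) (hB : ∀ n, 1 ≤ n → n < q → β ≤ ‖B n‖)
    (hf : ∀ n, 1 ≤ n → n < q → ‖f n‖ ≤ F n) (h : Rec B f q d) (h0 : d 0 = 0) (hq : d q = 0) :
    ∀ n ≤ q, ‖d n‖ ≤ ∑ m ∈ Finset.Ico 1 q, (2 / β) ^ ((n - m) + (m - n) + 1) * F m := by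
  have hβ0 : 0 < β := by linarith
  have hx0 : 0 ≤ 2 / β := by positivity
  have hx1 : 2 / β ≤ 1 / 2 := by
    rw [div_le_div_iff₀ hβ0 two_pos]
    linarith
  have hβx : β * (2 / β) = 2 := by field_simp
  set x := 2 / β with hx
  have hF : ∀ m ∈ Finset.Ico 1 q, 0 ≤ F m := fun m hm => by
    rw [Finset.mem_Ico] at hm
    exact (norm_nonneg _).trans (hf m hm.1 hm.2)
  have hb0 : ∀ n, 0 ≤ ∑ m ∈ Finset.Ico 1 q, x ^ ((n - m) + (m - n) + 1) * F m := fun n =>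
    Finset.sum_nonneg fun m hm => mul_nonneg (pow_nonneg hx0 _) (hF m hm)
  refine maxp_gen (b := fun n => ∑ m ∈ Finset.Ico 1 q, x ^ ((n - m) + (m - n) + 1) * F m)
    (fun n h1 h2 => by linarith [hB n h1 h2]) h ?_ ?_ fun n hn => ?_
  · rw [h0, norm_zero]; exact hb0 0
  · rw [hq, norm_zero]; exact hb0 q
  · have hBn := hB (n + 1) (by omega) (by omega)
    have hfn := hf (n + 1) (by omega) (by omega)
    have hmem : n + 1 ∈ Finset.Ico 1 q := Finset.mem_Ico.2 ⟨by omega, by omega⟩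
    have hF1 : F (n + 1) = ∑ m ∈ Finset.Ico 1 q, if m = n + 1 then F m else 0 := by
      rw [Finset.sum_ite_eq' (Finset.Ico 1 q) (n + 1) F, if_pos hmem]
    have hkey : (∑ m ∈ Finset.Ico 1 q, x ^ ((n + 2 - m) + (m - (n + 2)) + 1) * F m) +
        (∑ m ∈ Finset.Ico 1 q, x ^ ((n - m) + (m - n) + 1) * F m) + F (n + 1) ≤
        β * ∑ m ∈ Finset.Ico 1 q, x ^ ((n + 1 - m) + (m - (n + 1)) + 1) * F m := by
      rw [hF1, ← Finset.sum_add_distrib, ← Finset.sum_add_distrib, Finset.mul_sum]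
      refine Finset.sum_le_sum fun m hm => ?_
      have hFm := hF m hm
      rcases lt_trichotomy m (n + 1) with hlt | heq | hgt
      · rw [if_neg (by omega)]
        obtain ⟨j, hj⟩ : ∃ j, n = m + j := ⟨n - m, by omega⟩
        subst hj
        have e1 : (m + j + 2 - m) + (m - (m + j + 2)) + 1 = (j + 1) + 2 := by omega
        have e2 : (m + j - m) + (m - (m + j)) + 1 = j + 1 := by omega
        have e3 : (m + j + 1 - m) + (m - (m + j + 1)) + 1 = (j + 1) + 1 := by omega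
        rw [e1, e2, e3]
        have h1 := mul_le_mul_of_nonneg_right (Maxp_three hx0 hx1 hβx (j + 1)) hFm
        nlinarith
      · subst heq
        rw [if_pos rfl]
        have e1 : (n + 2 - (n + 1)) + (n + 1 - (n + 2)) + 1 = 2 := by omega
        have e2 : (n - (n + 1)) + (n + 1 - n) + 1 = 2 := by omega
        have e3 : (n + 1 - (n + 1)) + (n + 1 - (n + 1)) + 1 = 1 := by omega
        rw [e1, e2, e3, pow_one]
        have e4 : β * (x * F (n + 1)) = 2 * F (n + 1) := by rw [← hβx]; ring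
        rw [e4]
        have hx2 : 2 * x ^ 2 ≤ 1 := by nlinarith
        nlinarith
      · rw [if_neg (by omega)]
        obtain ⟨j, hj⟩ : ∃ j, m = n + 2 + j := ⟨m - (n + 2), by omega⟩
        subst hj
        have e1 : (n + 2 - (n + 2 + j)) + (n + 2 + j - (n + 2)) + 1 = j + 1 := by omega
        have e2 : (n - (n + 2 + j)) + (n + 2 + j - n) + 1 = (j + 1) + 2 := by omega
        have e3 : (n + 1 - (n + 2 + j)) + (n + 2 + j - (n + 1)) + 1 = (j + 1) + 1 := by omega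
        rw [e1, e2, e3]
        have h1 := mul_le_mul_of_nonneg_right (Maxp_three hx0 hx1 hβx (j + 1)) hFm
        nlinarith
    have h4 := mul_le_mul_of_nonneg_right hBn (hb0 (n + 1))
    linarith

end Pool.Agent.MP31f1e8.KLC
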