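import Pool.Agent.Lib.MP_31f1e8_mp.KLC.Defs
import Mathlib

/-!
# KLC-Mk1: the period data: free section, well, boosters, free section.

`MD lam1 N q s s'`: `xi n = W lam1 s n` for `n ≤ N`, `xi (N+1) = π + 1/10` (the well), `xi n = 0` (boosters) for `N + 2 ≤ n < q - N`, `xi n = W lam1 s' (q - n)` for `q - N ≤ n`; the integers `m n` by rounding.
PROOFS.
* `mxi_*`: values (`q ≥ 2 N + 10`).
* `ref_MD`: `|cos| ≥ 1/20`: good sites; `cos (π + 1/10) = - cos (1/10)`, `cos (1/10) ≥ 1 - 1/200`; `cos 0 = 1`. Defect `≤ π ≤ 5`: `|t/(2π) - round (t/(2π))| ≤ 1/2` (`abs_sub_round`).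
-/

namespace Pool.Agent.MP31f1e8.KLC

open Set

/-- reference sites of the period -/
noncomputable def mxi (lam1 : ℝ) (N q : ℕ) (s s' : ℝ) (n : ℕ) : ℝ :=
  if n ≤ N then W lam1 s n else if q - N ≤ n then W lam1 s' (q - n) else if n = N + 1 then Real.pi + 1 / 10 else 0

/-- the period data -/
noncomputable def MD (lam1 : ℝ) (N q : ℕ) (s s' : ℝ) : Dat where
  q := q
  xi := mxi lam1 N q s s'
  m n := if n = 0 then 0 else round ((2 * mxi lam1 N q s s' n + lam1 * Real.sin (mxi lam1 N q s s' n)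
    - mxi lam1 N q s s' (n + 1) - mxi lam1 N q s s' (n - 1)) / (2 * Real.pi))

/-- the real function whose maximum decides about the tangency -/
noncomputable def Rr (D : Dat) (lam X : ℝ) : ℝ :=
  2 * X + lam * Real.sin X - (sol D lam X X 1).re - (sol D lam X X (D.q - 1)).re

theorem mxi_zero (lam1 : ℝ) (N q : ℕ) (s s' : ℝ) : mxi lam1 N q s s' 0 = Real.pi / 2 := by
  simp [mxi, W]

theorem mxi_last (lam1 : ℝ) {N q : ℕ} (s s' : ℝ) (hq : 2 * N + 10 ≤ q) : mxi lam1 N q s s' q = Real.pi / 2 := by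
  unfold mxi
  rw [if_neg (by omega), if_pos (by omega), Nat.sub_self]
  simp [W]

theorem mxi_well (lam1 : ℝ) {N q : ℕ} (s s' : ℝ) (hq : 2 * N + 10 ≤ q) : mxi lam1 N q s s' (N + 1) = Real.pi + 1 / 10 := by
  unfold mxi
  rw [if_neg (by omega), if_neg (by omega), if_pos rfl]

theorem mxi_boost (lam1 : ℝ) {N q n : ℕ} (s s' : ℝ) (h1 : N + 2 ≤ n) (h2 : n + N + 1 ≤ q) : mxi lam1 N q s s' n = 0 := by
  unfold mxi
  rw [if_neg (by omega), if_neg (by omega), if_neg (by omega)]

theorem mxi_free {lam1 s s' : ℝ} {N q : ℕ} (hs : GN lam1 N s) (hs' : GN lam1 N s') (hq : 2 * N + 10 ≤ q) {n : ℕ} (h1 : 1 ≤ n)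
    (h2 : n ≤ N ∨ q - N ≤ n) (h3 : n < q) : GG (mxi lam1 N q s s' n) := by
  unfold mxi
  by_cases h : n ≤ N
  · rw [if_pos h]
    exact hs n h1 h
  · have h4 : q - N ≤ n := by omega
    rw [if_neg h, if_pos h4]
    exact hs' (q - n) (by omega) (by omega)

theorem ref_MD {lam1 s s' : ℝ} {N q : ℕ} (hlam : 10 ^ 8 ≤ lam1) (hs : GN lam1 N s) (hs' : GN lam1 N s') (hq : 2 * N + 10 ≤ q) :
    Ref (MD lam1 N q s s') lam1 := by
  refine ⟨?_, hlam, ?_, ?_⟩
  · change 2 ≤ q
    omega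
  · intro n h1 h2
    change n < q at h2
    change 1 / 20 ≤ |Real.cos (mxi lam1 N q s s' n)|
    by_cases h3 : n ≤ N ∨ q - N ≤ n
    · exact (mxi_free hs hs' hq h1 h3 h2).1
    · push Not at h3
      by_cases h4 : n = N + 1
      · subst h4
        rw [mxi_well lam1 s s' hq]
        have h5 : Real.cos (Real.pi + 1 / 10) = -Real.cos (1 / 10) := by
          rw [add_comm, Real.cos_add_pi]
        rw [h5, abs_neg]
        have h6 := Real.one_sub_sq_div_two_le_cos (x := 1 / 10)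
        have h7 : (1 : ℝ) / 20 ≤ Real.cos (1 / 10) := by
          have : (1 : ℝ) / 20 ≤ 1 - (1 / 10) ^ 2 / 2 := by norm_num
          linarith
        exact h7.trans (le_abs_self _)
      · rw [mxi_boost lam1 s s' (by omega) (by omega), Real.cos_zero]
        norm_num
  · intro n h1
    change n + 2 ≤ q at h1
    set t := 2 * mxi lam1 N q s s' (n + 1) + lam1 * Real.sin (mxi lam1 N q s s' (n + 1))
      - mxi lam1 N q s s' (n + 2) - mxi lam1 N q s s' n with ht
    have hm : (MD lam1 N q s s').m (n + 1) = round (t / (2 * Real.pi)) := by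
      simp only [MD, Nat.succ_ne_zero, if_false, Nat.add_sub_cancel, ht]
    have hx : ∀ k, (MD lam1 N q s s').xi k = mxi lam1 N q s s' k := fun k => rfl
    rw [hm, hx, hx, hx]
    have hpi := Real.pi_pos
    have hpi4 := Real.pi_lt_d2
    have h5 := abs_sub_round (t / (2 * Real.pi))
    have h6 : 2 * mxi lam1 N q s s' (n + 1) + lam1 * Real.sin (mxi lam1 N q s s' (n + 1))
        - 2 * Real.pi * (round (t / (2 * Real.pi)) : ℤ) - mxi lam1 N q s s' (n + 2) - mxi lam1 N q s s' n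
        = 2 * Real.pi * (t / (2 * Real.pi) - (round (t / (2 * Real.pi)) : ℤ)) := by
      rw [mul_sub, mul_div_cancel₀ t (by positivity : (2 * Real.pi) ≠ 0), ht]
      ring
    rw [h6, abs_mul, abs_of_pos (by positivity : 0 < 2 * Real.pi)]
    nlinarith [abs_nonneg (t / (2 * Real.pi) - (round (t / (2 * Real.pi)) : ℤ))]

end Pool.Agent.MP31f1e8.KLC
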