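import Pool.Agent.Lib.MP_31f1e8_mp.KLC.SaHop
import Pool.Agent.Lib.MP_31f1e8_mp.KLF.Intf

/-!
# KLC-SaCell: the cell, given the normal form (fields `small`, `junc`).
-/

namespace Pool.Agent.MP31f1e8.KLC

open Set

section

variable {D : Dat} {lam1 lam Xr sg : ℝ} {w : ℕ} {Bo : Finset ℕ}

theorem SaG.r0_pos (h : SaG D lam1 lam Xr sg w Bo) : 0 < |r0 D lam Xr sg w| := by
  have hwq := h.wq
  unfold r0
  rw [abs_div]
  exact div_pos (abs_pos.2 (h.base.r0_ne (by omega) (Nat.sub_le _ _)))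
    (abs_pos.2 (h.base.r0_ne (by omega) le_rfl))

theorem SaG.r0_le (h : SaG D lam1 lam Xr sg w Bo) : |r0 D lam Xr sg w| ≤ 1 := by
  have hwq := h.wq
  have hl := h.base.lam_large
  have hl0 : 0 < lam := by linarith
  have hb : ∀ n, 1 ≤ n → n < D.q → lam / 22 ≤ |ar D lam Xr sg (D.q - n)| := fun n h1 h2 =>
    (h.a_facts (by omega) (by omega)).1
  have h6 := sapal_le (B := fun k => ar D lam Xr sg (D.q - k)) (q := D.q) (x := 25 / lam)
    (by positivity) (fun k hk1 hk2 => by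
      have := hb k hk1 hk2
      rw [one_div_div]
      linarith)
      (fun k hk1 hk2 => by
      have := hb k hk1 hk2
      linarith) (n := D.q - w) (m := D.q) (Nat.sub_le _ _) le_rfl
  have hx : (25 / lam) ^ (D.q - (D.q - w)) ≤ 1 := by
    refine pow_le_one₀ (by positivity) ?_
    rw [div_le_one hl0]
    linarith
  unfold r0
  rw [abs_div, div_le_one (abs_pos.2 (h.base.r0_ne (by omega) le_rfl))]
  refine h6.trans ?_
  exact mul_le_of_le_one_left (abs_nonneg _) hx

theorem SaG.dist0 (h : SaG D lam1 lam Xr sg w Bo) {u u' : ℝ} (hu : u ∈ Icc (-1 : ℝ) 1)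
    (hu' : u' ∈ Icc (-1 : ℝ) 1) {n : ℕ} (hn : n ≤ D.q) :
    |lam * Real.cos (xs D lam Xr sg n u u') - lam * Real.cos (xs D lam Xr sg n 0 0)| ≤ 1 / 4 := by
  have hl := h.base.lam_large
  have hl0 : 0 < lam := by linarith
  have h1 := h.base.lip hu hu' zero_mem1 zero_mem1 hn
  rw [sub_zero, sub_zero] at h1
  have hx : 44 / lam ≤ 1 := by
    rw [div_le_one hl0]
    linarith
  have h2 : (44 / lam) ^ n ≤ 1 := pow_le_one₀ (by positivity) hx
  have h3 : (44 / lam) ^ (D.q - n) ≤ 1 := pow_le_one₀ (by positivity) hx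
  have h4 : |u| ≤ 1 := abs_le.2 hu
  have h5 : |u'| ≤ 1 := abs_le.2 hu'
  have h6 : |sg| * |u| ≤ |sg| := by nlinarith [abs_nonneg sg]
  have h7 : |sg| * |u'| ≤ |sg| := by nlinarith [abs_nonneg sg]
  have h8 : |xs D lam Xr sg n u u' - xs D lam Xr sg n 0 0| ≤ 2 * |sg| := by
    refine h1.trans ?_
    calc _ ≤ 1 * |sg| + 1 * |sg| := by gcongr
      _ = _ := by ring
  rw [← mul_sub, abs_mul, abs_of_pos hl0]
  have h9 := (cos_diff (xs D lam Xr sg n u u') (xs D lam Xr sg n 0 0)).trans h8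
  calc _ ≤ lam * (2 * |sg|) := by gcongr
    _ ≤ 1 / 4 := by
      have := h.base.sg1
      linarith

theorem cell_of (h : SaG D lam1 lam Xr sg w Bo) {kap eta : ℝ} {H : ℕ → ℕ → ℝ}
    (hqw : 4 * w + 10 ≤ D.q) (hsg0 : sg ≠ 0)
    (hsg : 1 ≤ lam * |sg| * |th (ar D lam Xr sg) D.q|)
    (hk : (lam + 4) ^ (2 * (D.q - Bo.card)) * (51 / 100) ^ Bo.card ≤ kap)
    (hsmall : KLF.Small H eta)
    (hjunc : ∀ u ∈ Icc (-1 : ℝ) 1, ∀ v ∈ Icc (-1 : ℝ) 1, ∀ u' ∈ Icc (-1 : ℝ) 1, KLF.Red H u v u' →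
      xs D lam Xr sg 1 v u' + xs D lam Xr sg (D.q - 1) u v =
        2 * (Xr + sg * v) + lam * Real.sin (Xr + sg * v) - 2 * Real.pi * D.m 0) :
    ∃ sigma : ℝ, KLF.Cell lam eta kap D.q w D.m sg |r0 D lam Xr sg w| sigma Xr
      (lam * Real.cos (xs D lam Xr sg w 0 0)) (kq D lam Xr sg w) (xs D lam Xr sg) H := by
  have hb := h.base
  have hl := hb.lam_large
  have hl0 : 0 < lam := by linarith
  have hwq := h.wq
  have hw1 := h.w1
  have hr0 := h.r0_pos
  have hr1 := h.r0_le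
  have hdw : ∀ u ∈ Icc (-1 : ℝ) 1, ∀ v ∈ Icc (-1 : ℝ) 1, ∀ u' ∈ Icc (-1 : ℝ) 1,
      |xs D lam Xr sg w u u' - xs D lam Xr sg w v u'| ≤ 2 * |r0 D lam Xr sg w| * |sg| * |u - v| := by
    intro u hu v hv u' hu'
    obtain ⟨ρ, h1, h2, h3⟩ := hb.dw hu hu' hv hwq
    rw [h3, abs_mul, abs_mul, abs_mul, abs_of_nonneg (by linarith : (0:ℝ) ≤ ρ)]
    calc |sg| * |u - v| * (ρ * |r0 D lam Xr sg w|) ≤ |sg| * |u - v| * (2 * |r0 D lam Xr sg w|) := by
          gcongr
      _ = _ := by ring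
  refine ⟨if 0 ≤ sg * r0 D lam Xr sg w then 1 else -1, ?_⟩
  constructor
  case w1 => exact hw1
  case qw => exact hqw
  case sg0 => exact hsg0
  case tau0 => exact hr0
  case sgtau =>
    have h1 := hb.sg1
    have h2 : 0 ≤ lam * |sg| := by positivity
    nlinarith
  case sig =>
    split_ifs
    · exact Or.inl rfl
    · exact Or.inr rfl
  case small => exact hsmall
  case x0 => exact fun u hu u' hu' => hb.x0 hu hu'
  case xq => exact fun u hu u' hu' => hb.xq hu hu'
  case eqn =>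
    intro u hu u' hu' n h1 h2
    have h3 := hb.eqn hu hu' (n := n - 1) (by omega)
    rw [show n - 1 + 2 = n + 1 by omega, show n - 1 + 1 = n by omega] at h3
    exact h3
  case junc => exact hjunc
  case wval =>
    intro u hu u' hu'
    have h1 := hb.near hu hu' hw1 hwq
    rw [h.xw] at h1
    refine h1.trans ?_
    rw [div_le_div_iff₀ hl0 (by norm_num)]
    linarith
  case wlow =>
    intro u hu v hv u' hu' huv
    obtain ⟨ρ, h1, h2, h3⟩ := hb.dw hu hu' hv hwq
    rw [h3]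
    have e : (if 0 ≤ sg * r0 D lam Xr sg w then (1:ℝ) else -1) * (sg * (u - v) * (ρ * r0 D lam Xr sg w)) =
        |sg| * |r0 D lam Xr sg w| * (ρ * (u - v)) := by
      rw [← abs_mul]
      split_ifs with hs
      · rw [abs_of_nonneg hs]
        ring
      · rw [abs_of_neg (not_le.1 hs)]
        ring
    rw [e]
    have h4 : 1 / 2 * (u - v) ≤ ρ * (u - v) := by
      apply mul_le_mul_of_nonneg_right h1
      linarith
    calc |r0 D lam Xr sg w| / 2 * |sg| * (u - v) = |sg| * |r0 D lam Xr sg w| * (1 / 2 * (u - v)) := by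
          ring
      _ ≤ _ := by gcongr
  case left =>
    intro u hu v hv u' hu' n hn
    refine (hb.dn_left hu hu' hv hwq hn).trans ?_
    have := hdw u hu v hv u' hu'
    gcongr
  case right =>
    intro u hu v hv u' hu' n hn hnq
    refine (hb.dn_right hu hu' hv hn hnq).trans ?_
    have := hdw u hu v hv u' hu'
    gcongr
  case fut => exact fun u hu u' hu' v' hv' n hn => hb.fut hu hu' hv' hn
  case well =>
    intro u hu u' hu'
    exact (h.dist0 hu hu' hwq.le).trans (by norm_num)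
  case kp0 => exact fun n h1 h2 => h.kq_low h1 h2
  case barr =>
    intro u hu u' hu' n h1 h2
    have h3 := h.dist0 hu hu' h1.le
    have h4 := abs_sub_le (lam * Real.cos (xs D lam Xr sg n 0 0)) (lam * Real.cos (xs D lam Xr sg n u u'))
      (lam * Real.cos (xs D lam Xr sg w 0 0))
    rw [abs_sub_comm (lam * Real.cos (xs D lam Xr sg n 0 0)) (lam * Real.cos (xs D lam Xr sg n u u'))] at h4
    unfold kq
    linarith
  case hop => exact h.hop hsg hk

end

end Pool.Agent.MP31f1e8.KLC
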