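import Pool.Agent.Lib.MP_31f1e8_mp.KLC.Exp
import Pool.Agent.Lib.MP_31f1e8_mp.KLC.SaCell

/-!
# KLC-Mn1: the geometric hypotheses of `cell_of` near the tuned parameter.
-/

namespace Pool.Agent.MP31f1e8.KLC

open Set Filter Topology

theorem Mn1_cos_UU {X : ℝ} (hX : X ∈ UU) : -(1 / 10) ≤ Real.cos X ∧ 9 / 10 ≤ Real.sin X := by
  have h1 : |X - Real.pi / 2| ≤ 1 / 10 := by
    rw [abs_le]
    constructor <;> [have := hX.1; have := hX.2] <;> linarith
  have h2 : Real.cos X = -Real.sin (X - Real.pi / 2) := by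
    rw [Real.sin_sub_pi_div_two]; ring
  have h3 : Real.sin X = Real.cos (X - Real.pi / 2) := by
    rw [Real.cos_sub_pi_div_two]
  constructor
  · rw [h2]
    have := Real.abs_sin_le_abs (x := X - Real.pi / 2)
    have h4 := (abs_le.1 (this.trans h1)).2
    linarith
  · rw [h3]
    have h5 := Real.one_sub_sq_div_two_le_cos (x := X - Real.pi / 2)
    have h6 : (X - Real.pi / 2) ^ 2 ≤ (1 / 10) ^ 2 := by
      rw [← sq_abs]
      exact pow_le_pow_left₀ (abs_nonneg _) h1 2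
    nlinarith

theorem Mn1_ep_norm {D : Dat} {lam1 lam X0 : ℝ} (h : Crit D lam1) (hl : |lam - lam1| ≤ 1) (hX : X0 ∈ UU) :
    ‖ep D lam X0 X0‖ = |(ep D lam X0 X0).re| := by
  have h1 : |X0 - Real.pi / 2| ≤ 1 / 2 := by
    rw [abs_le]
    constructor <;> [have := hX.1; have := hX.2] <;> linarith
  have h2 := (ep_real h.ref hl (crit_bd h h1 h1)).1
  rw [← h2, Complex.norm_real, Complex.ofReal_re, Real.norm_eq_abs]

theorem Mn1_sgm_low {D : Dat} {lam1 lam2 X0 : ℝ} (T : Tun D lam1 lam2 X0) :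
    3 / 2 * ‖ep D lam2 X0 X0‖ ≤ lam2 * |sgm D X0 lam2| := by
  have hl : |lam2 - lam1| ≤ 1 := T.hl.trans (by norm_num)
  have hlam := lam_large T.crit.ref hl
  obtain ⟨h1, h2⟩ := Phdd T
  have h3 : |(deriv (Phd D X0 lam2) X0 + lam2 * Real.sin X0).re| ≤ 2 := (Complex.abs_re_le_norm _).trans h1
  rw [Complex.add_re, Complex.re_ofReal_mul, Complex.ofReal_re] at h3
  have h4 := (Mn1_cos_UU T.hX).2
  have h5 := Real.sin_le_one X0
  have h6 : (deriv (Phd D X0 lam2) X0).re < 0 := by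
    have := (abs_le.1 h3).2
    nlinarith
  have h7 : |(deriv (Phd D X0 lam2) X0).re| ≤ lam2 + 2 := by
    rw [abs_of_neg h6]
    have := (abs_le.1 h3).1
    nlinarith
  unfold sgm
  rw [abs_div, abs_mul, abs_of_pos (by norm_num : (0:ℝ) < 2), ← Mn1_ep_norm T.crit hl T.hX]
  have h8 : 0 < |(deriv (Phd D X0 lam2) X0).re| := abs_pos.2 h6.ne
  rw [← mul_div_assoc, le_div_iff₀ h8]
  have h9 : 0 ≤ ‖ep D lam2 X0 X0‖ := norm_nonneg _
  nlinarith [mul_le_mul_of_nonneg_left h7 h9]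

/-- the condition on the scale persists near `lam2` -/
theorem Mn1_scale {D : Dat} {lam1 lam2 X0 : ℝ} (T : Tun D lam1 lam2 X0) : ∃ ρ > 0, ∀ lam, |lam - lam2| < ρ →
    ‖ep D lam X0 X0‖ ≤ lam * |sgm D X0 lam2| := by
  have hl : |lam2 - lam1| ≤ 1 := T.hl.trans (by norm_num)
  have hlam := lam_large T.crit.ref hl
  have hX : |X0 - Real.pi / 2| ≤ 1 / 2 := by
    rw [abs_le]
    constructor <;> [have := T.hX.1; have := T.hX.2] <;> linarith
  have hb : Bd D (X0 : ℂ) (X0 : ℂ) := crit_bd T.crit hX hX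
  have hc := (e_cont T.crit.ref).1
  have hc2 : ContinuousOn (fun lam : ℝ => ‖ep D lam X0 X0‖) (Icc (lam1 - 1) (lam1 + 1)) := by
    refine ContinuousOn.norm ?_
    refine ContinuousOn.comp (g := fun p : ℝ × ℂ × ℂ => ep D p.1 p.2.1 p.2.2) (f := fun lam : ℝ => (lam, ((X0 : ℂ), (X0 : ℂ)))) hc
      (by fun_prop) ?_
    intro lam hlm
    refine ⟨?_, hb⟩
    show |lam - lam1| ≤ 1
    rw [abs_le]
    constructor <;> [have := hlm.1; have := hlm.2] <;> linarith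
  have hmem : Icc (lam1 - 1) (lam1 + 1) ∈ 𝓝 lam2 := by
    have h1 := abs_le.1 T.hl
    exact Icc_mem_nhds (by linarith) (by linarith)
  have hc3 : ContinuousAt (fun lam : ℝ => ‖ep D lam X0 X0‖ - lam * |sgm D X0 lam2|) lam2 :=
    (hc2.continuousAt hmem).sub (by fun_prop)
  have hneg : ‖ep D lam2 X0 X0‖ - lam2 * |sgm D X0 lam2| < 0 := by
    have h1 := Mn1_sgm_low T
    have h2 : 0 < ‖ep D lam2 X0 X0‖ := norm_pos_iff.2 (ep_ne T.crit.ref hl hb)
    linarith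
  have hev : ∀ᶠ lam in 𝓝 lam2, ‖ep D lam X0 X0‖ - lam * |sgm D X0 lam2| < 0 := hc3.eventually (gt_mem_nhds hneg)
  obtain ⟨ρ, hρ, h⟩ := Metric.eventually_nhds_iff.1 hev
  refine ⟨ρ, hρ, fun lam hlm => ?_⟩
  have := h (y := lam) (by rwa [Real.dist_eq])
  linarith

theorem Mn1_hsg {D : Dat} {lam1 lam sg X0 : ℝ} (h : SaH D lam1 lam X0 sg) (hX : X0 ∈ UU) (hc : Crit D lam1)
    (he : ‖ep D lam X0 X0‖ ≤ lam * |sg|) : 1 ≤ lam * |sg| * |th (ar D lam X0 sg) D.q| := by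
  have hX' : |X0 - Real.pi / 2| ≤ 1 / 2 := by
    rw [abs_le]
    constructor <;> [have := hX.1; have := hX.2] <;> linarith
  have hb : Bd D (X0 : ℂ) (X0 : ℂ) := crit_bd hc hX' hX'
  have h1 : th (AA D lam X0 X0) D.q = ((th (ar D lam X0 sg) D.q : ℝ) : ℂ) :=
    th_real (fun n _ hn => h.ar_AA hn.le) D.q le_rfl
  have h2 : ‖ep D lam X0 X0‖ = 1 / |th (ar D lam X0 sg) D.q| := by
    unfold ep
    rw [h1, norm_div, norm_one, Complex.norm_real, Real.norm_eq_abs]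
  have h3 : 0 < |th (ar D lam X0 sg) D.q| := by
    rw [abs_pos]
    intro h0
    have := th_AA_ne h.ref h.hl hb
    rw [h1, h0] at this
    simp at this
  rw [h2, div_le_iff₀ h3] at he
  exact he

end Pool.Agent.MP31f1e8.KLC
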