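import Pool.Agent.Lib.MP_31f1e8_mp.KLC.QR
import Pool.Agent.Lib.MP_31f1e8_mp.KLF.Intf

/-!
# KLC-Phi: the on-site function `Ph` at the tuned data, the scale `sgm`.

PROOFS (`X` complex, `‖X - π/2‖ < 1/2` or `≤ 1/2`; `X0` real in `UU`; both ends of the period have the reference `π/2`).
* `Ph_deriv`: `one_left`, `last_right`. `Phd_diff`: `e_diff_left`, `e_diff_right`.
* `Ph_lip`: `‖sin X - sin Y‖ ≤ 6/5 ‖X - Y‖` (`sin_lip`), `sol_lip` twice (`44/lam` each): `2 + 6/5 lam + 88/lam ≤ 2 lam`.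
* `Ph_lam`: `sin` bounded by `6/5`, `sol_lip` with `X = Y`: `6/5 + 2 * 44/lam * 6/5 ≤ 2`.
* `Ph_im`: reality (`sol_real`). `Ph_zero`: `Ph D X0 lam2 X0` is the real number `Rr D lam2 X0 = 0`. `Phd_zero`: `Phd = Qf + 2 cc ep` at `X0` (all three `eL`, `eR`, `ep` are real there: `ep_real`).
* `Phdd`: the derivative of `Phd` at `X0` is `- lam sin X0 - (eL(·,X0))' - (eR(X0,·))'`; each of the last two has norm `≤ 1` since the functions are `1`-Lipschitz (`eLR_lip`;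
  `norm_deriv_le_of_lip'` / `HasDerivAt.le_of_lip'`); it is real: `Phd` is real on the real axis near `X0` (so the difference quotients are real), `Phdd_im`.
* `sgm_bounds`: `sin X0 ≥ 0.99`: `|Φ''|` lies between `0.98 lam` and `1.01 lam`.
-/

namespace Pool.Agent.MP31f1e8.KLC

open Set

/-- tuned data -/
structure Tun (D : Dat) (lam1 lam2 X0 : ℝ) : Prop where
  crit : Crit D lam1
  hl : |lam2 - lam1| ≤ 1 / 2
  hX : X0 ∈ UU
  hR : Rr D lam2 X0 = 0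
  hQ : Qf D KLF.cc lam2 X0 = 0

noncomputable def Ph (D : Dat) (X0 lam : ℝ) (X : ℂ) : ℂ :=
  2 * X + lam * Complex.sin X - sol D lam X X0 1 - sol D lam X0 X (D.q - 1)

noncomputable def Phd (D : Dat) (X0 lam : ℝ) (X : ℂ) : ℂ :=
  2 + lam * Complex.cos X - eL D lam X X0 - eR D lam X0 X

/-- the scale -/
noncomputable def sgm (D : Dat) (X0 lam2 : ℝ) : ℝ := 2 * (ep D lam2 X0 X0).re / (deriv (Phd D X0 lam2) X0).re

private theorem Phi_norm_real (x y : ℝ) : ‖(x : ℂ) - (y : ℂ)‖ = |x - y| := by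
  rw [← Complex.ofReal_sub, Complex.norm_real, Real.norm_eq_abs]

private theorem Phi_bd {D : Dat} {lam1 : ℝ} (h : Crit D lam1) {X Y : ℂ} (hX : ‖X - (Real.pi / 2 : ℝ)‖ ≤ 1 / 2)
    (hY : ‖Y - (Real.pi / 2 : ℝ)‖ ≤ 1 / 2) : Bd D X Y := by
  refine ⟨?_, ?_⟩
  · rw [h.l]; exact hX
  · rw [h.r]; exact hY

private theorem Phi_UU {X0 : ℝ} (hX0 : X0 ∈ UU) : |X0 - Real.pi / 2| ≤ 1 / 10 := by
  rw [abs_le]
  exact ⟨by linarith [hX0.1], by linarith [hX0.2]⟩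

private theorem Phi_X0 {X0 : ℝ} (hX0 : X0 ∈ UU) : ‖(X0 : ℂ) - (Real.pi / 2 : ℝ)‖ < 1 / 2 := by
  rw [Phi_norm_real]
  linarith [Phi_UU hX0]

private theorem Phi_im {X : ℂ} {r : ℝ} (hX : ‖X - (r : ℂ)‖ ≤ 1 / 2) : |X.im| ≤ 1 / 2 := by
  have h1 := Complex.abs_im_le_norm (X - (r : ℂ))
  rw [Complex.sub_im, Complex.ofReal_im, sub_zero] at h1
  exact h1.trans hX

private theorem Phi_first {D : Dat} {lam1 lam lam' X0 : ℝ} (h : Crit D lam1) (hl : |lam - lam1| ≤ 1) (hl' : |lam' - lam1| ≤ 1)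
    (hX0 : X0 ∈ UU) {X Y : ℂ} (hX : ‖X - (Real.pi / 2 : ℝ)‖ ≤ 1 / 2) (hY : ‖Y - (Real.pi / 2 : ℝ)‖ ≤ 1 / 2) :
    ‖sol D lam X X0 1 - sol D lam' Y X0 1‖ ≤ 44 / lam * ‖X - Y‖ + 44 / lam * (6 / 5 * |lam - lam'|) := by
  have h1 := sol_lip h.ref hl hl' (Phi_bd h hX (Phi_X0 hX0).le) (Phi_bd h hY (Phi_X0 hX0).le) 1 (by have := h.ref.hq; omega)
  rw [sub_self, norm_zero, mul_zero, add_zero, pow_one] at h1
  exact h1

private theorem Phi_last {D : Dat} {lam1 lam lam' X0 : ℝ} (h : Crit D lam1) (hl : |lam - lam1| ≤ 1) (hl' : |lam' - lam1| ≤ 1)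
    (hX0 : X0 ∈ UU) {X Y : ℂ} (hX : ‖X - (Real.pi / 2 : ℝ)‖ ≤ 1 / 2) (hY : ‖Y - (Real.pi / 2 : ℝ)‖ ≤ 1 / 2) :
    ‖sol D lam X0 X (D.q - 1) - sol D lam' X0 Y (D.q - 1)‖ ≤ 44 / lam * ‖X - Y‖ + 44 / lam * (6 / 5 * |lam - lam'|) := by
  have hq := h.ref.hq
  have h1 := sol_lip h.ref hl hl' (Phi_bd h (Phi_X0 hX0).le hX) (Phi_bd h (Phi_X0 hX0).le hY) (D.q - 1) (by omega)
  rw [sub_self, norm_zero, mul_zero, zero_add, show D.q - (D.q - 1) = 1 by omega, pow_one] at h1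
  exact h1

theorem Ph_deriv {D : Dat} {lam1 lam X0 : ℝ} (h : Crit D lam1) (hl : |lam - lam1| ≤ 1) (hX0 : X0 ∈ UU) {X : ℂ}
    (hX : ‖X - (Real.pi / 2 : ℝ)‖ < 1 / 2) : HasDerivAt (Ph D X0 lam) (Phd D X0 lam X) X := by
  have h1 : HasDerivAt (fun z => sol D lam z X0 1) (eL D lam X X0) X :=
    one_left h.ref hl (by rw [h.l]; exact hX) (by rw [h.r]; exact (Phi_X0 hX0).le)
  have h2 : HasDerivAt (fun z => sol D lam X0 z (D.q - 1)) (eR D lam X0 X) X :=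
    last_right h.ref hl (by rw [h.l]; exact (Phi_X0 hX0).le) (by rw [h.r]; exact hX)
  have h3 : HasDerivAt (fun z : ℂ => 2 * z) 2 X := by
    simpa using (hasDerivAt_id X).const_mul (2 : ℂ)
  have h4 : HasDerivAt (fun z : ℂ => (lam : ℂ) * Complex.sin z) (lam * Complex.cos X) X :=
    (Complex.hasDerivAt_sin X).const_mul (lam : ℂ)
  exact ((h3.add h4).sub h1).sub h2

private theorem Phi_dd {D : Dat} {lam1 lam X0 : ℝ} (h : Crit D lam1) (hl : |lam - lam1| ≤ 1) (hX0 : X0 ∈ UU) {X : ℂ}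
    (hX : ‖X - (Real.pi / 2 : ℝ)‖ < 1 / 2) : HasDerivAt (Phd D X0 lam)
      (-(lam * Complex.sin X) - deriv (fun z => eL D lam z X0) X - deriv (fun z => eR D lam X0 z) X) X := by
  have h1 : DifferentiableAt ℂ (fun z => eL D lam z X0) X :=
    (e_diff_left h.ref hl (by rw [h.l]; exact hX) (by rw [h.r]; exact (Phi_X0 hX0).le)).2.1
  have h2 : DifferentiableAt ℂ (fun z => eR D lam X0 z) X :=
    (e_diff_right h.ref hl (by rw [h.l]; exact (Phi_X0 hX0).le) (by rw [h.r]; exact hX)).2.2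
  have h4 : HasDerivAt (fun z : ℂ => 2 + (lam : ℂ) * Complex.cos z) (-(lam * Complex.sin X)) X := by
    have h5 := ((Complex.hasDerivAt_cos X).const_mul (lam : ℂ)).const_add (2 : ℂ)
    rw [mul_neg] at h5
    exact h5
  exact (h4.sub h1.hasDerivAt).sub h2.hasDerivAt

theorem Phd_diff {D : Dat} {lam1 lam X0 : ℝ} (h : Crit D lam1) (hl : |lam - lam1| ≤ 1) (hX0 : X0 ∈ UU) {X : ℂ}
    (hX : ‖X - (Real.pi / 2 : ℝ)‖ < 1 / 2) : DifferentiableAt ℂ (Phd D X0 lam) X :=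
  (Phi_dd h hl hX0 hX).differentiableAt

theorem Ph_lip {D : Dat} {lam1 lam X0 : ℝ} (h : Crit D lam1) (hl : |lam - lam1| ≤ 1) (hX0 : X0 ∈ UU) {X Y : ℂ}
    (hX : ‖X - (Real.pi / 2 : ℝ)‖ ≤ 1 / 2) (hY : ‖Y - (Real.pi / 2 : ℝ)‖ ≤ 1 / 2) : ‖Ph D X0 lam X - Ph D X0 lam Y‖ ≤ 2 * lam * ‖X - Y‖ := by
  have hlam := lam_large h.ref hl
  have hlam0 : 0 < lam := by norm_num at hlam ⊢; linarith
  have h1 := Phi_first h hl hl hX0 hX hY
  have h2 := Phi_last h hl hl hX0 hX hY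
  rw [sub_self, abs_zero, mul_zero, mul_zero, add_zero] at h1 h2
  have h3 := sin_lip (Phi_im hX) (Phi_im hY)
  have h4 : Ph D X0 lam X - Ph D X0 lam Y = (2 * (X - Y) + lam * (Complex.sin X - Complex.sin Y)) -
      (sol D lam X X0 1 - sol D lam Y X0 1) - (sol D lam X0 X (D.q - 1) - sol D lam X0 Y (D.q - 1)) := by
    unfold Ph; ring
  have h5 : ‖(2 : ℂ) * (X - Y)‖ = 2 * ‖X - Y‖ := by
    rw [norm_mul, Complex.norm_ofNat]
  have h6 : ‖(lam : ℂ) * (Complex.sin X - Complex.sin Y)‖ ≤ lam * (6 / 5 * ‖X - Y‖) := by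
    rw [norm_mul, Complex.norm_real, Real.norm_eq_abs, abs_of_pos hlam0]
    exact mul_le_mul_of_nonneg_left h3 hlam0.le
  rw [h4]
  have h7 := norm_sub_le (2 * (X - Y) + lam * (Complex.sin X - Complex.sin Y) -
      (sol D lam X X0 1 - sol D lam Y X0 1)) (sol D lam X0 X (D.q - 1) - sol D lam X0 Y (D.q - 1))
  have h8 := norm_sub_le (2 * (X - Y) + lam * (Complex.sin X - Complex.sin Y)) (sol D lam X X0 1 - sol D lam Y X0 1)
  have h9 := norm_add_le (2 * (X - Y)) (lam * (Complex.sin X - Complex.sin Y))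
  have h10 : 44 / lam ≤ 1 := by
    rw [div_le_one hlam0]; norm_num at hlam ⊢; linarith
  have h11 : 44 / lam * ‖X - Y‖ ≤ 1 * ‖X - Y‖ := mul_le_mul_of_nonneg_right h10 (norm_nonneg _)
  have h12 : 10 * ‖X - Y‖ ≤ lam * ‖X - Y‖ :=
    mul_le_mul_of_nonneg_right (by norm_num at hlam ⊢; linarith) (norm_nonneg _)
  nlinarith [norm_nonneg (X - Y)]

theorem Ph_lam {D : Dat} {lam1 lam lam' X0 : ℝ} (h : Crit D lam1) (hl : |lam - lam1| ≤ 1) (hl' : |lam' - lam1| ≤ 1) (hX0 : X0 ∈ UU) {X : ℂ}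
    (hX : ‖X - (Real.pi / 2 : ℝ)‖ ≤ 1 / 2) : ‖Ph D X0 lam X - Ph D X0 lam' X‖ ≤ 2 * |lam - lam'| := by
  have hlam := lam_large h.ref hl
  have hlam0 : 0 < lam := by norm_num at hlam ⊢; linarith
  have h1 := Phi_first h hl hl' hX0 hX hX
  have h2 := Phi_last h hl hl' hX0 hX hX
  rw [sub_self, norm_zero, mul_zero, zero_add] at h1 h2
  have h3 := norm_sin_le (Phi_im hX)
  have h4 : Ph D X0 lam X - Ph D X0 lam' X = ((lam : ℂ) - lam') * Complex.sin X -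
      (sol D lam X X0 1 - sol D lam' X X0 1) - (sol D lam X0 X (D.q - 1) - sol D lam' X0 X (D.q - 1)) := by
    unfold Ph; ring
  have h6 : ‖((lam : ℂ) - lam') * Complex.sin X‖ ≤ |lam - lam'| * (6 / 5) := by
    rw [norm_mul, Phi_norm_real]
    exact mul_le_mul_of_nonneg_left h3 (abs_nonneg _)
  rw [h4]
  have h7 := norm_sub_le (((lam : ℂ) - lam') * Complex.sin X -
      (sol D lam X X0 1 - sol D lam' X X0 1)) (sol D lam X0 X (D.q - 1) - sol D lam' X0 X (D.q - 1))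
  have h8 := norm_sub_le (((lam : ℂ) - lam') * Complex.sin X) (sol D lam X X0 1 - sol D lam' X X0 1)
  have h10 : 44 / lam ≤ 1 / 10 := by
    rw [div_le_iff₀ hlam0]; norm_num at hlam ⊢; linarith
  have h11 : 44 / lam * (6 / 5 * |lam - lam'|) ≤ 1 / 10 * (6 / 5 * |lam - lam'|) :=
    mul_le_mul_of_nonneg_right h10 (by positivity)
  have := abs_nonneg (lam - lam')
  linarith

private theorem Phi_real {D : Dat} {lam1 lam X0 : ℝ} (h : Crit D lam1) (hl : |lam - lam1| ≤ 1) (hX0 : X0 ∈ UU) {X : ℝ}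
    (hX : |X - Real.pi / 2| ≤ 1 / 2) : Ph D X0 lam X =
      ((2 * X + lam * Real.sin X - (sol D lam X X0 1).re - (sol D lam X0 X (D.q - 1)).re : ℝ) : ℂ) := by
  have hX' : ‖(X : ℂ) - (Real.pi / 2 : ℝ)‖ ≤ 1 / 2 := by rw [Phi_norm_real]; exact hX
  have hq := h.ref.hq
  have h1 := sol_real h.ref hl (Phi_bd h hX' (Phi_X0 hX0).le) 1 (by omega)
  have h2 := sol_real h.ref hl (Phi_bd h (Phi_X0 hX0).le hX') (D.q - 1) (by omega)
  unfold Ph
  push_cast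
  rw [h1, h2]

theorem Ph_im {D : Dat} {lam1 lam X0 : ℝ} (h : Crit D lam1) (hl : |lam - lam1| ≤ 1) (hX0 : X0 ∈ UU) {X : ℝ}
    (hX : |X - Real.pi / 2| ≤ 1 / 2) : (Ph D X0 lam X).im = 0 := by
  rw [Phi_real h hl hX0 hX, Complex.ofReal_im]

private theorem Phi_hl {D : Dat} {lam1 lam2 X0 : ℝ} (T : Tun D lam1 lam2 X0) : |lam2 - lam1| ≤ 1 := by
  linarith [T.hl]

theorem Ph_zero {D : Dat} {lam1 lam2 X0 : ℝ} (T : Tun D lam1 lam2 X0) : Ph D X0 lam2 X0 = 0 := by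
  rw [Phi_real T.crit (Phi_hl T) T.hX (by linarith [Phi_UU T.hX])]
  have h1 := T.hR
  unfold Rr at h1
  rw [h1, Complex.ofReal_zero]

private theorem Phi_dreal {D : Dat} {lam1 lam X0 : ℝ} (h : Crit D lam1) (hl : |lam - lam1| ≤ 1) (hX0 : X0 ∈ UU) {X : ℝ}
    (hX : |X - Real.pi / 2| ≤ 1 / 2) : Phd D X0 lam X =
      ((2 + lam * Real.cos X - (eL D lam X X0).re - (eR D lam X0 X).re : ℝ) : ℂ) := by
  have hX' : ‖(X : ℂ) - (Real.pi / 2 : ℝ)‖ ≤ 1 / 2 := by rw [Phi_norm_real]; exact hX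
  have h1 := (ep_real h.ref hl (Phi_bd h hX' (Phi_X0 hX0).le)).2.1
  have h2 := (ep_real h.ref hl (Phi_bd h (Phi_X0 hX0).le hX')).2.2
  unfold Phd
  push_cast
  rw [h1, h2]

theorem Phd_zero {D : Dat} {lam1 lam2 X0 : ℝ} (T : Tun D lam1 lam2 X0) : Phd D X0 lam2 X0 = 2 * KLF.cc * ep D lam2 X0 X0 := by
  rw [Phi_dreal T.crit (Phi_hl T) T.hX (by linarith [Phi_UU T.hX])]
  have h1 := T.hQ
  unfold Qf at h1
  have h2 : 2 + lam2 * Real.cos X0 - (eL D lam2 X0 X0).re - (eR D lam2 X0 X0).re = 2 * KLF.cc * (ep D lam2 X0 X0).re := by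
    linarith
  rw [h2]
  push_cast
  rw [(ep_real T.crit.ref (Phi_hl T) (Phi_bd T.crit (Phi_X0 T.hX).le (Phi_X0 T.hX).le)).1]

private theorem Phi_imd {F : ℝ → ℂ} {d : ℂ} {x : ℝ} (h : HasDerivAt F d x) : HasDerivAt (fun t => (F t).im) d.im x := by
  have h1 := (Complex.imCLM.hasFDerivAt (x := F x)).comp_hasDerivAt x h
  exact h1

theorem Phdd {D : Dat} {lam1 lam2 X0 : ℝ} (T : Tun D lam1 lam2 X0) :
    ‖deriv (Phd D X0 lam2) X0 + lam2 * Real.sin X0‖ ≤ 2 ∧ (deriv (Phd D X0 lam2) X0).im = 0 := by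
  have h := T.crit
  have hl := Phi_hl T
  have hX0 := T.hX
  have hd := Phi_dd h hl hX0 (Phi_X0 hX0)
  have hb0 : Bd D X0 X0 := Phi_bd h (Phi_X0 hX0).le (Phi_X0 hX0).le
  have hnear : ∀ᶠ z : ℂ in nhds (X0 : ℂ), ‖z - (Real.pi / 2 : ℝ)‖ < 1 / 2 := by
    have hc : ContinuousAt (fun z : ℂ => ‖z - (Real.pi / 2 : ℝ)‖) (X0 : ℂ) := by fun_prop
    exact hc.eventually (Iio_mem_nhds (Phi_X0 hX0))
  constructor
  · have h1 : DifferentiableAt ℂ (fun z => eL D lam2 z X0) X0 :=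
      (e_diff_left h.ref hl (by rw [h.l]; exact Phi_X0 hX0) (by rw [h.r]; exact (Phi_X0 hX0).le)).2.1
    have h2 : DifferentiableAt ℂ (fun z => eR D lam2 X0 z) X0 :=
      (e_diff_right h.ref hl (by rw [h.l]; exact (Phi_X0 hX0).le) (by rw [h.r]; exact Phi_X0 hX0)).2.2
    have h3 : ‖deriv (fun z => eL D lam2 z X0) X0‖ ≤ 1 := by
      refine h1.hasDerivAt.le_of_lip' zero_le_one ?_
      filter_upwards [hnear] with z hz
      have h4 := (eLR_lip h.ref hl (Phi_bd h hz.le (Phi_X0 hX0).le) hb0).1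
      rw [sub_self, norm_zero, add_zero] at h4
      rw [one_mul]
      exact h4
    have h5 : ‖deriv (fun z => eR D lam2 X0 z) X0‖ ≤ 1 := by
      refine h2.hasDerivAt.le_of_lip' zero_le_one ?_
      filter_upwards [hnear] with z hz
      have h4 := (eLR_lip h.ref hl (Phi_bd h (Phi_X0 hX0).le hz.le) hb0).2.1
      rw [sub_self, norm_zero, zero_add] at h4
      rw [one_mul]
      exact h4
    rw [hd.deriv, Complex.ofReal_sin]
    have h6 : -(lam2 * Complex.sin X0) - deriv (fun z => eL D lam2 z X0) X0 - deriv (fun z => eR D lam2 X0 z) X0 +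
        lam2 * Complex.sin X0 = -(deriv (fun z => eL D lam2 z X0) X0 + deriv (fun z => eR D lam2 X0 z) X0) := by ring
    rw [h6, norm_neg]
    have h7 := norm_add_le (deriv (fun z => eL D lam2 z X0) X0) (deriv (fun z => eR D lam2 X0 z) X0)
    linarith
  · have h1 : HasDerivAt (fun t : ℝ => Phd D X0 lam2 (t : ℂ)) (deriv (Phd D X0 lam2) X0) X0 :=
      (hd.differentiableAt.hasDerivAt).comp_ofReal
    have h2 : HasDerivAt (fun t : ℝ => (Phd D X0 lam2 (t : ℂ)).im) (deriv (Phd D X0 lam2) X0).im X0 :=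
      Phi_imd h1
    have h3 : HasDerivAt (fun t : ℝ => (Phd D X0 lam2 (t : ℂ)).im) 0 X0 := by
      refine (hasDerivAt_const X0 (0 : ℝ)).congr_of_eventuallyEq ?_
      have hc : ContinuousAt (fun t : ℝ => |t - Real.pi / 2|) X0 := by fun_prop
      have hn : ∀ᶠ t : ℝ in nhds X0, |t - Real.pi / 2| < 1 / 2 :=
        hc.eventually (Iio_mem_nhds (by linarith [Phi_UU hX0]))
      filter_upwards [hn] with t ht
      rw [Phi_dreal h hl hX0 ht.le, Complex.ofReal_im]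
    exact h2.unique h3

theorem sgm_bounds {D : Dat} {lam1 lam2 X0 : ℝ} (T : Tun D lam1 lam2 X0) : sgm D X0 lam2 ≠ 0 ∧
    ‖ep D lam2 X0 X0‖ / lam2 ≤ |sgm D X0 lam2| ∧ |sgm D X0 lam2| ≤ 4 * ‖ep D lam2 X0 X0‖ / lam2 ∧ |sgm D X0 lam2| ≤ 1 / 1000 := by
  have h := T.crit
  have hl := Phi_hl T
  have hX0 := T.hX
  have hb0 : Bd D X0 X0 := Phi_bd h (Phi_X0 hX0).le (Phi_X0 hX0).le
  have hlam := lam_large h.ref hl
  have hlam0 : 0 < lam2 := by norm_num at hlam ⊢; linarith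
  have hlam9 : (90000000 : ℝ) ≤ lam2 := by norm_num at hlam ⊢; linarith
  have hep := ep_ne h.ref hl hb0
  have hepr := (ep_real h.ref hl hb0).1
  have hepn : ‖ep D lam2 X0 X0‖ = |(ep D lam2 X0 X0).re| := by
    rw [← Real.norm_eq_abs, ← Complex.norm_real, hepr]
  have hepos : 0 < |(ep D lam2 X0 X0).re| := by
    rw [← hepn]; exact norm_pos_iff.2 hep
  have hep1 : |(ep D lam2 X0 X0).re| ≤ 1 := by
    rw [← hepn]
    refine (ep_upper h.ref hl hb0).trans (pow_le_one₀ (by positivity) ?_)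
    rw [div_le_one hlam0]; linarith
  obtain ⟨d, hd⟩ : ∃ d, d = (deriv (Phd D X0 lam2) X0).re := ⟨_, rfl⟩
  have hd1 : |d + lam2 * Real.sin X0| ≤ 2 := by
    have h1 := Complex.abs_re_le_norm (deriv (Phd D X0 lam2) X0 + lam2 * Real.sin X0)
    rw [Complex.add_re, ← Complex.ofReal_mul, Complex.ofReal_re, ← hd, Complex.ofReal_mul] at h1
    exact h1.trans (Phdd T).1
  have hsin : 99 / 100 ≤ Real.sin X0 := by
    have h1 : Real.sin X0 = Real.cos (X0 - Real.pi / 2) := by rw [Real.cos_sub_pi_div_two]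
    rw [h1]
    have h2 := Real.one_sub_sq_div_two_le_cos (x := X0 - Real.pi / 2)
    have h3 := Phi_UU hX0
    have h4 : (X0 - Real.pi / 2) ^ 2 ≤ (1 / 10) ^ 2 := by
      rw [← sq_abs]
      exact pow_le_pow_left₀ (abs_nonneg _) h3 2
    norm_num at h4
    linarith
  have hsin1 := Real.sin_le_one X0
  have hd2 := abs_le.1 hd1
  have hprod : 99 / 100 * lam2 ≤ lam2 * Real.sin X0 := by nlinarith
  have hprod1 : lam2 * Real.sin X0 ≤ lam2 := by nlinarith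
  have hdneg : d < 0 := by linarith [hd2.2]
  have hdabs : |d| = -d := abs_of_neg hdneg
  have hdlo : lam2 / 2 ≤ |d| := by rw [hdabs]; linarith [hd2.2]
  have hdhi : |d| ≤ 2 * lam2 := by rw [hdabs]; linarith [hd2.1]
  have hdpos : 0 < |d| := by linarith
  have hs : |sgm D X0 lam2| = 2 * |(ep D lam2 X0 X0).re| / |d| := by
    unfold sgm
    rw [← hd, abs_div, abs_mul, abs_of_pos (two_pos : (0 : ℝ) < 2)]
  have hup : |sgm D X0 lam2| ≤ 4 * |(ep D lam2 X0 X0).re| / lam2 := by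
    rw [hs, div_le_div_iff₀ hdpos hlam0]
    nlinarith
  refine ⟨?_, ?_, ?_, ?_⟩
  · intro h0
    rw [h0, abs_zero] at hs
    have : 0 < 2 * |(ep D lam2 X0 X0).re| / |d| := by positivity
    linarith
  · rw [hepn, hs, div_le_div_iff₀ hlam0 hdpos]
    nlinarith
  · rw [hepn]; exact hup
  · refine hup.trans ?_
    rw [div_le_iff₀ hlam0]
    linarith

end Pool.Agent.MP31f1e8.KLC
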