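import Pool.Agent.Lib.MP_31f1e8_mp.KLC.Mk

/-!
# KLC-QR: the functions `Rr` and `Qf` on `UU`.

Hypotheses `Crit D lam1`: `Ref D lam1` and both end references are `π/2`. For `X ∈ UU` (real) `Bd D X X` holds. `Rr' = Qf - 2 (1 - c) ep` (`c` a parameter).
PROOFS.
* `Rr_deriv`: `sol_diff` with `X' = X`, `Y' = Y` on the diagonal: `(sol Y Y n - sol X X n)/(Y - X) = (eta B n + th B n)/th B q → (eta AA n + th AA n)/th AA q` as `Y → X` (as in KLC-Hol: `th_tendsto`, `dd_lip`);
  `n = 1`: `eL + ep`; `n = q - 1`: `ep + eR`. Real parts. `Real.sin` has derivative `cos`.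
* `Qf_anti`: `cos X - cos Y ≥ (Y - X) * (9/10)` on `UU` (mean value: `sin ≥ 9/10` as `sin (π/2 ± 1/10) = cos (1/10) ≥ 0.995`), and `eLR_lip` (each of `eL`, `eR`, `ep` changes by at most `2 (Y - X)`,
  `|2c| ≤ 2`: total `≤ 8 (Y - X)`): `Qf X - Qf Y ≥ (0.9 lam - 8)(Y - X) ≥ lam/2 (Y - X)`.
* `Qf_left`: `2 + lam sin (1/10) - 25/lam - 25/lam - 2 ep > 0`, `Qf_right`: `2 - lam sin(1/10) + ... < 0` (`sin (1/10) ≥ 0.099`).
* `Rr_cont`, `Qf_cont`: `sol_cont`, `e_cont` composed with `(lam, X) ↦ (lam, X, X)`.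
* `Rr_lam`: `Rr lam' X - Rr lam X = (lam' - lam) sin X - (differences of sol)`, each `≤ 44/lam * 6/5 |lam' - lam|` (`sol_lip`), `sin X ≥ 0.99`.
* `Rr_root`: if `Qf X = 0` and `Y ∈ UU`, `Y > X`: on `[X, Y]` `Qf ≤ 0` (`Qf_anti`), so `Rr' ≤ 4 (25/lam)^(q-1)` (`ep_upper`) and `Rr Y - Rr X ≤ 4 (25/lam)^(q-1) (1/5)` (`image_sub_le_mul_sub_of_deriv_le` / mean value theorem);
  the same for `Y < X` (there `Qf ≥ 0`, `Rr' ≥ -4 (25/lam)^(q-1)`).
* `Qf_root`: intermediate value theorem.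
-/

namespace Pool.Agent.MP31f1e8.KLC

open Set

/-- period data with critical end sites -/
structure Crit (D : Dat) (lam1 : ℝ) : Prop where
  ref : Ref D lam1
  l : D.xi 0 = Real.pi / 2
  r : D.xi D.q = Real.pi / 2

noncomputable def Qf (D : Dat) (c lam X : ℝ) : ℝ :=
  2 + lam * Real.cos X - (eL D lam X X).re - (eR D lam X X).re - 2 * c * (ep D lam X X).re

theorem crit_bd {D : Dat} {lam1 : ℝ} (h : Crit D lam1) {X X' : ℝ} (hX : |X - Real.pi / 2| ≤ 1 / 2) (hX' : |X' - Real.pi / 2| ≤ 1 / 2) :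
    Bd D X X' := by
  unfold Bd
  rw [h.l, h.r, ← Complex.ofReal_sub, ← Complex.ofReal_sub, Complex.norm_real, Complex.norm_real, Real.norm_eq_abs, Real.norm_eq_abs]
  exact ⟨hX, hX'⟩

private theorem qr_abs {X : ℝ} (hX : X ∈ UU) : |X - Real.pi / 2| ≤ 1 / 10 := by
  unfold UU at hX
  rw [abs_le]
  constructor <;> linarith [hX.1, hX.2]

private theorem qr_bd {D : Dat} {lam1 : ℝ} (h : Crit D lam1) {X : ℝ} (hX : X ∈ UU) : Bd D X X := by
  have := qr_abs hX
  exact crit_bd h (by linarith) (by linarith)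

private theorem qr_sin {X : ℝ} (hX : X ∈ UU) : 99 / 100 ≤ Real.sin X := by
  have h1 := qr_abs hX
  have h2 : Real.sin X = Real.cos (X - Real.pi / 2) := by
    rw [Real.cos_sub_pi_div_two]
  rw [h2]
  have h3 := Real.one_sub_sq_div_two_le_cos (x := X - Real.pi / 2)
  have h4 : (X - Real.pi / 2) ^ 2 ≤ (1 / 10) ^ 2 := sq_le_sq' (by linarith [(abs_le.1 h1).1]) (abs_le.1 h1).2
  nlinarith

private theorem qr_im {z : ℂ} {x : ℝ} (h : ‖z - x‖ ≤ 1 / 1000) : |z.im| ≤ 1 / 2 := by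
  have h1 := Complex.abs_im_le_norm (z - x)
  simp only [Complex.sub_im, Complex.ofReal_im, sub_zero] at h1
  linarith

open Filter Topology in
private theorem qr_dd {ι : Type*} {l : Filter ι} {a b : ι → ℂ} {c : ℂ} (ha : Tendsto a l (𝓝 c)) (hb : Tendsto b l (𝓝 c))
    (ha' : ∀ᶠ i in l, |(a i).im| ≤ 1 / 2) (hb' : ∀ᶠ i in l, |(b i).im| ≤ 1 / 2) (hc : |c.im| ≤ 1 / 2) :
    Tendsto (fun i => dd (a i) (b i)) l (𝓝 (Complex.cos c)) := by
  rw [tendsto_iff_norm_sub_tendsto_zero]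
  have hlim : Tendsto (fun i => 6 / 5 * (‖a i - c‖ + ‖b i - c‖)) l (𝓝 0) := by
    have := ((tendsto_iff_norm_sub_tendsto_zero.1 ha).add (tendsto_iff_norm_sub_tendsto_zero.1 hb)).const_mul (6 / 5)
    simpa using this
  refine squeeze_zero' (Eventually.of_forall fun _ => norm_nonneg _) ?_ hlim
  filter_upwards [ha', hb'] with i h1 h2
  rw [← dd_self]
  exact dd_lip h1 h2 hc hc

open Filter Topology in
private theorem qr_diag {D : Dat} {lam1 lam : ℝ} (h : Ref D lam1) (hl : |lam - lam1| ≤ 1) {X : ℂ}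
    (hX : ‖X - D.xi 0‖ < 1 / 2) (hX' : ‖X - D.xi D.q‖ < 1 / 2) {n : ℕ} (hn : n ≤ D.q) :
    HasDerivAt (fun z => sol D lam z z n) ((th (fun k => AA D lam X X (n + k)) (D.q - n) + th (AA D lam X X) n) /
      th (AA D lam X X) D.q) X := by
  have hb : Bd D X X := ⟨hX.le, hX'.le⟩
  have hev : ∀ᶠ z in 𝓝[≠] X, Bd D z z := by
    have hc : Continuous (fun z : ℂ => ‖z - D.xi 0‖) := (continuous_id.sub continuous_const).norm
    have hc' : Continuous (fun z : ℂ => ‖z - D.xi D.q‖) := (continuous_id.sub continuous_const).norm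
    have h1 := (hc.tendsto X).eventually (gt_mem_nhds hX)
    have h2 := (hc'.tendsto X).eventually (gt_mem_nhds hX')
    filter_upwards [nhdsWithin_le_nhds h1, nhdsWithin_le_nhds h2] with z hz hz'
    exact ⟨le_of_lt hz, le_of_lt hz'⟩
  have hsol : ∀ k ≤ D.q, Tendsto (fun z => sol D lam z z k) (𝓝[≠] X) (𝓝 (sol D lam X X k)) := by
    intro k hk
    rw [tendsto_iff_norm_sub_tendsto_zero]
    have hlim : Tendsto (fun z : ℂ => (44 / lam) ^ k * ‖z - X‖ + (44 / lam) ^ (D.q - k) * ‖z - X‖) (𝓝[≠] X) (𝓝 0) := by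
      have hc : Continuous (fun z : ℂ => (44 / lam) ^ k * ‖z - X‖ + (44 / lam) ^ (D.q - k) * ‖z - X‖) :=
        (continuous_const.mul (continuous_id.sub continuous_const).norm).add
          (continuous_const.mul (continuous_id.sub continuous_const).norm)
      have := hc.tendsto X
      simp only [sub_self, norm_zero, mul_zero, add_zero] at this
      exact this.mono_left nhdsWithin_le_nhds
    refine squeeze_zero' (Eventually.of_forall fun _ => norm_nonneg _) ?_ hlim
    filter_upwards [hev] with z hz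
    have := sol_lip h hl hl hz hb k hk
    simpa using this
  have hB : ∀ k, 1 ≤ k → k < D.q → Tendsto (fun z => 2 + (lam : ℂ) * dd (sol D lam z z k) (sol D lam X X k)) (𝓝[≠] X) (𝓝 (AA D lam X X k)) := by
    intro k h1 hk
    refine Tendsto.const_add _ (Tendsto.const_mul _ ?_)
    refine qr_dd (hsol k hk.le) tendsto_const_nhds ?_ ?_ ?_
    · filter_upwards [hev] with z hz
      exact qr_im ((sol_spec h hl hz).near k h1 hk)
    · exact Eventually.of_forall fun _ => qr_im ((sol_spec h hl hb).near k h1 hk)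
    · exact qr_im ((sol_spec h hl hb).near k h1 hk)
  rw [hasDerivAt_iff_tendsto_slope]
  have hnum := th_tendsto (l := 𝓝[≠] X) (B := fun z k => 2 + (lam : ℂ) * dd (sol D lam z z (n + k)) (sol D lam X X (n + k)))
    (A := fun k => AA D lam X X (n + k)) (q := D.q - n) (fun k h1 hk => hB (n + k) (by omega) (by omega)) (D.q - n) le_rfl
  have hnum2 := th_tendsto (l := 𝓝[≠] X) (B := fun z k => 2 + (lam : ℂ) * dd (sol D lam z z k) (sol D lam X X k))
    (A := AA D lam X X) (q := D.q) hB n hn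
  have hden := th_tendsto (l := 𝓝[≠] X) (B := fun z k => 2 + (lam : ℂ) * dd (sol D lam z z k) (sol D lam X X k))
    (A := AA D lam X X) (q := D.q) hB D.q le_rfl
  refine ((hnum.add hnum2).div hden (th_AA_ne h hl hb)).congr' ?_
  filter_upwards [hev, self_mem_nhdsWithin] with z hz hne
  have hzX : z - X ≠ 0 := sub_ne_zero.2 hne
  have hq := h.hq
  have hlam := lam_large h hl
  have hne' : th (fun k => 2 + (lam : ℂ) * dd (sol D lam z z k) (sol D lam X X k)) D.q ≠ 0 := by
    have h1 := th_one_le (B := fun k => 2 + (lam : ℂ) * dd (sol D lam z z k) (sol D lam X X k)) (q := D.q)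
      (fun n h1 hn => le_trans (by rw [le_div_iff₀ (by norm_num)]; norm_num at *; linarith)
        (coef_sol h hl (sol_spec h hl hz) (sol_spec h hl hb) n h1 hn)) D.q (by omega) le_rfl
    intro h0
    rw [h0, norm_zero] at h1
    exact absurd h1 (by norm_num)
  have hd := sol_diff h hl hz hb n hn
  simp only [slope, vsub_eq_sub, smul_eq_mul, Pi.div_apply]
  rw [div_eq_iff hne', inv_mul_eq_div, div_mul_eq_mul_div, eq_div_iff hzX]
  linear_combination -hd

private theorem qr_th_one {K : Type*} [CommRing K] (B : ℕ → K) : th B 1 = 1 := rfl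

private theorem qr_si_one {K : Type*} [CommRing K] (B : ℕ → K) : si B 1 = 0 := rfl

private theorem qr_norm {D : Dat} {lam1 : ℝ} (h : Crit D lam1) {X : ℝ} (hX : X ∈ UU) :
    ‖(X : ℂ) - D.xi 0‖ < 1 / 2 ∧ ‖(X : ℂ) - D.xi D.q‖ < 1 / 2 := by
  rw [h.l, h.r, ← Complex.ofReal_sub, Complex.norm_real, Real.norm_eq_abs]
  have := qr_abs hX
  constructor <;> linarith

private theorem qr_one {D : Dat} {lam1 lam : ℝ} (h : Crit D lam1) (hl : |lam - lam1| ≤ 1) {X : ℝ} (hX : X ∈ UU) :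
    HasDerivAt (fun z : ℂ => sol D lam z z 1) (eL D lam X X + ep D lam X X) X := by
  have hq := h.ref.hq
  obtain ⟨h1, h2⟩ := qr_norm h hX
  have h3 := qr_diag h.ref hl h1 h2 (n := 1) (by omega)
  have h4 := si_th (AA D lam X X) 1 (D.q - 1)
  rw [qr_si_one, qr_th_one, zero_mul, mul_one, zero_sub, show 1 + (D.q - 1) = D.q by omega] at h4
  rw [← h4, qr_th_one, add_div] at h3
  unfold eL ep
  rwa [neg_div] at h3

private theorem qr_last {D : Dat} {lam1 lam : ℝ} (h : Crit D lam1) (hl : |lam - lam1| ≤ 1) {X : ℝ} (hX : X ∈ UU) :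
    HasDerivAt (fun z : ℂ => sol D lam z z (D.q - 1)) (ep D lam X X + eR D lam X X) X := by
  have hq := h.ref.hq
  obtain ⟨h1, h2⟩ := qr_norm h hX
  have h3 := qr_diag h.ref hl h1 h2 (n := D.q - 1) (by omega)
  rw [show D.q - (D.q - 1) = 1 by omega, qr_th_one, add_div] at h3
  exact h3

theorem Rr_deriv {D : Dat} {lam1 lam c : ℝ} (h : Crit D lam1) (hl : |lam - lam1| ≤ 1) {X : ℝ} (hX : X ∈ UU) :
    HasDerivAt (Rr D lam) (Qf D c lam X - 2 * (1 - c) * (ep D lam X X).re) X := by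
  have h1 := (qr_one h hl hX).real_of_complex
  have h2 := (qr_last h hl hX).real_of_complex
  have h3 : HasDerivAt (fun x : ℝ => 2 * x + lam * Real.sin x) (2 + lam * Real.cos X) X := by
    have := ((hasDerivAt_id' X).const_mul (2 : ℝ)).fun_add ((Real.hasDerivAt_sin X).const_mul lam)
    rwa [mul_one] at this
  have h4 := (h3.sub h1).sub h2
  have h5 : Qf D c lam X - 2 * (1 - c) * (ep D lam X X).re = 2 + lam * Real.cos X - (eL D lam X X + ep D lam X X).re -
      (ep D lam X X + eR D lam X X).re := by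
    unfold Qf
    simp only [Complex.add_re]
    ring
  rw [h5]
  exact h4

private theorem qr_re (z w : ℂ) : |z.re - w.re| ≤ ‖z - w‖ := by
  have := Complex.abs_re_le_norm (z - w)
  rwa [Complex.sub_re] at this

theorem Qf_anti {D : Dat} {lam1 lam c : ℝ} (h : Crit D lam1) (hl : |lam - lam1| ≤ 1) (hc : |c| ≤ 1) {X Y : ℝ} (hX : X ∈ UU) (hY : Y ∈ UU)
    (hXY : X ≤ Y) : lam / 2 * (Y - X) ≤ Qf D c lam X - Qf D c lam Y := by
  have hlam := lam_large h.ref hl
  have h1 : 99 / 100 * (Y - X) ≤ -Real.cos Y - -Real.cos X := by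
    have hconv : Convex ℝ UU := convex_Icc _ _
    refine hconv.mul_sub_le_image_sub_of_le_deriv (f := fun x => -Real.cos x) (Real.continuous_cos.neg.continuousOn)
      (Real.differentiable_cos.neg.differentiableOn) (fun x hx => ?_) X hX Y hY hXY
    have h2 : deriv (fun x => -Real.cos x) x = Real.sin x := by
      simp
    rw [h2]
    exact qr_sin (interior_subset hx)
  obtain ⟨hL, hR, hE⟩ := eLR_lip h.ref hl (qr_bd h hX) (qr_bd h hY)
  have hn : ‖(X : ℂ) - Y‖ = Y - X := by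
    rw [← Complex.ofReal_sub, Complex.norm_real, Real.norm_eq_abs, abs_sub_comm, abs_of_nonneg (by linarith)]
  rw [hn] at hL hR hE
  have hL' := abs_le.1 ((qr_re _ _).trans hL)
  have hR' := abs_le.1 ((qr_re _ _).trans hR)
  have hE' := (qr_re _ _).trans hE
  have h4 : |c * ((ep D lam X X).re - (ep D lam Y Y).re)| ≤ 1 * ((Y - X) + (Y - X)) := by
    rw [abs_mul]
    exact mul_le_mul hc hE' (abs_nonneg _) (by norm_num)
  have h4' := abs_le.1 h4
  have h5 : Qf D c lam X - Qf D c lam Y = lam * (-Real.cos Y - -Real.cos X) - ((eL D lam X X).re - (eL D lam Y Y).re) -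
      ((eR D lam X X).re - (eR D lam Y Y).re) - 2 * (c * ((ep D lam X X).re - (ep D lam Y Y).re)) := by
    unfold Qf
    ring
  rw [h5]
  have hlam0 : (0 : ℝ) ≤ lam := by norm_num at hlam; linarith
  have h6 : lam * (99 / 100 * (Y - X)) ≤ lam * (-Real.cos Y - -Real.cos X) := mul_le_mul_of_nonneg_left h1 hlam0
  have h7 : 0 ≤ (lam * (49 / 100) - 8) * (Y - X) := mul_nonneg (by norm_num at hlam; linarith) (by linarith)
  nlinarith [hL'.2, hR'.2, h4'.2]

private theorem qr_bounds {D : Dat} {lam1 lam : ℝ} (h : Crit D lam1) (hl : |lam - lam1| ≤ 1) {X : ℝ} (hX : X ∈ UU) :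
    |(eL D lam X X).re| ≤ 1 ∧ |(eR D lam X X).re| ≤ 1 ∧ |(ep D lam X X).re| ≤ (25 / lam) ^ (D.q - 1) ∧
      (25 / lam) ^ (D.q - 1) ≤ 1 := by
  have hlam := lam_large h.ref hl
  have hb := qr_bd h hX
  have hpos : (0 : ℝ) < lam := by norm_num at hlam; linarith
  have h1 : 25 / lam ≤ 1 := by
    rw [div_le_one hpos]
    norm_num at hlam
    linarith
  refine ⟨(Complex.abs_re_le_norm _).trans ((eL_upper h.ref hl hb).trans h1),
    (Complex.abs_re_le_norm _).trans ((eR_upper h.ref hl hb).trans h1),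
    (Complex.abs_re_le_norm _).trans (ep_upper h.ref hl hb), pow_le_one₀ (by positivity) h1⟩

theorem Qf_ends {D : Dat} {lam1 lam c : ℝ} (h : Crit D lam1) (hl : |lam - lam1| ≤ 1) (hc : |c| ≤ 1) :
    0 < Qf D c lam (Real.pi / 2 - 1 / 10) ∧ Qf D c lam (Real.pi / 2 + 1 / 10) < 0 := by
  have hlam := lam_large h.ref hl
  have hlam' : (90000000 : ℝ) ≤ lam := by norm_num at hlam; linarith
  have hs : 9 / 100 ≤ Real.sin (1 / 10) := by
    have := Real.sin_gt_sub_cube (x := 1 / 10) (by norm_num)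
    norm_num at this
    norm_num
    linarith
  have key : ∀ X ∈ UU, |Qf D c lam X - lam * Real.cos X - 2| ≤ 4 := by
    intro X hX
    obtain ⟨h1, h2, h3, h4⟩ := qr_bounds h hl hX
    have h5 : |c * (ep D lam X X).re| ≤ 1 * 1 := by
      rw [abs_mul]
      exact mul_le_mul hc (h3.trans h4) (abs_nonneg _) (by norm_num)
    have h1' := abs_le.1 h1
    have h2' := abs_le.1 h2
    have h5' := abs_le.1 h5
    unfold Qf
    rw [abs_le]
    constructor <;> linarith
  have hm1 : Real.pi / 2 - 1 / 10 ∈ UU := ⟨le_rfl, by linarith⟩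
  have hm2 : Real.pi / 2 + 1 / 10 ∈ UU := ⟨by linarith, le_rfl⟩
  have k1 := abs_le.1 (key _ hm1)
  have k2 := abs_le.1 (key _ hm2)
  rw [Real.cos_pi_div_two_sub] at k1
  rw [Real.cos_add, Real.cos_pi_div_two, Real.sin_pi_div_two] at k2
  have h6 : lam * (9 / 100) ≤ lam * Real.sin (1 / 10) := mul_le_mul_of_nonneg_left hs (by linarith)
  constructor
  · linarith [k1.1]
  · have := k2.2
    nlinarith

private def qrG (p : ℝ × ℝ) : ℝ × ℂ × ℂ := (p.1, (p.2 : ℂ), (p.2 : ℂ))

private theorem qrG_cont : Continuous qrG :=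
  continuous_fst.prodMk ((Complex.continuous_ofReal.comp continuous_snd).prodMk (Complex.continuous_ofReal.comp continuous_snd))

private theorem qrG_maps {D : Dat} {lam1 : ℝ} (h : Crit D lam1) : MapsTo qrG (Icc (lam1 - 1) (lam1 + 1) ×ˢ UU)
      {p | |p.1 - lam1| ≤ 1 ∧ Bd D p.2.1 p.2.2} := by
  intro p hp
  have h1 := hp.1
  have h2 := qr_bd h hp.2
  have h3 : |p.1 - lam1| ≤ 1 := by
    rw [abs_le]
    constructor <;> linarith [h1.1, h1.2]
  exact ⟨h3, h2⟩

private theorem qr_comp {D : Dat} {lam1 : ℝ} (h : Crit D lam1) {F : ℝ × ℂ × ℂ → ℂ}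
    (hF : ContinuousOn F {p | |p.1 - lam1| ≤ 1 ∧ Bd D p.2.1 p.2.2}) :
    ContinuousOn (fun p : ℝ × ℝ => (F (qrG p)).re) (Icc (lam1 - 1) (lam1 + 1) ×ˢ UU) :=
  Complex.continuous_re.comp_continuousOn (hF.comp qrG_cont.continuousOn (qrG_maps h))

theorem QR_cont {D : Dat} {lam1 : ℝ} (c : ℝ) (h : Crit D lam1) :
    ContinuousOn (fun p : ℝ × ℝ => Rr D p.1 p.2) (Icc (lam1 - 1) (lam1 + 1) ×ˢ UU) ∧
      ContinuousOn (fun p : ℝ × ℝ => Qf D c p.1 p.2) (Icc (lam1 - 1) (lam1 + 1) ×ˢ UU) := by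
  have hq := h.ref.hq
  have hs1 := qr_comp h (sol_cont h.ref (show 1 ≤ D.q by omega))
  have hs2 := qr_comp h (sol_cont h.ref (show D.q - 1 ≤ D.q by omega))
  obtain ⟨he, hL, hR⟩ := e_cont h.ref
  have he' := qr_comp h he
  have hL' := qr_comp h hL
  have hR' := qr_comp h hR
  have h1 : Continuous (fun p : ℝ × ℝ => 2 * p.2 + p.1 * Real.sin p.2) := by fun_prop
  have h2 : Continuous (fun p : ℝ × ℝ => 2 + p.1 * Real.cos p.2) := by fun_prop
  constructor
  · exact (h1.continuousOn.sub hs1).sub hs2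
  · exact ((h2.continuousOn.sub hL').sub hR').sub (continuousOn_const.mul he')

theorem Rr_lam {D : Dat} {lam1 lam lam' : ℝ} (h : Crit D lam1) (hl : |lam - lam1| ≤ 1) (hl' : |lam' - lam1| ≤ 1) (hll : lam ≤ lam') {X : ℝ}
    (hX : X ∈ UU) : (lam' - lam) / 2 ≤ Rr D lam' X - Rr D lam X := by
  have hq := h.ref.hq
  have hlam := lam_large h.ref hl
  have hlam' : (90000000 : ℝ) ≤ lam := by norm_num at hlam; linarith
  have hb := qr_bd h hX
  have hs : ∀ n ≤ D.q, |(sol D lam X X n).re - (sol D lam' X X n).re| ≤ (lam' - lam) / 100 := by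
    intro n hn
    have h1 := sol_lip h.ref hl hl' hb hb n hn
    rw [sub_self, norm_zero, mul_zero, mul_zero, add_zero, zero_add, abs_sub_comm lam lam', abs_of_nonneg (by linarith : 0 ≤ lam' - lam)] at h1
    refine ((qr_re _ _).trans h1).trans ?_
    have h2 : 44 / lam ≤ 1 / 1000 := by
      rw [div_le_iff₀ (by linarith)]
      linarith
    have h3 : 44 / lam * (6 / 5 * (lam' - lam)) ≤ 1 / 1000 * (6 / 5 * (lam' - lam)) :=
      mul_le_mul_of_nonneg_right h2 (by linarith)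
    linarith
  have h1 := abs_le.1 (hs 1 (by omega))
  have h2 := abs_le.1 (hs (D.q - 1) (by omega))
  have h3 := qr_sin hX
  have h4 : (lam' - lam) * (99 / 100) ≤ (lam' - lam) * Real.sin X := mul_le_mul_of_nonneg_left h3 (by linarith)
  unfold Rr
  nlinarith [h1.1, h2.1]

theorem Qf_root {D : Dat} {lam1 lam c : ℝ} (h : Crit D lam1) (hl : |lam - lam1| ≤ 1) (hc : |c| ≤ 1) : ∃ X ∈ UU, Qf D c lam X = 0 := by
  obtain ⟨h1, h2⟩ := Qf_ends h hl hc
  have hcont : ContinuousOn (fun X : ℝ => Qf D c lam X) UU := by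
    have h3 := (QR_cont c h).2
    refine h3.comp (f := fun X : ℝ => ((lam, X) : ℝ × ℝ)) (by fun_prop) ?_
    intro X hX
    refine ⟨?_, hX⟩
    have := abs_le.1 hl
    exact ⟨by simp only; linarith [this.1], by simp only; linarith [this.2]⟩
  have h4 := intermediate_value_Icc' (a := Real.pi / 2 - 1 / 10) (b := Real.pi / 2 + 1 / 10) (by linarith) hcont
  obtain ⟨X, hX, hX0⟩ := h4 ⟨h2.le, h1.le⟩
  exact ⟨X, hX, hX0⟩

theorem Rr_root {D : Dat} {lam1 lam c : ℝ} (h : Crit D lam1) (hl : |lam - lam1| ≤ 1) (hc : |c| ≤ 1) {X Y : ℝ} (hX : X ∈ UU) (hY : Y ∈ UU)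
    (hQ : Qf D c lam X = 0) : Rr D lam Y ≤ Rr D lam X + (25 / lam) ^ (D.q - 1) := by
  have hlam := lam_large h.ref hl
  have hlam' : (90000000 : ℝ) ≤ lam := by norm_num at hlam; linarith
  set E : ℝ := (25 / lam) ^ (D.q - 1) with hE
  have hE0 : 0 ≤ E := by positivity
  have hder : ∀ x ∈ UU, deriv (Rr D lam) x = Qf D c lam x - 2 * (1 - c) * (ep D lam x x).re := fun x hx =>
    (Rr_deriv h hl hx).deriv
  have hcon : ContinuousOn (Rr D lam) UU := fun x hx => (Rr_deriv (c := c) h hl hx).continuousAt.continuousWithinAt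
  have hdif : ∀ x ∈ UU, DifferentiableAt ℝ (Rr D lam) x := fun x hx => (Rr_deriv (c := c) h hl hx).differentiableAt
  have hsmall : ∀ x ∈ UU, |2 * (1 - c) * (ep D lam x x).re| ≤ 4 * E := by
    intro x hx
    obtain ⟨-, -, h3, -⟩ := qr_bounds h hl hx
    have h5 : |2 * (1 - c)| ≤ 4 := by
      have := abs_le.1 hc
      rw [abs_le]
      constructor <;> linarith [this.1, this.2]
    rw [abs_mul]
    exact mul_le_mul h5 h3 (abs_nonneg _) (by norm_num)
  rcases le_total X Y with hXY | hXY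
  · have hsub : Icc X Y ⊆ UU := fun x hx => ⟨hX.1.trans hx.1, hx.2.trans hY.2⟩
    have h1 := (convex_Icc X Y).image_sub_le_mul_sub_of_deriv_le (f := Rr D lam) (hcon.mono hsub)
      (fun x hx => (hdif x (hsub (interior_subset hx))).differentiableWithinAt) (C := 4 * E)
      (fun x hx => by
        have hx' := hsub (interior_subset hx)
        have hx2 := interior_subset hx
        rw [hder x hx']
        have h2 := Qf_anti h hl hc hX hx' hx2.1
        have h3 : 0 ≤ lam / 2 * (x - X) := mul_nonneg (by linarith) (by linarith [hx2.1])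
        have h4 := (abs_le.1 (hsmall x hx')).1
        linarith) X ⟨le_rfl, hXY⟩ Y ⟨hXY, le_rfl⟩ hXY
    have h5 : Y - X ≤ 1 / 5 := by
      have := hX.1
      have := hY.2
      linarith
    have h6 : 4 * E * (Y - X) ≤ 4 * E * (1 / 5) := mul_le_mul_of_nonneg_left h5 (by linarith)
    linarith
  · have hsub : Icc Y X ⊆ UU := fun x hx => ⟨hY.1.trans hx.1, hx.2.trans hX.2⟩
    have h1 := (convex_Icc Y X).mul_sub_le_image_sub_of_le_deriv (f := Rr D lam) (hcon.mono hsub)
      (fun x hx => (hdif x (hsub (interior_subset hx))).differentiableWithinAt) (C := -(4 * E))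
      (fun x hx => by
        have hx' := hsub (interior_subset hx)
        have hx2 := interior_subset hx
        rw [hder x hx']
        have h2 := Qf_anti h hl hc hx' hX hx2.2
        have h3 : 0 ≤ lam / 2 * (X - x) := mul_nonneg (by linarith) (by linarith [hx2.2])
        have h4 := (abs_le.1 (hsmall x hx')).2
        linarith) Y ⟨le_rfl, hXY⟩ X ⟨hXY, le_rfl⟩ hXY
    have h5 : X - Y ≤ 1 / 5 := by
      have := hY.1
      have := hX.2
      linarith
    have h6 : 4 * E * (X - Y) ≤ 4 * E * (1 / 5) := mul_le_mul_of_nonneg_left h5 (by linarith)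
    linarith

end Pool.Agent.MP31f1e8.KLC
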