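import Pool.Agent.Lib.MP_31f1e8_mp.KLC.SaX

/-!
# KLC-SaGeo: the sites as functions of `u`, `u'`: monotone at the well, decay.
-/

namespace Pool.Agent.MP31f1e8.KLC

open Set

theorem sageo_left {B d : ℕ → ℝ} {q : ℕ} (h : Rec B 0 q d) (hq : d q = 0) {n : ℕ} (hn : n ≤ q) :
    d n * th (fun k => B (q - k)) q = d 0 * th (fun k => B (q - k)) (q - n) := by
  have h1 : Rec (fun k => B (q - k)) 0 q (fun k => d (q - k)) := by
    intro k hk
    have h2 := h (q - (k + 2)) (by omega)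
    have e1 : q - (k + 2) + 2 = q - k := by omega
    have e2 : q - (k + 2) + 1 = q - (k + 1) := by omega
    rw [e1, e2] at h2
    show d (q - (k + 2)) + d (q - k) = B (q - (k + 1)) * d (q - (k + 1)) + 0
    have h3 : (0 : ℕ → ℝ) (q - (k + 1)) = 0 := rfl
    rw [h3] at h2
    linarith
  have h2 := rec_repr h1
  have h3 := h2 q le_rfl
  have h4 := h2 (q - n) (Nat.sub_le _ _)
  have e0 : d (q - 0) = 0 := by rw [Nat.sub_zero]; exact hq
  simp only [e0, zero_mul, zero_add, Nat.sub_self] at h3 h4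
  have e1 : q - (q - n) = n := by omega
  rw [e1] at h4
  rw [h4, h3]
  ring

theorem sageo_right {B d : ℕ → ℝ} {q : ℕ} (h : Rec B 0 q d) (h0 : d 0 = 0) {n : ℕ} (hn : n ≤ q) :
    d n * th B q = d q * th B n := by
  have h2 := rec_repr h
  have h3 := h2 q le_rfl
  have h4 := h2 n hn
  rw [h0, zero_mul, zero_add] at h3 h4
  rw [h4, h3]
  ring

section

variable {D : Dat} {lam1 lam Xr sg : ℝ}

/-- the reference ratio at the well -/
noncomputable def r0 (D : Dat) (lam Xr sg : ℝ) (w : ℕ) : ℝ :=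
  th (fun k => ar D lam Xr sg (D.q - k)) (D.q - w) / th (fun k => ar D lam Xr sg (D.q - k)) D.q

theorem SaH.cf_two (h : SaH D lam1 lam Xr sg) {u u' v v' : ℝ} (hu : u ∈ Icc (-1 : ℝ) 1)
    (hu' : u' ∈ Icc (-1 : ℝ) 1) (hv : v ∈ Icc (-1 : ℝ) 1) (hv' : v' ∈ Icc (-1 : ℝ) 1) :
    ∀ n, 1 ≤ n → n < D.q → 2 ≤ |cf D lam Xr sg u u' v v' n| := by
  intro n h1 h2
  have h3 := h.cf_lower hu hu' hv hv' h1 h2
  have := h.lam_large
  linarith

theorem SaH.cf_x (h : SaH D lam1 lam Xr sg) {u u' v v' : ℝ} (hu : u ∈ Icc (-1 : ℝ) 1)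
    (hu' : u' ∈ Icc (-1 : ℝ) 1) (hv : v ∈ Icc (-1 : ℝ) 1) (hv' : v' ∈ Icc (-1 : ℝ) 1) :
    ∀ n, 1 ≤ n → n < D.q → 1 + 1 / (25 / lam) ≤ |cf D lam Xr sg u u' v v' n| := by
  intro n h1 h2
  have h3 := h.cf_lower hu hu' hv hv' h1 h2
  have := h.lam_large
  rw [one_div_div]
  linarith

/-- the continuants read backwards are close to the reference -/
theorem SaH.ratio (h : SaH D lam1 lam Xr sg) {u u' v v' : ℝ} (hu : u ∈ Icc (-1 : ℝ) 1)
    (hu' : u' ∈ Icc (-1 : ℝ) 1) (hv : v ∈ Icc (-1 : ℝ) 1) (hv' : v' ∈ Icc (-1 : ℝ) 1) {m : ℕ} (h1 : 1 ≤ m)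
    (h2 : m ≤ D.q) :
    |th (fun k => cf D lam Xr sg u u' v v' (D.q - k)) m / th (fun k => ar D lam Xr sg (D.q - k)) m - 1| ≤
      1 / 1000 := by
  have hl := h.lam_large
  have hl0 : 0 < lam := by linarith
  have hb : ∀ n, 1 ≤ n → n < m → lam / 22 ≤ ‖cf D lam Xr sg u u' v v' (D.q - n)‖ := by
    intro n h3 h4
    exact h.cf_lower hu hu' hv hv' (by omega) (by omega)
  have hb' : ∀ n, 1 ≤ n → n < m → lam / 22 ≤ ‖ar D lam Xr sg (D.q - n)‖ := by
    intro n h3 h4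
    rw [← ar_eq]
    exact h.cf_lower zero_mem1 zero_mem1 zero_mem1 zero_mem1 (by omega) (by omega)
  have hs : ∑ n ∈ Finset.Ico 1 m, ‖cf D lam Xr sg u u' v v' (D.q - n) - ar D lam Xr sg (D.q - n)‖ ≤ 1 := by
    refine le_trans ?_ (h.cf_sum hu hu' hv hv')
    have e1 : ∑ n ∈ Finset.Ico 1 m, ‖cf D lam Xr sg u u' v v' (D.q - n) - ar D lam Xr sg (D.q - n)‖ =
        ∑ n ∈ (Finset.Ico 1 m).image (fun n => D.q - n),
          |cf D lam Xr sg u u' v v' n - ar D lam Xr sg n| := by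
      rw [Finset.sum_image]
      · rfl
      · intro a ha b hb hab
        rw [Finset.mem_coe, Finset.mem_Ico] at ha hb
        have hab' : D.q - a = D.q - b := hab
        omega
    rw [e1]
    refine Finset.sum_le_sum_of_subset_of_nonneg ?_ fun n _ _ => abs_nonneg _
    intro n hn
    obtain ⟨k, hk, rfl⟩ := Finset.mem_image.1 hn
    rw [Finset.mem_Ico] at hk ⊢
    omega
  have h3 := th_ratio_two (β := lam / 22) (S := 1) (by linarith) h1 hb hb' hs (by
    rw [mul_one, div_div_eq_mul_div, div_le_one hl0]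
    linarith)
  rw [Real.norm_eq_abs] at h3
  refine h3.trans ?_
  rw [mul_one, div_div_eq_mul_div, div_le_div_iff₀ hl0 (by norm_num)]
  linarith

theorem SaH.r0_ne (h : SaH D lam1 lam Xr sg) {m : ℕ} (h1 : 1 ≤ m) (h2 : m ≤ D.q) :
    th (fun k => ar D lam Xr sg (D.q - k)) m ≠ 0 := by
  have hb : ∀ n, 1 ≤ n → n < m → 2 ≤ ‖(fun k => ar D lam Xr sg (D.q - k)) n‖ := by
    intro n h3 h4
    show 2 ≤ ‖ar D lam Xr sg (D.q - n)‖
    rw [← ar_eq, Real.norm_eq_abs]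
    exact h.cf_two zero_mem1 zero_mem1 zero_mem1 zero_mem1 _ (by omega) (by omega)
  have := th_one_le hb m h1 le_rfl
  intro h0
  rw [h0, norm_zero] at this
  linarith

/-- the ratio at the well -/
theorem SaH.ratio_w (h : SaH D lam1 lam Xr sg) {u u' v v' : ℝ} (hu : u ∈ Icc (-1 : ℝ) 1)
    (hu' : u' ∈ Icc (-1 : ℝ) 1) (hv : v ∈ Icc (-1 : ℝ) 1) (hv' : v' ∈ Icc (-1 : ℝ) 1) {w : ℕ}
    (hw : w < D.q) : ∃ ρ : ℝ, 1 / 2 ≤ ρ ∧ ρ ≤ 2 ∧
      th (fun k => cf D lam Xr sg u u' v v' (D.q - k)) (D.q - w) /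
        th (fun k => cf D lam Xr sg u u' v v' (D.q - k)) D.q = ρ * r0 D lam Xr sg w := by
  have h1 := h.ratio hu hu' hv hv' (m := D.q - w) (by omega) (Nat.sub_le _ _)
  have h2 := h.ratio hu hu' hv hv' (m := D.q) (by omega) le_rfl
  have n1 := h.r0_ne (m := D.q - w) (by omega) (Nat.sub_le _ _)
  have n2 := h.r0_ne (m := D.q) (by omega) le_rfl
  unfold r0
  set b1 := th (fun k => cf D lam Xr sg u u' v v' (D.q - k)) (D.q - w)
  set b2 := th (fun k => cf D lam Xr sg u u' v v' (D.q - k)) D.q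
  set a1 := th (fun k => ar D lam Xr sg (D.q - k)) (D.q - w)
  set a2 := th (fun k => ar D lam Xr sg (D.q - k)) D.q
  rw [abs_le] at h1 h2
  have p1 : 0 < b2 / a2 := by linarith [h2.1]
  have n3 : b2 ≠ 0 := by
    intro h0
    rw [h0, zero_div] at p1
    exact lt_irrefl _ p1
  refine ⟨(b1 / a1) / (b2 / a2), ?_, ?_, ?_⟩
  · rw [le_div_iff₀ p1]
    linarith [h1.1, h2.2]
  · rw [div_le_iff₀ p1]
    linarith [h1.2, h2.1]
  · field_simp

theorem SaH.th_ne (h : SaH D lam1 lam Xr sg) {u u' v v' : ℝ} (hu : u ∈ Icc (-1 : ℝ) 1)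
    (hu' : u' ∈ Icc (-1 : ℝ) 1) (hv : v ∈ Icc (-1 : ℝ) 1) (hv' : v' ∈ Icc (-1 : ℝ) 1) :
    th (fun k => cf D lam Xr sg u u' v v' (D.q - k)) D.q ≠ 0 := by
  have hq := h.ref.hq
  have hb : ∀ n, 1 ≤ n → n < D.q → 2 ≤ ‖(fun k => cf D lam Xr sg u u' v v' (D.q - k)) n‖ := by
    intro n h3 h4
    exact h.cf_two hu hu' hv hv' _ (by omega) (by omega)
  have := th_one_le hb D.q (by omega) le_rfl
  intro h0
  rw [h0, norm_zero] at this
  linarith

/-- the difference at the well -/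
theorem SaH.dw (h : SaH D lam1 lam Xr sg) {u u' v : ℝ} (hu : u ∈ Icc (-1 : ℝ) 1)
    (hu' : u' ∈ Icc (-1 : ℝ) 1) (hv : v ∈ Icc (-1 : ℝ) 1) {w : ℕ}
    (hw : w < D.q) : ∃ ρ : ℝ, 1 / 2 ≤ ρ ∧ ρ ≤ 2 ∧
      xs D lam Xr sg w u u' - xs D lam Xr sg w v u' = sg * (u - v) * (ρ * r0 D lam Xr sg w) := by
  obtain ⟨ρ, h1, h2, h3⟩ := h.ratio_w hu hu' hv hu' hw
  refine ⟨ρ, h1, h2, ?_⟩
  have hr := h.recu hu hu' hv hu'
  have hq : (fun n => xs D lam Xr sg n u u' - xs D lam Xr sg n v u') D.q = 0 := by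
    show xs D lam Xr sg D.q u u' - xs D lam Xr sg D.q v u' = 0
    rw [h.xq hu hu', h.xq hv hu', sub_self]
  have h4 := sageo_left hr hq hw.le
  have h5 : (xs D lam Xr sg w u u' - xs D lam Xr sg w v u') *
      th (fun k => cf D lam Xr sg u u' v u' (D.q - k)) D.q =
      (xs D lam Xr sg 0 u u' - xs D lam Xr sg 0 v u') *
      th (fun k => cf D lam Xr sg u u' v u' (D.q - k)) (D.q - w) := h4
  rw [h.x0 hu hu', h.x0 hv hu'] at h5
  have hne := h.th_ne hu hu' hv hu'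
  rw [← h3]
  field_simp
  linarith

/-- decay to the left and to the right of the well -/
theorem SaH.dn_left (h : SaH D lam1 lam Xr sg) {u u' v : ℝ} (hu : u ∈ Icc (-1 : ℝ) 1)
    (hu' : u' ∈ Icc (-1 : ℝ) 1) (hv : v ∈ Icc (-1 : ℝ) 1) {w : ℕ}
    (hw : w < D.q) {n : ℕ} (hn : n ≤ w) :
    |xs D lam Xr sg n u u' - xs D lam Xr sg n v u'| ≤
      (lam + 4) ^ (w - n) * |xs D lam Xr sg w u u' - xs D lam Xr sg w v u'| := by
  have hr := h.recu hu hu' hv hu'
  have hl := h.lam_large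
  have hq : (fun n => xs D lam Xr sg n u u' - xs D lam Xr sg n v u') D.q = 0 := by
    show xs D lam Xr sg D.q u u' - xs D lam Xr sg D.q v u' = 0
    rw [h.xq hu hu', h.xq hv hu', sub_self]
  have h4 : (xs D lam Xr sg w u u' - xs D lam Xr sg w v u') *
      th (fun k => cf D lam Xr sg u u' v u' (D.q - k)) D.q =
      (xs D lam Xr sg 0 u u' - xs D lam Xr sg 0 v u') *
      th (fun k => cf D lam Xr sg u u' v u' (D.q - k)) (D.q - w) := sageo_left hr hq hw.le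
  have h5 : (xs D lam Xr sg n u u' - xs D lam Xr sg n v u') *
      th (fun k => cf D lam Xr sg u u' v u' (D.q - k)) D.q =
      (xs D lam Xr sg 0 u u' - xs D lam Xr sg 0 v u') *
      th (fun k => cf D lam Xr sg u u' v u' (D.q - k)) (D.q - n) := sageo_left hr hq (hn.trans hw.le)
  have hne := abs_pos.2 (h.th_ne hu hu' hv hu')
  have h6 := sapal_ge (B := fun k => cf D lam Xr sg u u' v u' (D.q - k)) (q := D.q) (L := lam + 4)
    (by linarith) (fun k hk1 hk2 => by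
      have := h.cf_upper u u' v u' (D.q - k)
      linarith) (fun k hk1 hk2 => h.cf_two hu hu' hv hu' _ (by omega) (by omega)) (n := D.q - w)
      (m := D.q - n) (by omega) (by omega) (Nat.sub_le _ _)
  rw [show D.q - n - (D.q - w) = w - n by omega] at h6
  have h7 := congrArg abs h4
  have h8 := congrArg abs h5
  rw [abs_mul, abs_mul] at h7 h8
  refine le_of_mul_le_mul_right ?_ hne
  rw [h8, mul_assoc, h7]
  calc _ ≤ |xs D lam Xr sg 0 u u' - xs D lam Xr sg 0 v u'| * ((lam + 4) ^ (w - n) *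
      |th (fun k => cf D lam Xr sg u u' v u' (D.q - k)) (D.q - w)|) := by gcongr
    _ = _ := by ring

theorem SaH.dn_right (h : SaH D lam1 lam Xr sg) {u u' v : ℝ} (hu : u ∈ Icc (-1 : ℝ) 1)
    (hu' : u' ∈ Icc (-1 : ℝ) 1) (hv : v ∈ Icc (-1 : ℝ) 1) {w : ℕ}
    {n : ℕ} (hn : w ≤ n) (hnq : n ≤ D.q) :
    |xs D lam Xr sg n u u' - xs D lam Xr sg n v u'| ≤
      (25 / lam) ^ (n - w) * |xs D lam Xr sg w u u' - xs D lam Xr sg w v u'| := by
  have hr := h.recu hu hu' hv hu'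
  have hl := h.lam_large
  have hl0 : 0 < lam := by linarith
  have hq : (fun n => xs D lam Xr sg n u u' - xs D lam Xr sg n v u') D.q = 0 := by
    show xs D lam Xr sg D.q u u' - xs D lam Xr sg D.q v u' = 0
    rw [h.xq hu hu', h.xq hv hu', sub_self]
  have h4 : (xs D lam Xr sg w u u' - xs D lam Xr sg w v u') *
      th (fun k => cf D lam Xr sg u u' v u' (D.q - k)) D.q =
      (xs D lam Xr sg 0 u u' - xs D lam Xr sg 0 v u') *
      th (fun k => cf D lam Xr sg u u' v u' (D.q - k)) (D.q - w) := sageo_left hr hq (hn.trans hnq)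
  have h5 : (xs D lam Xr sg n u u' - xs D lam Xr sg n v u') *
      th (fun k => cf D lam Xr sg u u' v u' (D.q - k)) D.q =
      (xs D lam Xr sg 0 u u' - xs D lam Xr sg 0 v u') *
      th (fun k => cf D lam Xr sg u u' v u' (D.q - k)) (D.q - n) := sageo_left hr hq hnq
  have hne := abs_pos.2 (h.th_ne hu hu' hv hu')
  have h6 := sapal_le (B := fun k => cf D lam Xr sg u u' v u' (D.q - k)) (q := D.q) (x := 25 / lam)
    (by positivity) (fun k hk1 hk2 => h.cf_x hu hu' hv hu' _ (by omega) (by omega))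
      (fun k hk1 hk2 => h.cf_two hu hu' hv hu' _ (by omega) (by omega)) (n := D.q - n)
      (m := D.q - w) (by omega) (Nat.sub_le _ _)
  rw [show D.q - w - (D.q - n) = n - w by omega] at h6
  have h7 := congrArg abs h4
  have h8 := congrArg abs h5
  rw [abs_mul, abs_mul] at h7 h8
  refine le_of_mul_le_mul_right ?_ hne
  rw [h8, mul_assoc, h7]
  calc _ ≤ |xs D lam Xr sg 0 u u' - xs D lam Xr sg 0 v u'| * ((25 / lam) ^ (n - w) *
      |th (fun k => cf D lam Xr sg u u' v u' (D.q - k)) (D.q - w)|) := by gcongr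
    _ = _ := by ring

/-- dependence on the future -/
theorem SaH.fut (h : SaH D lam1 lam Xr sg) {u u' v' : ℝ} (hu : u ∈ Icc (-1 : ℝ) 1)
    (hu' : u' ∈ Icc (-1 : ℝ) 1) (hv' : v' ∈ Icc (-1 : ℝ) 1) {n : ℕ} (hn : n ≤ D.q) :
    |xs D lam Xr sg n u u' - xs D lam Xr sg n u v'| ≤ (25 / lam) ^ (D.q - n) * (|sg| * |u' - v'|) := by
  have hr := h.recu hu hu' hu hv'
  have hl := h.lam_large
  have hl0 : 0 < lam := by linarith
  have hq2 := h.ref.hq
  have h0 : (fun n => xs D lam Xr sg n u u' - xs D lam Xr sg n u v') 0 = 0 := by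
    show xs D lam Xr sg 0 u u' - xs D lam Xr sg 0 u v' = 0
    rw [h.x0 hu hu', h.x0 hu hv', sub_self]
  have h4 : (xs D lam Xr sg n u u' - xs D lam Xr sg n u v') *
      th (cf D lam Xr sg u u' u v') D.q =
      (xs D lam Xr sg D.q u u' - xs D lam Xr sg D.q u v') *
      th (cf D lam Xr sg u u' u v') n := sageo_right hr h0 hn
  have h6 := sapal_le (B := cf D lam Xr sg u u' u v') (q := D.q) (x := 25 / lam)
    (by positivity) (fun k hk1 hk2 => h.cf_x hu hu' hu hv' _ hk1 hk2)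
      (fun k hk1 hk2 => h.cf_two hu hu' hu hv' _ hk1 hk2) hn le_rfl
  have hne : 0 < |th (cf D lam Xr sg u u' u v') D.q| := by
    have hb : ∀ n, 1 ≤ n → n < D.q → 2 ≤ ‖cf D lam Xr sg u u' u v' n‖ := fun n h3 h4 =>
      h.cf_two hu hu' hu hv' _ h3 h4
    have := th_one_le hb D.q (by omega) le_rfl
    rw [Real.norm_eq_abs] at this
    linarith
  have h7 := congrArg abs h4
  rw [abs_mul, abs_mul, h.xq hu hu', h.xq hu hv'] at h7
  have e : Xr + sg * u' - (Xr + sg * v') = sg * (u' - v') := by ring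
  rw [e, abs_mul] at h7
  refine le_of_mul_le_mul_right ?_ hne
  rw [h7]
  calc _ ≤ |sg| * |u' - v'| * ((25 / lam) ^ (D.q - n) * |th (cf D lam Xr sg u u' u v') D.q|) := by
        gcongr
    _ = _ := by ring

end

end Pool.Agent.MP31f1e8.KLC
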