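import Pool.Agent.Lib.MP_31f1e8_mp.KLC.SaGeo

/-!
# KLC-SaHop: the barriers and the hopping product.
-/

namespace Pool.Agent.MP31f1e8.KLC

open Set

/-- constants of the barriers -/
noncomputable def kq (D : Dat) (lam Xr sg : ℝ) (w n : ℕ) : ℝ :=
  |lam * Real.cos (xs D lam Xr sg n 0 0) - lam * Real.cos (xs D lam Xr sg w 0 0)| - 4

/-- geometry of the reference sites -/
structure SaG (D : Dat) (lam1 lam Xr sg : ℝ) (w : ℕ) (Bo : Finset ℕ) : Prop where
  base : SaH D lam1 lam Xr sg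
  w1 : 1 ≤ w
  wq : w < D.q
  xw : D.xi w = Real.pi + 1 / 10
  good : ∀ n, 1 ≤ n → n < D.q → n ≠ w → -49 / 50 ≤ Real.cos (D.xi n)
  cr : -49 / 50 ≤ Real.cos Xr
  bo : ∀ n ∈ Bo, w < n ∧ n < D.q ∧ Real.cos (D.xi n) = 1

section

variable {D : Dat} {lam1 lam Xr sg : ℝ} {w : ℕ} {Bo : Finset ℕ}

theorem cos_diff (a b : ℝ) : |Real.cos a - Real.cos b| ≤ |a - b| := by
  have h : LipschitzWith 1 Real.cos := Real.lipschitzWith_cos
  simpa [Real.dist_eq] using h.dist_le_mul a b

theorem SaG.cos_near (h : SaG D lam1 lam Xr sg w Bo) {n : ℕ} (h1 : 1 ≤ n) (h2 : n < D.q) :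
    |lam * Real.cos (xs D lam Xr sg n 0 0) - lam * Real.cos (D.xi n)| ≤ 200 := by
  have hl := h.base.lam_large
  have hl0 : 0 < lam := by linarith
  have h3 := h.base.near zero_mem1 zero_mem1 h1 h2
  rw [← mul_sub, abs_mul, abs_of_pos hl0]
  calc lam * |Real.cos (xs D lam Xr sg n 0 0) - Real.cos (D.xi n)|
      ≤ lam * (200 / lam) := by
        have := (cos_diff (xs D lam Xr sg n 0 0) (D.xi n)).trans h3
        gcongr
    _ = 200 := by field_simp

theorem SaG.E0_le (h : SaG D lam1 lam Xr sg w Bo) :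
    lam * Real.cos (xs D lam Xr sg w 0 0) ≤ -(995 / 1000) * lam + 200 := by
  have hl := h.base.lam_large
  have h1 := (abs_le.1 (h.cos_near h.w1 h.wq)).2
  have h2 : Real.cos (D.xi w) ≤ -(995 / 1000) := by
    rw [h.xw, add_comm, Real.cos_add_pi]
    have := Real.one_sub_sq_div_two_le_cos (x := 1 / 10)
    norm_num at this ⊢
    linarith
  nlinarith

theorem SaG.kq_low (h : SaG D lam1 lam Xr sg w Bo) {n : ℕ} (h2 : n < D.q) (h3 : n ≠ w) :
    lam / 200 ≤ kq D lam Xr sg w n := by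
  have hl := h.base.lam_large
  have hE := h.E0_le
  have h4 : -49 / 50 * lam - 200 ≤ lam * Real.cos (xs D lam Xr sg n 0 0) := by
    rcases Nat.eq_zero_or_pos n with rfl | h1
    · rw [h.base.x0 zero_mem1 zero_mem1, mul_zero, add_zero]
      have := h.cr
      nlinarith
    · have h5 := (abs_le.1 (h.cos_near h1 h2)).1
      have h6 := h.good n h1 h2 h3
      nlinarith
  unfold kq
  have h7 := le_abs_self (lam * Real.cos (xs D lam Xr sg n 0 0) - lam * Real.cos (xs D lam Xr sg w 0 0))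
  linarith

theorem SaG.a_facts (h : SaG D lam1 lam Xr sg w Bo) {n : ℕ} (h1 : 1 ≤ n) (h2 : n < D.q) :
    lam / 22 ≤ |ar D lam Xr sg n| ∧ |ar D lam Xr sg n| ≤ lam + 2 := by
  rw [← ar_eq]
  exact ⟨h.base.cf_lower zero_mem1 zero_mem1 zero_mem1 zero_mem1 h1 h2, h.base.cf_upper _ _ _ _ _⟩

theorem SaG.bo_facts (h : SaG D lam1 lam Xr sg w Bo) {n : ℕ} (hn : n ∈ Bo) :
    lam - 198 ≤ |ar D lam Xr sg n| ∧ 1995 / 1000 * lam - 404 ≤ kq D lam Xr sg w n := by
  obtain ⟨h1, h2, h3⟩ := h.bo n hn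
  have hw := h.w1
  have h4 := (abs_le.1 (h.cos_near (n := n) (by omega) h2)).1
  rw [h3] at h4
  have hE := h.E0_le
  constructor
  · refine le_trans ?_ (le_abs_self _)
    unfold ar
    linarith
  · unfold kq
    have h7 := le_abs_self (lam * Real.cos (xs D lam Xr sg n 0 0) - lam * Real.cos (xs D lam Xr sg w 0 0))
    linarith

/-- factor of the site `n` -/
noncomputable def cn (D : Dat) (lam Xr sg : ℝ) (w n : ℕ) : ℝ :=
  (if n = w then 1 else (kq D lam Xr sg w n)⁻¹) * (|ar D lam Xr sg n| + 1) ^ 2 *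
    (if w < n then (|ar D lam Xr sg n| - 1)⁻¹ else 1)

theorem SaG.cn_le (h : SaG D lam1 lam Xr sg w Bo) {n : ℕ} (h1 : 1 ≤ n) (h2 : n < D.q) :
    0 ≤ cn D lam Xr sg w n ∧ cn D lam Xr sg w n ≤ if n ∈ Bo then 51 / 100 else (lam + 4) ^ 2 := by
  have hl := h.base.lam_large
  obtain ⟨a1, a2⟩ := h.a_facts h1 h2
  have hg : 0 ≤ (if n = w then 1 else (kq D lam Xr sg w n)⁻¹) ∧
      (if n = w then 1 else (kq D lam Xr sg w n)⁻¹) ≤ 1 := by
    split_ifs with hw
    · exact ⟨zero_le_one, le_refl _⟩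
    · have hk := h.kq_low h2 hw
      exact ⟨inv_nonneg.2 (by linarith), inv_le_one_of_one_le₀ (by linarith)⟩
  have hr : 0 ≤ (if w < n then (|ar D lam Xr sg n| - 1)⁻¹ else 1) ∧
      (if w < n then (|ar D lam Xr sg n| - 1)⁻¹ else 1) ≤ 1 := by
    split_ifs with hw
    · exact ⟨inv_nonneg.2 (by linarith), inv_le_one_of_one_le₀ (by linarith)⟩
    · exact ⟨zero_le_one, le_refl _⟩
  have ha : (|ar D lam Xr sg n| + 1) ^ 2 ≤ (lam + 4) ^ 2 :=
    pow_le_pow_left₀ (by positivity) (by linarith) 2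
  refine ⟨by unfold cn; exact mul_nonneg (mul_nonneg hg.1 (by positivity)) hr.1, ?_⟩
  split_ifs with hb
  · obtain ⟨b1, b2⟩ := h.bo_facts hb
    obtain ⟨b3, b4, -⟩ := h.bo n hb
    unfold cn
    rw [if_neg (by omega), if_pos b3]
    have hk0 : 0 < kq D lam Xr sg w n := by linarith
    have ha0 : 0 < |ar D lam Xr sg n| - 1 := by linarith
    rw [← div_eq_mul_inv, div_le_iff₀ ha0, inv_mul_le_iff₀ hk0]
    have h5 : (|ar D lam Xr sg n| + 1) ^ 2 ≤ (lam + 3) ^ 2 :=
      pow_le_pow_left₀ (by positivity) (by linarith) 2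
    have h6 : (1995 / 1000 * lam - 404) * (51 / 100 * (lam - 199)) ≤
        kq D lam Xr sg w n * (51 / 100 * (|ar D lam Xr sg n| - 1)) := by
      have : 0 ≤ 51 / 100 * (lam - 199) := by linarith
      apply mul_le_mul b2 _ this hk0.le
      linarith
    refine h5.trans (le_trans ?_ h6)
    nlinarith
  · unfold cn
    calc _ ≤ 1 * (lam + 4) ^ 2 * 1 := by
          have h7 : 0 ≤ (|ar D lam Xr sg n| + 1) ^ 2 := by positivity
          exact mul_le_mul (mul_le_mul hg.2 ha h7 zero_le_one) hr.2 hr.1 (by positivity)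
      _ = (lam + 4) ^ 2 := by ring

theorem SaG.prod_cn (h : SaG D lam1 lam Xr sg w Bo) :
    ∏ n ∈ Finset.Ico 1 D.q, cn D lam Xr sg w n ≤
      (lam + 4) ^ (2 * (D.q - Bo.card)) * (51 / 100) ^ Bo.card := by
  have hl := h.base.lam_large
  have hsub : Bo ⊆ Finset.Ico 1 D.q := by
    intro n hn
    obtain ⟨h1, h2, -⟩ := h.bo n hn
    exact Finset.mem_Ico.2 ⟨by omega, h2⟩
  have hcard : Bo.card ≤ D.q - 1 := by
    have := Finset.card_le_card hsub
    rwa [Nat.card_Ico] at this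
  calc ∏ n ∈ Finset.Ico 1 D.q, cn D lam Xr sg w n
      ≤ ∏ n ∈ Finset.Ico 1 D.q, (if n ∈ Bo then 51 / 100 else (lam + 4) ^ 2) := by
        refine Finset.prod_le_prod (fun n hn => ?_) fun n hn => ?_
        · rw [Finset.mem_Ico] at hn
          exact (h.cn_le hn.1 hn.2).1
        · rw [Finset.mem_Ico] at hn
          exact (h.cn_le hn.1 hn.2).2
    _ = (51 / 100) ^ Bo.card * ((lam + 4) ^ 2) ^ (D.q - 1 - Bo.card) := by
        rw [Finset.prod_ite, Finset.prod_const, Finset.prod_const]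
        have e1 : (Finset.Ico 1 D.q).filter (fun n => n ∈ Bo) = Bo := by
          ext n
          rw [Finset.mem_filter]
          exact ⟨fun hn => hn.2, fun hn => ⟨hsub hn, hn⟩⟩
        have e2 : ((Finset.Ico 1 D.q).filter (fun n => n ∉ Bo)).card = D.q - 1 - Bo.card := by
          have h3 := Finset.card_filter_add_card_filter_not (s := Finset.Ico 1 D.q) (fun n => n ∈ Bo)
          rw [e1, Nat.card_Ico] at h3
          omega
        rw [e1, e2]
    _ ≤ (51 / 100) ^ Bo.card * (lam + 4) ^ (2 * (D.q - Bo.card)) := by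
        rw [← pow_mul]
        gcongr
        · linarith
        · omega
    _ = _ := by ring

/-- the hopping bound -/
theorem SaG.hop (h : SaG D lam1 lam Xr sg w Bo) {kap : ℝ}
    (hsg : 1 ≤ lam * |sg| * |th (ar D lam Xr sg) D.q|)
    (hk : (lam + 4) ^ (2 * (D.q - Bo.card)) * (51 / 100) ^ Bo.card ≤ kap) :
    ∏ n ∈ (Finset.range D.q).erase w, (kq D lam Xr sg w n)⁻¹ ≤
      kap * (lam * |r0 D lam Xr sg w| * |sg|) := by
  have hl := h.base.lam_large
  have hl0 : 0 < lam := by linarith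
  have hwq := h.wq
  have hw1 := h.w1
  -- the products
  set P1 := ∏ n ∈ Finset.Ico 1 D.q, (|ar D lam Xr sg n| + 1) with hP1
  set P2 := ∏ n ∈ Finset.Ico (w + 1) D.q, (|ar D lam Xr sg n| - 1) with hP2
  set G := ∏ n ∈ Finset.Ico 1 D.q, (if n = w then 1 else (kq D lam Xr sg w n)⁻¹) with hG
  have ha : ∀ n, 1 ≤ n → n < D.q → 2 ≤ |ar D lam Xr sg n| := by
    intro n h1 h2
    have := (h.a_facts h1 h2).1
    linarith
  have hP1pos : 0 < P1 := Finset.prod_pos fun n hn => by positivity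
  have hP2pos : 0 < P2 := Finset.prod_pos fun n hn => by
    rw [Finset.mem_Ico] at hn
    have := ha n (by omega) hn.2
    linarith
  -- product of the factors
  have hcn : ∏ n ∈ Finset.Ico 1 D.q, cn D lam Xr sg w n = G * P1 ^ 2 * P2⁻¹ := by
    unfold cn
    rw [Finset.prod_mul_distrib, Finset.prod_mul_distrib, Finset.prod_pow]
    congr 1
    rw [← Finset.prod_Ico_consecutive _ (show 1 ≤ w + 1 by omega) (show w + 1 ≤ D.q by omega)]
    have e1 : ∏ n ∈ Finset.Ico 1 (w + 1), (if w < n then (|ar D lam Xr sg n| - 1)⁻¹ else 1) = 1 := by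
      refine Finset.prod_eq_one fun n hn => ?_
      rw [Finset.mem_Ico] at hn
      rw [if_neg (by omega)]
    have e2 : ∏ n ∈ Finset.Ico (w + 1) D.q, (if w < n then (|ar D lam Xr sg n| - 1)⁻¹ else 1) = P2⁻¹ := by
      rw [hP2, ← Finset.prod_inv_distrib]
      refine Finset.prod_congr rfl fun n hn => ?_
      rw [Finset.mem_Ico] at hn
      rw [if_pos (by omega)]
    rw [e1, e2, one_mul]
  have hGle : G ≤ kap * (P2 / P1 ^ 2) := by
    have h1 := h.prod_cn.trans hk
    rw [hcn] at h1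
    rw [mul_div_assoc', le_div_iff₀ (by positivity)]
    rwa [← div_eq_mul_inv, div_le_iff₀ hP2pos] at h1
  -- the erased product
  have hLHS : ∏ n ∈ (Finset.range D.q).erase w, (kq D lam Xr sg w n)⁻¹ ≤ G := by
    have e1 : ∏ n ∈ (Finset.range D.q).erase w, (kq D lam Xr sg w n)⁻¹ =
        ∏ n ∈ Finset.range D.q, (if n = w then 1 else (kq D lam Xr sg w n)⁻¹) := by
      rw [← Finset.mul_prod_erase (Finset.range D.q) _ (Finset.mem_range.2 hwq), if_pos rfl, one_mul]
      refine Finset.prod_congr rfl fun n hn => ?_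
      rw [if_neg (Finset.ne_of_mem_erase hn)]
    rw [e1, Finset.range_eq_Ico, ← Finset.prod_Ico_consecutive _ (show 0 ≤ 1 by omega)
      (show 1 ≤ D.q by omega)]
    have e2 : Finset.Ico 0 1 = {0} := rfl
    rw [e2, Finset.prod_singleton, if_neg (by omega)]
    have hk0 := h.kq_low (n := 0) (by omega) (by omega)
    have h2 : (kq D lam Xr sg w 0)⁻¹ ≤ 1 := inv_le_one_of_one_le₀ (by linarith)
    have h3 : 0 ≤ G := Finset.prod_nonneg fun n hn => by
      rw [Finset.mem_Ico] at hn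
      split_ifs with hnw
      · exact zero_le_one
      · have := h.kq_low hn.2 hnw
        exact inv_nonneg.2 (by linarith)
    exact mul_le_of_le_one_left h3 h2
  have hkap : 0 ≤ kap := le_trans (by positivity) hk
  refine hLHS.trans (hGle.trans (mul_le_mul_of_nonneg_left ?_ hkap))
  -- lower bound of lam * tau * |sg|
  have hth := (sapal_prod (B := ar D lam Xr sg) (q := D.q) ha (show 1 ≤ D.q by omega) le_rfl).2
  have hps := (sapal_prod (B := fun k => ar D lam Xr sg (D.q - k)) (q := D.q) (fun n h1 h2 =>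
    ha _ (by omega) (by omega)) (show 1 ≤ D.q - w by omega) (Nat.sub_le _ _)).1
  have hps2 : P2 ≤ |th (fun k => ar D lam Xr sg (D.q - k)) (D.q - w)| := by
    refine le_of_eq_of_le ?_ hps
    rw [hP2]
    refine Finset.prod_bij (fun n _ => D.q - n) ?_ ?_ ?_ ?_
    · intro n hn
      rw [Finset.mem_Ico] at hn ⊢
      omega
    · intro a ha b hb hab
      rw [Finset.mem_Ico] at ha hb
      omega
    · intro k hk
      rw [Finset.mem_Ico] at hk
      exact ⟨D.q - k, Finset.mem_Ico.2 ⟨by omega, by omega⟩, by omega⟩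
    · intro n hn
      rw [Finset.mem_Ico] at hn
      show |ar D lam Xr sg n| - 1 = |ar D lam Xr sg (D.q - (D.q - n))| - 1
      rw [show D.q - (D.q - n) = n by omega]
  have hthpos : 0 < |th (ar D lam Xr sg) D.q| := by
    by_contra hcon
    have h0 : |th (ar D lam Xr sg) D.q| = 0 := le_antisymm (not_lt.1 hcon) (abs_nonneg _)
    rw [h0, mul_zero] at hsg
    linarith
  have hr : |r0 D lam Xr sg w| = |th (fun k => ar D lam Xr sg (D.q - k)) (D.q - w)| /
      |th (ar D lam Xr sg) D.q| := by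
    unfold r0
    rw [abs_div, sapal_full]
  have h5 : 1 / |th (ar D lam Xr sg) D.q| ≤ lam * |sg| := by
    rw [div_le_iff₀ hthpos]
    linarith
  calc P2 / P1 ^ 2 ≤ |th (fun k => ar D lam Xr sg (D.q - k)) (D.q - w)| /
        |th (ar D lam Xr sg) D.q| ^ 2 := by
        apply div_le_div₀ (abs_nonneg _) hps2 (by positivity)
        gcongr
    _ = |r0 D lam Xr sg w| * (1 / |th (ar D lam Xr sg) D.q|) := by
        rw [hr]
        field_simp
    _ ≤ |r0 D lam Xr sg w| * (lam * |sg|) := by gcongr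
    _ = _ := by ring

end

end Pool.Agent.MP31f1e8.KLC
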