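import Pool.Agent.Lib.MP_31f1e8_mp.KLC.Cont

/-!
# KLC-SaPal: continuants read backwards, products.
-/

namespace Pool.Agent.MP31f1e8.KLC

open Set

theorem sapal_rev {K : Type*} [CommRing K] (B : ℕ → K) (q : ℕ) :
    ∀ m, m ≤ q → th (fun k => B (q - k)) m = th (fun k => B (q - m + k)) m := by
  have key : ∀ m, m + 2 ≤ q → th (fun k => B (q - (m + 2) + k)) (m + 2) =
      B (q - (m + 1)) * th (fun k => B (q - (m + 1) + k)) (m + 1) - th (fun k => B (q - m + k)) m := by
    intro m hm
    obtain ⟨n, hn⟩ : ∃ n, n = q - (m + 2) := ⟨_, rfl⟩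
    have e0 : q - (m + 2) = n := hn.symm
    have e1 : q - (m + 1) = n + 1 := by omega
    have e2 : q - m = n + 2 := by omega
    have eq : n + (m + 2) = q := by omega
    have eq1 : n + 1 + (m + 1) = q := by omega
    have eq2 : n + 2 + m = q := by omega
    rw [e0, e1, e2, ← si_th, ← si_th, ← si_th, eq, eq1, eq2]
    have h1 : si B (n + 2) = B (n + 1) * si B (n + 1) - si B n := rfl
    have h2 : th B (n + 2) = B (n + 1) * th B (n + 1) - th B n := rfl
    rw [h1, h2]
    ring
  intro m
  induction m using Nat.strong_induction_on with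
  | _ m ih =>
    intro hm
    match m, ih, hm with
    | 0, _, _ => rfl
    | 1, _, _ => rfl
    | (m + 2), ih, hm =>
      rw [key m hm, ← ih (m + 1) (by omega) (by omega), ← ih m (by omega) (by omega)]
      rfl

theorem sapal_full {K : Type*} [CommRing K] (B : ℕ → K) (q : ℕ) :
    th (fun k => B (q - k)) q = th B q := by
  rw [sapal_rev B q q le_rfl]
  refine congrFun (congrArg th ?_) q
  funext k
  rw [Nat.sub_self, zero_add]

/-- decay of the continuants -/
theorem sapal_le {B : ℕ → ℝ} {q : ℕ} {x : ℝ} (hx : 0 < x) (hB : ∀ n, 1 ≤ n → n < q → 1 + 1 / x ≤ |B n|)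
    (hB2 : ∀ n, 1 ≤ n → n < q → 2 ≤ |B n|) {n m : ℕ} (hnm : n ≤ m) (hm : m ≤ q) :
    |th B n| ≤ x ^ (m - n) * |th B m| := by
  induction m, hnm using Nat.le_induction with
  | base => simp
  | succ m hnm ih =>
    rcases Nat.eq_zero_or_pos m with h0 | h0
    · have hn0 : n = 0 := by omega
      rw [hn0]
      show |(0 : ℝ)| ≤ _
      rw [abs_zero]
      positivity
    · have h1 := (th_step (B := B) (q := q) (by simpa [Real.norm_eq_abs] using hB2) m h0 (by omega)).1
      rw [Real.norm_eq_abs, Real.norm_eq_abs, Real.norm_eq_abs] at h1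
      have h2 := hB m h0 (by omega)
      have h3 : |th B m| ≤ x * |th B (m + 1)| := by
        have h4 : 1 / x * |th B m| ≤ |th B (m + 1)| := by
          refine le_trans ?_ h1
          gcongr
          linarith
        rw [div_mul_eq_mul_div, one_mul, div_le_iff₀ hx] at h4
        linarith
      rw [show m + 1 - n = (m - n) + 1 by omega, pow_succ]
      calc |th B n| ≤ x ^ (m - n) * |th B m| := ih (by omega)
        _ ≤ x ^ (m - n) * (x * |th B (m + 1)|) := by gcongr
        _ = _ := by ring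

/-- growth of the continuants -/
theorem sapal_ge {B : ℕ → ℝ} {q : ℕ} {L : ℝ} (hL : 0 ≤ L) (hB : ∀ n, 1 ≤ n → n < q → |B n| + 1 ≤ L)
    (hB2 : ∀ n, 1 ≤ n → n < q → 2 ≤ |B n|) {n m : ℕ} (hn : 1 ≤ n) (hnm : n ≤ m) (hm : m ≤ q) :
    |th B m| ≤ L ^ (m - n) * |th B n| := by
  induction m, hnm using Nat.le_induction with
  | base => simp
  | succ m hnm ih =>
    have h1 := (th_step (B := B) (q := q) (by simpa [Real.norm_eq_abs] using hB2) m (by omega)
      (by omega)).2
    rw [Real.norm_eq_abs, Real.norm_eq_abs, Real.norm_eq_abs] at h1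
    have h2 := hB m (by omega) (by omega)
    rw [show m + 1 - n = (m - n) + 1 by omega, pow_succ]
    calc |th B (m + 1)| ≤ (|B m| + 1) * |th B m| := h1
      _ ≤ L * (L ^ (m - n) * |th B n|) := by
        have := ih (by omega)
        gcongr
      _ = _ := by ring

/-- product bounds -/
theorem sapal_prod {B : ℕ → ℝ} {q : ℕ} (hB2 : ∀ n, 1 ≤ n → n < q → 2 ≤ |B n|) {m : ℕ} (hm1 : 1 ≤ m)
    (hm : m ≤ q) : ∏ n ∈ Finset.Ico 1 m, (|B n| - 1) ≤ |th B m| ∧
      |th B m| ≤ ∏ n ∈ Finset.Ico 1 m, (|B n| + 1) := by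
  induction m, hm1 using Nat.le_induction with
  | base =>
    have : th B 1 = 1 := rfl
    simp [this]
  | succ m hm1 ih =>
    have h1 := th_step (B := B) (q := q) (by simpa [Real.norm_eq_abs] using hB2) m hm1 (by omega)
    rw [Real.norm_eq_abs, Real.norm_eq_abs, Real.norm_eq_abs] at h1
    obtain ⟨i1, i2⟩ := ih (by omega)
    rw [Finset.prod_Ico_succ_top hm1, Finset.prod_Ico_succ_top hm1]
    have h2 := hB2 m hm1 (by omega)
    constructor
    · refine le_trans ?_ h1.1
      rw [mul_comm]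
      gcongr
      linarith
    · refine h1.2.trans ?_
      rw [mul_comm (∏ n ∈ Finset.Ico 1 m, (|B n| + 1))]
      gcongr

end Pool.Agent.MP31f1e8.KLC
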