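import Pool.Agent.Lib.MP_31f1e8_mp.KLC.SaPal
import Pool.Agent.Lib.MP_31f1e8_mp.KLC.Rea
import Pool.Agent.Lib.MP_31f1e8_mp.KLC.Thr
import Pool.Agent.Lib.MP_31f1e8_mp.KLF.Sums

/-!
# KLC-SaX: the real sites `xs` of the cell, their differences.
-/

namespace Pool.Agent.MP31f1e8.KLC

open Set

/-- the real site `n` with the boundary values `Xr + sg u`, `Xr + sg u'` -/
noncomputable def xs (D : Dat) (lam Xr sg : ℝ) (n : ℕ) (u u' : ℝ) : ℝ :=
  (sol D lam ((Xr + sg * u : ℝ) : ℂ) ((Xr + sg * u' : ℝ) : ℂ) n).re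

/-- real divided difference of the sine -/
noncomputable def ddr (a b : ℝ) : ℝ := if a = b then Real.cos a else (Real.sin a - Real.sin b) / (a - b)

theorem ddr_cast (a b : ℝ) : dd (a : ℂ) (b : ℂ) = ((ddr a b : ℝ) : ℂ) := by
  unfold dd ddr
  by_cases h : a = b
  · rw [if_pos h, if_pos (by rw [h])]
    exact (Complex.ofReal_cos a).symm
  · rw [if_neg h, if_neg (fun h1 => h (by exact_mod_cast h1))]
    push_cast
    rfl

theorem ddr_self (a : ℝ) : ddr a a = Real.cos a := by simp [ddr]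

theorem ddr_mul (a b : ℝ) : Real.sin a - Real.sin b = ddr a b * (a - b) := by
  unfold ddr
  by_cases h : a = b
  · rw [if_pos h, h]
    ring
  · rw [if_neg h, div_mul_cancel₀]
    exact sub_ne_zero.2 h

theorem ddr_le (a b : ℝ) : |ddr a b| ≤ 1 := by
  unfold ddr
  split_ifs with h
  · exact Real.abs_cos_le_one a
  · rw [abs_div, div_le_one (abs_pos.2 (sub_ne_zero.2 h))]
    have := Real.lipschitzWith_sin.dist_le_mul a b
    simpa [Real.dist_eq] using this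

/-- hypotheses on the reference orbit -/
structure SaH (D : Dat) (lam1 lam Xr sg : ℝ) : Prop where
  ref : Ref D lam1
  hl : |lam - lam1| ≤ 1
  per : D.xi D.q = D.xi 0
  Xr0 : |Xr - D.xi 0| ≤ 1 / 4
  sg1 : lam * |sg| ≤ 1 / 1000

section

variable {D : Dat} {lam1 lam Xr sg : ℝ}

theorem SaH.lam_large (h : SaH D lam1 lam Xr sg) : 9 * 10 ^ 7 ≤ lam := KLC.lam_large h.ref h.hl

theorem SaH.sg_le (h : SaH D lam1 lam Xr sg) : |sg| ≤ 1 / 4 := by
  have h1 := h.lam_large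
  have h2 := h.sg1
  nlinarith [abs_nonneg sg]

theorem SaH.bd1 (h : SaH D lam1 lam Xr sg) {u : ℝ} (hu : u ∈ Icc (-1 : ℝ) 1) :
    |Xr + sg * u - D.xi 0| ≤ 1 / 2 := by
  have h1 := h.Xr0
  have h2 := h.sg_le
  have h3 : |u| ≤ 1 := abs_le.2 hu
  have h4 : |sg * u| ≤ 1 / 4 := by
    rw [abs_mul]
    nlinarith [abs_nonneg sg, abs_nonneg u]
  have e : Xr + sg * u - D.xi 0 = (Xr - D.xi 0) + sg * u := by ring
  rw [e]
  exact (abs_add_le _ _).trans (by linarith)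

theorem SaH.bd (h : SaH D lam1 lam Xr sg) {u u' : ℝ} (hu : u ∈ Icc (-1 : ℝ) 1) (hu' : u' ∈ Icc (-1 : ℝ) 1) :
    Bd D ((Xr + sg * u : ℝ) : ℂ) ((Xr + sg * u' : ℝ) : ℂ) := by
  constructor
  · rw [← Complex.ofReal_sub, Complex.norm_real, Real.norm_eq_abs]
    exact h.bd1 hu
  · rw [h.per, ← Complex.ofReal_sub, Complex.norm_real, Real.norm_eq_abs]
    exact h.bd1 hu'

theorem SaH.cast (h : SaH D lam1 lam Xr sg) {u u' : ℝ} (hu : u ∈ Icc (-1 : ℝ) 1)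
    (hu' : u' ∈ Icc (-1 : ℝ) 1) {n : ℕ} (hn : n ≤ D.q) :
    ((xs D lam Xr sg n u u' : ℝ) : ℂ) = sol D lam ((Xr + sg * u : ℝ) : ℂ) ((Xr + sg * u' : ℝ) : ℂ) n :=
  sol_real h.ref h.hl (h.bd hu hu') n hn

theorem SaH.x0 (h : SaH D lam1 lam Xr sg) {u u' : ℝ} (hu : u ∈ Icc (-1 : ℝ) 1)
    (hu' : u' ∈ Icc (-1 : ℝ) 1) : xs D lam Xr sg 0 u u' = Xr + sg * u := by
  have h1 := h.cast hu hu' (Nat.zero_le _)
  rw [(sol_spec h.ref h.hl (h.bd hu hu')).left] at h1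
  exact_mod_cast h1

theorem SaH.xq (h : SaH D lam1 lam Xr sg) {u u' : ℝ} (hu : u ∈ Icc (-1 : ℝ) 1)
    (hu' : u' ∈ Icc (-1 : ℝ) 1) : xs D lam Xr sg D.q u u' = Xr + sg * u' := by
  have h1 := h.cast hu hu' le_rfl
  rw [(sol_spec h.ref h.hl (h.bd hu hu')).right] at h1
  exact_mod_cast h1

theorem SaH.eqn (h : SaH D lam1 lam Xr sg) {u u' : ℝ} (hu : u ∈ Icc (-1 : ℝ) 1)
    (hu' : u' ∈ Icc (-1 : ℝ) 1) {n : ℕ} (hn : n + 2 ≤ D.q) :
    xs D lam Xr sg (n + 2) u u' + xs D lam Xr sg n u u' = 2 * xs D lam Xr sg (n + 1) u u' +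
      lam * Real.sin (xs D lam Xr sg (n + 1) u u') - 2 * Real.pi * D.m (n + 1) := by
  have h1 := (sol_spec h.ref h.hl (h.bd hu hu')).eq n hn
  rw [← h.cast hu hu' (show n + 2 ≤ D.q from hn), ← h.cast hu hu' (show n ≤ D.q by omega),
    ← h.cast hu hu' (show n + 1 ≤ D.q by omega)] at h1
  exact_mod_cast h1

theorem SaH.near (h : SaH D lam1 lam Xr sg) {u u' : ℝ} (hu : u ∈ Icc (-1 : ℝ) 1)
    (hu' : u' ∈ Icc (-1 : ℝ) 1) {n : ℕ} (h1 : 1 ≤ n) (h2 : n < D.q) :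
    |xs D lam Xr sg n u u' - D.xi n| ≤ 200 / lam := by
  have h3 := sol_near h.ref h.hl (h.bd hu hu') n h1 h2
  rw [← h.cast hu hu' h2.le, ← Complex.ofReal_sub, Complex.norm_real, Real.norm_eq_abs] at h3
  exact h3

theorem SaH.lip (h : SaH D lam1 lam Xr sg) {u u' v v' : ℝ} (hu : u ∈ Icc (-1 : ℝ) 1)
    (hu' : u' ∈ Icc (-1 : ℝ) 1) (hv : v ∈ Icc (-1 : ℝ) 1) (hv' : v' ∈ Icc (-1 : ℝ) 1) {n : ℕ}
    (hn : n ≤ D.q) :
    |xs D lam Xr sg n u u' - xs D lam Xr sg n v v'| ≤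
      (44 / lam) ^ n * (|sg| * |u - v|) + (44 / lam) ^ (D.q - n) * (|sg| * |u' - v'|) := by
  have h3 := sol_lip h.ref h.hl h.hl (h.bd hu hu') (h.bd hv hv') n hn
  rw [← h.cast hu hu' hn, ← h.cast hv hv' hn, ← Complex.ofReal_sub, Complex.norm_real,
    Real.norm_eq_abs, ← Complex.ofReal_sub, ← Complex.ofReal_sub, Complex.norm_real, Complex.norm_real,
    Real.norm_eq_abs, Real.norm_eq_abs, sub_self, abs_zero, mul_zero, mul_zero, add_zero] at h3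
  have e1 : Xr + sg * u - (Xr + sg * v) = sg * (u - v) := by ring
  have e2 : Xr + sg * u' - (Xr + sg * v') = sg * (u' - v') := by ring
  rw [e1, e2, abs_mul, abs_mul] at h3
  exact h3

/-- the coefficients of the difference equation -/
noncomputable def cf (D : Dat) (lam Xr sg u u' v v' : ℝ) (n : ℕ) : ℝ :=
  2 + lam * ddr (xs D lam Xr sg n u u') (xs D lam Xr sg n v v')

theorem SaH.recu (h : SaH D lam1 lam Xr sg) {u u' v v' : ℝ} (hu : u ∈ Icc (-1 : ℝ) 1)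
    (hu' : u' ∈ Icc (-1 : ℝ) 1) (hv : v ∈ Icc (-1 : ℝ) 1) (hv' : v' ∈ Icc (-1 : ℝ) 1) :
    Rec (cf D lam Xr sg u u' v v') 0 D.q (fun n => xs D lam Xr sg n u u' - xs D lam Xr sg n v v') := by
  intro n hn
  have h1 := h.eqn hu hu' hn
  have h2 := h.eqn hv hv' hn
  have h3 := ddr_mul (xs D lam Xr sg (n + 1) u u') (xs D lam Xr sg (n + 1) v v')
  show (xs D lam Xr sg (n + 2) u u' - xs D lam Xr sg (n + 2) v v') +
    (xs D lam Xr sg n u u' - xs D lam Xr sg n v v') =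
    (2 + lam * ddr (xs D lam Xr sg (n + 1) u u') (xs D lam Xr sg (n + 1) v v')) *
    (xs D lam Xr sg (n + 1) u u' - xs D lam Xr sg (n + 1) v v') + 0
  have h4 : lam * Real.sin (xs D lam Xr sg (n + 1) u u') - lam * Real.sin (xs D lam Xr sg (n + 1) v v') =
      lam * (ddr (xs D lam Xr sg (n + 1) u u') (xs D lam Xr sg (n + 1) v v') *
        (xs D lam Xr sg (n + 1) u u' - xs D lam Xr sg (n + 1) v v')) := by rw [← h3]; ring
  linear_combination h1 - h2 + h4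

theorem SaH.cf_lower (h : SaH D lam1 lam Xr sg) {u u' v v' : ℝ} (hu : u ∈ Icc (-1 : ℝ) 1)
    (hu' : u' ∈ Icc (-1 : ℝ) 1) (hv : v ∈ Icc (-1 : ℝ) 1) (hv' : v' ∈ Icc (-1 : ℝ) 1) {n : ℕ}
    (h1 : 1 ≤ n) (h2 : n < D.q) : lam / 22 ≤ |cf D lam Xr sg u u' v v' n| := by
  have h3 := coef_sol h.ref h.hl (sol_spec h.ref h.hl (h.bd hu hu')) (sol_spec h.ref h.hl (h.bd hv hv')) n h1 h2
  rw [← h.cast hu hu' h2.le, ← h.cast hv hv' h2.le, ddr_cast] at h3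
  have e : (2 + (lam : ℂ) * ((ddr (xs D lam Xr sg n u u') (xs D lam Xr sg n v v') : ℝ) : ℂ)) =
      ((cf D lam Xr sg u u' v v' n : ℝ) : ℂ) := by
    unfold cf
    push_cast
    rfl
  rw [e, Complex.norm_real, Real.norm_eq_abs] at h3
  exact h3

theorem SaH.cf_upper (h : SaH D lam1 lam Xr sg) (u u' v v' : ℝ) (n : ℕ) :
    |cf D lam Xr sg u u' v v' n| ≤ lam + 2 := by
  have hl := h.lam_large
  unfold cf
  have h1 := ddr_le (xs D lam Xr sg n u u') (xs D lam Xr sg n v v')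
  rw [abs_le] at h1 ⊢
  constructor <;> nlinarith [h1.1, h1.2]

/-- the reference coefficients -/
noncomputable def ar (D : Dat) (lam Xr sg : ℝ) (n : ℕ) : ℝ := 2 + lam * Real.cos (xs D lam Xr sg n 0 0)

theorem ar_eq (D : Dat) (lam Xr sg : ℝ) (n : ℕ) : cf D lam Xr sg 0 0 0 0 n = ar D lam Xr sg n := by
  unfold cf ar
  rw [ddr_self]

theorem zero_mem1 : (0 : ℝ) ∈ Icc (-1 : ℝ) 1 := by constructor <;> norm_num

theorem SaH.ar_AA (h : SaH D lam1 lam Xr sg) {n : ℕ} (hn : n ≤ D.q) :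
    AA D lam (Xr : ℂ) (Xr : ℂ) n = ((ar D lam Xr sg n : ℝ) : ℂ) := by
  have h1 := h.cast zero_mem1 zero_mem1 hn
  rw [mul_zero, add_zero] at h1
  unfold AA ar
  rw [← h1]
  push_cast
  rfl

/-- the coefficients are close to the reference -/
theorem SaH.cf_near (h : SaH D lam1 lam Xr sg) {u u' v v' : ℝ} (hu : u ∈ Icc (-1 : ℝ) 1)
    (hu' : u' ∈ Icc (-1 : ℝ) 1) (hv : v ∈ Icc (-1 : ℝ) 1) (hv' : v' ∈ Icc (-1 : ℝ) 1) {n : ℕ}
    (hn : n ≤ D.q) : |cf D lam Xr sg u u' v v' n - ar D lam Xr sg n| ≤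
      6 / 5 * lam * |sg| * ((44 / lam) ^ n + (44 / lam) ^ (D.q - n)) := by
  have hl := h.lam_large
  have hl0 : 0 < lam := by linarith
  obtain ⟨r, hr⟩ : ∃ r, r = |sg| * ((44 / lam) ^ n + (44 / lam) ^ (D.q - n)) := ⟨_, rfl⟩
  have hp0 : 0 ≤ (44 / lam) ^ n := by positivity
  have hp1 : 0 ≤ (44 / lam) ^ (D.q - n) := by positivity
  have key : ∀ u ∈ Icc (-1 : ℝ) 1, ∀ u' ∈ Icc (-1 : ℝ) 1,
      |xs D lam Xr sg n u u' - xs D lam Xr sg n 0 0| ≤ r := by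
    intro u hu u' hu'
    have h1 := h.lip hu hu' zero_mem1 zero_mem1 hn
    rw [sub_zero, sub_zero] at h1
    have h2 : |u| ≤ 1 := abs_le.2 hu
    have h3 : |u'| ≤ 1 := abs_le.2 hu'
    refine h1.trans ?_
    rw [hr]
    have h4 : |sg| * |u| ≤ |sg| := by nlinarith [abs_nonneg sg]
    have h5 : |sg| * |u'| ≤ |sg| := by nlinarith [abs_nonneg sg]
    calc _ ≤ (44 / lam) ^ n * |sg| + (44 / lam) ^ (D.q - n) * |sg| := by gcongr
      _ = _ := by ring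
  have hx1 : 44 / lam ≤ 1 := by
    rw [div_le_one hl0]
    linarith
  have hr2 : r ≤ 1 / 2 := by
    have h1 : (44 / lam) ^ n ≤ 1 := pow_le_one₀ (by positivity) hx1
    have h2 : (44 / lam) ^ (D.q - n) ≤ 1 := pow_le_one₀ (by positivity) hx1
    have h3 := h.sg_le
    rw [hr]
    nlinarith [abs_nonneg sg]
  have h1 := dd_near (a := ((xs D lam Xr sg n u u' : ℝ) : ℂ)) (b := ((xs D lam Xr sg n v v' : ℝ) : ℂ))
    (x := xs D lam Xr sg n 0 0) hr2 (by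
      rw [← Complex.ofReal_sub, Complex.norm_real, Real.norm_eq_abs]
      exact key u hu u' hu') (by
      rw [← Complex.ofReal_sub, Complex.norm_real, Real.norm_eq_abs]
      exact key v hv v' hv')
  rw [ddr_cast, ← Complex.ofReal_sub, Complex.norm_real, Real.norm_eq_abs] at h1
  have e : cf D lam Xr sg u u' v v' n - ar D lam Xr sg n =
      lam * (ddr (xs D lam Xr sg n u u') (xs D lam Xr sg n v v') - Real.cos (xs D lam Xr sg n 0 0)) := by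
    unfold cf ar
    ring
  rw [e, abs_mul, abs_of_pos hl0]
  calc _ ≤ lam * (6 / 5 * r) := by gcongr
    _ = _ := by rw [hr]; ring

theorem SaH.cf_sum (h : SaH D lam1 lam Xr sg) {u u' v v' : ℝ} (hu : u ∈ Icc (-1 : ℝ) 1)
    (hu' : u' ∈ Icc (-1 : ℝ) 1) (hv : v ∈ Icc (-1 : ℝ) 1) (hv' : v' ∈ Icc (-1 : ℝ) 1) :
    ∑ n ∈ Finset.Ico 1 D.q, |cf D lam Xr sg u u' v v' n - ar D lam Xr sg n| ≤ 1 := by
  have hl := h.lam_large
  have hl0 : 0 < lam := by linarith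
  have h0 : 0 ≤ 44 / lam := by positivity
  have h1 : 44 / lam ≤ 1 / 2 := by
    rw [div_le_div_iff₀ hl0 (by norm_num)]
    linarith
  have g1 := KLF.geo1' h0 h1 D.q
  have g2 := KLF.geo2 h0 h1 D.q
  calc _ ≤ ∑ n ∈ Finset.Ico 1 D.q, 6 / 5 * lam * |sg| * ((44 / lam) ^ n + (44 / lam) ^ (D.q - n)) := by
        refine Finset.sum_le_sum fun n hn => ?_
        rw [Finset.mem_Ico] at hn
        exact h.cf_near hu hu' hv hv' hn.2.le
    _ = 6 / 5 * lam * |sg| * (∑ n ∈ Finset.Ico 1 D.q, (44 / lam) ^ n +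
          ∑ n ∈ Finset.Ico 1 D.q, (44 / lam) ^ (D.q - n)) := by
        rw [← Finset.sum_add_distrib, Finset.mul_sum]
    _ ≤ 6 / 5 * lam * |sg| * (2 * (44 / lam) + 2 * (44 / lam)) := by gcongr
    _ ≤ 1 := by
      have h2 := h.sg1
      have h3 : 0 ≤ lam * |sg| := by positivity
      nlinarith

end

end Pool.Agent.MP31f1e8.KLC
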