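import Pool.Agent.Lib.MP_31f1e8_mp.KLC.Ex
import Pool.Agent.Lib.MP_31f1e8_mp.KLC.Maxp
import Pool.Agent.Lib.MP_31f1e8_mp.KLC.Cont

/-!
# KLC-Un: differences of solutions, uniqueness, Lipschitz dependence on `X`, `X'`, `lam`.

PROOFS.
* `diff_rec`: subtract the two equations, `dd_mul`.
* `sol_unique`: same data, `diff_rec` with `lam = lam'`: forcing `0`; coefficients `≥ lam / 22 ≥ 4` (`coef_lower` with `x = D.xi n`, the two points are within `1/1000` of it), boundary values `0`: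
  `maxp_zero` gives `0` for `n ≤ q`. (A solution is only determined for `n ≤ q`.)
* `sol_spec`: `sol` is defined by choice, `exists_sol`. `sol_near`: `exists_sol` and uniqueness.
* `sol_lip`: `diff_rec`, `maxp` with `β = lam / 22`, `F = 6/5 * |lam - lam'|` (`norm_sin_le`: `|Im| ≤ 1/1000`).
* `coef_sol`: `coef_lower`.
-/

namespace Pool.Agent.MP31f1e8.KLC

open Set

theorem diff_rec {D : Dat} {lam lam' : ℝ} {X X' Y Y' : ℂ} {x y : ℕ → ℂ} (hx : Sol D lam X X' x) (hy : Sol D lam' Y Y' y) :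
    Rec (fun n => 2 + lam * dd (x n) (y n)) (fun n => (lam - lam') * Complex.sin (y n)) D.q (fun n => x n - y n) := by
  intro n hn
  have h1 := hx.eq n hn
  have h2 := hy.eq n hn
  have h3 := dd_mul (x (n + 1)) (y (n + 1))
  show x (n + 2) - y (n + 2) + (x n - y n) = (2 + lam * dd (x (n + 1)) (y (n + 1))) * (x (n + 1) - y (n + 1))
    + (lam - lam') * Complex.sin (y (n + 1))
  linear_combination h1 - h2 + (lam : ℂ) * h3

theorem lam_large {D : Dat} {lam1 lam : ℝ} (h : Ref D lam1) (hl : |lam - lam1| ≤ 1) : 9 * 10 ^ 7 ≤ lam := by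
  have := h.hlam
  have := abs_le.1 hl
  norm_num at *
  linarith

theorem coef_sol {D : Dat} {lam1 lam : ℝ} (h : Ref D lam1) (hl : |lam - lam1| ≤ 1) {lam' : ℝ} {X X' Y Y' : ℂ} {x y : ℕ → ℂ}
    (hx : Sol D lam X X' x) (hy : Sol D lam' Y Y' y) : ∀ n, 1 ≤ n → n < D.q → lam / 22 ≤ ‖2 + lam * dd (x n) (y n)‖ := by
  intro n hn1 hn2
  have h1 := lam_large h hl
  refine coef_lower (x := D.xi n) (by norm_num at *; linarith) (h.cos n hn1 hn2) ?_ ?_
  · exact (hx.near n hn1 hn2).trans (by norm_num)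
  · exact (hy.near n hn1 hn2).trans (by norm_num)

theorem sol_unique {D : Dat} {lam1 lam : ℝ} (h : Ref D lam1) (hl : |lam - lam1| ≤ 1) {X X' : ℂ} {x y : ℕ → ℂ}
    (hx : Sol D lam X X' x) (hy : Sol D lam X X' y) : ∀ n ≤ D.q, x n = y n := by
  intro n hn
  have h1 := lam_large h hl
  have h2 : Rec (fun n => 2 + lam * dd (x n) (y n)) 0 D.q (fun n => x n - y n) := by
    have h3 := diff_rec hx hy
    have h4 : (fun n => ((lam : ℂ) - lam) * Complex.sin (y n)) = 0 := by
      funext n; simp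
    rwa [h4] at h3
  have h5 := maxp_zero (β := lam / 22) (by norm_num at *; linarith) (coef_sol h hl hx hy) h2 n hn
  simp only [hx.left, hy.left, hx.right, hy.right, sub_self, norm_zero, mul_zero, add_zero] at h5
  exact sub_eq_zero.1 (norm_le_zero_iff.1 h5)

theorem sol_spec {D : Dat} {lam1 lam : ℝ} (h : Ref D lam1) (hl : |lam - lam1| ≤ 1) {X X' : ℂ} (hb : Bd D X X') :
    Sol D lam X X' (sol D lam X X') := by
  have hex : ∃ x, Sol D lam X X' x := by
    obtain ⟨x, hx, _⟩ := exists_sol h hl hb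
    exact ⟨x, hx⟩
  unfold sol
  rw [dif_pos hex]
  exact hex.choose_spec

theorem sol_eq {D : Dat} {lam1 lam : ℝ} (h : Ref D lam1) (hl : |lam - lam1| ≤ 1) {X X' : ℂ} {x : ℕ → ℂ}
    (hx : Sol D lam X X' x) (hb : Bd D X X') : ∀ n ≤ D.q, sol D lam X X' n = x n := by
  exact sol_unique h hl (sol_spec h hl hb) hx

theorem sol_near {D : Dat} {lam1 lam : ℝ} (h : Ref D lam1) (hl : |lam - lam1| ≤ 1) {X X' : ℂ} (hb : Bd D X X') :
    ∀ n, 1 ≤ n → n < D.q → ‖sol D lam X X' n - D.xi n‖ ≤ 200 / lam := by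
  intro n hn1 hn2
  obtain ⟨x, hx, hx2⟩ := exists_sol h hl hb
  rw [sol_eq h hl hx hb n hn2.le]
  exact hx2 n hn1 hn2

theorem sol_lip {D : Dat} {lam1 lam lam' : ℝ} (h : Ref D lam1) (hl : |lam - lam1| ≤ 1) (hl' : |lam' - lam1| ≤ 1) {X X' Y Y' : ℂ}
    (hb : Bd D X X') (hb' : Bd D Y Y') : ∀ n ≤ D.q,
      ‖sol D lam X X' n - sol D lam' Y Y' n‖ ≤
        (44 / lam) ^ n * ‖X - Y‖ + (44 / lam) ^ (D.q - n) * ‖X' - Y'‖ + 44 / lam * (6 / 5 * |lam - lam'|) := by
  intro n hn
  have h1 := lam_large h hl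
  have hs := sol_spec h hl hb
  have hs' := sol_spec h hl' hb'
  have h0 : (0 : ℝ) < lam := by norm_num at *; linarith
  have h2 := maxp (β := lam / 22) (F := 6 / 5 * |lam - lam'|) (by norm_num at *; linarith)
    (coef_sol h hl hs hs') (by positivity) (by
      intro k hk1 hk2
      rw [norm_mul]
      have h3 : ‖((lam : ℂ) - lam')‖ = |lam - lam'| := by
        rw [← Complex.ofReal_sub, Complex.norm_real, Real.norm_eq_abs]
      have h4 : |(sol D lam' Y Y' k).im| ≤ 1 / 2 := by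
        have h5 := hs'.near k hk1 hk2
        have h6 : |(sol D lam' Y Y' k - D.xi k).im| ≤ ‖sol D lam' Y Y' k - D.xi k‖ :=
          Complex.abs_im_le_norm _
        rw [Complex.sub_im, Complex.ofReal_im, sub_zero] at h6
        linarith
      have h7 := norm_sin_le h4
      rw [h3, mul_comm]
      exact mul_le_mul_of_nonneg_right h7 (abs_nonneg _)) (diff_rec hs hs') n hn
  have h8 : 2 / (lam / 22) = 44 / lam := by
    field_simp
    norm_num
  rw [h8] at h2
  simp only [hs.left, hs'.left, hs.right, hs'.right] at h2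
  exact h2

/-- the difference formula -/
theorem sol_diff {D : Dat} {lam1 lam : ℝ} (h : Ref D lam1) (hl : |lam - lam1| ≤ 1) {X X' Y Y' : ℂ} (hb : Bd D X X') (hb' : Bd D Y Y') :
    ∀ n ≤ D.q, th (fun k => 2 + lam * dd (sol D lam X X' k) (sol D lam Y Y' k)) D.q * (sol D lam X X' n - sol D lam Y Y' n) =
      (X - Y) * th (fun k => 2 + lam * dd (sol D lam X X' (n + k)) (sol D lam Y Y' (n + k))) (D.q - n) +
        (X' - Y') * th (fun k => 2 + lam * dd (sol D lam X X' k) (sol D lam Y Y' k)) n := by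
  intro n hn
  have hs := sol_spec h hl hb
  have hs' := sol_spec h hl hb'
  have h2 : Rec (fun n => 2 + lam * dd (sol D lam X X' n) (sol D lam Y Y' n)) 0 D.q
      (fun n => sol D lam X X' n - sol D lam Y Y' n) := by
    have h3 := diff_rec hs hs'
    have h4 : (fun n => ((lam : ℂ) - lam) * Complex.sin (sol D lam Y Y' n)) = 0 := by
      funext n; simp
    rwa [h4] at h3
  have h5 := rec_solve h2 hn
  simp only [hs.left, hs'.left, hs.right, hs'.right] at h5
  exact h5

end Pool.Agent.MP31f1e8.KLC
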